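import Pool.Agent.Lib.MP_424d38_an.ES.SpecG

/-!
# MP_424d38_an, block TH (mass threshold `17.9`), part A: the slice inequality

Paper: /team-store/MP_424d38_an_THRESHOLD.md.  Module `XXX` = file `Pool/Agent/Lib/MP_424d38_an/TH/XXX.lean`, theorem
`specXXX (hYYY : SpecYYY) .. : SpecXXX` in namespace `Pool.Agent.Lib.MP424d38.TH` (own lemmas in `..TH.XXXM`).
Any other Spec may be taken as a hypothesis as long as no circle arises (the docstring names the intended ones).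
All theorems `TY.aXXX` (Pool/Agent/Lib/MP_424d38_an/All.lean) and `ES.bXXX` (ES/AllES.lean) are proved: take the Specs
`TY.SpecXXX`, `ES.SpecXXX` as hypotheses (do not import `All`, `AllES`), and reuse lemmas of the single files.

`T(h) = Im ∫ conj(|D|h)|h|²h` for a slice `h ∈ H¹(ℝ)`, `f = |ĥ|`.  With the variables `ξ₁ = x+v`, `ξ₂ = y+v`, `ξ₃ = y`, `ξ₄ = x`
of the hyperplane `ξ₁+ξ₃ = ξ₂+ξ₄`.
-/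

set_option autoImplicit false

open MeasureTheory Filter Topology Set
open scoped ENNReal ContDiff ComplexConjugate FourierTransform

noncomputable section

namespace Pool.Agent.Lib.MP424d38.TH

open Pool.Agent.Lib.MP424d38.TY Pool.Agent.Lib.MP424d38.ES

/-- the constant of the slice inequality; only `FIX` needs its value (and the last module: `358/10·c0 < 4π²`). -/
def c0 : ℝ := 551 / 500

/-- `conj F(ξ₁) F(ξ₄) conj F(ξ₃) F(ξ₂)`, `z = (v, x, y)`. -/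
def Q4 (F : ℝ → ℂ) (z : ℝ × ℝ × ℝ) : ℂ :=
  conj (F (z.2.1 + z.1)) * F z.2.1 * conj (F z.2.2) * F (z.2.2 + z.1)

/-- `|ξ₁| + |ξ₃| - |ξ₂| - |ξ₄|`. -/
def Sg (z : ℝ × ℝ × ℝ) : ℝ := |z.2.1 + z.1| + |z.2.2| - |z.2.2 + z.1| - |z.2.1|

/-- the product of the four values. -/
def P4 (g : ℝ → ℝ≥0∞) (z : ℝ × ℝ × ℝ) : ℝ≥0∞ := g (z.2.1 + z.1) * g z.2.1 * (g z.2.2 * g (z.2.2 + z.1))

/-- the weight `α((x+v)₊ - x₊) + α⁻¹(v - ((x+v)₊ - x₊))`; for `v > 0` it is `αv` for `x ≥ 0`, `α⁻¹v` for `x ≤ -v`, and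
`α(v-y) + α⁻¹y` for `x = -y`, `0 ≤ y ≤ v`. -/
def wt (α v x : ℝ) : ℝ := α * (max (x + v) 0 - max x 0) + α⁻¹ * (v - (max (x + v) 0 - max x 0))

/-- `η(h) = ρY - pX`, `Y = ∫l|l||ĥ|²`, `X = ∫|l||ĥ|²`. -/
def et (h : L2R) : ℝ :=
  sp (fun _ => 1) h * sp (fun l => l * |l|) h - sp (fun l => l) h * sp (fun l => |l|) h

/-- REP (Fourier representation of the quartic form).  Hypotheses ES.SpecMX1.
Proof.  `F = 𝓕h ∈ L¹ ∩ L²`: `∫|F| ≤ (∫(1+l²)|F|²)^{1/2}(∫(1+l²)⁻¹dξ)^{1/2}`; so `h(b) = ∫F(ξ)e^{2πiξb}dξ` for a.e. `b`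
(`ES/BRN.lean`: `fourierInv_toLp_ae`).  `K = 𝓕k = |2πξ|F ∈ L²`.  In `∫conj(k)h·conj(h)·h db` replace the last two factors by their
Fourier integrals `∫conj(F(y))e^{-2πiyb}dy`, `∫F(x)e^{2πixb}dx`; Fubini (`conj(k)h ∈ L¹`, `F ∈ L¹`):
`= ∬conj(F(y))F(x)[∫conj(k(b))h(b)e^{2πi(x-y)b}db]dx dy`, and by Parseval the inner integral is `∫conj(K(ξ))F(ξ-(x-y))dξ`
(`e^{2πi(x-y)b}h(b)` has the transform `F(ξ-(x-y))`); substitute `ξ = x+v`: `F(y+v)`.  (Compare `ES/ORT.lean`, which does this.)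
Integrability: `∭|K(x+v)||F(x)||F(y)||F(y+v)| ≤ ‖F‖₁²‖K‖₂‖F‖₂` (Cauchy-Schwarz in `v`, translation invariance).
`F` is strongly measurable (`Lp.stronglyMeasurable`). -/
def SpecREP : Prop := ∀ h k : L2R, E1 h → IsM (fun l => |l|) h k →
  Integrable (fun z : ℝ × ℝ × ℝ => ((|2 * Real.pi * (z.2.1 + z.1)| : ℝ) : ℂ) * Q4 (𝓕 h : L2R) z) ∧
  (∫ b, conj (k b) * (((‖h b‖ ^ 2 : ℝ) : ℂ) * h b))
    = ∫ z : ℝ × ℝ × ℝ, ((|2 * Real.pi * (z.2.1 + z.1)| : ℝ) : ℂ) * Q4 (𝓕 h : L2R) z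

/-- SYM (symmetrisation).  No hypotheses.
Proof.  The maps `s₁(v,x,y) = (y-x, x, x+v)` (exchange of `ξ₁, ξ₃`) and `s₂(v,x,y) = (v, y, x)` (exchange of `(ξ₁,ξ₄)` with `(ξ₂,ξ₃)`) preserve
the volume (linear, determinant `±1`; or compositions of shears and permutations), `Q4 ∘ s₁ = Q4`, `Q4 ∘ s₂ = conj Q4`.
With `I = ∫2π|ξ₁|Q4`: `I = ∫2π|ξ₃|Q4` (`s₁`: `ξ₁ ∘ s₁ = y`), and `conj I = ∫2π|ξ₁|conj Q4 = ∫2π|ξ₂|Q4 = ∫2π|ξ₄|Q4` (`s₂`: `ξ₁ ∘ s₂ = y+v`,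
`ξ₃ ∘ s₂ = x`), all integrable.  So `4i Im I = 2I - 2 conj I = 2π∫Sg·Q4`, `|Im I| ≤ (π/2)∫|Sg||Q4|`. -/
def SpecSYM : Prop := ∀ F : ℝ → ℂ, Measurable F →
  Integrable (fun z : ℝ × ℝ × ℝ => ((|2 * Real.pi * (z.2.1 + z.1)| : ℝ) : ℂ) * Q4 F z) →
  ENNReal.ofReal |(∫ z : ℝ × ℝ × ℝ, ((|2 * Real.pi * (z.2.1 + z.1)| : ℝ) : ℂ) * Q4 F z).im|
    ≤ ENNReal.ofReal (Real.pi / 2) *
      ∫⁻ z : ℝ × ℝ × ℝ, ENNReal.ofReal |Sg z| * P4 (fun ξ => ENNReal.ofReal ‖F ξ‖) z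

/-- FOL (folding).  No hypotheses.
Proof.  `A = {|x-y| ≤ |v|}`, `B` the complement.  `s₃(v,x,y) = (x-y, y+v, y)` (exchange of `ξ₂, ξ₄`) preserves the volume, `Sg` and `P4`
are invariant, and it maps `B` into `A` (`v' = x-y`, `x'-y' = v`): `∫_B = ∫_{s₃(B)} ≤ ∫_A`, so the total is at most `2∫_A`.
`s₄(v,x,y) = (-v, x+v, y+v)` (exchange of `(ξ₁,ξ₂)` with `(ξ₄,ξ₃)`) preserves the volume, `|Sg|`, `P4` and `A`, and exchanges `v < 0` and `v > 0`;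
`{v = 0}` is a null set (and `Sg = 0` there): `∫_A = 2∫_{A, v>0}`. -/
def SpecFOL : Prop := ∀ g : ℝ → ℝ≥0∞, Measurable g →
  (∫⁻ z : ℝ × ℝ × ℝ, ENNReal.ofReal |Sg z| * P4 g z)
    ≤ 4 * ∫⁻ v in Ioi (0 : ℝ), ∫⁻ x, ∫⁻ y in {y : ℝ | |x - y| ≤ v}, ENNReal.ofReal |Sg (v, x, y)| * P4 g (v, x, y)

/-- FIX (the inequality for fixed `v`).  No hypotheses.
Proof.  `|x+v| - |x| = v + 2cl(x)`, `cl(x) = max(-v, min(x, 0))`, so `Sg(v,x,y) = 2(cl(x) - cl(y))`.  Regions: `x > 0` (right, `E₊(t) = E(t)`),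
`-v < x < 0` (inside, `H(y) = E(-y)`, `0 < y < v`), `x < -v` (left, `E₋(t) = E(-v-t)`).  The kernel vanishes for right-right and left-left;
right-left is excluded by `|x-y| ≤ v`.  By symmetry the left side is at most
`2∬_{(0,v)²}|y-y'|H(y)H(y') + 4∬_{t>0,y>0,t+y≤v} yH(y)E₊(t) + 4∬_{0<t≤y<v}(v-y)H(y)E₋(t)`.
(i) `2|y-y'|H(y)H(y') ≤ |y-y'|(α⁻¹H(y)² + αH(y')²)` for `y' < y`; both orders together:
`2∬|y-y'|HH' = 4∬_{y'<y} ≤ 2∬_{y'<y}(y-y')(α⁻¹H(y)² + αH(y')²) = ∫(α⁻¹y² + α(v-y)²)H(y)²dy`.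
(ii) `2H E₊ ≤ τH² + τ⁻¹E₊²` with `τ(t) = (v-t)²/(c0 α v²)`: the `E₊(t)²` part is `2τ⁻¹∫_0^{v-t}y dy = τ⁻¹(v-t)² = c0 α v²`, the
`H(y)²` part `2y∫_0^{v-y}τ = 2y(v³-y³)/(3c0 α v²)`.
(iii) `2H E₋ ≤ τH² + τ⁻¹E₋²` with `τ(t) = α(v-t)²/(c0 v²)`: the `E₋(t)²` part is `2τ⁻¹∫_t^v(v-y)dy = c0 α⁻¹v²`, the `H(y)²` part
`2(v-y)∫_0^yτ = 2α(v-y)(v³-(v-y)³)/(3c0 v²)`.
The right side is `∫c0 v·αv E₊² + ∫c0 v·α⁻¹v E₋² + ∫c0 v(α(v-y) + α⁻¹y)H²`, so it remains to check (divide by `v²`, `s = y/v` and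
`s = 1-y/v`; the parts with `α⁻¹` and `α` separately) `s² + 2s(1-s³)/(3c0) ≤ c0 s` for `0 ≤ s ≤ 1`, i.e. `s + 2(1-s³)/(3c0) ≤ c0`, which holds
for `c0 = 1.102` (maximum at `s² = c0/2`, `s = 0.7423`: `1.0998`).  (All in `ℝ≥0∞`, Tonelli; if some `E` is `∞` nothing is to be
changed, `2ab ≤ τa² + τ⁻¹b²` holds in `ℝ≥0∞` for real `τ > 0`.) -/
def SpecFIX : Prop := ∀ (v α : ℝ) (E : ℝ → ℝ≥0∞), 0 < v → 0 < α → Measurable E →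
  (∫⁻ x, ∫⁻ y in {y : ℝ | |x - y| ≤ v}, ENNReal.ofReal |Sg (v, x, y)| * (E x * E y))
    ≤ ∫⁻ x, ENNReal.ofReal (c0 * v * wt α v x) * E x ^ 2

/-- RHS (the right side).  No hypotheses.
Proof.  `K(s,r) = (s-r)(α(s₊-r₊) + α⁻¹((s-r)-(s₊-r₊)))` is symmetric, nonnegative, `≤ (α+α⁻¹)(s-r)²`, and `v·wt α v x = K(x+v,x)`; so the
left side is `∫_{s>r}K q q = ½∬K q(s)q(r)`.  Integrals: with `ρ = ∫q`, `p = ∫ξq`, `e = ∫ξ²q`, `X = ∫|ξ|q`, `Y = ∫ξ|ξ|q` (all convergent),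
`∬(s-r)(s₊-r₊)qq = 2(ρ∫s s₊q - p∫s₊q) = ρ(e+Y) - p(p+X) = γ+η` (`s₊ = (s+|s|)/2`), `∬(s-r)²qq = 2γ`, so
`½∬Kqq = ½(α(γ+η) + α⁻¹(γ-η))`.  The integrands `(s-r)(s₊-r₊)` and `(s-r)((s-r)-(s₊-r₊))` are `≥ 0`, so `|η| ≤ γ`. -/
def SpecRHS : Prop := ∀ (q : ℝ → ℝ) (α : ℝ), Measurable q → (∀ ξ, 0 ≤ q ξ) →
  (Integrable fun ξ => (1 + ξ ^ 2) * q ξ) → 0 < α →
  let γ := (∫ ξ, q ξ) * (∫ ξ, ξ ^ 2 * q ξ) - (∫ ξ, ξ * q ξ) ^ 2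
  let η := (∫ ξ, q ξ) * (∫ ξ, ξ * |ξ| * q ξ) - (∫ ξ, ξ * q ξ) * (∫ ξ, |ξ| * q ξ)
  |η| ≤ γ ∧
  (∫⁻ v in Ioi (0 : ℝ), ∫⁻ x, ENNReal.ofReal (v * wt α v x) * ENNReal.ofReal (q (x + v) * q x))
    ≤ ENNReal.ofReal ((α * (γ + η) + α⁻¹ * (γ - η)) / 2)

/-- SLT (the slice inequality).  Hypotheses REP, SYM, FOL, FIX, RHS, ES.SpecMX1.
Proof.  `F = 𝓕h`, `g(ξ) = |F(ξ)|`, `E_v(x) = g(x+v)g(x)`: `P4 g (v,x,y) = E_v(x)E_v(y)`.  REP, SYM, FOL, FIX: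
`|T(h)| ≤ (π/2)·4·∫_{v>0}∫c0 v wt(α,v,x)|F(x+v)|²|F(x)|²`, RHS with `q = |F|²`: `≤ 2π c0 ½(α(γ'+η') + α⁻¹(γ'-η'))`, and
`gm h = 4π²γ'`, `et h = 4π²η'` (`l = 2πξ`). -/
def SpecSLT : Prop := ∀ h k : L2R, E1 h → IsM (fun l => |l|) h k → |et h| ≤ gm h ∧ ∀ α : ℝ, 0 < α →
  |(∫ b, conj (k b) * (((‖h b‖ ^ 2 : ℝ) : ℂ) * h b)).im|
    ≤ c0 / (4 * Real.pi) * (α * (gm h + et h) + α⁻¹ * (gm h - et h))

end Pool.Agent.Lib.MP424d38.TH
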