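import Mathlib
import Pool.Agent.Lib.MP_424d38_an.ES.SB1
import Pool.Agent.Lib.MP_424d38_an.ES.SpecH
import Pool.Agent.Lib.MP_424d38_an.ES.MTC
import Pool.Agent.Lib.MP_424d38_an.TH.SpecA

section
/-!
# MP_424d38_an, block LIN: Plancherel for functions in L1 and L2

`fourier_toLp_ae`: for `f` in L1 and L2 the L2 Fourier transform of `f` is the Fourier integral.
-/
set_option autoImplicit false

namespace Pool.Agent.Lib.MP_424d38_an.LIN

open MeasureTheory FourierTransform SchwartzMap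
open scoped ENNReal ContDiff

variable {E : Type*} [NormedAddCommGroup E] [InnerProductSpace ℝ E] [FiniteDimensional ℝ E]
  [MeasurableSpace E] [BorelSpace E]

theorem continuous_fourier {f : E → ℂ} (h1 : Integrable f) : Continuous (𝓕 f) :=
  VectorFourier.fourierIntegral_continuous Real.continuous_fourierChar
    (L := innerₗ E) continuous_inner h1

theorem fourier_toLp_ae {f : E → ℂ} (h1 : Integrable f) (h2 : MemLp f 2) :
    ((𝓕 (h2.toLp f) : Lp ℂ 2 (volume : Measure E)) : E → ℂ) =ᵐ[volume] 𝓕 f := by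
  apply ae_eq_of_integral_contDiff_smul_eq
  · exact (Lp.memLp _).locallyIntegrable one_le_two
  · exact (continuous_fourier h1).locallyIntegrable
  · intro g g_smooth g_cpt
    have hg₁ : HasCompactSupport (Complex.ofRealCLM ∘ g) := g_cpt.comp_left rfl
    have hg₂ : ContDiff ℝ ∞ (Complex.ofRealCLM ∘ g) := by fun_prop
    set G : 𝓢(E, ℂ) := hg₁.toSchwartzMap hg₂ with hG
    have hGx : ∀ x, G x = (g x : ℂ) := fun x => by simp [hG]
    have e1 : ∫ x, g x • ((𝓕 (h2.toLp f) : Lp ℂ 2 (volume : Measure E)) : E → ℂ) x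
        = Lp.toTemperedDistribution (𝓕 (h2.toLp f) : Lp ℂ 2 (volume : Measure E)) G := by
      rw [Lp.toTemperedDistribution_apply]
      refine integral_congr_ae (Filter.Eventually.of_forall fun x => ?_)
      simp only [hGx, Complex.real_smul, smul_eq_mul]
    have e2 : Lp.toTemperedDistribution (𝓕 (h2.toLp f) : Lp ℂ 2 (volume : Measure E)) G
        = Lp.toTemperedDistribution (h2.toLp f) (𝓕 G) := by
      have := DFunLike.congr_fun (Lp.fourier_toTemperedDistribution_eq (h2.toLp f)) G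
      rw [← this]
      rfl
    have e3 : Lp.toTemperedDistribution (h2.toLp f) (𝓕 G) = ∫ x, (𝓕 G) x • f x := by
      rw [Lp.toTemperedDistribution_apply]
      refine integral_congr_ae ?_
      filter_upwards [h2.coeFn_toLp] with x hx
      rw [hx]
    have e4 : ∫ x, (𝓕 (G : E → ℂ)) x • f x = ∫ x, (G x) • (𝓕 f) x := by
      simpa using! (VectorFourier.integral_fourierIntegral_smul_eq_flip (L := innerₗ E)
        Real.continuous_fourierChar continuous_inner G.integrable h1)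
    rw [e1, e2, e3]
    have e5 : ((𝓕 G : 𝓢(E, ℂ)) : E → ℂ) = 𝓕 (G : E → ℂ) := SchwartzMap.fourier_coe G
    rw [e5, e4]
    refine integral_congr_ae (Filter.Eventually.of_forall fun x => ?_)
    simp only [hGx, Complex.real_smul, smul_eq_mul]

theorem lintegral_fourier_sq {f : E → ℂ} (h1 : Integrable f) (h2 : MemLp f 2) :
    ∫⁻ x, ‖𝓕 f x‖ₑ ^ 2 = ∫⁻ x, ‖f x‖ₑ ^ 2 := by
  have hn : ‖(𝓕 (h2.toLp f) : Lp ℂ 2 (volume : Measure E))‖ₑ = ‖h2.toLp f‖ₑ := by
    rw [← ofReal_norm, ← ofReal_norm, Lp.norm_fourier_eq]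
  have key : ∀ (g : E → ℂ), eLpNorm g 2 volume ^ 2 = ∫⁻ x, ‖g x‖ₑ ^ 2 := by
    intro g
    rw [eLpNorm_eq_lintegral_rpow_enorm_toReal (by norm_num) (by norm_num)]
    rw [← ENNReal.rpow_natCast, ← ENNReal.rpow_mul]
    simp
  rw [← key, ← key]
  congr 1
  rw [← eLpNorm_congr_ae (fourier_toLp_ae h1 h2), ← eLpNorm_congr_ae h2.coeFn_toLp,
    ← Lp.enorm_def, ← Lp.enorm_def, hn]

end Pool.Agent.Lib.MP_424d38_an.LIN
end

section
/-!
# BRN: the Bernstein inequality, and the inversion formula for band limited functions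
-/
set_option autoImplicit false

open MeasureTheory Filter Topology Set
open scoped ENNReal ContDiff ComplexConjugate FourierTransform

noncomputable section

namespace Pool.Agent.Lib.MP424d38.ES

open Pool.Agent.Lib.MP424d38.TY

namespace BRNM

/-- the `L²` inverse Fourier transform of a function in `L¹ ∩ L²` is the inverse Fourier integral -/
theorem fourierInv_toLp_ae {f : ℝ → ℂ} (h1 : Integrable f) (h2 : MemLp f 2) :
    ((𝓕⁻ (h2.toLp f) : L2R) : ℝ → ℂ) =ᵐ[volume] 𝓕⁻ f := by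
  have hc : Continuous (𝓕⁻ f) := by
    have h3 : (𝓕⁻ f) = fun x => 𝓕 f (-x) := funext fun x => Real.fourierInv_eq_fourier_neg f x
    rw [h3]
    exact (Pool.Agent.Lib.MP_424d38_an.LIN.continuous_fourier h1).comp continuous_neg
  apply ae_eq_of_integral_contDiff_smul_eq
  · exact (Lp.memLp _).locallyIntegrable one_le_two
  · exact hc.locallyIntegrable
  · intro g g_smooth g_cpt
    have hg₁ : HasCompactSupport (Complex.ofRealCLM ∘ g) := g_cpt.comp_left rfl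
    have hg₂ : ContDiff ℝ ∞ (Complex.ofRealCLM ∘ g) := by fun_prop
    set G : SchwartzMap ℝ ℂ := hg₁.toSchwartzMap hg₂ with hG
    have hGx : ∀ x, G x = (g x : ℂ) := fun x => by simp [hG]
    have e1 : ∫ x, g x • ((𝓕⁻ (h2.toLp f) : L2R) : ℝ → ℂ) x
        = Lp.toTemperedDistribution (𝓕⁻ (h2.toLp f) : L2R) G := by
      rw [Lp.toTemperedDistribution_apply]
      refine integral_congr_ae (Filter.Eventually.of_forall fun x => ?_)
      simp only [hGx, Complex.real_smul, smul_eq_mul]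
    have e2 : Lp.toTemperedDistribution (𝓕⁻ (h2.toLp f) : L2R) G
        = Lp.toTemperedDistribution (h2.toLp f) (𝓕⁻ G) := by
      have := DFunLike.congr_fun (Lp.fourierInv_toTemperedDistribution_eq (h2.toLp f)) G
      rw [← this]
      rfl
    have e3 : Lp.toTemperedDistribution (h2.toLp f) (𝓕⁻ G) = ∫ x, (𝓕⁻ G) x • f x := by
      rw [Lp.toTemperedDistribution_apply]
      refine integral_congr_ae ?_
      filter_upwards [h2.coeFn_toLp] with x hx
      rw [hx]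
    have h1' : Integrable fun x => f (-x) := h1.comp_neg
    have e4 : ∫ x, (𝓕 (G : ℝ → ℂ)) x • f (-x) = ∫ x, (G x) • (𝓕 fun x => f (-x)) x := by
      simpa using! (VectorFourier.integral_fourierIntegral_smul_eq_flip (L := innerₗ ℝ)
        Real.continuous_fourierChar continuous_inner G.integrable h1')
    have e5 : ((𝓕⁻ G : SchwartzMap ℝ ℂ) : ℝ → ℂ) = 𝓕⁻ (G : ℝ → ℂ) := SchwartzMap.fourierInv_coe G
    have e6 : ∫ x, (𝓕⁻ (G : ℝ → ℂ)) x • f x = ∫ x, (𝓕 (G : ℝ → ℂ)) x • f (-x) := by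
      rw [← integral_neg_eq_self]
      refine integral_congr_ae (Filter.Eventually.of_forall fun x => ?_)
      simp only [Real.fourierInv_eq_fourier_neg, neg_neg]
    rw [e1, e2, e3, e5, e6, e4]
    refine integral_congr_ae (Filter.Eventually.of_forall fun x => ?_)
    simp only [hGx, Complex.real_smul, smul_eq_mul]
    rw [Real.fourierInv_eq_fourier_comp_neg]

/-- the frequency set -/
theorem restrict_finite (A : ℝ) : IsFiniteMeasure
    ((volume : Measure ℝ).restrict {ξ : ℝ | |2 * Real.pi * ξ| ≤ A}) := by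
  refine ⟨?_⟩
  rw [Measure.restrict_apply_univ]
  refine lt_of_le_of_lt (measure_mono (t := Icc (-(A / (2 * Real.pi))) (A / (2 * Real.pi))) ?_) ?_
  · intro ξ hξ
    have hp : 0 < 2 * Real.pi := by positivity
    have h1 : |2 * Real.pi * ξ| ≤ A := hξ
    rw [abs_le] at h1
    constructor
    · rw [neg_le, le_div_iff₀ hp]
      nlinarith
    · rw [le_div_iff₀ hp]
      nlinarith
  · rw [Real.volume_Icc]
    exact ENNReal.ofReal_lt_top

theorem volume_freq {A : ℝ} (hA : 0 ≤ A) :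
    ((volume : Measure ℝ).real {ξ : ℝ | |2 * Real.pi * ξ| ≤ A}) ≤ A / Real.pi := by
  have hp : 0 < 2 * Real.pi := by positivity
  have hs : {ξ : ℝ | |2 * Real.pi * ξ| ≤ A} ⊆
      Icc (-(A / (2 * Real.pi))) (A / (2 * Real.pi)) := by
    intro ξ hξ
    have h1 : |2 * Real.pi * ξ| ≤ A := hξ
    rw [abs_le] at h1
    constructor
    · rw [neg_le, le_div_iff₀ hp]
      nlinarith
    · rw [le_div_iff₀ hp]
      nlinarith
  refine (measureReal_mono hs (by rw [Real.volume_Icc]; exact ENNReal.ofReal_ne_top)).trans ?_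
  rw [Real.volume_real_Icc_of_le (by
    have : 0 ≤ A / (2 * Real.pi) := by positivity
    linarith)]
  apply le_of_eq
  field_simp
  ring

theorem meas_freq (A : ℝ) : MeasurableSet {ξ : ℝ | |2 * Real.pi * ξ| ≤ A} :=
  measurableSet_le (measurable_const_mul _).abs measurable_const

/-- the Fourier transform of a band limited function is integrable -/
theorem integrable_of_bd {A : ℝ} {h : L2R} (hb : Bd A h) :
    Integrable ((𝓕 h : L2R) : ℝ → ℂ) := by
  have := restrict_finite A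
  have h1 : IntegrableOn ((𝓕 h : L2R) : ℝ → ℂ) {ξ : ℝ | |2 * Real.pi * ξ| ≤ A} :=
    ((Lp.memLp (𝓕 h : L2R)).restrict _).integrable one_le_two
  refine h1.integrable_of_ae_notMem_eq_zero ?_
  filter_upwards [hb] with ξ hξ h2
  exact hξ (not_le.1 h2)

/-- the inversion formula for band limited functions -/
theorem inversion {A : ℝ} {h : L2R} (hb : Bd A h) :
    (h : ℝ → ℂ) =ᵐ[volume] 𝓕⁻ ((𝓕 h : L2R) : ℝ → ℂ) := by
  have h1 := fourierInv_toLp_ae (integrable_of_bd hb) (Lp.memLp (𝓕 h : L2R))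
  rw [Lp.toLp_coeFn] at h1
  have e : (𝓕⁻ (𝓕 h : L2R) : L2R) = h := (Lp.fourierTransformₗᵢ ℝ ℂ).symm_apply_apply h
  rw [e] at h1
  exact h1

/-- Cauchy-Schwarz -/
theorem cs {A : ℝ} (hA : 0 ≤ A) {h : L2R} (hb : Bd A h) :
    (∫ ξ, ‖(𝓕 h : L2R) ξ‖) ^ 2 ≤ A / Real.pi * ‖h‖ ^ 2 := by
  have := restrict_finite A
  set S := {ξ : ℝ | |2 * Real.pi * ξ| ≤ A} with hS
  set F : ℝ → ℝ := fun ξ => ‖(𝓕 h : L2R) ξ‖ with hF
  have hFi : Integrable F := (integrable_of_bd hb).norm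
  have hFS : (∫ ξ, F ξ) = ∫ ξ in S, F ξ := by
    rw [← integral_indicator (meas_freq A)]
    refine integral_congr_ae ?_
    filter_upwards [hb] with ξ hξ
    by_cases h2 : ξ ∈ S
    · rw [indicator_of_mem h2]
    · rw [indicator_of_notMem h2, hF]
      simp only
      rw [hξ (not_le.1 h2), norm_zero]
  have hF2 : Integrable fun ξ => F ξ ^ 2 := MX1M.int_sq _
  have hQ : (∫ ξ in S, F ξ ^ 2) ≤ ‖h‖ ^ 2 := by
    rw [← Lp.norm_fourier_eq h, MX1M.norm_sq]
    exact setIntegral_le_integral hF2 (Eventually.of_forall fun ξ => by positivity)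
  set I := ∫ ξ in S, F ξ with hI
  set V := (volume : Measure ℝ).real S with hV
  have hV0 : 0 ≤ V := measureReal_nonneg
  have hVA : V ≤ A / Real.pi := volume_freq hA
  have key : ∀ t : ℝ, 0 ≤ V * (t * t) + (-2 * I) * t + ∫ ξ in S, F ξ ^ 2 := by
    intro t
    have h0 : 0 ≤ ∫ ξ in S, (F ξ - t) ^ 2 := integral_nonneg fun ξ => sq_nonneg _
    have e : (∫ ξ in S, (F ξ - t) ^ 2) = (∫ ξ in S, F ξ ^ 2) + (-2 * t) * I + t ^ 2 * V := by
      have e1 : (fun ξ => (F ξ - t) ^ 2) = fun ξ => F ξ ^ 2 + (-2 * t) * F ξ + t ^ 2 := by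
        funext ξ
        ring
      have i0 : Integrable (fun ξ => F ξ ^ 2) (volume.restrict S) := hF2.integrableOn
      have i1 : Integrable (fun ξ => (-2 * t) * F ξ) (volume.restrict S) :=
        hFi.integrableOn.const_mul _
      have i2 : Integrable (fun ξ => F ξ ^ 2 + (-2 * t) * F ξ) (volume.restrict S) := i0.add i1
      rw [e1, integral_add i2 (integrable_const _), integral_add i0 i1,
        integral_const_mul, setIntegral_const, smul_eq_mul]
      ring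
    rw [e] at h0
    linarith
  have hd := discrim_le_zero key
  unfold discrim at hd
  rw [hFS]
  have hQ0 : 0 ≤ ∫ ξ in S, F ξ ^ 2 := integral_nonneg fun ξ => sq_nonneg _
  have h3 : I ^ 2 ≤ V * ∫ ξ in S, F ξ ^ 2 := by nlinarith
  calc I ^ 2 ≤ V * ∫ ξ in S, F ξ ^ 2 := h3
    _ ≤ A / Real.pi * ‖h‖ ^ 2 := mul_le_mul hVA hQ hQ0 (by positivity)

/-- products of band limited functions -/
theorem prod {A B : ℝ} {u v : L2R} (hu : Bd A u) (hv : Bd B v) :
    ∃ w : L2R, (∀ᵐ b : ℝ, w b = u b * v b) ∧ Bd (A + B) w := by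
  set U : ℝ → ℂ := ((𝓕 u : L2R) : ℝ → ℂ) with hU
  set W : ℝ → ℂ := ((𝓕 v : L2R) : ℝ → ℂ) with hW
  have hUi : Integrable U := integrable_of_bd hu
  have hWi : Integrable W := integrable_of_bd hv
  set c : ℝ → ℂ := MeasureTheory.convolution U W (ContinuousLinearMap.mul ℂ ℂ) volume with hc
  have hcx : ∀ x, c x = ∫ t, U t * W (x - t) := fun x => by
    rw [hc, convolution_def]
    rfl
  have hci : Integrable c := hUi.integrable_convolution _ hWi
  have hU2 : Integrable fun ξ => ‖U ξ‖ ^ 2 := MX1M.int_sq _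
  have hW2 : Integrable fun ξ => ‖W ξ‖ ^ 2 := MX1M.int_sq _
  -- bounded
  have hcb : ∀ x, ‖c x‖ ≤ (∫ ξ, ‖U ξ‖ ^ 2) + ∫ ξ, ‖W ξ‖ ^ 2 := by
    intro x
    have hW2' : Integrable fun t => ‖W (x - t)‖ ^ 2 := hW2.comp_sub_left x
    rw [hcx]
    refine (norm_integral_le_integral_norm _).trans ?_
    have e2 : (∫ ξ, ‖W ξ‖ ^ 2) = ∫ t, ‖W (x - t)‖ ^ 2 :=
      (integral_sub_left_eq_self (fun t => ‖W t‖ ^ 2) volume x).symm
    rw [e2, ← integral_add hU2 hW2']
    refine integral_mono_of_nonneg (Eventually.of_forall fun t => norm_nonneg _)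
      (hU2.add hW2') (Eventually.of_forall fun t => ?_)
    simp only [norm_mul]
    nlinarith [sq_nonneg (‖U t‖ - ‖W (x - t)‖), sq_nonneg ‖U t‖, sq_nonneg ‖W (x - t)‖]
  have hc2 : MemLp c 2 volume := by
    rw [memLp_two_iff_integrable_sq_norm hci.aestronglyMeasurable]
    refine (hci.norm.const_mul ((∫ ξ, ‖U ξ‖ ^ 2) + ∫ ξ, ‖W ξ‖ ^ 2)).mono'
      (hci.aestronglyMeasurable.norm.pow 2) (Eventually.of_forall fun x => ?_)
    rw [Real.norm_of_nonneg (by positivity), sq]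
    exact mul_le_mul_of_nonneg_right (hcb x) (norm_nonneg _)
  refine ⟨𝓕⁻ (hc2.toLp c), ?_, ?_⟩
  · filter_upwards [fourierInv_toLp_ae hci hc2, inversion hu, inversion hv] with b h1 h2 h3
    rw [h1, h2, h3, Real.fourierInv_eq_fourier_neg, Real.fourierInv_eq_fourier_neg,
      Real.fourierInv_eq_fourier_neg]
    exact Real.fourier_mul_convolution_eq hUi hWi (-b)
  · have e : (𝓕 (𝓕⁻ (hc2.toLp c) : L2R) : L2R) = hc2.toLp c :=
      (Lp.fourierTransformₗᵢ ℝ ℂ).apply_symm_apply _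
    unfold Bd
    rw [e]
    filter_upwards [hc2.coeFn_toLp] with ξ h1 h2
    rw [h1, hcx]
    have hWx : ∀ᵐ t : ℝ, B < |2 * Real.pi * (ξ - t)| → W (ξ - t) = 0 :=
      (Measure.measurePreserving_sub_left volume ξ).quasiMeasurePreserving.ae hv
    refine integral_eq_zero_of_ae ?_
    filter_upwards [hu, hWx] with t h3 h4
    by_cases h5 : A < |2 * Real.pi * t|
    · change U t * W (ξ - t) = 0
      rw [hU, h3 h5, zero_mul]
    · change U t * W (ξ - t) = 0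
      rw [h4 ?_, mul_zero]
      push Not at h5
      have h6 : |2 * Real.pi * ξ| ≤ |2 * Real.pi * t| + |2 * Real.pi * (ξ - t)| := by
        have : 2 * Real.pi * ξ = 2 * Real.pi * t + 2 * Real.pi * (ξ - t) := by ring
        rw [this]
        exact abs_add_le _ _
      linarith

end BRNM

open BRNM in
theorem specBRN : SpecBRN := by
  intro A h hA hb
  constructor
  · have hm : AEStronglyMeasurable
        (fun ξ : ℝ => (2 * Real.pi * ξ) ^ 2 * ‖(𝓕 h : L2R) ξ‖ ^ 2) volume :=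
      ((measurable_const_mul (2 * Real.pi)).pow_const 2).aestronglyMeasurable.mul
        (MX1M.int_sq (𝓕 h : L2R)).aestronglyMeasurable
    refine ((MX1M.int_sq (𝓕 h : L2R)).const_mul (A ^ 2)).mono' hm ?_
    filter_upwards [hb] with ξ hξ
    rw [Real.norm_of_nonneg (by positivity)]
    by_cases h5 : A < |2 * Real.pi * ξ|
    · rw [hξ h5]
      simp
    · push Not at h5
      refine mul_le_mul_of_nonneg_right ?_ (by positivity)
      rw [← sq_abs (2 * Real.pi * ξ)]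
      exact pow_le_pow_left₀ (abs_nonneg _) h5 2
  · filter_upwards [inversion hb] with b h1
    rw [h1]
    have h2 : ‖𝓕⁻ ((𝓕 h : L2R) : ℝ → ℂ) b‖ ≤ ∫ ξ, ‖(𝓕 h : L2R) ξ‖ := by
      rw [Real.fourierInv_eq]
      refine (norm_integral_le_integral_norm _).trans (le_of_eq ?_)
      refine integral_congr_ae (Eventually.of_forall fun ξ => ?_)
      simp
    calc ‖𝓕⁻ ((𝓕 h : L2R) : ℝ → ℂ) b‖ ^ 2 ≤ (∫ ξ, ‖(𝓕 h : L2R) ξ‖) ^ 2 :=
          pow_le_pow_left₀ (norm_nonneg _) h2 2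
      _ ≤ A / Real.pi * ‖h‖ ^ 2 := cs hA hb

end Pool.Agent.Lib.MP424d38.ES
end
end

section
/-!
# Slices of functions in `L²(ℝ × ℝ)`
-/
set_option autoImplicit false

open MeasureTheory Filter Topology Set
open scoped ENNReal ContDiff ComplexConjugate FourierTransform

noncomputable section

namespace Pool.Agent.Lib.MP424d38.ES.PFXM

open Pool.Agent.Lib.MP424d38.TY

/-- `h` is the slice of `f` at `a`. -/
def Sl (f : L2) (a : ℝ) (h : L2R) : Prop := ∀ᵐ b : ℝ, h b = f (a, b)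

theorem eLpNorm_sq {α : Type*} [MeasurableSpace α] (μ : Measure α) (g : α → ℂ) :
    eLpNorm g 2 μ ^ 2 = ∫⁻ x, ‖g x‖ₑ ^ 2 ∂μ := by
  rw [eLpNorm_eq_lintegral_rpow_enorm_toReal (by norm_num) (by norm_num)]
  rw [← ENNReal.rpow_natCast, ← ENNReal.rpow_mul]
  simp

theorem ae_prod {p : ℝ × ℝ → Prop} (h : ∀ᵐ x : ℝ × ℝ, p x) : ∀ᵐ a : ℝ, ∀ᵐ b : ℝ, p (a, b) := by
  rw [Measure.volume_eq_prod] at h
  exact Measure.ae_ae_of_ae_prod h

theorem meas (f : L2) : Measurable (f : ℝ × ℝ → ℂ) := (Lp.stronglyMeasurable f).measurable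

theorem meas_sl (f : L2) (a : ℝ) : Measurable fun b => f (a, b) :=
  (meas f).comp measurable_prodMk_left

theorem enorm_sq1 (h : L2R) : ‖h‖ₑ ^ 2 = ∫⁻ b, ‖h b‖ₑ ^ 2 := by
  rw [Lp.enorm_def, eLpNorm_sq]

theorem enorm_sq2 (f : L2) : ‖f‖ₑ ^ 2 = ∫⁻ a, ∫⁻ b, ‖f (a, b)‖ₑ ^ 2 := by
  rw [Lp.enorm_def, eLpNorm_sq]
  exact lintegral_prod (μ := (volume : Measure ℝ)) (ν := (volume : Measure ℝ)) _
    ((meas f).enorm.pow_const 2).aemeasurable

theorem meas_int (f : L2) : Measurable fun a : ℝ => ∫⁻ b : ℝ, ‖f (a, b)‖ₑ ^ 2 :=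
  ((meas f).enorm.pow_const 2).lintegral_prod_right'

theorem Sl.enorm {f : L2} {a : ℝ} {h : L2R} (H : Sl f a h) :
    ‖h‖ₑ ^ 2 = ∫⁻ b, ‖f (a, b)‖ₑ ^ 2 := by
  rw [enorm_sq1]
  exact lintegral_congr_ae (H.mono fun b hb => by simp only [hb])

theorem Sl.unique {f : L2} {a : ℝ} {h k : L2R} (H : Sl f a h) (K : Sl f a k) : h = k := by
  apply Lp.ext
  filter_upwards [H, K] with b h1 h2
  rw [h1, h2]

theorem ae_lt (f : L2) : ∀ᵐ a : ℝ, ∫⁻ b, ‖f (a, b)‖ₑ ^ 2 < ⊤ := by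
  apply ae_lt_top (meas_int f)
  rw [← enorm_sq2]
  exact ENNReal.pow_ne_top enorm_ne_top

theorem exists_sl_of_lt {f : L2} {a : ℝ} (ha : ∫⁻ b, ‖f (a, b)‖ₑ ^ 2 < ⊤) :
    ∃ h : L2R, Sl f a h := by
  have hm : MemLp (fun b => f (a, b)) 2 := by
    refine ⟨(meas_sl f a).aestronglyMeasurable, ?_⟩
    rw [← eLpNorm_sq] at ha
    by_contra hc
    rw [not_lt, top_le_iff] at hc
    rw [hc] at ha
    simp at ha
  exact ⟨hm.toLp _, hm.coeFn_toLp⟩

theorem ae_sl (f : L2) : ∀ᵐ a : ℝ, ∃ h : L2R, Sl f a h :=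
  (ae_lt f).mono fun _ ha => exists_sl_of_lt ha

theorem sl_add (f g : L2) : ∀ᵐ a : ℝ, ∀ h k : L2R, Sl f a h → Sl g a k → Sl (f + g) a (h + k) := by
  filter_upwards [ae_prod (Lp.coeFn_add f g)] with a ha h k H K
  filter_upwards [ha, H, K, Lp.coeFn_add h k] with b h1 h2 h3 h4
  rw [h4, h1, Pi.add_apply, Pi.add_apply, h2, h3]

theorem sl_sub (f g : L2) : ∀ᵐ a : ℝ, ∀ h k : L2R, Sl f a h → Sl g a k → Sl (f - g) a (h - k) := by
  filter_upwards [ae_prod (Lp.coeFn_sub f g)] with a ha h k H K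
  filter_upwards [ha, H, K, Lp.coeFn_sub h k] with b h1 h2 h3 h4
  rw [h4, h1, Pi.sub_apply, Pi.sub_apply, h2, h3]

theorem sl_smul (c : ℂ) (f : L2) : ∀ᵐ a : ℝ, ∀ h : L2R, Sl f a h → Sl (c • f) a (c • h) := by
  filter_upwards [ae_prod (Lp.coeFn_smul c f)] with a ha h H
  filter_upwards [ha, H, Lp.coeFn_smul c h] with b h1 h2 h4
  rw [h4, h1, Pi.smul_apply, Pi.smul_apply, h2]

/-- for a.e. `a`, `T` maps the slice of `f` to the slice of `G`. -/
def Rel (T : L2R ≃ₗᵢ[ℂ] L2R) (f G : L2) : Prop :=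
  ∀ᵐ a : ℝ, ∀ h H : L2R, Sl f a h → Sl G a H → T h = H

theorem enorm_T (T : L2R ≃ₗᵢ[ℂ] L2R) (h : L2R) : ‖T h‖ₑ = ‖h‖ₑ := by
  rw [← ofReal_norm, ← ofReal_norm, T.norm_map]

theorem Rel.enorm {T : L2R ≃ₗᵢ[ℂ] L2R} {f G : L2} (hR : Rel T f G) : ‖G‖ₑ = ‖f‖ₑ := by
  have h1 : ‖G‖ₑ ^ 2 = ‖f‖ₑ ^ 2 := by
    rw [enorm_sq2, enorm_sq2]
    apply lintegral_congr_ae
    filter_upwards [hR, ae_sl f, ae_sl G] with a ha h1 h2
    obtain ⟨h, hh⟩ := h1
    obtain ⟨H, hH⟩ := h2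
    rw [← hh.enorm, ← hH.enorm, ← ha h H hh hH, enorm_T]
  exact (ENNReal.pow_right_strictMono two_ne_zero).injective h1

theorem Rel.norm {T : L2R ≃ₗᵢ[ℂ] L2R} {f G : L2} (hR : Rel T f G) : ‖G‖ = ‖f‖ := by
  have := hR.enorm
  rw [← ofReal_norm, ← ofReal_norm] at this
  exact (ENNReal.ofReal_eq_ofReal_iff (norm_nonneg _) (norm_nonneg _)).1 this

theorem Rel.add {T : L2R ≃ₗᵢ[ℂ] L2R} {f G f' G' : L2} (h1 : Rel T f G) (h2 : Rel T f' G') :
    Rel T (f + f') (G + G') := by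
  filter_upwards [h1, h2, ae_sl f, ae_sl f', ae_sl G, ae_sl G', sl_add f f', sl_add G G'] with a
    h1 h2 s1 s2 s3 s4 s5 s6 h H hh hH
  obtain ⟨k1, k1h⟩ := s1
  obtain ⟨k2, k2h⟩ := s2
  obtain ⟨k3, k3h⟩ := s3
  obtain ⟨k4, k4h⟩ := s4
  rw [hh.unique (s5 _ _ k1h k2h), hH.unique (s6 _ _ k3h k4h), map_add, h1 _ _ k1h k3h,
    h2 _ _ k2h k4h]

theorem Rel.sub {T : L2R ≃ₗᵢ[ℂ] L2R} {f G f' G' : L2} (h1 : Rel T f G) (h2 : Rel T f' G') :
    Rel T (f - f') (G - G') := by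
  filter_upwards [h1, h2, ae_sl f, ae_sl f', ae_sl G, ae_sl G', sl_sub f f', sl_sub G G'] with a
    h1 h2 s1 s2 s3 s4 s5 s6 h H hh hH
  obtain ⟨k1, k1h⟩ := s1
  obtain ⟨k2, k2h⟩ := s2
  obtain ⟨k3, k3h⟩ := s3
  obtain ⟨k4, k4h⟩ := s4
  rw [hh.unique (s5 _ _ k1h k2h), hH.unique (s6 _ _ k3h k4h), map_sub, h1 _ _ k1h k3h,
    h2 _ _ k2h k4h]

theorem Rel.smul {T : L2R ≃ₗᵢ[ℂ] L2R} {f G : L2} (c : ℂ) (h1 : Rel T f G) :
    Rel T (c • f) (c • G) := by
  filter_upwards [h1, ae_sl f, ae_sl G, sl_smul c f, sl_smul c G] with a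
    h1 s1 s3 s5 s6 h H hh hH
  obtain ⟨k1, k1h⟩ := s1
  obtain ⟨k3, k3h⟩ := s3
  rw [hh.unique (s5 _ k1h), hH.unique (s6 _ k3h), map_smul, h1 _ _ k1h k3h]

theorem Rel.unique {T : L2R ≃ₗᵢ[ℂ] L2R} {f G G' : L2} (h1 : Rel T f G) (h2 : Rel T f G') :
    G = G' := by
  have h3 := (h1.sub h2).norm
  rw [sub_self, norm_zero, norm_eq_zero, sub_eq_zero] at h3
  exact h3

theorem Rel.symm {T : L2R ≃ₗᵢ[ℂ] L2R} {f G : L2} (h1 : Rel T.symm G f) : Rel T f G := by
  filter_upwards [h1] with a ha h H hh hH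
  rw [← ha H h hH hh, T.apply_symm_apply]

theorem Rel.lim {T : L2R ≃ₗᵢ[ℂ] L2R} {f G : L2} {fn Gn : ℕ → L2}
    (h1 : ∀ n, Rel T (fn n) (Gn n)) (h2 : Tendsto fn atTop (𝓝 f)) (h3 : Tendsto Gn atTop (𝓝 G)) :
    Rel T f G := by
  set u : ℕ → ℝ → ℝ≥0∞ := fun n a => (∫⁻ b, ‖(f - fn n) (a, b)‖ₑ ^ 2) +
    ∫⁻ b, ‖(G - Gn n) (a, b)‖ₑ ^ 2 with hu
  have hum : ∀ n, Measurable (u n) := fun n => (meas_int _).add (meas_int _)
  have hui : ∀ n, ∫⁻ a, u n a = ‖f - fn n‖ₑ ^ 2 + ‖G - Gn n‖ₑ ^ 2 := by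
    intro n
    rw [enorm_sq2, enorm_sq2, ← lintegral_add_left (meas_int _)]
  have hlim : Tendsto (fun n => ∫⁻ a, u n a) atTop (𝓝 0) := by
    simp only [hui]
    have e1 : Tendsto (fun n => ‖f - fn n‖ₑ) atTop (𝓝 0) := by
      have := (tendsto_const_nhds (x := f)).sub h2
      rw [sub_self] at this
      simpa using this.enorm
    have e2 : Tendsto (fun n => ‖G - Gn n‖ₑ) atTop (𝓝 0) := by
      have := (tendsto_const_nhds (x := G)).sub h3
      rw [sub_self] at this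
      simpa using this.enorm
    have e3 := (ENNReal.Tendsto.pow (n := 2) e1).add (ENNReal.Tendsto.pow (n := 2) e2)
    simpa using e3
  have hli : ∫⁻ a, liminf (fun n => u n a) atTop = 0 := by
    refine le_antisymm ?_ zero_le
    refine (lintegral_liminf_le hum).trans ?_
    rw [hlim.liminf_eq]
  have hz : ∀ᵐ a : ℝ, liminf (fun n => u n a) atTop = 0 := by
    rw [lintegral_eq_zero_iff (Measurable.liminf hum)] at hli
    exact hli
  have hall : ∀ᵐ a : ℝ, ∀ n, (∀ h k : L2R, Sl f a h → Sl (fn n) a k → Sl (f - fn n) a (h - k)) ∧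
      (∀ h k : L2R, Sl G a h → Sl (Gn n) a k → Sl (G - Gn n) a (h - k)) ∧
      (∃ h : L2R, Sl (fn n) a h) ∧ (∃ h : L2R, Sl (Gn n) a h) ∧
      (∀ h H : L2R, Sl (fn n) a h → Sl (Gn n) a H → T h = H) := by
    rw [ae_all_iff]
    intro n
    filter_upwards [sl_sub f (fn n), sl_sub G (Gn n), ae_sl (fn n), ae_sl (Gn n), h1 n] with a
      s1 s2 s3 s4 s5
    exact ⟨s1, s2, s3, s4, s5⟩
  filter_upwards [hz, hall] with a ha hb h H hh hH
  have hbd : ∀ n, ‖T h - H‖ₑ ^ 2 / 4 ≤ u n a := by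
    intro n
    obtain ⟨b1, b2, ⟨k, hk⟩, ⟨K, hK⟩, b5⟩ := hb n
    have e1 := (b1 h k hh hk).enorm
    have e2 := (b2 H K hH hK).enorm
    have e3 := b5 k K hk hK
    simp only [hu]
    rw [← e1, ← e2]
    have e4 : T h - H = T (h - k) - (H - K) := by
      rw [map_sub, e3]; abel
    have e5 : ‖T h - H‖ₑ ≤ ‖h - k‖ₑ + ‖H - K‖ₑ := by
      rw [e4]
      refine (enorm_sub_le).trans ?_
      rw [enorm_T]
    rw [ENNReal.div_le_iff (by norm_num) (by norm_num)]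
    calc ‖T h - H‖ₑ ^ 2 ≤ (‖h - k‖ₑ + ‖H - K‖ₑ) ^ 2 := by gcongr
      _ ≤ (2 * max ‖h - k‖ₑ ‖H - K‖ₑ) ^ 2 := by
          gcongr
          rw [two_mul]
          exact add_le_add (le_max_left _ _) (le_max_right _ _)
      _ = (max ‖h - k‖ₑ ‖H - K‖ₑ) ^ 2 * 4 := by rw [mul_pow]; ring
      _ ≤ (‖h - k‖ₑ ^ 2 + ‖H - K‖ₑ ^ 2) * 4 := by
          gcongr
          rcases max_cases ‖h - k‖ₑ ‖H - K‖ₑ with ⟨h5, _⟩ | ⟨h5, _⟩
          · rw [h5]; exact le_self_add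
          · rw [h5]; exact le_add_self
  have h6 : ‖T h - H‖ₑ ^ 2 / 4 ≤ liminf (fun n => u n a) atTop :=
    le_liminf_of_le (by isBoundedDefault) (Eventually.of_forall hbd)
  rw [ha] at h6
  have h7 : ‖T h - H‖ₑ ^ 2 / 4 = 0 := le_antisymm h6 zero_le
  rw [ENNReal.div_eq_zero_iff] at h7
  rcases h7 with h7 | h7
  · rw [pow_eq_zero_iff two_ne_zero, enorm_eq_zero, sub_eq_zero] at h7
    exact h7
  · norm_num at h7

end Pool.Agent.Lib.MP424d38.ES.PFXM
end
end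

section
/-!
# PSL: slices and the partial Fourier transform
-/
set_option autoImplicit false

open MeasureTheory Filter Topology Set
open scoped ENNReal ContDiff ComplexConjugate FourierTransform

noncomputable section

namespace Pool.Agent.Lib.MP424d38.ES

open Pool.Agent.Lib.MP424d38.TY

namespace PSLM

open PFXM

theorem inner_eq (h g : L2R) : inner ℂ h g = ∫ b, conj (h b) * g b := by
  rw [L2.inner_def]
  refine integral_congr_ae (Eventually.of_forall fun b => ?_)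
  simp only [RCLike.inner_apply]
  ring

theorem ae_pf {P : L2 ≃ₗᵢ[ℂ] L2} (hP : IsPF P) (f : L2) : ∀ᵐ a : ℝ, ∃ h : L2R, Sl f a h ∧
    Sl (P f) a (𝓕 h : L2R) := by
  filter_upwards [hP f, ae_sl f, ae_sl (P f)] with a h1 h2 h3
  obtain ⟨h, hh⟩ := h2
  obtain ⟨H, hH⟩ := h3
  refine ⟨h, hh, ?_⟩
  rw [h1 h H hh hH]
  exact hH

theorem int_sq (f : L2) : Integrable fun x : ℝ × ℝ => ‖f x‖ ^ 2 :=
  (Lp.memLp f).integrable_norm_pow (by norm_num)

theorem norm_sq_eq (f : L2) : ‖f‖ ^ 2 = ∫ x : ℝ × ℝ, ‖f x‖ ^ 2 := by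
  have h1 : ∫ x : ℝ × ℝ, ‖f x‖ ^ 2 = (∫⁻ x, ‖f x‖ₑ ^ 2).toReal := by
    rw [integral_eq_lintegral_of_nonneg_ae (Eventually.of_forall fun x => by positivity)
      ((meas f).norm.pow_const 2).aestronglyMeasurable]
    congr 1
    refine lintegral_congr fun x => ?_
    rw [ENNReal.ofReal_pow (norm_nonneg _), ofReal_norm]
  rw [h1, ← eLpNorm_sq, ← Lp.enorm_def, ENNReal.toReal_pow, toReal_enorm]

theorem int_sigma {σ : ℝ → ℝ} {C : ℝ} (hσ : Measurable σ) (hC : ∀ l, |σ l| ≤ C) (f : L2) :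
    Integrable fun x : ℝ × ℝ => σ (2 * Real.pi * x.2) * ‖f x‖ ^ 2 := by
  refine Integrable.bdd_mul (c := C) (int_sq f) ?_ (Eventually.of_forall fun x => ?_)
  · exact (hσ.comp (measurable_snd.const_mul _)).aestronglyMeasurable
  · rw [Real.norm_eq_abs]; exact hC _

theorem part3 {σ : ℝ → ℝ} {C : ℝ} (hσ : Measurable σ) (hC : ∀ l, |σ l| ≤ C) (f : L2) :
    (Integrable fun a => ∫ ξ, σ (2 * Real.pi * ξ) * ‖f (a, ξ)‖ ^ 2) ∧
    (∫ a, ∫ ξ, σ (2 * Real.pi * ξ) * ‖f (a, ξ)‖ ^ 2)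
      = (∫ x : ℝ × ℝ, σ (2 * Real.pi * x.2) * ‖f x‖ ^ 2) ∧
    (∫ a, |∫ ξ, σ (2 * Real.pi * ξ) * ‖f (a, ξ)‖ ^ 2|) ≤ C * ‖f‖ ^ 2 := by
  have h1 := int_sigma hσ hC f
  have h2 : Integrable (fun a => ∫ ξ, σ (2 * Real.pi * ξ) * ‖f (a, ξ)‖ ^ 2) :=
    Integrable.integral_prod_left (μ := (volume : Measure ℝ)) (ν := (volume : Measure ℝ)) h1
  have h3 : (∫ x : ℝ × ℝ, σ (2 * Real.pi * x.2) * ‖f x‖ ^ 2)
      = ∫ a, ∫ ξ, σ (2 * Real.pi * ξ) * ‖f (a, ξ)‖ ^ 2 :=
    integral_prod (μ := (volume : Measure ℝ)) (ν := (volume : Measure ℝ)) _ h1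
  have h4 : Integrable (fun a => ∫ ξ, ‖f (a, ξ)‖ ^ 2) :=
    Integrable.integral_prod_left (μ := (volume : Measure ℝ)) (ν := (volume : Measure ℝ))
      (int_sq f)
  have h5 : (∫ x : ℝ × ℝ, ‖f x‖ ^ 2) = ∫ a, ∫ ξ, ‖f (a, ξ)‖ ^ 2 :=
    integral_prod (μ := (volume : Measure ℝ)) (ν := (volume : Measure ℝ)) _ (int_sq f)
  have h6 : ∀ᵐ a : ℝ, Integrable fun ξ => ‖f (a, ξ)‖ ^ 2 :=
    Integrable.prod_right_ae (μ := (volume : Measure ℝ)) (ν := (volume : Measure ℝ)) (int_sq f)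
  refine ⟨h2, h3.symm, ?_⟩
  rw [norm_sq_eq, h5, ← integral_const_mul]
  refine integral_mono_ae h2.abs (h4.const_mul C) ?_
  filter_upwards [h6] with a ha
  rw [← Real.norm_eq_abs, ← integral_const_mul]
  refine (norm_integral_le_integral_norm _).trans ?_
  refine integral_mono_of_nonneg (Eventually.of_forall fun ξ => norm_nonneg _) (ha.const_mul C)
    (Eventually.of_forall fun ξ => ?_)
  simp only [norm_mul, Real.norm_eq_abs, abs_pow, abs_norm]
  exact mul_le_mul_of_nonneg_right (hC _) (by positivity)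

end PSLM

open PFXM PSLM in
theorem specPSL : SpecPSL := by
  intro P hP
  refine ⟨fun f => ?_, fun f g => ?_, fun σ C hσ hC f => ?_⟩
  · filter_upwards [ae_pf hP f] with a ha
    exact ha
  · filter_upwards [ae_pf hP f, ae_pf hP g] with a h1 h2
    obtain ⟨h, hh, hH⟩ := h1
    obtain ⟨k, hk, hK⟩ := h2
    have e1 : (∫ b, conj (f (a, b)) * g (a, b)) = inner ℂ h k := by
      rw [inner_eq]
      refine integral_congr_ae ?_
      filter_upwards [hh, hk] with b b1 b2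
      rw [b1, b2]
    have e2 : (∫ ξ, conj (P f (a, ξ)) * P g (a, ξ)) = inner ℂ (𝓕 h : L2R) (𝓕 k : L2R) := by
      rw [inner_eq]
      refine integral_congr_ae ?_
      filter_upwards [hH, hK] with b b1 b2
      rw [b1, b2]
    rw [e1, e2]
    exact (Lp.inner_fourier_eq h k).symm
  · have := part3 hσ hC (P f)
    rw [P.norm_map] at this
    exact this

end Pool.Agent.Lib.MP424d38.ES
end
end

section
/-!
# MDE: densities as spectral integrals
-/
set_option autoImplicit false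

open MeasureTheory Filter Topology Set
open scoped ENNReal ContDiff ComplexConjugate FourierTransform

noncomputable section

namespace Pool.Agent.Lib.MP424d38.ES

open Pool.Agent.Lib.MP424d38.TY

namespace MDEM

open PFXM PSLM

theorem conj_mul_self' (z : ℂ) : conj z * z = ((‖z‖ ^ 2 : ℝ) : ℂ) := by
  rw [← Complex.normSq_eq_norm_sq, Complex.normSq_eq_conj_mul_self]

theorem sq_slice (f : L2) (a : ℝ) :
    ((∫ b, ‖f (a, b)‖ ^ 2 : ℝ) : ℂ) = ∫ b, conj (f (a, b)) * f (a, b) := by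
  rw [← integral_complex_ofReal]
  refine integral_congr_ae (Eventually.of_forall fun b => ?_)
  simp only [conj_mul_self']

theorem int_conj (f g : L2) : ∀ᵐ a : ℝ, Integrable fun b => conj (f (a, b)) * g (a, b) := by
  filter_upwards [ae_sl f, ae_sl g] with a h1 h2
  obtain ⟨h, hh⟩ := h1
  obtain ⟨k, hk⟩ := h2
  refine (L2.integrable_inner (𝕜 := ℂ) h k).congr ?_
  filter_upwards [hh, hk] with b b1 b2
  rw [b1, b2, RCLike.inner_apply]
  ring

end MDEM

open PFXM PSLM MDEM in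
theorem specMDE (hPSL : SpecPSL) (hPD2 : SpecPD2) : SpecMDE := by
  intro P hP f F₁ F₂ hf
  obtain ⟨-, hpar, -⟩ := hPSL P hP
  have hd : ∀ᵐ x : ℝ × ℝ, P F₂ x = 2 * Real.pi * Complex.I * (x.2 : ℂ) * P f x :=
    (hPD2 P hP).2 f F₁ F₂ hf
  have hn : ∀ x : ℝ × ℝ, P F₂ x = 2 * Real.pi * Complex.I * (x.2 : ℂ) * P f x →
      ‖P F₂ x‖ ^ 2 = (2 * Real.pi * x.2) ^ 2 * ‖P f x‖ ^ 2 := by
    intro x hx
    rw [hx, norm_mul, mul_pow]
    congr 1
    have : (2 * Real.pi * Complex.I * (x.2 : ℂ) : ℂ) = ((2 * Real.pi * x.2 : ℝ) : ℂ) * Complex.I := by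
      push_cast; ring
    rw [this, norm_mul, Complex.norm_I, mul_one, Complex.norm_real, Real.norm_eq_abs, sq_abs]
  have hI : Integrable fun x : ℝ × ℝ => (1 + (2 * Real.pi * x.2) ^ 2) * ‖P f x‖ ^ 2 := by
    refine ((int_sq (P f)).add (int_sq (P F₂))).congr ?_
    filter_upwards [hd] with x hx
    rw [Pi.add_apply, hn x hx]
    ring
  refine ⟨?_, hI, ?_⟩
  · have hIa : ∀ᵐ a : ℝ, Integrable fun ξ => (1 + (2 * Real.pi * ξ) ^ 2) * ‖P f (a, ξ)‖ ^ 2 :=
      Integrable.prod_right_ae (μ := (volume : Measure ℝ)) (ν := (volume : Measure ℝ)) hI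
    filter_upwards [hIa, hpar f f, hpar F₂ F₂, hpar f F₂, ae_prod hd, int_conj f F₂] with
      a h1 h2 h3 h4 h5 h6
    refine ⟨h1, ?_, ?_, ?_⟩
    · have e1 : ((rhoD f a : ℝ) : ℂ) = ((Mo P (fun _ => 1) f a : ℝ) : ℂ) := by
        have e2 : Mo P (fun _ => 1) f a = ∫ ξ, ‖P f (a, ξ)‖ ^ 2 := by
          unfold Mo
          simp only [one_mul]
        rw [e2, sq_slice (P f) a, ← h2, ← sq_slice f a]
        rfl
      exact Complex.ofReal_injective e1
    · have e1 : momD f F₂ a = (∫ b, conj (f (a, b)) * F₂ (a, b)).im := by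
        unfold momD
        exact integral_im h6
      rw [e1, h4]
      have e2 : (∫ ξ, conj (P f (a, ξ)) * P F₂ (a, ξ))
          = ∫ ξ, ((2 * Real.pi * ξ * ‖P f (a, ξ)‖ ^ 2 : ℝ) : ℂ) * Complex.I := by
        refine integral_congr_ae ?_
        filter_upwards [h5] with ξ hξ
        rw [hξ]
        have := conj_mul_self' (P f (a, ξ))
        calc conj (P f (a, ξ)) * (2 * Real.pi * Complex.I * (ξ : ℂ) * P f (a, ξ))
            = (conj (P f (a, ξ)) * P f (a, ξ)) * (2 * Real.pi * ξ * Complex.I) := by ring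
          _ = _ := by rw [this]; push_cast; ring
      rw [e2, integral_mul_const, integral_complex_ofReal]
      simp only [Complex.mul_im, Complex.ofReal_re, Complex.I_im, mul_one, Complex.ofReal_im,
        Complex.I_re, mul_zero, add_zero]
      rfl
    · have e1 : ((rhoD F₂ a : ℝ) : ℂ) = ((∫ ξ, ‖P F₂ (a, ξ)‖ ^ 2 : ℝ) : ℂ) := by
        rw [sq_slice (P F₂) a, ← h3, ← sq_slice F₂ a]
        rfl
      rw [Complex.ofReal_injective e1]
      unfold Mo
      refine integral_congr_ae ?_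
      filter_upwards [h5] with ξ hξ
      exact hn (a, ξ) hξ
  · rw [← P.norm_map F₂, norm_sq_eq]
    refine integral_congr_ae ?_
    filter_upwards [hd] with x hx
    exact hn x hx

end Pool.Agent.Lib.MP424d38.ES
end
end

section
/-!
# ORT: products of band limited functions are orthogonal to high frequencies
-/
set_option autoImplicit false

open MeasureTheory Filter Topology Set
open scoped ENNReal ContDiff ComplexConjugate FourierTransform

noncomputable section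

namespace Pool.Agent.Lib.MP424d38.ES

open Pool.Agent.Lib.MP424d38.TY

theorem specORT (hCJ1 : SpecCJ1) : SpecORT := by
  intro A B C K g x y z _ _ _ hK hx hy hz hg
  obtain ⟨y', hy', -, hyb⟩ := hCJ1 y
  obtain ⟨w₁, hw₁, hb₁⟩ := BRNM.prod hx (hyb B hy)
  obtain ⟨w₂, hw₂, hb₂⟩ := BRNM.prod hb₁ hz
  have e : I4 g x y z = ∫ b, conj (g b) * w₂ b := by
    unfold I4
    refine integral_congr_ae ?_
    filter_upwards [hy', hw₁, hw₂] with b h1 h2 h3
    rw [h3, h2, h1]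
  rw [e, specMX1.2.2.2.1 g w₂]
  refine integral_eq_zero_of_ae ?_
  filter_upwards [hg, hb₂] with ξ h1 h2
  by_cases h3 : |2 * Real.pi * ξ| < K
  · rw [h1 h3]
    simp
  · rw [h2 (by push Not at h3; linarith)]
    simp

end Pool.Agent.Lib.MP424d38.ES
end
end

section
/-!
# PD2: the partial Fourier transform and the derivative in `b`
-/
set_option autoImplicit false

open MeasureTheory Filter Topology Set
open scoped ENNReal ContDiff ComplexConjugate FourierTransform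

noncomputable section

namespace Pool.Agent.Lib.MP424d38.ES

open Pool.Agent.Lib.MP424d38.TY

namespace PD2M

/-- the phase. -/
def ph (t ξ : ℝ) : ℂ := Complex.exp (2 * Real.pi * Complex.I * ((t * ξ : ℝ) : ℂ))

theorem ph_norm (t ξ : ℝ) : ‖ph t ξ‖ = 1 := by
  have e : ph t ξ = Complex.exp (((2 * Real.pi * (t * ξ) : ℝ) : ℂ) * Complex.I) := by
    unfold ph
    congr 1
    push_cast
    ring
  rw [e, Complex.norm_exp_ofReal_mul_I]

theorem ph_meas (t : ℝ) : Measurable (ph t) := by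
  unfold ph
  fun_prop

theorem mulMem (t : ℝ) (g : L2R) : MemLp (fun ξ => ph t ξ * g ξ) 2 (volume : Measure ℝ) := by
  refine MemLp.of_le (Lp.memLp g)
    ((ph_meas t).aestronglyMeasurable.mul (Lp.aestronglyMeasurable g)) ?_
  refine Eventually.of_forall fun k => ?_
  rw [norm_mul, ph_norm, one_mul]

def mulF (t : ℝ) (g : L2R) : L2R := (mulMem t g).toLp _

theorem mulF_coe (t : ℝ) (g : L2R) : ∀ᵐ ξ : ℝ, mulF t g ξ = ph t ξ * g ξ :=
  (mulMem t g).coeFn_toLp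

theorem mulF_isometry (t : ℝ) : Isometry (mulF t) := by
  refine Isometry.of_dist_eq fun f g => ?_
  rw [dist_eq_norm, dist_eq_norm, Lp.norm_def, Lp.norm_def]
  congr 1
  refine eLpNorm_congr_norm_ae ?_
  filter_upwards [mulF_coe t f, mulF_coe t g, Lp.coeFn_sub f g, Lp.coeFn_sub (mulF t f) (mulF t g)]
    with k h1 h2 h3 h4
  rw [h3, h4, Pi.sub_apply, Pi.sub_apply, h1, h2, ← mul_sub, norm_mul, ph_norm, one_mul]

/-- translation on `L²(ℝ)`. -/
def tr (t : ℝ) (h : L2R) : L2R :=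
  Lp.compMeasurePreserving (fun b : ℝ => b + t) (measurePreserving_add_right volume t) h

theorem tr_coe (t : ℝ) (h : L2R) : ∀ᵐ b : ℝ, tr t h b = h (b + t) :=
  Lp.coeFn_compMeasurePreserving h _

theorem cont_tr (t : ℝ) : Continuous (tr t) :=
  (Lp.compMeasurePreservingₗᵢ ℂ (fun b : ℝ => b + t)
    (measurePreserving_add_right volume t)).continuous

theorem cont_four : Continuous fun h : L2R => (𝓕 h : L2R) :=
  (Lp.fourierTransformₗᵢ ℝ ℂ).continuous

theorem fourier_tr_fun (ψ : ℝ → ℂ) (t ξ : ℝ) :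
    𝓕 (fun b => ψ (b + t)) ξ = ph t ξ * 𝓕 ψ ξ := by
  have e2 := VectorFourier.fourierIntegral_comp_add_right Real.fourierChar (volume : Measure ℝ)
    (innerₗ ℝ) ψ t
  have e3 : 𝓕 (fun b => ψ (b + t)) ξ
      = Real.fourierChar (innerₗ ℝ t ξ) • 𝓕 ψ ξ := congrFun e2 ξ
  rw [e3, Circle.smul_def, Real.fourierChar_apply, smul_eq_mul]
  congr 1
  unfold ph
  congr 1
  have e4 : innerₗ ℝ t ξ = t * ξ := by
    simp [mul_comm]
  rw [e4]
  push_cast
  ring

theorem fourier_tr (t : ℝ) (h : L2R) : (𝓕 (tr t h) : L2R) = mulF t (𝓕 h : L2R) := by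
  have hd := MeasureTheory.Lp.dense_hasCompactSupport_contDiff (E := ℝ) (F := ℂ)
    (μ := (volume : Measure ℝ)) (p := 2) (by simp)
  have hAB : (fun h : L2R => (𝓕 (tr t h) : L2R)) = fun h : L2R => mulF t (𝓕 h : L2R) := by
    refine (cont_four.comp (cont_tr t)).ext_on hd
      ((mulF_isometry t).continuous.comp cont_four) fun g hg => ?_
    obtain ⟨ψ, h1, h2, h3⟩ := hg
    have hi : Integrable ψ := h3.continuous.integrable_of_hasCompactSupport h2
    have hm : MemLp ψ 2 (volume : Measure ℝ) := h3.continuous.memLp_of_hasCompactSupport h2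
    have hi' : Integrable fun b => ψ (b + t) := hi.comp_add_right t
    have hm' : MemLp (fun b => ψ (b + t)) 2 (volume : Measure ℝ) :=
      hm.comp_measurePreserving (measurePreserving_add_right volume t)
    have eg : g = hm.toLp ψ := Lp.ext (h1.trans hm.coeFn_toLp.symm)
    have et : tr t g = hm'.toLp _ := by
      apply Lp.ext
      filter_upwards [tr_coe t g, hm'.coeFn_toLp,
        (measurePreserving_add_right (volume : Measure ℝ) t).quasiMeasurePreserving.ae h1]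
        with b b1 b2 b3
      rw [b1, b2, b3]
    show (𝓕 (tr t g) : L2R) = mulF t (𝓕 g : L2R)
    apply Lp.ext
    filter_upwards [mulF_coe t (𝓕 g : L2R),
      Pool.Agent.Lib.MP_424d38_an.LIN.fourier_toLp_ae hi hm,
      Pool.Agent.Lib.MP_424d38_an.LIN.fourier_toLp_ae hi' hm'] with ξ x1 x2 x3
    rw [x1, et, x3, eg, x2, fourier_tr_fun]
  exact congrFun hAB h

theorem slices {p : ℝ × ℝ → Prop} (h : ∀ᵐ x : ℝ × ℝ, p x) : ∀ᵐ a : ℝ, ∀ᵐ b : ℝ, p (a, b) := by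
  rw [Measure.volume_eq_prod] at h
  exact Measure.ae_ae_of_ae_prod h

theorem ae_of_slices {p : ℝ × ℝ → Prop} (hm : MeasurableSet {x : ℝ × ℝ | p x})
    (h : ∀ᵐ a : ℝ, ∀ᵐ b : ℝ, p (a, b)) : ∀ᵐ x : ℝ × ℝ, p x := by
  rw [Measure.volume_eq_prod]
  exact (Measure.ae_prod_iff_ae_ae hm).mpr h

theorem P_trn (PS : SpecPSL) (P : L2 ≃ₗᵢ[ℂ] L2) (hP : IsPF P) (t : ℝ) (f : L2) :
    ∀ᵐ x : ℝ × ℝ, P (trn t f) x = ph t x.2 * P f x := by
  have hm : MeasurableSet {x : ℝ × ℝ | P (trn t f) x = ph t x.2 * P f x} := by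
    refine measurableSet_eq_fun (Lp.stronglyMeasurable _).measurable ?_
    exact ((ph_meas t).comp measurable_snd).mul (Lp.stronglyMeasurable _).measurable
  refine ae_of_slices hm ?_
  filter_upwards [(PS P hP).1 f, (PS P hP).1 (trn t f), slices (TRNM.trn_coe t f)]
    with a ⟨h, k1, k2⟩ ⟨h', k3, k4⟩ k5
  have e : h' = tr t h := by
    apply Lp.ext
    filter_upwards [k3, k5, tr_coe t h,
      (measurePreserving_add_right (volume : Measure ℝ) t).quasiMeasurePreserving.ae k1]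
      with b b1 b2 b3 b4
    rw [b1, b2, b3, b4]
    congr 1
    ext <;> simp
  rw [e, fourier_tr] at k4
  filter_upwards [k2, k4, mulF_coe t (𝓕 h : L2R)] with ξ x1 x2 x3
  rw [← x2, x3, x1]

theorem lim_ph (ξ : ℝ) : Tendsto (fun t : ℝ => ((t⁻¹ : ℝ) : ℂ) * (ph t ξ - 1)) (𝓝[≠] 0)
    (𝓝 (2 * Real.pi * Complex.I * (ξ : ℂ))) := by
  have h1 : HasDerivAt (fun t : ℝ => ph t ξ) (2 * Real.pi * Complex.I * (ξ : ℂ)) 0 := by
    have h2 : HasDerivAt (fun t : ℝ => 2 * Real.pi * Complex.I * ((t * ξ : ℝ) : ℂ))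
        (2 * Real.pi * Complex.I * (ξ : ℂ)) 0 := by
      have h3 : HasDerivAt (fun t : ℝ => ((t * ξ : ℝ) : ℂ)) ((1 * ξ : ℝ) : ℂ) 0 :=
        ((hasDerivAt_id (0 : ℝ)).mul_const ξ).ofReal_comp
      have := h3.const_mul (2 * Real.pi * Complex.I : ℂ)
      simpa using this
    have h4 := h2.cexp
    simpa [ph] using h4
  have h5 := h1.tendsto_slope_zero
  refine h5.congr fun t => ?_
  have e0 : ph 0 ξ = 1 := by simp [ph]
  rw [zero_add, e0, Complex.real_smul]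

theorem P_dq (PS : SpecPSL) (P : L2 ≃ₗᵢ[ℂ] L2) (hP : IsPF P) (t : ℝ) (f : L2) :
    ∀ᵐ x : ℝ × ℝ, P (dq t f) x = (((t⁻¹ : ℝ) : ℂ) * (ph t x.2 - 1)) * P f x := by
  have e : P (dq t f) = ((t⁻¹ : ℝ) : ℂ) • (P (trn t f) - P f) := by
    unfold dq
    rw [map_smul, map_sub]
  rw [e]
  filter_upwards [P_trn PS P hP t f, Lp.coeFn_smul ((t⁻¹ : ℝ) : ℂ) (P (trn t f) - P f),
    Lp.coeFn_sub (P (trn t f)) (P f)] with x x1 x2 x3
  rw [x2, Pi.smul_apply, x3, Pi.sub_apply, x1, smul_eq_mul]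
  ring

end PD2M

open PD2M in
theorem specPD2 (hPSL : SpecPSL) : SpecPD2 := by
  intro P hP
  refine ⟨fun h f => P_trn hPSL P hP h f, fun f F₁ F₂ hf => ?_⟩
  have T3 := specTRN.2.2.1 f F₁ F₂ hf
  set u : ℕ → ℝ := fun n => 1 / ((n : ℝ) + 1) with hu
  have hu0 : Tendsto u atTop (𝓝[≠] 0) := by
    refine tendsto_nhdsWithin_iff.2 ⟨tendsto_one_div_add_atTop_nhds_zero_nat, ?_⟩
    refine Eventually.of_forall fun n => ?_
    have : (0 : ℝ) < 1 / ((n : ℝ) + 1) := by positivity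
    exact this.ne'
  have h1 : Tendsto (fun n => P (dq (u n) f)) atTop (𝓝 (P F₂)) :=
    (P.continuous.tendsto _).comp (T3.comp hu0)
  have h2 : TendstoInMeasure (volume : Measure (ℝ × ℝ)) (fun n => (P (dq (u n) f) : ℝ × ℝ → ℂ))
      atTop (P F₂) :=
    tendstoInMeasure_of_tendsto_Lp h1
  obtain ⟨ns, hns, hae⟩ := h2.exists_seq_tendsto_ae
  have h3 : ∀ᵐ x : ℝ × ℝ, ∀ n : ℕ,
      P (dq (u n) f) x = ((((u n)⁻¹ : ℝ) : ℂ) * (ph (u n) x.2 - 1)) * P f x :=
    ae_all_iff.2 fun n => P_dq hPSL P hP (u n) f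
  filter_upwards [hae, h3] with x x1 x2
  have l1 : Tendsto (fun n => ((((u (ns n))⁻¹ : ℝ) : ℂ) * (ph (u (ns n)) x.2 - 1)) * P f x) atTop
      (𝓝 (2 * Real.pi * Complex.I * (x.2 : ℂ) * P f x)) := by
    have := ((lim_ph x.2).comp (hu0.comp hns.tendsto_atTop)).mul_const (P f x)
    exact this
  refine tendsto_nhds_unique (x1.congr fun n => x2 (ns n)) l1

end Pool.Agent.Lib.MP424d38.ES
end
end

section
/-!
# PFX: the partial Fourier transform in the second variable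
-/
set_option autoImplicit false

open MeasureTheory Filter Topology Set
open scoped ENNReal ContDiff ComplexConjugate FourierTransform

noncomputable section

namespace Pool.Agent.Lib.MP424d38.ES

open Pool.Agent.Lib.MP424d38.TY

namespace PFXM

theorem flip_inv (G : SchwartzMap ℝ ℂ) {f : ℝ → ℂ} (h1 : Integrable f) :
    ∫ x, (𝓕⁻ (G : ℝ → ℂ)) x • f x = ∫ x, (G x) • (𝓕⁻ f) x := by
  have h1' : Integrable (fun x => f (-x)) := h1.comp_neg
  have e4 : ∫ x, (𝓕 (G : ℝ → ℂ)) x • (fun x => f (-x)) x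
      = ∫ x, (G x) • (𝓕 (fun x => f (-x))) x := by
    simpa using! (VectorFourier.integral_fourierIntegral_smul_eq_flip (L := innerₗ ℝ)
      Real.continuous_fourierChar continuous_inner G.integrable h1')
  rw [Real.fourierInv_eq_fourier_comp_neg f, ← e4]
  rw [← integral_neg_eq_self]
  refine integral_congr_ae (Filter.Eventually.of_forall fun x => ?_)
  simp only [Real.fourierInv_eq_fourier_neg, neg_neg]

theorem fourierInv_toLp_ae {f : ℝ → ℂ} (h1 : Integrable f) (h2 : MemLp f 2) :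
    ((𝓕⁻ (h2.toLp f) : L2R) : ℝ → ℂ) =ᵐ[volume] 𝓕⁻ f := by
  have hcont : Continuous (𝓕⁻ f) := by
    rw [Real.fourierInv_eq_fourier_comp_neg]
    exact Pool.Agent.Lib.MP_424d38_an.LIN.continuous_fourier h1.comp_neg
  apply ae_eq_of_integral_contDiff_smul_eq
  · exact (Lp.memLp _).locallyIntegrable one_le_two
  · exact hcont.locallyIntegrable
  · intro g g_smooth g_cpt
    have hg₁ : HasCompactSupport (Complex.ofRealCLM ∘ g) := g_cpt.comp_left rfl
    have hg₂ : ContDiff ℝ ∞ (Complex.ofRealCLM ∘ g) := by fun_prop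
    set G : SchwartzMap ℝ ℂ := hg₁.toSchwartzMap hg₂ with hG
    have hGx : ∀ x, G x = (g x : ℂ) := fun x => by simp [hG]
    have e1 : ∫ x, g x • ((𝓕⁻ (h2.toLp f) : L2R) : ℝ → ℂ) x
        = Lp.toTemperedDistribution (𝓕⁻ (h2.toLp f) : L2R) G := by
      rw [Lp.toTemperedDistribution_apply]
      refine integral_congr_ae (Filter.Eventually.of_forall fun x => ?_)
      simp only [hGx, Complex.real_smul, smul_eq_mul]
    have e2 : Lp.toTemperedDistribution (𝓕⁻ (h2.toLp f) : L2R) G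
        = Lp.toTemperedDistribution (h2.toLp f) (𝓕⁻ G) := by
      have := DFunLike.congr_fun (Lp.fourierInv_toTemperedDistribution_eq (h2.toLp f)) G
      rw [← this]
      rfl
    have e3 : Lp.toTemperedDistribution (h2.toLp f) (𝓕⁻ G) = ∫ x, (𝓕⁻ G) x • f x := by
      rw [Lp.toTemperedDistribution_apply]
      refine integral_congr_ae ?_
      filter_upwards [h2.coeFn_toLp] with x hx
      rw [hx]
    have e5 : ((𝓕⁻ G : SchwartzMap ℝ ℂ) : ℝ → ℂ) = 𝓕⁻ (G : ℝ → ℂ) := SchwartzMap.fourierInv_coe G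
    rw [e1, e2, e3, e5, flip_inv G h1]
    refine integral_congr_ae (Filter.Eventually.of_forall fun x => ?_)
    simp only [hGx, Complex.real_smul, smul_eq_mul]

/-- `T` is given by a Fourier type kernel on functions in `L¹ ∩ L²`. -/
def KT (T : L2R ≃ₗᵢ[ℂ] L2R) : Prop := ∃ s : ℝ, ∀ φ : ℝ → ℂ, Integrable φ → ∀ h2 : MemLp φ 2,
  ∀ᵐ ξ : ℝ, T (h2.toLp φ) ξ = ∫ b, Real.fourierChar (s * (b * ξ)) • φ b

theorem kt_fourier : KT (Lp.fourierTransformₗᵢ ℝ ℂ) := by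
  refine ⟨-1, fun φ h1 h2 => ?_⟩
  filter_upwards [Pool.Agent.Lib.MP_424d38_an.LIN.fourier_toLp_ae h1 h2] with ξ hξ
  have e : (Lp.fourierTransformₗᵢ ℝ ℂ) (h2.toLp φ) = (𝓕 (h2.toLp φ) : L2R) := rfl
  rw [e, hξ, Real.fourier_real_eq]
  congr 1
  ext b
  congr 2
  ring

theorem kt_inv : KT (Lp.fourierTransformₗᵢ ℝ ℂ).symm := by
  refine ⟨1, fun φ h1 h2 => ?_⟩
  filter_upwards [fourierInv_toLp_ae h1 h2] with ξ hξ
  have e : (Lp.fourierTransformₗᵢ ℝ ℂ).symm (h2.toLp φ) = (𝓕⁻ (h2.toLp φ) : L2R) := rfl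
  rw [e, hξ, Real.fourierInv_eq_fourier_neg, Real.fourier_real_eq]
  congr 1
  ext b
  congr 2
  ring

theorem exists_rel_cc {T : L2R ≃ₗᵢ[ℂ] L2R} (hT : KT T) {ψ : ℝ × ℝ → ℂ} (hc : Continuous ψ)
    (hs : HasCompactSupport ψ) (hm : MemLp ψ 2 volume) : ∃ G : L2, Rel T (hm.toLp ψ) G := by
  obtain ⟨s, hT⟩ := hT
  set S : Set ℝ := Prod.snd '' tsupport ψ with hS
  have hSc : IsCompact S := IsCompact.image hs continuous_snd
  have hz : ∀ a b, b ∉ S → ψ (a, b) = 0 := by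
    intro a b hb
    by_contra hne
    exact hb ⟨(a, b), subset_tsupport _ hne, rfl⟩
  have hca : ∀ a, Continuous fun b => ψ (a, b) := fun a => by fun_prop
  have hsa : ∀ a, HasCompactSupport fun b => ψ (a, b) := fun a =>
    HasCompactSupport.intro hSc fun b hb => hz a b hb
  have hI : ∀ a, Integrable fun b => ψ (a, b) := fun a =>
    (hca a).integrable_of_hasCompactSupport (hsa a)
  have hM : ∀ a, MemLp (fun b => ψ (a, b)) 2 := fun a =>
    (hca a).memLp_of_hasCompactSupport (hsa a)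
  set K : ℝ × ℝ → ℂ := fun x => ∫ b, Real.fourierChar (s * (b * x.2)) • ψ (x.1, b) with hK
  have hKeq : K = fun x => ∫ b in S, Real.fourierChar (s * (b * x.2)) • ψ (x.1, b) := by
    ext x
    rw [hK]
    symm
    apply setIntegral_eq_integral_of_forall_compl_eq_zero
    intro b hb
    rw [hz _ _ hb, smul_zero]
  have hKc : Continuous K := by
    rw [hKeq]
    have hf : Continuous (Function.uncurry fun (x : ℝ × ℝ) (b : ℝ) =>
        Real.fourierChar (s * (b * x.2)) • ψ (x.1, b)) := by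
      have := Real.continuous_fourierChar
      unfold Function.uncurry
      fun_prop
    exact continuous_parametric_integral_of_continuous hf hSc
  have hTK : ∀ a, ∀ᵐ ξ : ℝ, T ((hM a).toLp _) ξ = K (a, ξ) := fun a => hT _ (hI a) (hM a)
  have hKn : ∀ a, ∫⁻ ξ, ‖K (a, ξ)‖ₑ ^ 2 = ∫⁻ b, ‖ψ (a, b)‖ₑ ^ 2 := by
    intro a
    have e1 : ∫⁻ ξ, ‖K (a, ξ)‖ₑ ^ 2 = ‖T ((hM a).toLp _)‖ₑ ^ 2 := by
      rw [enorm_sq1]
      exact lintegral_congr_ae ((hTK a).mono fun ξ hξ => by simp only [hξ])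
    rw [e1, enorm_T, enorm_sq1]
    exact lintegral_congr_ae ((hM a).coeFn_toLp.mono fun b hb => by simp only [hb])
  have hKm : MemLp K 2 volume := by
    refine ⟨hKc.aestronglyMeasurable, ?_⟩
    have e1 : eLpNorm K 2 volume ^ 2 = eLpNorm ψ 2 volume ^ 2 := by
      rw [eLpNorm_sq, eLpNorm_sq]
      have p1 := lintegral_prod (μ := (volume : Measure ℝ)) (ν := (volume : Measure ℝ))
        (fun x => ‖K x‖ₑ ^ 2) (hKc.measurable.enorm.pow_const 2).aemeasurable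
      have p2 := lintegral_prod (μ := (volume : Measure ℝ)) (ν := (volume : Measure ℝ))
        (fun x => ‖ψ x‖ₑ ^ 2) (hc.measurable.enorm.pow_const 2).aemeasurable
      refine p1.trans (Eq.trans ?_ p2.symm)
      exact lintegral_congr hKn
    have e2 := (ENNReal.pow_right_strictMono two_ne_zero).injective e1
    rw [e2]
    exact hm.2
  refine ⟨hKm.toLp K, ?_⟩
  filter_upwards [ae_prod hm.coeFn_toLp, ae_prod hKm.coeFn_toLp] with a h1 h2 h H hh hH
  have e1 : h = (hM a).toLp _ := by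
    apply Lp.ext
    filter_upwards [hh, h1, (hM a).coeFn_toLp] with b k1 k2 k3
    rw [k1, k2, k3]
  have e2 : H = T ((hM a).toLp _) := by
    apply Lp.ext
    filter_upwards [hH, h2, hTK a] with b k1 k2 k3
    rw [k1, k2, k3]
  rw [e1, e2]

theorem exists_rel {T : L2R ≃ₗᵢ[ℂ] L2R} (hT : KT T) (f : L2) : ∃ G : L2, Rel T f G := by
  have h1 : ∀ n : ℕ, ∃ g : L2, ‖f - g‖ ≤ 1 / ((n : ℝ) + 1) ∧ ∃ G : L2, Rel T g G := by
    intro n
    have hpos : 0 < 1 / ((n : ℝ) + 1) := by positivity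
    obtain ⟨ψ, hs, hle, hc, hm⟩ := (Lp.memLp f).exists_hasCompactSupport_eLpNorm_sub_le
      (by norm_num) (ε := ENNReal.ofReal (1 / ((n : ℝ) + 1)))
      (by rw [ne_eq, ENNReal.ofReal_eq_zero]; exact not_le.2 hpos)
    refine ⟨hm.toLp ψ, ?_, exists_rel_cc hT hc hs hm⟩
    have e1 : ‖f - hm.toLp ψ‖ₑ ≤ ENNReal.ofReal (1 / ((n : ℝ) + 1)) := by
      rw [Lp.enorm_def]
      refine le_trans (le_of_eq ?_) hle
      apply eLpNorm_congr_ae
      filter_upwards [Lp.coeFn_sub f (hm.toLp ψ), hm.coeFn_toLp] with x hx1 hx2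
      rw [hx1, Pi.sub_apply, Pi.sub_apply, hx2]
    rw [← ofReal_norm] at e1
    exact (ENNReal.ofReal_le_ofReal_iff hpos.le).1 e1
  choose fn hfn Gn hGn using h1
  have hlim : Tendsto fn atTop (𝓝 f) := by
    rw [tendsto_iff_norm_sub_tendsto_zero]
    refine squeeze_zero (fun n => norm_nonneg _) (fun n => ?_) tendsto_one_div_add_atTop_nhds_zero_nat
    rw [norm_sub_rev]
    exact hfn n
  have hcau : CauchySeq Gn := by
    have h2 := hlim.cauchySeq
    rw [Metric.cauchySeq_iff] at h2 ⊢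
    intro ε hε
    obtain ⟨N, hN⟩ := h2 ε hε
    refine ⟨N, fun m hm n hn => ?_⟩
    have h3 := hN m hm n hn
    rw [dist_eq_norm] at h3 ⊢
    rw [((hGn m).sub (hGn n)).norm]
    exact h3
  obtain ⟨G, hG⟩ := cauchySeq_tendsto_of_complete hcau
  exact ⟨G, Rel.lim hGn hlim hG⟩

end PFXM

open PFXM in
theorem specPFX : SpecPFX := by
  choose P hP using exists_rel kt_fourier
  choose Q hQ using exists_rel kt_inv
  refine ⟨LinearIsometryEquiv.ofSurjective
    { toFun := P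
      map_add' := fun f g => ((hP (f + g)).unique ((hP f).add (hP g)))
      map_smul' := fun c f => ((hP (c • f)).unique ((hP f).smul c))
      norm_map' := fun f => (hP f).norm } ?_, ?_⟩
  · intro G
    exact ⟨Q G, (hP (Q G)).unique (Rel.symm (hQ G))⟩
  · intro f
    exact hP f

end Pool.Agent.Lib.MP424d38.ES
end
end

section
/-!
# REP: Fourier representation of the quartic form
-/
set_option autoImplicit false

open MeasureTheory Filter Topology Set
open scoped ENNReal ContDiff ComplexConjugate FourierTransform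

noncomputable section

namespace Pool.Agent.Lib.MP424d38.TH

open Pool.Agent.Lib.MP424d38.TY Pool.Agent.Lib.MP424d38.ES

namespace REPM

/-- a shear preserves the volume -/
theorem shear (g : ℝ × ℝ → ℝ) (hg : Measurable g) :
    MeasurePreserving (fun z : ℝ × ℝ × ℝ => (z.1 + g z.2, z.2)) volume volume := by
  have h1 : MeasurePreserving (Prod.swap : ℝ × ℝ × ℝ → (ℝ × ℝ) × ℝ)
      ((volume : Measure ℝ).prod (volume : Measure (ℝ × ℝ)))
      ((volume : Measure (ℝ × ℝ)).prod (volume : Measure ℝ)) := Measure.measurePreserving_swap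
  have h2 : MeasurePreserving (fun p : (ℝ × ℝ) × ℝ => (p.1, p.2 + g p.1))
      ((volume : Measure (ℝ × ℝ)).prod (volume : Measure ℝ))
      ((volume : Measure (ℝ × ℝ)).prod (volume : Measure ℝ)) := by
    refine (MeasurePreserving.id (volume : Measure (ℝ × ℝ))).skew_product
      (g := fun a b => b + g a) ?_ ?_
    · exact measurable_snd.add (hg.comp measurable_fst)
    · refine Eventually.of_forall fun a => ?_
      exact (measurePreserving_add_right (volume : Measure ℝ) (g a)).map_eq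
  have h3 : MeasurePreserving (Prod.swap : (ℝ × ℝ) × ℝ → ℝ × ℝ × ℝ)
      ((volume : Measure (ℝ × ℝ)).prod (volume : Measure ℝ))
      ((volume : Measure ℝ).prod (volume : Measure (ℝ × ℝ))) := Measure.measurePreserving_swap
  exact h3.comp (h2.comp h1)

theorem inv_of_int {u : L2R} (hu : Integrable ((𝓕 u : L2R) : ℝ → ℂ)) :
    (u : ℝ → ℂ) =ᵐ[volume] 𝓕⁻ ((𝓕 u : L2R) : ℝ → ℂ) := by
  have h1 := BRNM.fourierInv_toLp_ae hu (Lp.memLp (𝓕 u : L2R))
  rw [Lp.toLp_coeFn] at h1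
  have e : (𝓕⁻ (𝓕 u : L2R) : L2R) = u := (Lp.fourierTransformₗᵢ ℝ ℂ).symm_apply_apply u
  rw [e] at h1
  exact h1

/-- products of functions with integrable Fourier transforms -/
theorem prod {u v : L2R} (hUi : Integrable ((𝓕 u : L2R) : ℝ → ℂ))
    (hWi : Integrable ((𝓕 v : L2R) : ℝ → ℂ)) :
    ∃ w : L2R, (∀ᵐ b : ℝ, w b = u b * v b) ∧ Integrable ((𝓕 w : L2R) : ℝ → ℂ) ∧
      ∀ᵐ ξ : ℝ, (𝓕 w : L2R) ξ = ∫ t, (𝓕 u : L2R) t * (𝓕 v : L2R) (ξ - t) := by
  set U : ℝ → ℂ := ((𝓕 u : L2R) : ℝ → ℂ) with hU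
  set W : ℝ → ℂ := ((𝓕 v : L2R) : ℝ → ℂ) with hW
  set c : ℝ → ℂ := MeasureTheory.convolution U W (ContinuousLinearMap.mul ℂ ℂ) volume with hc
  have hcx : ∀ x, c x = ∫ t, U t * W (x - t) := fun x => by
    rw [hc, convolution_def]
    rfl
  have hci : Integrable c := hUi.integrable_convolution _ hWi
  have hU2 : Integrable fun ξ => ‖U ξ‖ ^ 2 := MX1M.int_sq _
  have hW2 : Integrable fun ξ => ‖W ξ‖ ^ 2 := MX1M.int_sq _
  have hcb : ∀ x, ‖c x‖ ≤ (∫ ξ, ‖U ξ‖ ^ 2) + ∫ ξ, ‖W ξ‖ ^ 2 := by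
    intro x
    have hW2' : Integrable fun t => ‖W (x - t)‖ ^ 2 := hW2.comp_sub_left x
    rw [hcx]
    refine (norm_integral_le_integral_norm _).trans ?_
    have e2 : (∫ ξ, ‖W ξ‖ ^ 2) = ∫ t, ‖W (x - t)‖ ^ 2 :=
      (integral_sub_left_eq_self (fun t => ‖W t‖ ^ 2) volume x).symm
    rw [e2, ← integral_add hU2 hW2']
    refine integral_mono_of_nonneg (Eventually.of_forall fun t => norm_nonneg _)
      (hU2.add hW2') (Eventually.of_forall fun t => ?_)
    simp only [norm_mul]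
    nlinarith [sq_nonneg (‖U t‖ - ‖W (x - t)‖), sq_nonneg ‖U t‖, sq_nonneg ‖W (x - t)‖]
  have hc2 : MemLp c 2 volume := by
    rw [memLp_two_iff_integrable_sq_norm hci.aestronglyMeasurable]
    refine (hci.norm.const_mul ((∫ ξ, ‖U ξ‖ ^ 2) + ∫ ξ, ‖W ξ‖ ^ 2)).mono'
      (hci.aestronglyMeasurable.norm.pow 2) (Eventually.of_forall fun x => ?_)
    rw [Real.norm_of_nonneg (by positivity), sq]
    exact mul_le_mul_of_nonneg_right (hcb x) (norm_nonneg _)
  have e : (𝓕 (𝓕⁻ (hc2.toLp c) : L2R) : L2R) = hc2.toLp c :=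
    (Lp.fourierTransformₗᵢ ℝ ℂ).apply_symm_apply _
  refine ⟨𝓕⁻ (hc2.toLp c), ?_, ?_, ?_⟩
  · filter_upwards [BRNM.fourierInv_toLp_ae hci hc2, inv_of_int hUi, inv_of_int hWi]
      with b h1 h2 h3
    rw [h1, h2, h3, Real.fourierInv_eq_fourier_neg, Real.fourierInv_eq_fourier_neg,
      Real.fourierInv_eq_fourier_neg]
    exact Real.fourier_mul_convolution_eq hUi hWi (-b)
  · rw [e]
    exact hci.congr hc2.coeFn_toLp.symm
  · rw [e]
    filter_upwards [hc2.coeFn_toLp] with ξ h1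
    rw [h1, hcx]

/-- functions in `H¹` have an integrable Fourier transform -/
theorem int_of_E1 {h : L2R} (hE : E1 h) : Integrable ((𝓕 h : L2R) : ℝ → ℂ) := by
  have h1 : Integrable fun ξ : ℝ => (2 * Real.pi * ξ) ^ 2 * ‖(𝓕 h : L2R) ξ‖ ^ 2 := hE
  have h2 : Integrable fun ξ : ℝ => ‖(𝓕 h : L2R) ξ‖ ^ 2 := MX1M.int_sq _
  have h3 : Integrable fun ξ : ℝ => (1 + ξ ^ 2)⁻¹ := integrable_inv_one_add_sq
  refine ((h1.add h2).add h3).mono' (Lp.aestronglyMeasurable _)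
    (Eventually.of_forall fun ξ => ?_)
  show ‖(𝓕 h : L2R) ξ‖ ≤ (2 * Real.pi * ξ) ^ 2 * ‖(𝓕 h : L2R) ξ‖ ^ 2 +
    ‖(𝓕 h : L2R) ξ‖ ^ 2 + (1 + ξ ^ 2)⁻¹
  set a := ‖(𝓕 h : L2R) ξ‖ with ha
  have ha0 : 0 ≤ a := norm_nonneg _
  have hp : 1 ≤ (2 * Real.pi) ^ 2 := by nlinarith [Real.pi_gt_three]
  have h4 : (1 + ξ ^ 2) * a ^ 2 ≤ (2 * Real.pi * ξ) ^ 2 * a ^ 2 + a ^ 2 := by
    have : (2 * Real.pi * ξ) ^ 2 = (2 * Real.pi) ^ 2 * ξ ^ 2 := by ring
    rw [this]
    nlinarith [mul_nonneg (sub_nonneg.2 hp) (mul_nonneg (sq_nonneg ξ) (sq_nonneg a))]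
  have h5 : 0 < 1 + ξ ^ 2 := by positivity
  have h6 : a ≤ (1 + ξ ^ 2) * a ^ 2 + (1 + ξ ^ 2)⁻¹ := by
    have h7 : 0 ≤ (1 + ξ ^ 2)⁻¹ * ((1 + ξ ^ 2) * a - 1) ^ 2 := by positivity
    have h8 : (1 + ξ ^ 2)⁻¹ * ((1 + ξ ^ 2) * a - 1) ^ 2 =
        (1 + ξ ^ 2) * a ^ 2 - 2 * a + (1 + ξ ^ 2)⁻¹ := by
      field_simp
      ring
    rw [h8] at h7
    linarith
  linarith

/-- the triple integral -/
theorem core (F : ℝ → ℂ) (hF : Measurable F) (hF1 : Integrable F)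
    (hF2 : Integrable fun ξ => ‖F ξ‖ ^ 2)
    (hM : Integrable fun ξ : ℝ => (2 * Real.pi * ξ) ^ 2 * ‖F ξ‖ ^ 2) :
    Integrable (fun z : ℝ × ℝ × ℝ => ((|2 * Real.pi * (z.2.1 + z.1)| : ℝ) : ℂ) * Q4 F z) ∧
    ∫ z : ℝ × ℝ × ℝ, ((|2 * Real.pi * (z.2.1 + z.1)| : ℝ) : ℂ) * Q4 F z =
      ∫ ξ, conj (((|2 * Real.pi * ξ| : ℝ) : ℂ) * F ξ) *
        ∫ x, F x * ∫ y, conj (F y) * F (ξ - x + y) := by
  have hΦm : Measurable fun z : ℝ × ℝ × ℝ =>
      ((|2 * Real.pi * (z.2.1 + z.1)| : ℝ) : ℂ) * Q4 F z := by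
    unfold Q4
    fun_prop
  have hT := shear (fun p => -p.1) measurable_fst.neg
  have hT2 := shear (fun p => p.2 - p.1) (measurable_snd.sub measurable_fst)
  -- the transformed function
  have hΨ : ∀ z : ℝ × ℝ × ℝ, (fun z : ℝ × ℝ × ℝ =>
      ((|2 * Real.pi * (z.2.1 + z.1)| : ℝ) : ℂ) * Q4 F z) (z.1 + -z.2.1, z.2) =
      conj (((|2 * Real.pi * z.1| : ℝ) : ℂ) * F z.1) *
        (F z.2.1 * (conj (F z.2.2) * F (z.1 - z.2.1 + z.2.2))) := by
    intro z
    simp only [Q4]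
    have e1 : z.2.1 + (z.1 + -z.2.1) = z.1 := by ring
    have e2 : z.2.2 + (z.1 + -z.2.1) = z.1 - z.2.1 + z.2.2 := by ring
    rw [e1, e2, map_mul, Complex.conj_ofReal]
    ring
  have hΨi : Integrable fun z : ℝ × ℝ × ℝ => conj (((|2 * Real.pi * z.1| : ℝ) : ℂ) * F z.1) *
      (F z.2.1 * (conj (F z.2.2) * F (z.1 - z.2.1 + z.2.2))) := by
    have i1 : Integrable fun p : ℝ × ℝ => ‖F p.1‖ * ‖F p.2‖ := hF1.norm.mul_prod hF1.norm
    have i2 : Integrable fun z : ℝ × ℝ × ℝ => ((2 * Real.pi * z.1) ^ 2 * ‖F z.1‖ ^ 2) *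
        (‖F z.2.1‖ * ‖F z.2.2‖) := hM.mul_prod i1
    have i3 : Integrable fun z : ℝ × ℝ × ℝ => ‖F z.1‖ ^ 2 * (‖F z.2.1‖ * ‖F z.2.2‖) :=
      hF2.mul_prod i1
    have i4 : Integrable fun z : ℝ × ℝ × ℝ => ‖F (z.1 + (z.2.2 - z.2.1))‖ ^ 2 *
        (‖F z.2.1‖ * ‖F z.2.2‖) := (hT2.integrable_comp i3.aestronglyMeasurable).2 i3
    refine (i2.add i4).mono' ?_ (Eventually.of_forall fun z => ?_)
    · refine Measurable.aestronglyMeasurable ?_
      fun_prop
    · show ‖conj (((|2 * Real.pi * z.1| : ℝ) : ℂ) * F z.1) *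
        (F z.2.1 * (conj (F z.2.2) * F (z.1 - z.2.1 + z.2.2)))‖ ≤
        ((2 * Real.pi * z.1) ^ 2 * ‖F z.1‖ ^ 2) * (‖F z.2.1‖ * ‖F z.2.2‖) +
          ‖F (z.1 + (z.2.2 - z.2.1))‖ ^ 2 * (‖F z.2.1‖ * ‖F z.2.2‖)
      have e2 : z.1 + (z.2.2 - z.2.1) = z.1 - z.2.1 + z.2.2 := by ring
      rw [e2]
      simp only [norm_mul, RCLike.norm_conj, Complex.norm_real, Real.norm_eq_abs, abs_abs]
      have h0 : 0 ≤ ‖F z.2.1‖ * ‖F z.2.2‖ := by positivity
      have h1 : |2 * Real.pi * z.1| * ‖F z.1‖ * ‖F (z.1 - z.2.1 + z.2.2)‖ ≤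
          (2 * Real.pi * z.1) ^ 2 * ‖F z.1‖ ^ 2 + ‖F (z.1 - z.2.1 + z.2.2)‖ ^ 2 := by
        rw [← sq_abs (2 * Real.pi * z.1)]
        nlinarith [sq_nonneg (|2 * Real.pi * z.1| * ‖F z.1‖ - ‖F (z.1 - z.2.1 + z.2.2)‖),
          sq_nonneg (|2 * Real.pi * z.1| * ‖F z.1‖), sq_nonneg ‖F (z.1 - z.2.1 + z.2.2)‖]
      have h2 := mul_le_mul_of_nonneg_right h1 h0
      calc |2 * Real.pi * z.1| * ‖F z.1‖ *
            (‖F z.2.1‖ * (‖F z.2.2‖ * ‖F (z.1 - z.2.1 + z.2.2)‖))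
          = |2 * Real.pi * z.1| * ‖F z.1‖ * ‖F (z.1 - z.2.1 + z.2.2)‖ *
            (‖F z.2.1‖ * ‖F z.2.2‖) := by ring
        _ ≤ _ := h2
        _ = _ := by ring
  have hcomp : (fun z : ℝ × ℝ × ℝ => ((|2 * Real.pi * (z.2.1 + z.1)| : ℝ) : ℂ) * Q4 F z) ∘
      (fun z : ℝ × ℝ × ℝ => (z.1 + -z.2.1, z.2)) =
      fun z : ℝ × ℝ × ℝ => conj (((|2 * Real.pi * z.1| : ℝ) : ℂ) * F z.1) *
        (F z.2.1 * (conj (F z.2.2) * F (z.1 - z.2.1 + z.2.2))) := funext hΨ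
  have hΦi : Integrable (fun z : ℝ × ℝ × ℝ =>
      ((|2 * Real.pi * (z.2.1 + z.1)| : ℝ) : ℂ) * Q4 F z) := by
    refine (hT.integrable_comp hΦm.aestronglyMeasurable).1 ?_
    rw [hcomp]
    exact hΨi
  refine ⟨hΦi, ?_⟩
  have e1 : ∫ z : ℝ × ℝ × ℝ, ((|2 * Real.pi * (z.2.1 + z.1)| : ℝ) : ℂ) * Q4 F z =
      ∫ z : ℝ × ℝ × ℝ, conj (((|2 * Real.pi * z.1| : ℝ) : ℂ) * F z.1) *
        (F z.2.1 * (conj (F z.2.2) * F (z.1 - z.2.1 + z.2.2))) := by
    conv_lhs => rw [← hT.map_eq]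
    rw [integral_map hT.aemeasurable hΦm.aestronglyMeasurable]
    exact congrArg (fun f => ∫ z : ℝ × ℝ × ℝ, f z) hcomp
  rw [e1]
  have e2 : (volume : Measure (ℝ × ℝ × ℝ)) = (volume : Measure ℝ).prod (volume : Measure (ℝ × ℝ)) :=
    rfl
  rw [e2] at hΨi ⊢
  rw [integral_prod _ hΨi]
  refine integral_congr_ae ?_
  filter_upwards [hΨi.prod_right_ae] with ξ hξ
  rw [integral_const_mul]
  by_cases h0 : conj (((|2 * Real.pi * ξ| : ℝ) : ℂ) * F ξ) = 0
  · rw [h0, zero_mul, zero_mul]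
  congr 1
  have hξ' : Integrable (fun p : ℝ × ℝ => F p.1 * (conj (F p.2) * F (ξ - p.1 + p.2))) := by
    have := hξ.const_mul (conj (((|2 * Real.pi * ξ| : ℝ) : ℂ) * F ξ))⁻¹
    refine this.congr (Eventually.of_forall fun p => ?_)
    show (conj (((|2 * Real.pi * ξ| : ℝ) : ℂ) * F ξ))⁻¹ *
      (conj (((|2 * Real.pi * ξ| : ℝ) : ℂ) * F ξ) * _) = _
    rw [inv_mul_cancel_left₀ h0]
  have e3 : (volume : Measure (ℝ × ℝ)) = (volume : Measure ℝ).prod (volume : Measure ℝ) := rfl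
  rw [e3] at hξ' ⊢
  rw [integral_prod _ hξ']
  refine integral_congr_ae (Eventually.of_forall fun x => ?_)
  show (∫ y, F x * (conj (F y) * F (ξ - x + y))) = _
  rw [integral_const_mul]

end REPM

open REPM in
theorem specREP (hMX1 : SpecMX1) (hCJ1 : SpecCJ1) : SpecREP := by
  intro h k hE hk
  obtain ⟨-, -, hp3, hpars, -⟩ := hMX1
  have hF1 := int_of_E1 hE
  obtain ⟨h', hb', hF', -⟩ := hCJ1 h
  set F : ℝ → ℂ := ((𝓕 h : L2R) : ℝ → ℂ) with hFd
  have hFm : Measurable F := (Lp.stronglyMeasurable (𝓕 h : L2R)).measurable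
  have hF'1 : Integrable ((𝓕 h' : L2R) : ℝ → ℂ) := by
    have h1 : Integrable fun ξ => conj (F (-ξ)) := by
      have h2 : Integrable fun ξ => F (-ξ) := hF1.comp_neg
      refine h2.mono ?_ (Eventually.of_forall fun ξ => ?_)
      · exact (Complex.continuous_conj.measurable.comp (hFm.comp measurable_neg)).aestronglyMeasurable
      · simp
    refine h1.congr ?_
    filter_upwards [hF'] with ξ h2
    rw [h2]
  obtain ⟨w₁, hw₁, hW₁, hc₁⟩ := prod hF'1 hF1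
  obtain ⟨w₂, hw₂, hW₂, hc₂⟩ := prod hF1 hW₁
  obtain ⟨hint, heq⟩ := core F hFm hF1 (MX1M.int_sq _) hE
  refine ⟨hint, ?_⟩
  rw [heq]
  -- the transform of `w₁`
  have hd₁ : ∀ᵐ η : ℝ, (𝓕 w₁ : L2R) η = ∫ y, conj (F y) * F (η + y) := by
    filter_upwards [hc₁] with η h1
    rw [h1]
    have h2 : (∫ t, (𝓕 h' : L2R) t * (𝓕 h : L2R) (η - t)) = ∫ t, conj (F (-t)) * F (η - t) := by
      refine integral_congr_ae ?_
      filter_upwards [hF'] with t h3
      rw [h3]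
    rw [h2, ← integral_neg_eq_self]
    refine integral_congr_ae (Eventually.of_forall fun y => ?_)
    show conj (F (- -y)) * F (η - -y) = _
    rw [neg_neg, sub_neg_eq_add]
  have hd₂ : ∀ᵐ ξ : ℝ, (𝓕 w₂ : L2R) ξ = ∫ x, F x * ∫ y, conj (F y) * F (ξ - x + y) := by
    filter_upwards [hc₂] with ξ h1
    rw [h1]
    refine integral_congr_ae ?_
    have h2 : ∀ᵐ t : ℝ, (𝓕 w₁ : L2R) (ξ - t) = ∫ y, conj (F y) * F (ξ - t + y) :=
      (Measure.measurePreserving_sub_left volume ξ).quasiMeasurePreserving.ae hd₁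
    filter_upwards [h2] with t h3
    rw [h3]
  have e1 : (∫ b, conj (k b) * (((‖h b‖ ^ 2 : ℝ) : ℂ) * h b)) = ∫ b, conj (k b) * w₂ b := by
    refine integral_congr_ae ?_
    filter_upwards [hb', hw₁, hw₂] with b h1 h2 h3
    rw [h3, h2, h1, mul_comm (conj (h b)) (h b), Complex.mul_conj']
    push_cast
    ring
  rw [e1, hpars k w₂]
  refine integral_congr_ae ?_
  filter_upwards [hk, hd₂] with ξ h1 h2
  rw [h1, h2]

end Pool.Agent.Lib.MP424d38.TH
end
end
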