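import Pool.Agent.Lib.MP_424d38_an.ES.SpecH
import Pool.Agent.Lib.MP_424d38_an.SpecD

/-!
# Block TH, part C: weights which depend on the mass coordinate (purely one dimensional, no equation)

`ρ_t = -4p_a`, `p_t = -4e_a`, `X_t = -4Y_a + c`; mass coordinate `R(t,a) = ∫_{-∞}^aρ`, so `R_a = ρ`, `R_t = -4p`, and
`d/dt∫(φ(R)X - f(R)p) = ∫[4φ'(R)(ρY-pX) - 4f'(R)(ρe-p²) + φ(R)c]`.
-/

set_option autoImplicit false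

open MeasureTheory Filter Topology Set
open scoped ENNReal ContDiff ComplexConjugate

noncomputable section

namespace Pool.Agent.Lib.MP424d38.TH

open Pool.Agent.Lib.MP424d38.TY Pool.Agent.Lib.MP424d38.ES

/-- mollified mass coordinate `∫ H_n(a-x)ρ(x)dx`, `H_n = (1 + κ_n)/2`. -/
def Rn (n : ℕ) (ρ : L1) (a : ℝ) : ℝ := ∫ x, ((1 + kap n (a - x)) / 2) * ρ x

/-- `∫ q_n(a-x)g(x)dx`, `q_n = κ_n'/2 = H_n'`. -/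
def qc (n : ℕ) (g : L1) (a : ℝ) : ℝ := ∫ x, (deriv (kap n) (a - x) / 2) * g x

/-- the mass coordinate `R(a) = ∫_{-∞}^aρ`. -/
def Rm (ρ : L1) (a : ℝ) : ℝ := ∫ x in Iio a, ρ x

/-- TDT (time dependent test functions).  No hypotheses (use `TY.PAIM.fund` of `PAI.lean`).
Proof.  `Ψ(x,y) = ∫B(x,a)F(y,a)da`.  `Ψ(t,u) - Ψ(s,u) = ∫_s^t∫B₂(r,a)F(u,a)da dr` (fundamental theorem of calculus for every `a`, Fubini; `B₂` is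
jointly continuous and bounded on `[s,t] × ℝ`), `Ψ(u,t) - Ψ(u,s) = ∫_s^t(∫B₁(u,a)F₁(r,a)da + ∫B(u,a)s₁(r,a)da)dr` (the law with `β = B u`).  The
two integrands are jointly continuous in the two times (uniform continuity of `B, B₁, B₂` in time, `L¹` continuity of `F, F₁, s₁`);
`B` is uniformly continuous in time because `B₂` is bounded locally uniformly in time.  `fund` gives the result. -/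
def SpecTDT : Prop := ∀ (T : ℝ) (F F₁ s₁ : ℝ → L1), LawS T F F₁ s₁ → ∀ B B₁ B₂ : ℝ → ℝ → ℝ,
  (∀ t ∈ Ico 0 T, Cb1 (B t) ∧ deriv (B t) = B₁ t ∧ Continuous (B₂ t) ∧ ∃ C : ℝ, ∀ a, |B₂ t a| ≤ C) →
  (∀ t ∈ Ico 0 T, ∀ ε : ℝ, 0 < ε → ∃ δ : ℝ, 0 < δ ∧ ∀ r ∈ Ico 0 T, |r - t| < δ → ∀ a,
    |B₁ r a - B₁ t a| ≤ ε ∧ |B₂ r a - B₂ t a| ≤ ε) →
  (∀ a, ContinuousOn (fun t => B t a) (Ico 0 T)) →
  (∀ a, ∀ t ∈ Ioo 0 T, HasDerivAt (fun r => B r a) (B₂ t a) t) →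
  ∀ s t : ℝ, 0 ≤ s → s ≤ t → t < T →
    (∫ a, B t a * F t a) - ∫ a, B s a * F s a
      = ∫ r in s..t, ((∫ a, B₂ r a * F r a) + (∫ a, B₁ r a * F₁ r a) + ∫ a, B r a * s₁ r a)

/-- RNF (facts on the mollified mass coordinate).  Hypotheses TY.SpecKPF (lemmas `bet_..` of `PAI.lean`).
`(1+κ_n)/2 ∈ [0,1]` is `Cb1` with derivative `κ_n'/2 ≥ 0`.  (5): the law with `β(x) = (1+κ_n(a-x))/2`, `β' = -κ_n'(a-x)/2`.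
(6): `|(1+κ_n(a-x))/2 - 1_{x<a}| ≤ 1`, and `= 0` for `|a-x| > 1/n`. -/
def SpecRNF : Prop := ∀ n : ℕ, 1 ≤ n → ∃ C : ℝ, 0 < C ∧
  (∀ (ρ : L1) (m : ℝ), (∀ᵐ a : ℝ, 0 ≤ ρ a) → (∫ a, ρ a = m) → ∀ a, 0 ≤ Rn n ρ a ∧ Rn n ρ a ≤ m ∧ 0 ≤ qc n ρ a) ∧
  (∀ (g : L1) (a : ℝ), HasDerivAt (Rn n g) (qc n g a) a ∧ |qc n g a| ≤ C * ‖g‖) ∧
  (∀ g : L1, Continuous (qc n g)) ∧
  (∀ (g g' : L1) (a : ℝ), |Rn n g a - Rn n g' a| ≤ ‖g - g'‖ ∧ |qc n g a - qc n g' a| ≤ C * ‖g - g'‖) ∧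
  (∀ (T : ℝ) (ρ p : ℝ → L1), Law T ρ (fun t => (4 : ℝ) • p t) → ∀ a s t : ℝ, 0 ≤ s → s ≤ t → t < T →
    Rn n (ρ t) a - Rn n (ρ s) a = ∫ r in s..t, -4 * qc n (p r) a) ∧
  (∀ (ρ : L1) (R₀ : ℝ), (∀ᵐ a : ℝ, 0 ≤ ρ a ∧ ρ a ≤ R₀) → ∀ a, |Rn n ρ a - Rm ρ a| ≤ 2 * R₀ / n)

/-- RMF (facts on the mass coordinate).  No hypotheses.  `R` is monotone, `R₀`-Lipschitz, `0 ≤ R ≤ m`. -/
def SpecRMF : Prop := ∀ (ρ : L1) (m R₀ : ℝ), (∀ᵐ a : ℝ, 0 ≤ ρ a ∧ ρ a ≤ R₀) → (∫ a, ρ a = m) →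
  Continuous (Rm ρ) ∧ Monotone (Rm ρ) ∧ ∀ a, 0 ≤ Rm ρ a ∧ Rm ρ a ≤ m

/-- NID (the mollified identity).  Hypotheses TDT, RNF.
Proof.  TDT with `B t a = φ(R_n(t,a))`, `B₁ = φ'(R_n) q_n*ρ`, `B₂ = -4φ'(R_n) q_n*p`, `R_n = Rn n (ρ t)` (values in `[0,m]`; `φ`, `φ'` are bounded and
uniformly continuous on `[0,m]`).  Uniform continuity in time: `|R_n(r,a) - R_n(t,a)| ≤ ‖ρ r - ρ t‖`, `|q_n*p(r) - q_n*p(t)| ≤ C‖p r - p t‖`.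
Time derivative: `R_n(·,a)` has the continuous derivative `-4 q_n*p` on `(0,T)` (RNF (5)), chain rule. -/
def SpecNID : Prop := ∀ (T m : ℝ) (R : ℝ → ℝ) (ρ p e : ℝ → L1), Flow T m R ρ p e →
  ∀ F F₁ s₁ : ℝ → L1, LawS T F F₁ s₁ → ∀ φ φ' : ℝ → ℝ,
  (∀ r ∈ Icc 0 m, HasDerivAt φ (φ' r) r) → ContinuousOn φ' (Icc 0 m) → ∀ n : ℕ, 1 ≤ n →
  ∀ s t : ℝ, 0 ≤ s → s ≤ t → t < T →
    (∫ a, φ (Rn n (ρ t) a) * F t a) - ∫ a, φ (Rn n (ρ s) a) * F s a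
      = ∫ r in s..t, ((∫ a, (-4 * (φ' (Rn n (ρ r) a) * qc n (p r) a)) * F r a)
          + (∫ a, (φ' (Rn n (ρ r) a) * qc n (ρ r) a) * F₁ r a) + ∫ a, φ (Rn n (ρ r) a) * s₁ r a)

/-- LMT (the limit `n → ∞` at a fixed time).  Hypotheses RNF, RMF, TY.SpecKPF (lemmas of `GLM.lean`: `shear`, `approx`, `tr_cont`).
Proof.  `R_n → R` uniformly (RNF (6)), all values in `[0,m]`, so `ψ(R_n) → ψ(R)` uniformly: (1).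
(2) `p, F ∈ L²` (`p² ≤ ρe ≤ R₀e`): `∫|q_n*p||F| ≤ ‖q_n*p‖₂‖F‖₂ ≤ R₀∫e` (Young, `∫q_n = 1`), which gives the bound and allows to replace
`ψ(R_n)` by `ψ(R)`; and `∫ψ(R)F (q_n*p) = ∫q_n(z)Γ(z)dz` with `Γ(z) = ∫ψ(R(a))F(a)p(a-z)da` continuous (continuity of translations in `L²`),
so it tends to `Γ(0)`.  (3) `0 ≤ q_n*ρ ≤ R₀`: bound `∫|ψ(R_n)|(q_n*ρ)|G| ≤ Cψ R₀ 4∫e`, the same replacement, and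
`Γ(z) = ∫ψ(R(a))G(a)ρ(a-z)da = ∫(ψ(R)G)(a+z)ρ(a)da` is continuous (translations in `L¹`, `ρ` bounded). -/
def SpecLMT : Prop := ∀ (ρ p e F G : L1) (m R₀ : ℝ), 0 ≤ R₀ →
  (∀ᵐ a : ℝ, 0 ≤ ρ a ∧ ρ a ≤ R₀ ∧ 0 ≤ e a ∧ p a ^ 2 ≤ ρ a * e a) → (∫ a, ρ a = m) → ∀ ψ : ℝ → ℝ,
  ContinuousOn ψ (Icc 0 m) →
  Tendsto (fun n : ℕ => ∫ a, ψ (Rn n ρ a) * F a) atTop (𝓝 (∫ a, ψ (Rm ρ a) * F a)) ∧
  ((∀ᵐ a : ℝ, F a ^ 2 ≤ ρ a * e a) →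
    Tendsto (fun n : ℕ => ∫ a, (ψ (Rn n ρ a) * qc n p a) * F a) atTop (𝓝 (∫ a, ψ (Rm ρ a) * (p a * F a))) ∧
    ∀ Cψ : ℝ, (∀ r ∈ Icc 0 m, |ψ r| ≤ Cψ) → ∀ n : ℕ, 1 ≤ n →
      |∫ a, (ψ (Rn n ρ a) * qc n p a) * F a| ≤ Cψ * R₀ * ∫ a, e a) ∧
  ((∀ᵐ a : ℝ, |G a| ≤ 4 * e a) →
    Tendsto (fun n : ℕ => ∫ a, (ψ (Rn n ρ a) * qc n ρ a) * G a) atTop (𝓝 (∫ a, ψ (Rm ρ a) * (ρ a * G a))) ∧
    ∀ Cψ : ℝ, (∀ r ∈ Icc 0 m, |ψ r| ≤ Cψ) → ∀ n : ℕ, 1 ≤ n →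
      |∫ a, (ψ (Rn n ρ a) * qc n ρ a) * G a| ≤ 4 * Cψ * R₀ * ∫ a, e a)

/-- LID (the identity).  Hypotheses NID, LMT, RNF, RMF, TY.SpecKPF.
Proof.  `n → ∞` in NID with LMT at every time, dominated convergence in `r ∈ [s,t]` (the bounds `R(r)∫e(r)`, `‖s₁ r‖` are continuous in `r`;
the integrands of NID are continuous in `r`, so measurable).  In particular the limit is interval integrable. -/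
def SpecLID : Prop := ∀ (T m : ℝ) (R : ℝ → ℝ) (ρ p e : ℝ → L1), Flow T m R ρ p e →
  ∀ F F₁ s₁ : ℝ → L1, LawS T F F₁ s₁ →
  (∀ t ∈ Ico 0 T, ∀ᵐ a : ℝ, F t a ^ 2 ≤ ρ t a * e t a ∧ |F₁ t a| ≤ 4 * e t a) → ∀ φ φ' : ℝ → ℝ,
  (∀ r ∈ Icc 0 m, HasDerivAt φ (φ' r) r) → ContinuousOn φ' (Icc 0 m) →
  ∀ s t : ℝ, 0 ≤ s → s ≤ t → t < T →
    let D := fun r : ℝ => (-4 * (∫ a, φ' (Rm (ρ r) a) * (p r a * F r a)))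
      + (∫ a, φ' (Rm (ρ r) a) * (ρ r a * F₁ r a)) + ∫ a, φ (Rm (ρ r) a) * s₁ r a
    IntervalIntegrable D volume s t ∧
    (∫ a, φ (Rm (ρ t) a) * F t a) - (∫ a, φ (Rm (ρ s) a) * F s a) = ∫ r in s..t, D r

/-- a flow together with the density `X` of `|l|`, its flux and its source. -/
structure Flow3 (T m c₁ : ℝ) (R : ℝ → ℝ) (ρ p e X Y c : ℝ → L1) : Prop extends Flow T m R ρ p e where
  lawX : LawS T X (fun t => (4 : ℝ) • Y t) c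
  bdX : ∀ t ∈ Ico 0 T, ∀ᵐ a : ℝ, |p t a| ≤ X t a ∧ X t a ^ 2 ≤ ρ t a * e t a ∧ |Y t a| ≤ e t a ∧
    |ρ t a * Y t a - p t a * X t a| ≤ ρ t a * e t a - p t a ^ 2 ∧ ∀ α : ℝ, 0 < α →
      |c t a| ≤ c₁ * (α * ((ρ t a * e t a - p t a ^ 2) + (ρ t a * Y t a - p t a * X t a))
        + α⁻¹ * ((ρ t a * e t a - p t a ^ 2) - (ρ t a * Y t a - p t a * X t a)))

/-- WDE (a weighted functional decreases).  Hypotheses LID, ES.GRB lemma `lawS_of_law` (`ES/GRB.lean`), RMF.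
Proof.  LID for `(X, 4Y, c)` with `φ` and for `(p, 4e, 0)` with `f`: the difference of the integrands is
`∫[4φ'(ρY-pX) - 4f'(ρe-p²) + φc](a)da ≤ 0` pointwise (all terms are integrable: `ρ` bounded, `e, Y, c ∈ L¹`, `p, X ∈ L²`). -/
def SpecWDE : Prop := ∀ (T m c₁ : ℝ) (R : ℝ → ℝ) (ρ p e X Y c : ℝ → L1), Flow3 T m c₁ R ρ p e X Y c →
  ∀ φ φ' f f' : ℝ → ℝ, (∀ r ∈ Icc 0 m, HasDerivAt φ (φ' r) r ∧ HasDerivAt f (f' r) r) →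
  ContinuousOn φ' (Icc 0 m) → ContinuousOn f' (Icc 0 m) →
  (∀ r ∈ Icc 0 m, ∀ γ η κ : ℝ, |η| ≤ γ → (∀ α : ℝ, 0 < α → |κ| ≤ c₁ * (α * (γ + η) + α⁻¹ * (γ - η))) →
    4 * φ' r * η - 4 * f' r * γ + φ r * κ ≤ 0) →
  ∀ s t : ℝ, 0 ≤ s → s ≤ t → t < T →
    (∫ a, (φ (Rm (ρ t) a) * X t a - f (Rm (ρ t) a) * p t a))
      ≤ ∫ a, (φ (Rm (ρ s) a) * X s a - f (Rm (ρ s) a) * p s a)

/-- THR (the threshold).  Hypotheses WDE, RMF.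
Proof.  `κ = c₁/2`, `θ(r) = κ(r - m/2)`, `|θ| ≤ θ₁ := κm/2 < π/2` on `[0,m]`; `φ = 1/cos θ`, `f = tan θ`, `φ' = κ sin θ/cos²θ`, `f' = κ/cos²θ`.  With
`α = (1 - sin θ)/cos θ > 0`, `α⁻¹ = (1 + sin θ)/cos θ`: `c₁φ(α(γ+η) + α⁻¹(γ-η)) = (c₁/cos²θ)(2γ - 2 sin θ η) = 4f'γ - 4φ'η`, so the condition of WDE
holds.  `|f| ≤ sin θ₁ φ` and `1 ≤ φ ≤ 1/cos θ₁`, `|p| ≤ X`: `(1 - sin θ₁)∫X ≤ ∫(φX - fp)(t) ≤ ∫(φX - fp)(0) ≤ (2/cos θ₁)∫X(0)`. -/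
def SpecTHR : Prop := ∀ m c₁ : ℝ, 0 < m → 0 < c₁ → c₁ * m < 2 * Real.pi → ∃ C : ℝ, 0 < C ∧
  ∀ (T : ℝ) (R : ℝ → ℝ) (ρ p e X Y c : ℝ → L1), Flow3 T m c₁ R ρ p e X Y c →
    ∀ t ∈ Ico 0 T, (∫ a, X t a) ≤ C * ∫ a, X 0 a

end Pool.Agent.Lib.MP424d38.TH
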