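import Pool.Agent.Lib.MP_424d38_an.TH.SpecB
import Pool.Agent.Lib.MP_424d38_an.TH.SpecC
import Pool.Agent.Lib.MP_424d38_an.ES.SpecK

/-!
# Block TH, part E: assembly
-/

set_option autoImplicit false

open MeasureTheory Filter Topology Set
open scoped ENNReal ContDiff ComplexConjugate FourierTransform

noncomputable section

namespace Pool.Agent.Lib.MP424d38.TH

open Pool.Agent.Lib.MP424d38.TY Pool.Agent.Lib.MP424d38.ES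

/-- XBD (bound of `XX`).  Hypotheses THR, XLW, CBD, ES.SpecMTX, ES.SpecMDE, TY.SpecFLO.
Proof.  `m = ‖v 0‖²`.  If `m = 0` then `v = 0` (conservation of mass, FLO) and everything is `0` (`C = 1`).  Otherwise `S` from MTX (symbol
`Real.sign`, measurable, bounded by `1`), `ρ, p, e` from FLO, `X, Y, c` from XLW, bounds CBD: `Flow3 T m (c0/(2π))`; `c₁m < 2π` because
`c0·358/10 < 4π²` (`c0 = 551/500`, `π > 3.1415`); `∫X t = XX P (v t)` (MDE, Fubini). -/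
def SpecXBD : Prop := ∀ m : ℝ, m ≤ 358 / 10 → ∃ C : ℝ, 0 < C ∧ ∀ P : L2 ≃ₗᵢ[ℂ] L2, IsPF P →
  ∀ (T : ℝ) (v v₁ v₂ N : ℝ → L2), Nls T v v₁ v₂ N → ‖v 0‖ ^ 2 = m →
  ∀ t ∈ Ico 0 T, XX P (v t) ≤ C * XX P (v 0)

/-- THN (the theorem in null coordinates).  Hypotheses XBD, ES.SpecPFX, ES.SpecBDD, ES.SpecCHN, ES.SpecEMB, ES.SpecXGR (`0 ≤ XX`), ES.SpecMDE,
TY.SpecSWP.
Proof.  XBD for `v` and for `swp v` (SWP: `Nls`, the same norm).  BDD gives the first statement.  `HH (v t) = XX P (v t) + XX P (swp (v t))` (CHN)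
`≤ C(XX P (v 0) + XX P (swp (v 0)))`, `XX P (v 0) ≤ ‖v 0‖‖v₂ 0‖` (Cauchy-Schwarz, MDE), the same for `swp`; EMB. -/
def SpecTHN : Prop := ∀ m : ℝ, m ≤ 358 / 10 → ∃ C : ℝ, ∀ (T : ℝ) (v v₁ v₂ N : ℝ → L2), 0 < T → Nls T v v₁ v₂ N →
  ‖v 0‖ ^ 2 = m → (∃ D : ℝ, ∀ t ∈ Ico 0 T, ‖v₁ t‖ ≤ D ∧ ‖v₂ t‖ ≤ D) ∧
  ∀ t ∈ Ico 0 T, (∫ x, ‖v t x‖ ^ 4) ≤ C * (‖v₁ 0‖ ^ 2 + ‖v₂ 0‖ ^ 2)

/-- FTH (the theorem).  Hypotheses THN, TY.SpecTRF, TY.SpecCHV (as `ES/FI2.lean`).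
Proof.  `m = 2M`, `‖v₁ 0‖² + ‖v₂ 0‖² = nrm(G 0 0)² + nrm(G 0 1)²` (CHV, parallelogram law), `∫‖v‖⁴ = 2∫‖u‖⁴`. -/
def SpecFTH : Prop := ∀ M : ℝ, M ≤ 179 / 10 → ∃ C : ℝ, ∀ (T : ℝ) (u : ℝ → EE → ℂ) (G : ℝ → Fin 2 → EE → ℂ),
  0 < T → H1Sol T u G → nrm (u 0) ^ 2 = M →
  (∃ D : ℝ, ∀ t ∈ Ico 0 T, nrm (G t 0) ≤ D ∧ nrm (G t 1) ≤ D) ∧
  ∀ t ∈ Ico 0 T, (∫ x, ‖u t x‖ ^ 4) ≤ C * (nrm (G 0 0) ^ 2 + nrm (G 0 1) ^ 2)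

end Pool.Agent.Lib.MP424d38.TH
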