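import Pool.Agent.Lib.MP_424d38_an.SpecE
import Pool.Agent.Lib.MP_424d38_an.SpecF
import Pool.Agent.Lib.MP_424d38_an.TH.SpecE

section
/-!
# MP_424d38_an: GRC (gradient control, both directions)
-/
set_option autoImplicit false

open MeasureTheory Filter Topology Set
open scoped ENNReal ContDiff ComplexConjugate

noncomputable section

namespace Pool.Agent.Lib.MP424d38.TY

namespace GRCM

/-- `n4` of the swapped function. -/
theorem n4_swp (hSWP : SpecSWP) (f : L2) : n4 (swp f) = n4 f := by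
  unfold n4
  congr 1
  have h1 : (swp f : ℝ × ℝ → ℂ) =ᵐ[volume] (fun x => f x.swap) := (hSWP.2.1 f).2
  rw [eLpNorm_congr_ae h1]
  exact eLpNorm_comp_measurePreserving (g := (f : ℝ × ℝ → ℂ)) (Lp.aestronglyMeasurable f)
    (Measure.measurePreserving_swap (μ := (volume : Measure ℝ)) (ν := (volume : Measure ℝ)))

/-- control of `v₂`. -/
theorem one (hTRN : SpecTRN) (hN4F : SpecN4F) (c C : ℝ) (hC : 0 < C)
    (h : ∀ (T : ℝ) (v v₁ v₂ N : ℝ → L2), Nls T v v₁ v₂ N →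
      ∀ t₁ t₂ h : ℝ, 0 ≤ t₁ → t₁ < t₂ → t₂ < T → (t₂ - t₁) * (∫ t in t₁..t₂, n4 (v t) ^ 8) ≤ c →
        ‖dq h (v t₂)‖ ^ 2 ≤
          (1 + C * ((t₂ - t₁) * (∫ t in t₁..t₂, n4 (v t) ^ 8)) ^ (1 / 4 : ℝ)) * ‖dq h (v t₁)‖ ^ 2)
    (T : ℝ) (v v₁ v₂ N : ℝ → L2) (hv : Nls T v v₁ v₂ N) (t₁ t₂ : ℝ) (h0 : 0 ≤ t₁) (h12 : t₁ ≤ t₂)
    (h2T : t₂ < T) (hc : (t₂ - t₁) * (∫ t in t₁..t₂, n4 (v t) ^ 8) ≤ c) (t : ℝ)
    (ht : t ∈ Icc t₁ t₂) :
    ‖v₂ t‖ ^ 2 ≤ (1 + C * ((t₂ - t₁) * (∫ t in t₁..t₂, n4 (v t) ^ 8)) ^ (1 / 4 : ℝ)) *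
      ‖v₂ t₁‖ ^ 2 := by
  have hcont : ContinuousOn (fun t => n4 (v t) ^ 8) (Ico 0 T) :=
    (hN4F.2.2.1 T v v₁ v₂ N hv.toLin).pow 8
  have hpos : ∀ s, 0 ≤ n4 (v s) ^ 8 := fun s => pow_nonneg ENNReal.toReal_nonneg 8
  have hint : IntervalIntegrable (fun t => n4 (v t) ^ 8) volume t₁ t₂ := by
    apply ContinuousOn.intervalIntegrable
    rw [uIcc_of_le h12]
    exact hcont.mono fun x hx => ⟨le_trans h0 hx.1, lt_of_le_of_lt hx.2 h2T⟩
  have hI0 : 0 ≤ ∫ t in t₁..t₂, n4 (v t) ^ 8 :=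
    intervalIntegral.integral_nonneg h12 fun s _ => hpos s
  have hε0 : 0 ≤ (t₂ - t₁) * (∫ t in t₁..t₂, n4 (v t) ^ 8) := mul_nonneg (by linarith) hI0
  rcases eq_or_lt_of_le ht.1 with heq | hlt
  · rw [← heq]
    have h1 : 0 ≤ C * ((t₂ - t₁) * (∫ t in t₁..t₂, n4 (v t) ^ 8)) ^ (1 / 4 : ℝ) :=
      mul_nonneg hC.le (Real.rpow_nonneg hε0 _)
    nlinarith [sq_nonneg ‖v₂ t₁‖, mul_nonneg h1 (sq_nonneg ‖v₂ t₁‖)]
  · have hI1 : ∫ s in t₁..t, n4 (v s) ^ 8 ≤ ∫ s in t₁..t₂, n4 (v s) ^ 8 := by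
      apply intervalIntegral.integral_mono_interval le_rfl ht.1 ht.2 _ hint
      exact Filter.Eventually.of_forall hpos
    have hI2 : 0 ≤ ∫ s in t₁..t, n4 (v s) ^ 8 :=
      intervalIntegral.integral_nonneg ht.1 fun s _ => hpos s
    have hε1 : (t - t₁) * (∫ s in t₁..t, n4 (v s) ^ 8)
        ≤ (t₂ - t₁) * (∫ s in t₁..t₂, n4 (v s) ^ 8) :=
      mul_le_mul (by linarith [ht.2]) hI1 hI2 (by linarith)
    have hε2 : 0 ≤ (t - t₁) * (∫ s in t₁..t, n4 (v s) ^ 8) := mul_nonneg (by linarith) hI2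
    have hT1 : t < T := lt_of_le_of_lt ht.2 h2T
    have key : ∀ h' : ℝ, ‖dq h' (v t)‖ ^ 2 ≤
        (1 + C * ((t₂ - t₁) * (∫ t in t₁..t₂, n4 (v t) ^ 8)) ^ (1 / 4 : ℝ)) *
          ‖dq h' (v t₁)‖ ^ 2 := by
      intro h'
      refine le_trans (h T v v₁ v₂ N hv t₁ t h' h0 hlt hT1 (le_trans hε1 hc)) ?_
      gcongr
    have hl : Tendsto (fun h' : ℝ => ‖dq h' (v t)‖ ^ 2) (𝓝[≠] 0) (𝓝 (‖v₂ t‖ ^ 2)) :=
      ((hTRN.2.2.1 _ _ _ (hv.h1 t ⟨le_trans h0 ht.1, hT1⟩)).norm).pow 2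
    have hr : Tendsto (fun h' : ℝ =>
        (1 + C * ((t₂ - t₁) * (∫ t in t₁..t₂, n4 (v t) ^ 8)) ^ (1 / 4 : ℝ)) *
          ‖dq h' (v t₁)‖ ^ 2) (𝓝[≠] 0)
        (𝓝 ((1 + C * ((t₂ - t₁) * (∫ t in t₁..t₂, n4 (v t) ^ 8)) ^ (1 / 4 : ℝ)) *
          ‖v₂ t₁‖ ^ 2)) :=
      (((hTRN.2.2.1 _ _ _ (hv.h1 t₁ ⟨h0, lt_of_le_of_lt h12 h2T⟩)).norm).pow 2).const_mul _
    exact le_of_tendsto_of_tendsto' hl hr key

end GRCM

theorem specGRC (hGCW : SpecGCW) (hTRN : SpecTRN) (hSWP : SpecSWP) (hN4F : SpecN4F) :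
    SpecGRC := by
  obtain ⟨c, C, hc, hC, h⟩ := hGCW
  refine ⟨c, C, hc, hC, ?_⟩
  intro T v v₁ v₂ N hv t₁ t₂ h0 h12 h2T hsm t ht
  refine ⟨?_, GRCM.one hTRN hN4F c C hC h T v v₁ v₂ N hv t₁ t₂ h0 h12 h2T hsm t ht⟩
  have hv' := hSWP.2.2.2 T v v₁ v₂ N hv
  have hn : ∀ s, n4 (swp (v s)) = n4 (v s) := fun s => GRCM.n4_swp hSWP (v s)
  have h1 := GRCM.one hTRN hN4F c C hC h T (fun t => swp (v t)) (fun t => swp (v₂ t))
    (fun t => swp (v₁ t)) (fun t => swp (N t)) hv' t₁ t₂ h0 h12 h2T (by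
      simp only [hn]; exact hsm) t ht
  simp only [hn] at h1
  rw [(hSWP.2.1 (v₁ t)).1, (hSWP.2.1 (v₁ t₁)).1] at h1
  exact h1

end Pool.Agent.Lib.MP424d38.TY
end
end

section
/-!
# MP_424d38_an: DAT (a nonzero solution gives data)
-/
set_option autoImplicit false

open MeasureTheory Filter Topology Set
open scoped ENNReal ContDiff ComplexConjugate

noncomputable section

namespace Pool.Agent.Lib.MP424d38.TY

namespace DATM

theorem n4_nonneg (f : L2) : 0 ≤ n4 f := ENNReal.toReal_nonneg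

theorem norm_zero_of_int (f : L2) (h4 : MemLp f 4 volume) (h : ∫ x, ‖f x‖ ^ 4 = 0) : ‖f‖ = 0 := by
  have hi : Integrable (fun x => ‖f x‖ ^ 4) volume := by
    have := h4.integrable_norm_rpow (by norm_num) (by norm_num)
    refine this.congr (Eventually.of_forall fun x => ?_)
    simp only [ENNReal.toReal_ofNat]
    exact_mod_cast Real.rpow_natCast _ 4
  have h0 := (integral_eq_zero_iff_of_nonneg (fun x => by positivity) hi).1 h
  have : (f : ℝ × ℝ → ℂ) =ᵐ[volume] 0 := by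
    filter_upwards [h0] with x hx
    have hx' : ‖f x‖ ^ 4 = 0 := hx
    have := pow_eq_zero_iff (n := 4) (by norm_num) |>.1 hx'
    simpa using this
  have h2 : f = 0 := Lp.eq_zero_iff_ae_eq_zero.2 this
  simp [h2]

/-- The part of the data coming from one direction. -/
theorem half (hFLO : SpecFLO) (hUGB : SpecUGB) (hSUP : SpecSUP)
    (T : ℝ) (v v₁ v₂ N : ℝ → L2) (hv : Nls T v v₁ v₂ N) :
    (∀ t ∈ Ico 0 T, IntegrableOn (fun t => gD (v t) (v₂ t)) (Icc 0 t)) ∧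
    (∀ t ∈ Ico 0 T, 4 * (∫ r in (0 : ℝ)..t, gD (v r) (v₂ r)) ≤
      ‖v 0‖ ^ 2 * Real.sqrt (‖v 0‖ ^ 2) * supT (fun t => ‖v₂ t‖) t) := by
  obtain ⟨ρ, p, e, hF, hFt⟩ := hFLO T v v₁ v₂ N hv
  have hgF : ∀ t ∈ Ico 0 T, gF ρ p e t = gD (v t) (v₂ t) := fun t ht => (hFt t ht).2.2.2.1
  have hα : ContinuousOn (fun t => ‖v₂ t‖) (Ico 0 T) := hv.c2.norm
  obtain ⟨s1, -, s3, -⟩ := hSUP T _ hα
  obtain ⟨u1, u2⟩ := hUGB T _ _ ρ p e hF
  have hsub : ∀ t ∈ Ico 0 T, Icc 0 t ⊆ Ico 0 T := fun t ht x hx => ⟨hx.1, lt_of_le_of_lt hx.2 ht.2⟩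
  refine ⟨fun t ht => ?_, fun t ht => ?_⟩
  · exact (u1 t ht).2.congr_fun (fun x hx => hgF x (hsub t ht hx)) measurableSet_Icc
  · have h := u2 (supT fun t => ‖v₂ t‖) s1 (fun t ht => ?_) t ht
    · have e1 : (∫ r in (0 : ℝ)..t, gD (v r) (v₂ r)) = ∫ r in (0 : ℝ)..t, gF ρ p e r := by
        apply intervalIntegral.integral_congr
        rw [uIcc_of_le ht.1]
        exact fun x hx => (hgF x (hsub t ht hx)).symm
      rw [e1]
      exact h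
    · have h0 : 0 ≤ ‖v₂ t‖ := norm_nonneg _
      have h1 : ‖v₂ t‖ ≤ supT (fun t => ‖v₂ t‖) t := s3 t ht t ⟨ht.1, le_rfl⟩
      refine ⟨h0.trans h1, ?_⟩
      rw [(hFt t ht).2.2.2.2]
      gcongr

theorem y_le (hSOB : SpecSOB) (hN4F : SpecN4F) (f F₁ F₂ : L2) (h : IsH1 f F₁ F₂) :
    n4 f ^ 8 ≤ ‖f‖ ^ 2 * ‖f‖ * ‖F₁‖ * gD f F₂ := by
  obtain ⟨-, -, -, hg0, -, h6, -, h8⟩ := hSOB f F₁ F₂ h
  have h4 := (hN4F.1 f F₁ F₂ h).2
  calc n4 f ^ 8 = (n4 f ^ 4) ^ 2 := by ring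
    _ = (∫ x, ‖f x‖ ^ 4) ^ 2 := by rw [h4]
    _ ≤ ‖f‖ ^ 2 * ∫ x, ‖f x‖ ^ 6 := h8
    _ ≤ ‖f‖ ^ 2 * (‖f‖ * ‖F₁‖ * gD f F₂) := by gcongr
    _ = _ := by ring

end DATM

open DATM in
theorem specDAT (hFLO : SpecFLO) (hUGB : SpecUGB) (hGAS : SpecGAS) (hGRC : SpecGRC)
    (hSOB : SpecSOB) (hN4F : SpecN4F) (hSWP : SpecSWP) (hRHL : SpecRHL) (hSUP : SpecSUP) :
    SpecDAT := by
  obtain ⟨c, C, hc, hC, hgc⟩ := hGRC
  refine ⟨c, C, ?_⟩
  intro T v v₁ v₂ N hT hv h0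
  have hmass := (hRHL T v v₁ v₂ N hv).2
  have hv' := hSWP.2.2.2 T v v₁ v₂ N hv
  have hsn : ∀ f : L2, ‖swp f‖ = ‖f‖ := fun f => (hSWP.2.1 f).1
  have hm : Real.sqrt (‖v 0‖ ^ 2) = ‖v 0‖ := Real.sqrt_sq (norm_nonneg _)
  have hn0 : ∀ t ∈ Ico 0 T, ‖v t‖ ≠ 0 := fun t ht => by rw [hmass t ht]; exact h0
  have h40 : ∀ t ∈ Ico 0 T, n4 (v t) ^ 4 ≠ 0 := by
    intro t ht h
    have h4 := hN4F.1 _ _ _ (hv.h1 t ht)
    exact hn0 t ht (norm_zero_of_int (v t) h4.1 (by rw [← h4.2, h]))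
  have h4b : ∀ t ∈ Ico 0 T, n4 (v t) ^ 4 ≤ ‖v 0‖ ^ 2 * ‖v₁ t‖ * ‖v₂ t‖ := by
    intro t ht
    have := hN4F.2.1 _ _ _ (hv.h1 t ht)
    rwa [hmass t ht] at this
  have hH := half hFLO hUGB hSUP T v v₁ v₂ N hv
  have hH' := half hFLO hUGB hSUP T _ _ _ _ hv'
  have hs1 : supT (fun t => ‖swp (v₁ t)‖) = supT (fun t => ‖v₁ t‖) := by
    congr 1
    funext t
    exact hsn _
  constructor
  · positivity
  · exact hc
  · exact hC
  · exact hv.c2.norm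
  · exact hv.c1.norm
  · exact (hN4F.2.2.1 T v v₁ v₂ N hv.toLin).pow 8
  · intro t ht
    refine ⟨?_, ?_, pow_nonneg (n4_nonneg _) 8, (hSOB _ _ _ (hv.h1 t ht)).2.2.2.1,
      (hSOB _ _ _ (hv'.h1 t ht)).2.2.2.1⟩
    · refine lt_of_le_of_ne (norm_nonneg _) fun h => ?_
      have h1 := h4b t ht
      rw [← h, mul_zero] at h1
      exact h40 t ht (le_antisymm h1 (pow_nonneg (n4_nonneg _) 4))
    · refine lt_of_le_of_ne (norm_nonneg _) fun h => ?_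
      have h1 := h4b t ht
      rw [← h, mul_zero, zero_mul] at h1
      exact h40 t ht (le_antisymm h1 (pow_nonneg (n4_nonneg _) 4))
  · intro t ht
    have := y_le hSOB hN4F _ _ _ (hv.h1 t ht)
    rw [hmass t ht] at this
    rw [hm]
    exact this
  · intro t ht
    have := y_le hSOB hN4F _ _ _ (hv'.h1 t ht)
    rw [hsn, hsn, hmass t ht, GRCM.n4_swp hSWP] at this
    rw [hm]
    exact this
  · intro t ht
    have h1 := h4b t ht
    have h2 : 0 ≤ n4 (v t) ^ 4 := pow_nonneg (n4_nonneg _) 4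
    calc n4 (v t) ^ 8 = (n4 (v t) ^ 4) ^ 2 := by ring
      _ ≤ (‖v 0‖ ^ 2 * ‖v₁ t‖ * ‖v₂ t‖) ^ 2 := by gcongr
      _ = _ := by ring
  · exact hH.1
  · exact hH'.1
  · exact hH.2
  · intro t ht
    have := hH'.2 t ht
    rw [hsn, hs1] at this
    exact this
  · intro t₁ t₂ h1 h2 h3 h4 t ht
    exact hgc T v v₁ v₂ N hv t₁ t₂ h1 h2 h3 h4 t ht
  · intro hI hlim c' t₁ hc' ht₁ h
    obtain ⟨ρ, p, e, hF, hFt⟩ := hFLO T v v₁ v₂ N hv
    have hα : ContinuousOn (fun t => ‖v₂ t‖) (Ico 0 T) := hv.c2.norm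
    obtain ⟨s1, -, s3, -⟩ := hSUP T _ hα
    have hpos : ∀ t ∈ Ico 0 T, 0 < ‖v₂ t‖ := by
      intro t ht
      refine lt_of_le_of_ne (norm_nonneg _) fun h => ?_
      have h1 := h4b t ht
      rw [← h, mul_zero] at h1
      exact h40 t ht (le_antisymm h1 (pow_nonneg (n4_nonneg _) 4))
    refine hGAS T _ _ ρ p e hT hF (supT fun t => ‖v₂ t‖) s1 (fun t ht => ?_) hI hlim c' t₁ hc' ht₁
      (fun t ht => ?_)
    · have h1 : ‖v₂ t‖ ≤ supT (fun t => ‖v₂ t‖) t := s3 t ht t ⟨ht.1, le_rfl⟩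
      refine ⟨(hpos t ht).trans_le h1, ?_⟩
      rw [(hFt t ht).2.2.2.2]
      gcongr
    · have h1 := h t ht
      have ht' : t ∈ Ico 0 T := ⟨ht₁.1.trans ht.1, ht.2⟩
      have e1 : (∫ r in (0 : ℝ)..t, gF ρ p e r) = ∫ r in (0 : ℝ)..t, gD (v r) (v₂ r) := by
        apply intervalIntegral.integral_congr
        rw [uIcc_of_le ht'.1]
        exact fun x hx => (hFt x ⟨hx.1, lt_of_le_of_lt hx.2 ht'.2⟩).2.2.2.1
      rw [e1]
      exact h1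

end Pool.Agent.Lib.MP424d38.TY
end
end

section
/-!
# MP_424d38_an: FIN (both theorems for `H¹` solutions on the plane)
-/
set_option autoImplicit false

open MeasureTheory Filter Topology Set
open scoped ENNReal ContDiff ComplexConjugate

noncomputable section

namespace Pool.Agent.Lib.MP424d38.TY

namespace FINM

/-- the relation between the two pictures at time `t`. -/
def Rel (v v₁ v₂ : ℝ → L2) (u : ℝ → EE → ℂ) (G : ℝ → Fin 2 → EE → ℂ) (t : ℝ) : Prop :=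
  (∀ᵐ x : ℝ × ℝ, v t x = u t (PhiN x)) ∧
  (∀ᵐ x : ℝ × ℝ, v₁ t x = (1 / 2 : ℂ) * (G t 0 (PhiN x) - G t 1 (PhiN x))) ∧
  (∀ᵐ x : ℝ × ℝ, v₂ t x = (1 / 2 : ℂ) * (G t 0 (PhiN x) + G t 1 (PhiN x)))

theorem nls_congr {T : ℝ} {v v₁ v₂ N w w₁ w₂ M : ℝ → L2} (h : Nls T v v₁ v₂ N)
    (e : ∀ t ∈ Ico 0 T, w t = v t) (e1 : ∀ t ∈ Ico 0 T, w₁ t = v₁ t)
    (e2 : ∀ t ∈ Ico 0 T, w₂ t = v₂ t) (eN : ∀ t ∈ Ico 0 T, M t = N t) : Nls T w w₁ w₂ M where
  h1 := fun t ht => by rw [e t ht, e1 t ht, e2 t ht]; exact h.h1 t ht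
  cv := h.cv.congr e
  c1 := h.c1.congr e1
  c2 := h.c2.congr e2
  cN := h.cN.congr eN
  eq := by
    intro ψ hψ s t hs hst ht
    have hs' : s ∈ Ico 0 T := ⟨hs, lt_of_le_of_lt hst ht⟩
    have ht' : t ∈ Ico 0 T := ⟨hs.trans hst, ht⟩
    rw [e t ht', e s hs', h.eq ψ hψ s t hs hst ht]
    apply intervalIntegral.integral_congr
    rw [uIcc_of_le hst]
    intro r hr
    have hr' : r ∈ Ico 0 T := ⟨hs.trans hr.1, lt_of_le_of_lt hr.2 ht⟩
    simp only [e2 r hr', eN r hr']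
  nl := fun t ht => by rw [e t ht, eN t ht]; exact h.nl t ht

theorem glue (hTRF : SpecTRF) (u : ℝ → EE → ℂ) (G : ℝ → Fin 2 → EE → ℂ)
    (h : ∀ T : ℝ, 0 < T → H1Sol T u G) :
    ∃ v v₁ v₂ N : ℝ → L2, ∀ T : ℝ, 0 < T → Nls T v v₁ v₂ N ∧ ∀ t ∈ Ico 0 T, Rel v v₁ v₂ u G t := by
  choose v v₁ v₂ N hv using fun (T : {T : ℝ // 0 < T}) => hTRF T.1 u G (h T.1 T.2)
  have hp : ∀ t : ℝ, 0 < |t| + 1 := fun t => by positivity
  set W : ℝ → {T : ℝ // 0 < T} := fun t => ⟨|t| + 1, hp t⟩ with hW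
  have hmem : ∀ t : ℝ, 0 ≤ t → t ∈ Ico 0 (W t).1 := fun t ht => by
    refine ⟨ht, ?_⟩
    simp only [hW, abs_of_nonneg ht]
    linarith
  have ev : ∀ (T : {T : ℝ // 0 < T}), ∀ t ∈ Ico 0 T.1, v (W t) t = v T t := by
    intro T t ht
    apply Lp.ext
    filter_upwards [((hv (W t)).2 t (hmem t ht.1)).1, ((hv T).2 t ht).1] with x h1 h2
    rw [h1, h2]
  have ev1 : ∀ (T : {T : ℝ // 0 < T}), ∀ t ∈ Ico 0 T.1, v₁ (W t) t = v₁ T t := by
    intro T t ht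
    apply Lp.ext
    filter_upwards [((hv (W t)).2 t (hmem t ht.1)).2.1, ((hv T).2 t ht).2.1] with x h1 h2
    rw [h1, h2]
  have ev2 : ∀ (T : {T : ℝ // 0 < T}), ∀ t ∈ Ico 0 T.1, v₂ (W t) t = v₂ T t := by
    intro T t ht
    apply Lp.ext
    filter_upwards [((hv (W t)).2 t (hmem t ht.1)).2.2, ((hv T).2 t ht).2.2] with x h1 h2
    rw [h1, h2]
  have evN : ∀ (T : {T : ℝ // 0 < T}), ∀ t ∈ Ico 0 T.1, N (W t) t = N T t := by
    intro T t ht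
    apply Lp.ext
    filter_upwards [(hv (W t)).1.nl t (hmem t ht.1), (hv T).1.nl t ht] with x h1 h2
    rw [h1, h2, ev T t ht]
  refine ⟨fun t => v (W t) t, fun t => v₁ (W t) t, fun t => v₂ (W t) t, fun t => N (W t) t, ?_⟩
  intro T hT
  refine ⟨nls_congr (hv ⟨T, hT⟩).1 (ev ⟨T, hT⟩) (ev1 ⟨T, hT⟩) (ev2 ⟨T, hT⟩) (evN ⟨T, hT⟩), ?_⟩
  intro t ht
  exact (hv (W t)).2 t (hmem t ht.1)

theorem norm_eq (hCHV : SpecCHV) (f : L2) (w : EE → ℂ) (hw : MemLp w 2 volume)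
    (h : ∀ᵐ x : ℝ × ℝ, f x = w (PhiN x)) : ‖f‖ = Real.sqrt 2 * nrm w := by
  have h1 : (f : ℝ × ℝ → ℂ) =ᵐ[volume] fun x => w (PhiN x) := h
  rw [Lp.norm_def, eLpNorm_congr_ae h1, hCHV.2.2.2.2.1 w hw.1, ENNReal.toReal_mul,
    ENNReal.toReal_ofReal (Real.sqrt_nonneg 2)]
  rfl

theorem nrm_half (w : EE → ℂ) : nrm (fun y => (1 / 2 : ℂ) * w y) = 1 / 2 * nrm w := by
  unfold nrm
  have h1 : (fun y => (1 / 2 : ℂ) * w y) = (1 / 2 : ℂ) • w := by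
    funext y
    simp
  rw [h1, eLpNorm_const_smul, ENNReal.toReal_mul]
  simp

theorem nrm_nonneg (w : EE → ℂ) : 0 ≤ nrm w := ENNReal.toReal_nonneg

theorem nrm_add {f g : EE → ℂ} (hf : MemLp f 2 volume) (hg : MemLp g 2 volume) :
    nrm (f + g) ≤ nrm f + nrm g := by
  unfold nrm
  rw [← ENNReal.toReal_add hf.2.ne hg.2.ne]
  exact ENNReal.toReal_mono (ENNReal.add_ne_top.2 ⟨hf.2.ne, hg.2.ne⟩)
    (eLpNorm_add_le hf.1 hg.1 (by norm_num))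

theorem nrm_sub {f g : EE → ℂ} (hf : MemLp f 2 volume) (hg : MemLp g 2 volume) :
    nrm (f - g) ≤ nrm f + nrm g := by
  have h1 := nrm_add hf hg.neg
  have h2 : nrm (-g) = nrm g := by
    unfold nrm
    rw [eLpNorm_neg]
  rw [h2, ← sub_eq_add_neg] at h1
  exact h1

/-- relations of norms. -/
theorem rels (hCHV : SpecCHV) {T : ℝ} {v v₁ v₂ : ℝ → L2} {u : ℝ → EE → ℂ}
    {G : ℝ → Fin 2 → EE → ℂ} (hs : H1Sol T u G) {t : ℝ} (ht : t ∈ Ico 0 T)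
    (h : Rel v v₁ v₂ u G t) :
    ‖v t‖ = Real.sqrt 2 * nrm (u t) ∧
    ‖v₁ t‖ = Real.sqrt 2 * (1 / 2 * nrm (G t 0 - G t 1)) ∧
    ‖v₂ t‖ = Real.sqrt 2 * (1 / 2 * nrm (G t 0 + G t 1)) ∧
    (∫ x, ‖v t x‖ ^ 4) = 2 * ∫ y, ‖u t y‖ ^ 4 := by
  have m0 := hs.memG t ht 0
  have m1 := hs.memG t ht 1
  refine ⟨norm_eq hCHV _ _ (hs.memu t ht) h.1, ?_, ?_, ?_⟩
  · rw [← nrm_half]
    exact norm_eq hCHV _ _ ((m0.sub m1).const_mul _) h.2.1
  · rw [← nrm_half]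
    exact norm_eq hCHV _ _ ((m0.add m1).const_mul _) h.2.2
  · rw [← hCHV.2.2.2.2.2 (u t)]
    apply integral_congr_ae
    filter_upwards [h.1] with x hx
    rw [hx]

theorem bound_G {T : ℝ} {u : ℝ → EE → ℂ} {G : ℝ → Fin 2 → EE → ℂ} (hs : H1Sol T u G) {t : ℝ}
    (ht : t ∈ Ico 0 T) {D : ℝ} (h1 : nrm (G t 0 - G t 1) ≤ D) (h2 : nrm (G t 0 + G t 1) ≤ D) :
    nrm (G t 0) ≤ D ∧ nrm (G t 1) ≤ D := by
  have m0 := hs.memG t ht 0
  have m1 := hs.memG t ht 1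
  have e0 : G t 0 = fun y => (1 / 2 : ℂ) * ((G t 0 + G t 1) + (G t 0 - G t 1)) y := by
    funext y
    simp only [Pi.add_apply, Pi.sub_apply]
    ring
  have e1 : G t 1 = fun y => (1 / 2 : ℂ) * ((G t 0 + G t 1) - (G t 0 - G t 1)) y := by
    funext y
    simp only [Pi.add_apply, Pi.sub_apply]
    ring
  constructor
  · rw [e0, nrm_half]
    have := nrm_add (m0.add m1) (m0.sub m1)
    linarith
  · rw [e1, nrm_half]
    have := nrm_sub (m0.add m1) (m0.sub m1)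
    linarith

theorem prod_eq {a b c d : ℝ} (ha : a = Real.sqrt 2 * (1 / 2 * c)) (hb : b = Real.sqrt 2 * (1 / 2 * d)) :
    a * b = 1 / 2 * (c * d) := by
  have h := Real.mul_self_sqrt (show (0 : ℝ) ≤ 2 by norm_num)
  rw [ha, hb]
  calc Real.sqrt 2 * (1 / 2 * c) * (Real.sqrt 2 * (1 / 2 * d))
      = (Real.sqrt 2 * Real.sqrt 2) * (1 / 4 * (c * d)) := by ring
    _ = _ := by rw [h]; ring

theorem part1 (hTRF : SpecTRF) (hNUL : SpecNUL) (hCHV : SpecCHV) (T : ℝ) (u : ℝ → EE → ℂ)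
    (G : ℝ → Fin 2 → EE → ℂ) (hT : 0 < T) (hs : H1Sol T u G) (K : ℝ)
    (hK : ∀ t ∈ Ico 0 T, ∀ s ∈ Icc 0 t, ∀ s' ∈ Icc 0 t,
      nrm (G s 0 + G s 1) * nrm (G s' 0 - G s' 1) ≤ K / (T - t)) :
    ∃ D : ℝ, ∀ t ∈ Ico 0 T, nrm (G t 0) ≤ D ∧ nrm (G t 1) ≤ D := by
  obtain ⟨v, v₁, v₂, N, hv, hr⟩ := hTRF T u G hs
  obtain ⟨D, hD⟩ := hNUL.1 T (K / 2) v v₁ v₂ N hT hv (fun t ht s hs1 s' hs2 => by
    have i1 : s ∈ Ico 0 T := ⟨hs1.1, lt_of_le_of_lt hs1.2 ht.2⟩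
    have i2 : s' ∈ Ico 0 T := ⟨hs2.1, lt_of_le_of_lt hs2.2 ht.2⟩
    have r1 := rels hCHV hs i1 (hr s i1)
    have r2 := rels hCHV hs i2 (hr s' i2)
    rw [prod_eq r1.2.2.1 r2.2.1]
    have := hK t ht s hs1 s' hs2
    have h2 : K / 2 / (T - t) = 1 / 2 * (K / (T - t)) := by ring
    rw [h2]
    linarith)
  refine ⟨Real.sqrt 2 * D, fun t ht => ?_⟩
  have r := rels hCHV hs ht (hr t ht)
  have hh := hD t ht
  have hsq := Real.mul_self_sqrt (show (0 : ℝ) ≤ 2 by norm_num)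
  have key : ∀ a c : ℝ, a = Real.sqrt 2 * (1 / 2 * c) → a ≤ D → c ≤ Real.sqrt 2 * D := by
    intro a c h h'
    have h3 : Real.sqrt 2 * a ≤ Real.sqrt 2 * D := mul_le_mul_of_nonneg_left h' (Real.sqrt_nonneg 2)
    have h4 : Real.sqrt 2 * a = c := by
      rw [h]
      calc Real.sqrt 2 * (Real.sqrt 2 * (1 / 2 * c)) = (Real.sqrt 2 * Real.sqrt 2) * (1 / 2 * c) := by ring
        _ = c := by rw [hsq]; ring
    linarith
  exact bound_G hs ht (key _ _ r.2.1 hh.1) (key _ _ r.2.2.1 hh.2)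

theorem not_bdd (hCHV : SpecCHV) {T : ℝ} {v v₁ v₂ : ℝ → L2} {u : ℝ → EE → ℂ}
    {G : ℝ → Fin 2 → EE → ℂ} (hs : H1Sol T u G) (hr : ∀ t ∈ Ico 0 T, Rel v v₁ v₂ u G t)
    (hun : ¬ ∃ D : ℝ, ∀ t ∈ Ico 0 T, nrm (G t 0) ≤ D ∧ nrm (G t 1) ≤ D) :
    ¬ ∃ D : ℝ, ∀ t ∈ Ico 0 T, ‖v₁ t‖ ≤ D ∧ ‖v₂ t‖ ≤ D := by
  rintro ⟨D, hD⟩
  apply hun
  refine ⟨Real.sqrt 2 * D, fun t ht => ?_⟩
  have r := rels hCHV hs ht (hr t ht)
  have hh := hD t ht
  have hsq := Real.mul_self_sqrt (show (0 : ℝ) ≤ 2 by norm_num)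
  have key : ∀ a c : ℝ, a = Real.sqrt 2 * (1 / 2 * c) → a ≤ D → c ≤ Real.sqrt 2 * D := by
    intro a c h h'
    have h3 : Real.sqrt 2 * a ≤ Real.sqrt 2 * D := mul_le_mul_of_nonneg_left h' (Real.sqrt_nonneg 2)
    have h4 : Real.sqrt 2 * a = c := by
      rw [h]
      calc Real.sqrt 2 * (Real.sqrt 2 * (1 / 2 * c)) = (Real.sqrt 2 * Real.sqrt 2) * (1 / 2 * c) := by ring
        _ = c := by rw [hsq]; ring
    linarith
  exact bound_G hs ht (key _ _ r.2.1 hh.1) (key _ _ r.2.2.1 hh.2)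

theorem norm0 (hCHV : SpecCHV) {T : ℝ} {v v₁ v₂ : ℝ → L2} {u : ℝ → EE → ℂ}
    {G : ℝ → Fin 2 → EE → ℂ} (hT : 0 < T) (hs : H1Sol T u G)
    (hr : ∀ t ∈ Ico 0 T, Rel v v₁ v₂ u G t) (h0 : nrm (u 0) ≠ 0) : ‖v 0‖ ≠ 0 := by
  have ht : (0 : ℝ) ∈ Ico 0 T := ⟨le_rfl, hT⟩
  rw [(rels hCHV hs ht (hr 0 ht)).1]
  have : Real.sqrt 2 ≠ 0 := by positivity
  exact mul_ne_zero this h0

end FINM

open FINM in
theorem specFIN (hTRF : SpecTRF) (hNUL : SpecNUL) (hCHV : SpecCHV) : SpecFIN := by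
  refine ⟨fun T u G hT hs K hK => part1 hTRF hNUL hCHV T u G hT hs K hK, ?_, ?_, ?_⟩
  · intro T u G hT hs K hK
    refine part1 hTRF hNUL hCHV T u G hT hs (2 * K) (fun t ht s hs1 s' hs2 => ?_)
    have hK0 : 0 ≤ K := by
      have h1 := hK t ht
      have h2 : 0 < T - t := by linarith [ht.2]
      have h3 : 0 ≤ K / (T - t) := le_trans (by positivity) h1
      by_contra h
      push Not at h
      exact absurd h3 (not_le.2 (div_neg_of_neg_of_pos h h2))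
    have key : ∀ r ∈ Icc 0 t, (nrm (G r 0) + nrm (G r 1)) ^ 2 ≤ 2 * K / (T - t) := by
      intro r hr
      have i1 : r ∈ Ico 0 T := ⟨hr.1, lt_of_le_of_lt hr.2 ht.2⟩
      have h1 := hK r i1
      have h2 : 0 < T - t := by linarith [ht.2]
      have h3 : K / (T - r) ≤ K / (T - t) := by
        apply div_le_div_of_nonneg_left hK0 h2
        linarith [hr.2]
      have h4 : 2 * K / (T - t) = 2 * (K / (T - t)) := by ring
      rw [h4]
      nlinarith [sq_nonneg (nrm (G r 0) - nrm (G r 1))]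
    have i1 : s ∈ Ico 0 T := ⟨hs1.1, lt_of_le_of_lt hs1.2 ht.2⟩
    have i2 : s' ∈ Ico 0 T := ⟨hs2.1, lt_of_le_of_lt hs2.2 ht.2⟩
    have a1 := nrm_add (hs.memG s i1 0) (hs.memG s i1 1)
    have a2 := nrm_sub (hs.memG s' i2 0) (hs.memG s' i2 1)
    have k1 := key s hs1
    have k2 := key s' hs2
    have n1 := nrm_nonneg (G s 0 + G s 1)
    have n2 := nrm_nonneg (G s' 0 - G s' 1)
    have m1 : nrm (G s 0 + G s 1) ^ 2 ≤ 2 * K / (T - t) :=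
      le_trans (pow_le_pow_left₀ n1 a1 2) k1
    have m2 : nrm (G s' 0 - G s' 1) ^ 2 ≤ 2 * K / (T - t) :=
      le_trans (pow_le_pow_left₀ n2 a2 2) k2
    nlinarith [sq_nonneg (nrm (G s 0 + G s 1) - nrm (G s' 0 - G s' 1))]
  · intro T u G hT hs h0 hun κ t₀ hκ ht₀
    obtain ⟨v, v₁, v₂, N, hv, hr⟩ := hTRF T u G hs
    have hr' : ∀ t ∈ Ico 0 T, Rel v v₁ v₂ u G t := hr
    obtain ⟨t, ht, htt, s, hs1, s', hs2, hlt⟩ := hNUL.2.1 T v v₁ v₂ N hT hv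
      (norm0 hCHV hT hs hr' h0) (not_bdd hCHV hs hr' hun) (4 * κ) t₀ (by positivity) ht₀
    refine ⟨t, ht, htt, s, hs1, s', hs2, ?_⟩
    have i1 : s ∈ Ico 0 T := ⟨hs1.1, lt_of_le_of_lt hs1.2 ht.2⟩
    have i2 : s' ∈ Ico 0 T := ⟨hs2.1, lt_of_le_of_lt hs2.2 ht.2⟩
    have r1 := rels hCHV hs i1 (hr' s i1)
    have r2 := rels hCHV hs i2 (hr' s' i2)
    have r := rels hCHV hs ht (hr' t ht)
    rw [r.2.2.2, prod_eq r1.2.2.1 r2.2.1] at hlt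
    linarith
  · intro u G hs h0 κ t₀ hκ
    obtain ⟨v, v₁, v₂, N, hv⟩ := glue hTRF u G hs
    obtain ⟨t, ht, htt, s, hs1, s', hs2, hlt⟩ := hNUL.2.2 v v₁ v₂ N (fun T hT => (hv T hT).1)
      (norm0 hCHV one_pos (hs 1 one_pos) (hv 1 one_pos).2 h0) (4 * κ) t₀ (by positivity)
    refine ⟨t, ht, htt, s, hs1, s', hs2, ?_⟩
    have hT : 0 < t + 1 := by linarith
    have i0 : t ∈ Ico 0 (t + 1) := ⟨ht, by linarith⟩
    have i1 : s ∈ Ico 0 (t + 1) := ⟨hs1.1, by linarith [hs1.2]⟩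
    have i2 : s' ∈ Ico 0 (t + 1) := ⟨hs2.1, by linarith [hs2.2]⟩
    have r1 := rels hCHV (hs _ hT) i1 ((hv _ hT).2 s i1)
    have r2 := rels hCHV (hs _ hT) i2 ((hv _ hT).2 s' i2)
    have r := rels hCHV (hs _ hT) i0 ((hv _ hT).2 t i0)
    rw [r.2.2.2, prod_eq r1.2.2.1 r2.2.1] at hlt
    linarith

end Pool.Agent.Lib.MP424d38.TY
end
end

section
/-!
# MP_424d38_an, block F, module RA2: Theorem N, real analysis
-/
set_option autoImplicit false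

open MeasureTheory Filter Topology Set
open scoped ENNReal ContDiff ComplexConjugate

noncomputable section

namespace Pool.Agent.Lib.MP424d38.TY

namespace RA2M

theorem one {M κ t₀ t : ℝ} {A B b y g : ℝ → ℝ} (hM : 0 < M) (hκ : 0 < κ) (h0 : 0 ≤ t₀)
    (ht : t₀ ≤ t) (hA : ContinuousOn A (Icc t₀ t)) (hB : ContinuousOn B (Icc t₀ t))
    (hpos : ∀ s ∈ Icc t₀ t, 0 < A s ∧ 0 < B s) (hyg : ∀ s ∈ Icc t₀ t, y s ≤ M * b s * g s)
    (hb : ∀ s ∈ Icc t₀ t, b s ≤ B s) (hg : ∀ s ∈ Icc 0 t, 0 ≤ g s)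
    (hy : ∀ s ∈ Icc t₀ t, κ * (A s * B s) ≤ Real.sqrt (y s)) (hi : IntegrableOn g (Icc 0 t))
    (hbd : 4 * (∫ r in (0 : ℝ)..t, g r) ≤ M * A t) :
    ∫ s in t₀..t, A s * (A s * B s) ≤ M ^ 2 / (4 * κ ^ 2) * A t := by
  have h0t : 0 ≤ t := h0.trans ht
  have hii : ∀ a b : ℝ, 0 ≤ a → a ≤ b → b ≤ t → IntervalIntegrable g volume a b := by
    intro a b ha hab hbt
    rw [intervalIntegrable_iff_integrableOn_Icc_of_le hab]
    exact hi.mono_set (Icc_subset_Icc ha hbt)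
  have hpt : ∀ s ∈ Icc t₀ t, A s * (A s * B s) ≤ M / κ ^ 2 * g s := by
    intro s hs
    obtain ⟨hA0, hB0⟩ := hpos s hs
    have hg0 := hg s ⟨h0.trans hs.1, hs.2⟩
    have h1 := hy s hs
    have h2 : 0 ≤ κ * (A s * B s) := by positivity
    have h3 : (κ * (A s * B s)) ^ 2 ≤ y s := by
      have h4 : 0 < Real.sqrt (y s) := lt_of_lt_of_le (by positivity) h1
      have h5 : 0 < y s := Real.sqrt_pos.1 h4
      calc (κ * (A s * B s)) ^ 2 ≤ Real.sqrt (y s) ^ 2 := pow_le_pow_left₀ h2 h1 2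
        _ = y s := Real.sq_sqrt h5.le
    have h6 : (κ * (A s * B s)) ^ 2 ≤ M * B s * g s := by
      refine h3.trans ((hyg s hs).trans ?_)
      have := hb s hs
      gcongr
    have h7 : κ ^ 2 * (A s * (A s * B s)) ≤ M * g s := by
      have h8 : B s * (κ ^ 2 * (A s * (A s * B s))) ≤ B s * (M * g s) := by
        calc B s * (κ ^ 2 * (A s * (A s * B s))) = (κ * (A s * B s)) ^ 2 := by ring
          _ ≤ M * B s * g s := h6
          _ = B s * (M * g s) := by ring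
      exact le_of_mul_le_mul_left h8 hB0
    rw [div_mul_eq_mul_div, le_div_iff₀ (by positivity)]
    linarith
  have hcont : ContinuousOn (fun s => A s * (A s * B s)) (Icc t₀ t) := hA.mul (hA.mul hB)
  have h1 : ∫ s in t₀..t, A s * (A s * B s) ≤ ∫ s in t₀..t, M / κ ^ 2 * g s := by
    refine intervalIntegral.integral_mono_on ht ?_ ((hii t₀ t h0 ht le_rfl).const_mul _) hpt
    apply ContinuousOn.intervalIntegrable
    rwa [uIcc_of_le ht]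
  rw [intervalIntegral.integral_const_mul] at h1
  have h2 : ∫ s in t₀..t, g s ≤ ∫ s in (0 : ℝ)..t, g s := by
    rw [← intervalIntegral.integral_add_adjacent_intervals (hii 0 t₀ le_rfl h0 ht)
      (hii t₀ t h0 ht le_rfl)]
    have : 0 ≤ ∫ s in (0 : ℝ)..t₀, g s :=
      intervalIntegral.integral_nonneg h0 fun s hs => hg s ⟨hs.1, hs.2.trans ht⟩
    linarith
  have h3 : ∫ s in (0 : ℝ)..t, g s ≤ M * A t / 4 := by linarith
  calc ∫ s in t₀..t, A s * (A s * B s) ≤ M / κ ^ 2 * ∫ s in t₀..t, g s := h1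
    _ ≤ M / κ ^ 2 * (M * A t / 4) := by
      have : 0 ≤ M / κ ^ 2 := by positivity
      exact mul_le_mul_of_nonneg_left (h2.trans h3) this
    _ = M ^ 2 / (4 * κ ^ 2) * A t := by
      field_simp

/-- The integral of `Λ^{3/2}`. -/
theorem two {C₁ t₀ t : ℝ} {A B : ℝ → ℝ} (ht : t₀ ≤ t)
    (hA : ContinuousOn A (Icc t₀ t)) (hB : ContinuousOn B (Icc t₀ t))
    (hpos : ∀ s ∈ Icc t₀ t, 0 < A s ∧ 0 < B s)
    (h1 : ∫ s in t₀..t, A s * (A s * B s) ≤ C₁ * A t)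
    (h2 : ∫ s in t₀..t, B s * (B s * A s) ≤ C₁ * B t) :
    ∫ s in t₀..t, (A s * B s) ^ (3 / 2 : ℝ) ≤ C₁ * (A t * B t) ^ (1 / 2 : ℝ) := by
  obtain ⟨hAt, hBt⟩ := hpos t ⟨ht, le_rfl⟩
  set a := Real.sqrt (A t) with ha
  set b := Real.sqrt (B t) with hb
  have ha0 : 0 < a := Real.sqrt_pos.2 hAt
  have hb0 : 0 < b := Real.sqrt_pos.2 hBt
  have haa : a ^ 2 = A t := Real.sq_sqrt hAt.le
  have hbb : b ^ 2 = B t := Real.sq_sqrt hBt.le
  have hint : ∀ F G : ℝ → ℝ, ContinuousOn F (Icc t₀ t) → ContinuousOn G (Icc t₀ t) →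
      ∀ r : ℝ, IntervalIntegrable (fun s => r * (F s * (F s * G s))) volume t₀ t := by
    intro F G hF hG r
    apply ContinuousOn.intervalIntegrable
    rw [uIcc_of_le ht]
    exact continuousOn_const.mul (hF.mul (hF.mul hG))
  have hpt : ∀ s ∈ Icc t₀ t, (A s * B s) ^ (3 / 2 : ℝ) ≤
      b / (2 * a) * (A s * (A s * B s)) + a / (2 * b) * (B s * (B s * A s)) := by
    intro s hs
    obtain ⟨hA0, hB0⟩ := hpos s hs
    set p := Real.sqrt (A s) with hp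
    set q := Real.sqrt (B s) with hq
    have hp0 : 0 < p := Real.sqrt_pos.2 hA0
    have hq0 : 0 < q := Real.sqrt_pos.2 hB0
    have hpp : A s = p ^ 2 := (Real.sq_sqrt hA0.le).symm
    have hqq : B s = q ^ 2 := (Real.sq_sqrt hB0.le).symm
    have e1 : (A s * B s) ^ (3 / 2 : ℝ) = (p * q) ^ 3 := by
      have : A s * B s = (p * q) ^ (2 : ℝ) := by
        rw [hpp, hqq, Real.rpow_two]; ring
      rw [this, ← Real.rpow_mul (by positivity)]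
      norm_num
    rw [e1, hpp, hqq]
    have e2 : b / (2 * a) * (p ^ 2 * (p ^ 2 * q ^ 2)) + a / (2 * b) * (q ^ 2 * (q ^ 2 * p ^ 2)) -
        (p * q) ^ 3 = (p * q) ^ 2 / (2 * a * b) * (b * p - a * q) ^ 2 := by
      field_simp
      ring
    have e3 : 0 ≤ (p * q) ^ 2 / (2 * a * b) * (b * p - a * q) ^ 2 := by positivity
    linarith
  have h3 : ∫ s in t₀..t, (A s * B s) ^ (3 / 2 : ℝ) ≤
      ∫ s in t₀..t, (b / (2 * a) * (A s * (A s * B s)) + a / (2 * b) * (B s * (B s * A s))) := by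
    refine intervalIntegral.integral_mono_on ht ?_ ((hint A B hA hB _).add (hint B A hB hA _)) hpt
    apply ContinuousOn.intervalIntegrable
    rw [uIcc_of_le ht]
    exact (hA.mul hB).rpow_const fun s _ => Or.inr (by norm_num)
  rw [intervalIntegral.integral_add (hint A B hA hB _) (hint B A hB hA _),
    intervalIntegral.integral_const_mul, intervalIntegral.integral_const_mul] at h3
  have e4 : (A t * B t) ^ (1 / 2 : ℝ) = a * b := by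
    have : A t * B t = (a * b) ^ (2 : ℝ) := by
      rw [← haa, ← hbb, Real.rpow_two]; ring
    rw [this, ← Real.rpow_mul (by positivity)]
    norm_num
  rw [e4]
  have h4 : b / (2 * a) * ∫ s in t₀..t, A s * (A s * B s) ≤ b / (2 * a) * (C₁ * A t) :=
    mul_le_mul_of_nonneg_left h1 (by positivity)
  have h5 : a / (2 * b) * ∫ s in t₀..t, B s * (B s * A s) ≤ a / (2 * b) * (C₁ * B t) :=
    mul_le_mul_of_nonneg_left h2 (by positivity)
  have h6 : b / (2 * a) * (C₁ * A t) + a / (2 * b) * (C₁ * B t) = C₁ * (a * b) := by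
    rw [← haa, ← hbb]
    field_simp
    ring
  linarith

/-- The bound `Λ(t)(T' - t) ≤ K`. -/
theorem key (hSUP : SpecSUP) (hRZ : SpecRZ) {m κ : ℝ} (hm : 0 < m) (hκ : 0 < κ) :
    ∃ K : ℝ, ∀ (T c C : ℝ) (α β y g gs : ℝ → ℝ), Dat T m c C α β y g gs → ∀ t₀ T' : ℝ,
      0 ≤ t₀ → t₀ < T' → T' < T →
      (∀ t ∈ Icc t₀ T', κ * (supT α t * supT β t) ≤ Real.sqrt (y t)) →
      ∀ t ∈ Ico t₀ T', supT α t * supT β t * (T' - t) ≤ K := by
  set M : ℝ := m * Real.sqrt m with hMdef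
  have hM : 0 < M := by
    have := Real.sqrt_pos.2 hm
    positivity
  obtain ⟨K, hK⟩ := hRZ (M ^ 2 / (4 * κ ^ 2)) (by positivity)
  refine ⟨K, ?_⟩
  intro T c C α β y g gs hD t₀ T' h0 h0T hT'T hy t ht
  obtain ⟨hmα, hcα, hleα, -⟩ := hSUP T α hD.cα
  obtain ⟨hmβ, hcβ, hleβ, -⟩ := hSUP T β hD.cβ
  have hsub : Icc t₀ T' ⊆ Ico 0 T := fun s hs => ⟨h0.trans hs.1, lt_of_le_of_lt hs.2 hT'T⟩
  have hpos : ∀ s ∈ Ico 0 T, 0 < supT α s ∧ 0 < supT β s := by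
    intro s hs
    exact ⟨lt_of_lt_of_le (hD.pos s hs).1 (hleα s hs s ⟨hs.1, le_rfl⟩),
      lt_of_lt_of_le (hD.pos s hs).2.1 (hleβ s hs s ⟨hs.1, le_rfl⟩)⟩
  refine hK t₀ T' (fun s => supT α s * supT β s) h0T
    ((hcα.mono hsub).mul (hcβ.mono hsub)) ?_ (fun s hs => ?_) ?_ t ht
  · intro s hs s' hs' hss'
    exact mul_le_mul (hmα (hsub hs) (hsub hs') hss') (hmβ (hsub hs) (hsub hs') hss')
      (hpos s (hsub hs)).2.le (hpos s' (hsub hs')).1.le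
  · exact mul_pos (hpos s (hsub hs)).1 (hpos s (hsub hs)).2
  · intro s hs
    have hsub' : Icc t₀ s ⊆ Ico 0 T := fun r hr => hsub ⟨hr.1, hr.2.trans hs.2⟩
    have hs0 : s ∈ Ico 0 T := hsub hs
    have hcA : ContinuousOn (supT α) (Icc t₀ s) := hcα.mono hsub'
    have hcB : ContinuousOn (supT β) (Icc t₀ s) := hcβ.mono hsub'
    have hin : ∀ r ∈ Icc 0 s, r ∈ Ico 0 T := fun r hr => ⟨hr.1, lt_of_le_of_lt hr.2 hs0.2⟩
    refine two hs.1 hcA hcB (fun r hr => hpos r (hsub' hr)) ?_ ?_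
    · refine one (b := β) (y := y) (g := g) hM hκ h0 hs.1 hcA hcB
        (fun r hr => hpos r (hsub' hr)) (fun r hr => hD.yg r (hsub' hr))
        (fun r hr => hleβ r (hsub' hr) r ⟨(hsub' hr).1, le_rfl⟩)
        (fun r hr => (hD.pos r (hin r hr)).2.2.2.1)
        (fun r hr => hy r ⟨hr.1, hr.2.trans hs.2⟩) (hD.ig s hs0) (hD.bg s hs0)
    · refine one (b := α) (y := y) (g := gs) hM hκ h0 hs.1 hcB hcA
        (fun r hr => (hpos r (hsub' hr)).symm) (fun r hr => hD.ygs r (hsub' hr))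
        (fun r hr => hleα r (hsub' hr) r ⟨(hsub' hr).1, le_rfl⟩)
        (fun r hr => (hD.pos r (hin r hr)).2.2.2.2)
        (fun r hr => ?_) (hD.igs s hs0) (hD.bgs s hs0)
      rw [mul_comm (supT β r)]
      exact hy r ⟨hr.1, hr.2.trans hs.2⟩

end RA2M

open RA2M in
theorem specRA2 (hRA1 : SpecRA1) (hRZ : SpecRZ) (hSUP : SpecSUP) : SpecRA2 := by
  constructor
  · intro T m c C α β y g gs hT hD κ t₀ hκ ht₀ hy
    obtain ⟨K, hK⟩ := key hSUP hRZ hD.m0 hκ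
    obtain ⟨hmα, hcα, hleα, -⟩ := hSUP T α hD.cα
    obtain ⟨hmβ, hcβ, hleβ, -⟩ := hSUP T β hD.cβ
    have hpos : ∀ s ∈ Ico 0 T, 0 < supT α s ∧ 0 < supT β s := by
      intro s hs
      exact ⟨lt_of_lt_of_le (hD.pos s hs).1 (hleα s hs s ⟨hs.1, le_rfl⟩),
        lt_of_lt_of_le (hD.pos s hs).2.1 (hleβ s hs s ⟨hs.1, le_rfl⟩)⟩
    have h1 : ∀ t ∈ Ico t₀ T, supT α t * supT β t * (T - t) ≤ K := by
      intro t ht
      have hlim : Tendsto (fun T' : ℝ => supT α t * supT β t * (T' - t)) (𝓝[<] T)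
          (𝓝 (supT α t * supT β t * (T - t))) := by
        apply Tendsto.mono_left _ nhdsWithin_le_nhds
        exact (continuous_const.mul (continuous_id.sub continuous_const)).tendsto T
      refine le_of_tendsto hlim ?_
      filter_upwards [Ioo_mem_nhdsLT ht.2] with T' hT'
      exact hK T c C α β y g gs hD t₀ T' ht₀.1 (lt_of_le_of_lt ht.1 hT'.1) hT'.2
        (fun s hs => hy s ⟨hs.1, lt_of_le_of_lt hs.2 hT'.2⟩) t ⟨ht.1, hT'.1⟩
    set K' : ℝ := max K (supT α t₀ * supT β t₀ * T) with hK'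
    refine hRA1 T m c C α β y g gs hT hD K' ?_
    intro t ht
    rw [le_div_iff₀ (by linarith [ht.2])]
    rcases le_or_gt t₀ t with h | h
    · exact (h1 t ⟨h, ht.2⟩).trans (le_max_left _ _)
    · refine le_trans ?_ (le_max_right _ _)
      have h2 : supT α t * supT β t ≤ supT α t₀ * supT β t₀ :=
        mul_le_mul (hmα ht ht₀ h.le) (hmβ ht ht₀ h.le) (hpos t ht).2.le (hpos t₀ ht₀).1.le
      have h3 : T - t ≤ T := by linarith [ht.1]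
      have h4 : 0 ≤ T - t := by linarith [ht.2]
      have h5 : 0 ≤ supT α t₀ * supT β t₀ :=
        mul_nonneg (hpos t₀ ht₀).1.le (hpos t₀ ht₀).2.le
      exact mul_le_mul h2 h3 h4 h5
  · intro m c C α β y g gs hD κ t₀ hκ ht₀ hy
    obtain ⟨K, hK⟩ := key hSUP hRZ (hD 1 one_pos).m0 hκ
    have hD0 := hD (t₀ + 1) (by linarith)
    obtain ⟨-, -, hleα, -⟩ := hSUP (t₀ + 1) α hD0.cα
    obtain ⟨-, -, hleβ, -⟩ := hSUP (t₀ + 1) β hD0.cβ
    have hmem : t₀ ∈ Ico 0 (t₀ + 1) := ⟨ht₀, by linarith⟩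
    have hpos : 0 < supT α t₀ * supT β t₀ :=
      mul_pos (lt_of_lt_of_le (hD0.pos t₀ hmem).1 (hleα t₀ hmem t₀ ⟨ht₀, le_rfl⟩))
        (lt_of_lt_of_le (hD0.pos t₀ hmem).2.1 (hleβ t₀ hmem t₀ ⟨ht₀, le_rfl⟩))
    set L := supT α t₀ * supT β t₀ with hL
    set T' : ℝ := t₀ + (|K| + 1) / L with hT'
    have h1 : 0 < (|K| + 1) / L := by positivity
    have h2 := hK (T' + 1) c C α β y g gs (hD (T' + 1) (by linarith)) t₀ T' ht₀ (by linarith)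
      (by linarith) (fun s hs => hy s hs.1) t₀ ⟨le_rfl, by linarith⟩
    rw [← hL, hT', add_sub_cancel_left, mul_div_cancel₀ _ hpos.ne'] at h2
    have h3 := le_abs_self K
    linarith

end Pool.Agent.Lib.MP424d38.TY
end
end

section
set_option autoImplicit false

open MeasureTheory Filter Topology Set
open scoped ENNReal ContDiff ComplexConjugate

noncomputable section

namespace Pool.Agent.Lib.MP424d38.TY.RLBM

theorem pick (c C : ℝ) (c0 : 0 < c) (C0 : 0 < C) :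
    ∃ x : ℝ, 0 < x ∧ x ≤ c ∧ C * x ^ (1 / 4 : ℝ) ≤ 1 := by
  refine ⟨min c ((C⁻¹) ^ 4), lt_min c0 (by positivity), min_le_left _ _, ?_⟩
  have h0 : 0 ≤ min c ((C⁻¹) ^ 4) := (lt_min c0 (by positivity)).le
  have h : (min c ((C⁻¹) ^ 4)) ^ (1 / 4 : ℝ) ≤ C⁻¹ := by
    calc (min c ((C⁻¹) ^ 4)) ^ (1 / 4 : ℝ) ≤ ((C⁻¹) ^ 4) ^ (1 / 4 : ℝ) :=
          Real.rpow_le_rpow h0 (min_le_right _ _) (by norm_num)
      _ = C⁻¹ := by
          rw [← Real.rpow_natCast, ← Real.rpow_mul (by positivity)]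
          norm_num
  calc C * (min c ((C⁻¹) ^ 4)) ^ (1 / 4 : ℝ) ≤ C * C⁻¹ := by gcongr
    _ = 1 := mul_inv_cancel₀ C0.ne'

/-- the bootstrap -/
theorem boot (T m c C : ℝ) (α β y g gs : ℝ → ℝ) (hD : Dat T m c C α β y g gs) (x : ℝ)
    (hxc : x ≤ c) (hxC : C * x ^ (1 / 4 : ℝ) ≤ 1) (t₁ : ℝ) (ht₁ : t₁ ∈ Ico 0 T) (a b : ℝ) (ha : 0 < a)
    (hb : 0 < b) (hαa : α t₁ ≤ a) (hβb : β t₁ ≤ b)
    (hs : (4 * m * (a * b * (T - t₁))) ^ 2 ≤ x) :
    ∀ t ∈ Ico t₁ T, α t < 2 * a ∧ β t < 2 * b := by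
  by_contra hcon
  push Not at hcon
  obtain ⟨t₃, ht₃, hbad⟩ := hcon
  have hsub : Icc t₁ t₃ ⊆ Ico 0 T := fun t ht => ⟨ht₁.1.trans ht.1, ht.2.trans_lt ht₃.2⟩
  set F : Set ℝ := {t | t ∈ Icc t₁ t₃ ∧ (2 * a ≤ α t ∨ 2 * b ≤ β t)} with hF
  have F3 : t₃ ∈ F := by
    refine ⟨⟨ht₃.1, le_rfl⟩, ?_⟩
    by_cases h : α t₃ < 2 * a
    · exact Or.inr (hbad h)
    · exact Or.inl (not_lt.1 h)
  have Fc : IsClosed F := by
    have e : F = (Icc t₁ t₃ ∩ α ⁻¹' Ici (2 * a)) ∪ (Icc t₁ t₃ ∩ β ⁻¹' Ici (2 * b)) := by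
      ext t
      constructor
      · rintro ⟨h1, h2 | h2⟩
        · exact Or.inl ⟨h1, h2⟩
        · exact Or.inr ⟨h1, h2⟩
      · rintro (⟨h1, h2⟩ | ⟨h1, h2⟩)
        · exact ⟨h1, Or.inl h2⟩
        · exact ⟨h1, Or.inr h2⟩
    rw [e]
    exact ((hD.cα.mono hsub).preimage_isClosed_of_isClosed isClosed_Icc isClosed_Ici).union
      ((hD.cβ.mono hsub).preimage_isClosed_of_isClosed isClosed_Icc isClosed_Ici)
  have Fb : BddBelow F := ⟨t₁, fun t ht => ht.1.1⟩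
  have F2 : sInf F ∈ F := Fc.csInf_mem ⟨t₃, F3⟩ Fb
  set t₂ := sInf F with ht₂
  have hlt : ∀ t ∈ Ico t₁ t₂, α t < 2 * a ∧ β t < 2 * b := by
    intro t ht
    have hn : t ∉ F := fun h => absurd (csInf_le Fb h) (not_le.2 ht.2)
    have hm : t ∈ Icc t₁ t₃ := ⟨ht.1, ht.2.le.trans F2.1.2⟩
    constructor
    · by_contra h
      exact hn ⟨hm, Or.inl (not_lt.1 h)⟩
    · by_contra h
      exact hn ⟨hm, Or.inr (not_lt.1 h)⟩
  have h12 : t₁ ≤ t₂ := F2.1.1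
  have h2T : t₂ < T := F2.1.2.trans_lt ht₃.2
  have m0 := hD.m0
  have hint : (∫ t in t₁..t₂, y t) ≤ (t₂ - t₁) * (4 * m * (a * b)) ^ 2 := by
    have h1 : (∫ t in t₁..t₂, y t) ≤ ∫ _t in t₁..t₂, (4 * m * (a * b)) ^ 2 := by
      have hsub2 : uIcc t₁ t₂ ⊆ Ico 0 T := by
        rw [uIcc_of_le h12]
        exact fun t ht => ⟨ht₁.1.trans ht.1, ht.2.trans_lt h2T⟩
      apply intervalIntegral.integral_mono_on_of_le_Ioo h12
      · exact (hD.cy.mono hsub2).intervalIntegrable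
      · exact intervalIntegrable_const
      · intro t ht
        have hm : t ∈ Ico 0 T := ⟨ht₁.1.trans ht.1.le, ht.2.trans h2T⟩
        obtain ⟨p1, p2, -, -, -⟩ := hD.pos t hm
        obtain ⟨q1, q2⟩ := hlt t ⟨ht.1.le, ht.2⟩
        refine (hD.yab t hm).trans ?_
        have h3 : m * α t * β t ≤ 4 * m * (a * b) := by
          have : α t * β t ≤ (2 * a) * (2 * b) := mul_le_mul q1.le q2.le p2.le (by positivity)
          nlinarith [mul_le_mul_of_nonneg_left this m0.le]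
        have h4 : 0 ≤ m * α t * β t := by positivity
        exact pow_le_pow_left₀ h4 h3 2
    rw [intervalIntegral.integral_const, smul_eq_mul] at h1
    exact h1
  have hy0 : 0 ≤ ∫ t in t₁..t₂, y t := by
    apply intervalIntegral.integral_nonneg h12
    intro t ht
    exact (hD.pos t ⟨ht₁.1.trans ht.1, ht.2.trans_lt h2T⟩).2.2.1
  have hq : (t₂ - t₁) * (∫ t in t₁..t₂, y t) ≤ x := by
    refine le_trans ?_ hs
    calc (t₂ - t₁) * (∫ t in t₁..t₂, y t) ≤ (t₂ - t₁) * ((t₂ - t₁) * (4 * m * (a * b)) ^ 2) :=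
          mul_le_mul_of_nonneg_left hint (by linarith)
      _ = (4 * m * (a * b * (t₂ - t₁))) ^ 2 := by ring
      _ ≤ (4 * m * (a * b * (T - t₁))) ^ 2 := by
          have h0 : 0 ≤ t₂ - t₁ := by linarith
          gcongr
  have hq0 : 0 ≤ (t₂ - t₁) * (∫ t in t₁..t₂, y t) := mul_nonneg (by linarith) hy0
  obtain ⟨g1, g2⟩ := hD.gc t₁ t₂ ht₁.1 h12 h2T (hq.trans hxc) t₂ ⟨h12, le_rfl⟩
  have hC : 1 + C * ((t₂ - t₁) * (∫ t in t₁..t₂, y t)) ^ (1 / 4 : ℝ) ≤ 2 := by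
    have h1 : ((t₂ - t₁) * (∫ t in t₁..t₂, y t)) ^ (1 / 4 : ℝ) ≤ x ^ (1 / 4 : ℝ) :=
      Real.rpow_le_rpow hq0 hq (by norm_num)
    have := mul_le_mul_of_nonneg_left h1 hD.C0.le
    linarith
  have p1 := hD.pos t₁ ht₁
  have k1 : β t₂ ^ 2 ≤ 2 * b ^ 2 := by
    have h1 : β t₁ ^ 2 ≤ b ^ 2 := pow_le_pow_left₀ p1.2.1.le hβb 2
    nlinarith [mul_le_mul_of_nonneg_right hC (sq_nonneg (β t₁))]
  have k2 : α t₂ ^ 2 ≤ 2 * a ^ 2 := by
    have h1 : α t₁ ^ 2 ≤ a ^ 2 := pow_le_pow_left₀ p1.1.le hαa 2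
    nlinarith [mul_le_mul_of_nonneg_right hC (sq_nonneg (α t₁))]
  rcases F2.2 with h | h
  · have := pow_le_pow_left₀ (by positivity) h 2
    nlinarith [pow_pos ha 2]
  · have := pow_le_pow_left₀ (by positivity) h 2
    nlinarith [pow_pos hb 2]

end Pool.Agent.Lib.MP424d38.TY.RLBM

namespace Pool.Agent.Lib.MP424d38.TY

open RLBM

theorem specRLB (hSUP : SpecSUP) : SpecRLB := by
  intro T m c C α β y g gs hT hD hunb
  obtain ⟨-, -, sα3, -⟩ := hSUP T α hD.cα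
  obtain ⟨-, -, sβ3, -⟩ := hSUP T β hD.cβ
  have m0 := hD.m0
  obtain ⟨x, hx0, hxc, hxC⟩ := pick c C hD.c0 hD.C0
  refine ⟨Real.sqrt x / (4 * m), by positivity, ?_⟩
  intro t₁ ht₁
  by_contra hcon
  push Not at hcon
  have hself : t₁ ∈ Icc 0 t₁ := ⟨ht₁.1, le_rfl⟩
  have p1 := hD.pos t₁ ht₁
  have ha : 0 < supT α t₁ := lt_of_lt_of_le p1.1 (sα3 t₁ ht₁ t₁ hself)
  have hb : 0 < supT β t₁ := lt_of_lt_of_le p1.2.1 (sβ3 t₁ ht₁ t₁ hself)
  have hs : (4 * m * (supT α t₁ * supT β t₁ * (T - t₁))) ^ 2 ≤ x := by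
    have h1 : 4 * m * (supT α t₁ * supT β t₁ * (T - t₁)) ≤ Real.sqrt x := by
      rw [lt_div_iff₀ (by positivity)] at hcon
      linarith
    have h0 : 0 ≤ 4 * m * (supT α t₁ * supT β t₁ * (T - t₁)) := by
      have : 0 < T - t₁ := by linarith [ht₁.2]
      positivity
    calc (4 * m * (supT α t₁ * supT β t₁ * (T - t₁))) ^ 2 ≤ Real.sqrt x ^ 2 :=
          pow_le_pow_left₀ h0 h1 2
      _ = x := Real.sq_sqrt hx0.le
  have hB := boot T m c C α β y g gs hD x hxc hxC t₁ ht₁ _ _ ha hb (sα3 t₁ ht₁ t₁ hself)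
    (sβ3 t₁ ht₁ t₁ hself) hs
  refine hunb ⟨max (2 * supT α t₁) (2 * supT β t₁), fun t ht => ?_⟩
  rcases le_or_gt t₁ t with h | h
  · obtain ⟨q1, q2⟩ := hB t ⟨h, ht.2⟩
    exact ⟨q1.le.trans (le_max_left _ _), q2.le.trans (le_max_right _ _)⟩
  · have q1 := sα3 t₁ ht₁ t ⟨ht.1, h.le⟩
    have q2 := sβ3 t₁ ht₁ t ⟨ht.1, h.le⟩
    exact ⟨(by linarith : α t ≤ 2 * supT α t₁).trans (le_max_left _ _),
      (by linarith : β t ≤ 2 * supT β t₁).trans (le_max_right _ _)⟩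

end Pool.Agent.Lib.MP424d38.TY
end
end

section
/-!
# MP_424d38_an, block TY, module RZ (a differential inequality)
-/
set_option autoImplicit false

open MeasureTheory Filter Topology Set
open scoped ENNReal ContDiff ComplexConjugate

noncomputable section

namespace Pool.Agent.Lib.MP424d38.TY

/-- **RZ** -/
theorem specRZ : SpecRZ := by
  intro C₁ hC₁
  refine ⟨2 * C₁, ?_⟩
  intro t₀ T' Λ h0T hcont hmono hpos hint t ht
  set f : ℝ → ℝ := fun s => Λ s ^ (3 / 2 : ℝ) with hf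
  set Z : ℝ → ℝ := fun t => ∫ s in t₀..t, f s with hZ
  have hfc : ContinuousOn f (Icc t₀ T') := fun s hs =>
    (hcont s hs).rpow_const (Or.inl (hpos s hs).ne')
  have hfpos : ∀ s ∈ Icc t₀ T', 0 < f s := fun s hs => Real.rpow_pos_of_pos (hpos s hs) _
  have hfm : ∀ s ∈ Icc t₀ T', ∀ r ∈ Icc t₀ T', s ≤ r → f s ≤ f r := fun s hs r hr hsr =>
    Real.rpow_le_rpow (hpos s hs).le (hmono hs hr hsr) (by norm_num)
  have hii : ∀ a ∈ Icc t₀ T', ∀ b ∈ Icc t₀ T', a ≤ b → IntervalIntegrable f volume a b := by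
    intro a ha b hb hab
    apply ContinuousOn.intervalIntegrable
    rw [uIcc_of_le hab]
    exact hfc.mono (Icc_subset_Icc ha.1 hb.2)
  have hlow : ∀ a ∈ Icc t₀ T', ∀ b ∈ Icc t₀ T', a ≤ b → (b - a) * f a ≤ ∫ s in a..b, f s := by
    intro a ha b hb hab
    have h1 : ∫ _ in a..b, f a = (b - a) * f a := by
      rw [intervalIntegral.integral_const, smul_eq_mul]
    rw [← h1]
    apply intervalIntegral.integral_mono_on hab
    · exact intervalIntegrable_const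
    · exact hii a ha b hb hab
    · intro x hx
      exact hfm a ha x ⟨ha.1.trans hx.1, hx.2.trans hb.2⟩ hx.1
  have ht0 : t₀ ∈ Icc t₀ T' := ⟨le_rfl, h0T.le⟩
  have hZpos : ∀ s ∈ Ioo t₀ T', 0 < Z s := by
    intro s hs
    have h1 := hlow t₀ ht0 s ⟨hs.1.le, hs.2.le⟩ hs.1.le
    have h2 : 0 < (s - t₀) * f t₀ := mul_pos (by linarith [hs.1]) (hfpos t₀ ht0)
    exact h2.trans_le h1
  have hZd : ∀ s ∈ Ioo t₀ T', HasDerivAt Z (f s) s := by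
    intro s hs
    have hsI : s ∈ Icc t₀ T' := ⟨hs.1.le, hs.2.le⟩
    apply intervalIntegral.integral_hasDerivAt_right (hii t₀ ht0 s hsI hs.1.le)
    · exact (hfc.mono Ioo_subset_Icc_self).stronglyMeasurableAtFilter isOpen_Ioo s hs
    · exact (hfc s hsI).continuousAt (Icc_mem_nhds hs.1 hs.2)
  have hZf : ∀ s ∈ Ioo t₀ T', Z s ^ 3 ≤ C₁ ^ 3 * f s := by
    intro s hs
    have hsI : s ∈ Icc t₀ T' := ⟨hs.1.le, hs.2.le⟩
    have h1 : Z s ≤ C₁ * Λ s ^ (1 / 2 : ℝ) := hint s hsI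
    have h2 : (Λ s ^ (1 / 2 : ℝ)) ^ 3 = f s := by
      rw [hf, ← Real.rpow_natCast, ← Real.rpow_mul (hpos s hsI).le]
      norm_num
    calc Z s ^ 3 ≤ (C₁ * Λ s ^ (1 / 2 : ℝ)) ^ 3 := pow_le_pow_left₀ (hZpos s hs).le h1 3
      _ = C₁ ^ 3 * f s := by rw [mul_pow, h2]
  -- the monotone quantity
  set G : ℝ → ℝ := fun s => (Z s ^ 2)⁻¹ + 2 / C₁ ^ 3 * s with hG
  have hGd : ∀ s ∈ Ioo t₀ T', HasDerivAt G
      (-(2 * Z s * f s) / (Z s ^ 2) ^ 2 + 2 / C₁ ^ 3) s := by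
    intro s hs
    have h1 : HasDerivAt (fun s => Z s ^ 2) (2 * Z s * f s) s := by
      have := (hZd s hs).fun_pow 2
      simpa using this
    have h2 := h1.inv (pow_ne_zero 2 (hZpos s hs).ne')
    have h3 : HasDerivAt (fun s : ℝ => 2 / C₁ ^ 3 * s) (2 / C₁ ^ 3) s := by
      simpa using (hasDerivAt_id s).const_mul (2 / C₁ ^ 3)
    exact h2.add h3
  have hGanti : AntitoneOn G (Ioo t₀ T') := by
    apply antitoneOn_of_deriv_nonpos (convex_Ioo t₀ T')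
    · exact fun s hs => (hGd s hs).continuousAt.continuousWithinAt
    · rw [interior_Ioo]
      exact fun s hs => (hGd s hs).differentiableAt.differentiableWithinAt
    · rw [interior_Ioo]
      intro s hs
      rw [(hGd s hs).deriv]
      have hz := hZpos s hs
      have h1 := hZf s hs
      have h2 : -(2 * Z s * f s) / (Z s ^ 2) ^ 2 = -(2 * f s / Z s ^ 3) := by
        field_simp
      rw [h2]
      have h3 : 2 / C₁ ^ 3 ≤ 2 * f s / Z s ^ 3 := by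
        rw [div_le_div_iff₀ (by positivity) (by positivity)]
        nlinarith
      linarith
  -- the bound for `Z`
  have hZb : ∀ s ∈ Ioo t₀ T', (T' - s) * Z s ^ 2 ≤ C₁ ^ 3 := by
    intro s hs
    have hs' : (s + T') / 2 ∈ Ioo t₀ T' := ⟨by linarith [hs.1, hs.2], by linarith [hs.2]⟩
    have h1 := hGanti hs hs' (by linarith [hs.2])
    simp only [hG] at h1
    have h2 : 0 < (Z ((s + T') / 2) ^ 2)⁻¹ := inv_pos.2 (pow_pos (hZpos _ hs') 2)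
    have hz := hZpos s hs
    have h3 : 2 / C₁ ^ 3 * ((s + T') / 2 - s) ≤ (Z s ^ 2)⁻¹ := by
      have e : 2 / C₁ ^ 3 * ((s + T') / 2 - s) =
        2 / C₁ ^ 3 * ((s + T') / 2) - 2 / C₁ ^ 3 * s := by ring
      rw [e]
      linarith
    have h4 : 2 / C₁ ^ 3 * ((s + T') / 2 - s) = (T' - s) / C₁ ^ 3 := by ring
    rw [h4, inv_eq_one_div, div_le_div_iff₀ (by positivity) (by positivity)] at h3
    linarith
  -- conclusion
  have htI : t ∈ Icc t₀ T' := ⟨ht.1, ht.2.le⟩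
  have hs : (t + T') / 2 ∈ Ioo t₀ T' := ⟨by linarith [ht.1, ht.2], by linarith [ht.2]⟩
  have hsI : (t + T') / 2 ∈ Icc t₀ T' := ⟨hs.1.le, hs.2.le⟩
  have h1 := hZb _ hs
  have h2 : ((t + T') / 2 - t) * f t ≤ Z ((t + T') / 2) := by
    have h3 := hlow t htI _ hsI (by linarith [ht.2])
    have h4 : Z ((t + T') / 2) = (∫ s in t₀..t, f s) + ∫ s in t..(t + T') / 2, f s := by
      rw [hZ]
      exact (intervalIntegral.integral_add_adjacent_intervals (hii t₀ ht0 t htI ht.1)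
        (hii t htI _ hsI (by linarith [ht.2]))).symm
    have h5 : 0 ≤ ∫ s in t₀..t, f s := by
      have h6 := hlow t₀ ht0 t htI ht.1
      have h7 : 0 ≤ (t - t₀) * f t₀ := mul_nonneg (by linarith [ht.1]) (hfpos t₀ ht0).le
      linarith
    linarith
  have hTt : 0 < T' - t := by linarith [ht.2]
  have h3 : ((T' - t) / 2) * f t ≤ Z ((t + T') / 2) := by
    have e : (t + T') / 2 - t = (T' - t) / 2 := by ring
    rwa [e] at h2
  have h4 : (((T' - t) / 2) * f t) ^ 2 ≤ Z ((t + T') / 2) ^ 2 :=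
    pow_le_pow_left₀ (mul_nonneg (by linarith) (hfpos t htI).le) h3 2
  have h5 : f t ^ 2 = Λ t ^ 3 := by
    rw [hf, ← Real.rpow_natCast, ← Real.rpow_mul (hpos t htI).le, ← Real.rpow_natCast]
    norm_num
  have h6 : (Λ t * (T' - t)) ^ 3 ≤ (2 * C₁) ^ 3 := by
    have e : (Λ t * (T' - t)) ^ 3 = 8 * ((T' - (t + T') / 2) * (((T' - t) / 2) * f t) ^ 2) := by
      rw [mul_pow ((T' - t) / 2), h5]; ring
    rw [e]
    have h7 : (T' - (t + T') / 2) * (((T' - t) / 2) * f t) ^ 2 ≤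
        (T' - (t + T') / 2) * Z ((t + T') / 2) ^ 2 :=
      mul_le_mul_of_nonneg_left h4 (by linarith [hs.2])
    have h8 : (2 * C₁) ^ 3 = 8 * C₁ ^ 3 := by ring
    rw [h8]
    linarith
  exact le_of_pow_le_pow_left₀ (by norm_num) (by positivity) h6

end Pool.Agent.Lib.MP424d38.TY
end
end

section
/-!
# WKD: weak derivatives in null coordinates
-/
set_option autoImplicit false

open MeasureTheory Filter Topology Set
open scoped ENNReal ContDiff ComplexConjugate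

noncomputable section

namespace Pool.Agent.Lib.MP424d38.TY

namespace WKDM

/-- the null coordinates as a continuous linear map `EE → ℝ × ℝ`. -/
def A : EE →L[ℝ] ℝ × ℝ :=
  ((EuclideanSpace.proj (0 : Fin 2) : EE →L[ℝ] ℝ) - EuclideanSpace.proj (1 : Fin 2)).prod
    ((EuclideanSpace.proj (0 : Fin 2) : EE →L[ℝ] ℝ) + EuclideanSpace.proj (1 : Fin 2))

theorem A_apply (y : EE) : A y = (y 0 - y 1, y 0 + y 1) := rfl

theorem A_PhiN (x : ℝ × ℝ) : A (PhiN x) = x := by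
  rw [A_apply]
  ext
  · simp [PhiN]; ring
  · simp [PhiN]; ring

theorem PhiN_A (y : EE) : PhiN (A y) = y := by
  rw [A_apply]
  ext i
  fin_cases i <;> simp [PhiN]

theorem PhiN_cont : Continuous PhiN := by
  unfold PhiN
  refine (PiLp.continuous_toLp 2 _).comp ?_
  refine continuous_pi fun i => ?_
  fin_cases i <;> simp <;> fun_prop

/-- `A` as a homeomorphism. -/
def H : EE ≃ₜ ℝ × ℝ where
  toFun := A
  invFun := PhiN
  left_inv := PhiN_A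
  right_inv := A_PhiN
  continuous_toFun := A.continuous
  continuous_invFun := PhiN_cont

/-- `χ = ψ ∘ A`. -/
def chi (ψ : ℝ × ℝ → ℂ) (y : EE) : ℂ := ψ (A y)

theorem chi_PhiN (ψ : ℝ × ℝ → ℂ) (x : ℝ × ℝ) : chi ψ (PhiN x) = ψ x := by
  rw [chi, A_PhiN]

theorem chi_smooth {ψ : ℝ × ℝ → ℂ} (h : Test ψ) : ContDiff ℝ ∞ (chi ψ) :=
  h.1.comp A.contDiff

theorem chi_supp {ψ : ℝ × ℝ → ℂ} (h : Test ψ) : HasCompactSupport (chi ψ) :=
  h.2.comp_homeomorph H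

theorem chi_fderiv {ψ : ℝ × ℝ → ℂ} (h : Test ψ) (y v : EE) :
    fderiv ℝ (chi ψ) y v = fderiv ℝ ψ (A y) (A v) := by
  have hd : DifferentiableAt ℝ ψ (A y) := (h.1.differentiable (by simp)) _
  have h1 : HasFDerivAt (chi ψ) ((fderiv ℝ ψ (A y)).comp A) y :=
    hd.hasFDerivAt.comp y A.hasFDerivAt
  rw [h1.fderiv]
  rfl

/-- `∂_x χ`. -/
def c0 (ψ : ℝ × ℝ → ℂ) (y : EE) : ℂ := fderiv ℝ (chi ψ) y (EuclideanSpace.single 0 (1 : ℝ))

/-- `∂_z χ`. -/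
def c1 (ψ : ℝ × ℝ → ℂ) (y : EE) : ℂ := fderiv ℝ (chi ψ) y (EuclideanSpace.single 1 (1 : ℝ))

theorem c0_eq {ψ : ℝ × ℝ → ℂ} (h : Test ψ) (x : ℝ × ℝ) : c0 ψ (PhiN x) = d1 ψ x + d2 ψ x := by
  rw [c0, chi_fderiv h, A_PhiN, A_apply, d1, d2, ← map_add]
  simp

theorem c1_eq {ψ : ℝ × ℝ → ℂ} (h : Test ψ) (x : ℝ × ℝ) : c1 ψ (PhiN x) = d2 ψ x - d1 ψ x := by
  rw [c1, chi_fderiv h, A_PhiN, A_apply, d1, d2, ← map_sub]
  simp

theorem fd_memLp {ψ : ℝ × ℝ → ℂ} (h : Test ψ) (v : EE) :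
    MemLp (fun y => fderiv ℝ (chi ψ) y v) 2 (volume : Measure EE) := by
  have hc : Continuous fun y => fderiv ℝ (chi ψ) y v :=
    ((chi_smooth h).continuous_fderiv (by simp)).clm_apply continuous_const
  have hs : HasCompactSupport fun y => fderiv ℝ (chi ψ) y v :=
    (chi_supp h).fderiv_apply (𝕜 := ℝ) v
  exact hc.memLp_of_hasCompactSupport hs

theorem chi_memLp {ψ : ℝ × ℝ → ℂ} (h : Test ψ) : MemLp (chi ψ) 2 (volume : Measure EE) :=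
  (chi_smooth h).continuous.memLp_of_hasCompactSupport (chi_supp h)

theorem half (hint : ∀ f : EE → ℂ, ∫ x, f (PhiN x) = 2 * ∫ y, f y) (g : EE → ℂ) :
    ∫ x, (1 / 2 : ℂ) * g (PhiN x) = ∫ y, g y := by
  have h2 := hint fun y => (1 / 2 : ℂ) * g y
  rw [h2, integral_const_mul]
  ring

end WKDM

open WKDM

theorem specWKD (hCHV : SpecCHV) : SpecWKD := by
  obtain ⟨-, -, hint, -, -, -⟩ := hCHV
  intro u G hu hG hw f F₁ F₂ hf hF₁ hF₂ ψ hψ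
  have w0 := hw 0 (chi ψ) (chi_smooth hψ) (chi_supp hψ)
  have w1 := hw 1 (chi ψ) (chi_smooth hψ) (chi_supp hψ)
  have i0 : Integrable fun y => u y * c0 ψ y := hu.integrable_mul (fd_memLp hψ _)
  have i1 : Integrable fun y => u y * c1 ψ y := hu.integrable_mul (fd_memLp hψ _)
  have j0 : Integrable fun y => G 0 y * chi ψ y := (hG 0).integrable_mul (chi_memLp hψ)
  have j1 : Integrable fun y => G 1 y * chi ψ y := (hG 1).integrable_mul (chi_memLp hψ)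
  have w0' : ∫ y, u y * c0 ψ y = -∫ y, G 0 y * chi ψ y := w0
  have w1' : ∫ y, u y * c1 ψ y = -∫ y, G 1 y * chi ψ y := w1
  constructor
  · have e1 : ∫ x, f x * d1 ψ x = ∫ y, (u y * c0 ψ y - u y * c1 ψ y) := by
      have h2 := half hint fun y => (u y * c0 ψ y - u y * c1 ψ y)
      rw [← h2]
      apply integral_congr_ae
      filter_upwards [hf] with x hx
      rw [c0_eq hψ, c1_eq hψ, hx]
      ring
    have e2 : ∫ x, F₁ x * ψ x = ∫ y, (G 0 y * chi ψ y - G 1 y * chi ψ y) := by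
      have h2 := half hint fun y => (G 0 y * chi ψ y - G 1 y * chi ψ y)
      rw [← h2]
      apply integral_congr_ae
      filter_upwards [hF₁] with x hx
      rw [chi_PhiN, hx]
      ring
    rw [e1, e2, integral_sub i0 i1, integral_sub j0 j1, w0', w1']
    ring
  · have e1 : ∫ x, f x * d2 ψ x = ∫ y, (u y * c0 ψ y + u y * c1 ψ y) := by
      have h2 := half hint fun y => (u y * c0 ψ y + u y * c1 ψ y)
      rw [← h2]
      apply integral_congr_ae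
      filter_upwards [hf] with x hx
      rw [c0_eq hψ, c1_eq hψ, hx]
      ring
    have e2 : ∫ x, F₂ x * ψ x = ∫ y, (G 0 y * chi ψ y + G 1 y * chi ψ y) := by
      have h2 := half hint fun y => (G 0 y * chi ψ y + G 1 y * chi ψ y)
      rw [← h2]
      apply integral_congr_ae
      filter_upwards [hF₂] with x hx
      rw [chi_PhiN, hx]
      ring
    rw [e1, e2, integral_add i0 i1, integral_add j0 j1, w0', w1']
    ring

end Pool.Agent.Lib.MP424d38.TY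
end
end

section
/-!
# Block TH, module FTH: the theorem for `H¹` solutions on the plane
-/
set_option autoImplicit false

open MeasureTheory Filter Topology Set
open scoped ENNReal ContDiff ComplexConjugate FourierTransform

noncomputable section

namespace Pool.Agent.Lib.MP424d38.TH

open Pool.Agent.Lib.MP424d38.TY Pool.Agent.Lib.MP424d38.ES

namespace FTHM

/-- `a = √2 (c/2)` with `0 ≤ c ≤ d` gives `a² ≤ d²/2`. -/
theorem sq_le {a c d : ℝ} (ha : a = Real.sqrt 2 * (1 / 2 * c)) (hc : 0 ≤ c) (hd : c ≤ d) :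
    a ^ 2 ≤ 1 / 2 * d ^ 2 := by
  have h := Real.sq_sqrt (show (0 : ℝ) ≤ 2 by norm_num)
  have h1 : a ^ 2 = 1 / 2 * c ^ 2 := by
    rw [ha, mul_pow, h]
    ring
  have h2 : c ^ 2 ≤ d ^ 2 := pow_le_pow_left₀ hc hd 2
  rw [h1]
  linarith

theorem unb {a c D : ℝ} (h : a = Real.sqrt 2 * (1 / 2 * c)) (h' : a ≤ D) :
    c ≤ Real.sqrt 2 * D := by
  have hsq := Real.mul_self_sqrt (show (0 : ℝ) ≤ 2 by norm_num)
  have h3 : Real.sqrt 2 * a ≤ Real.sqrt 2 * D := mul_le_mul_of_nonneg_left h' (Real.sqrt_nonneg 2)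
  have h4 : Real.sqrt 2 * a = c := by
    rw [h]
    calc Real.sqrt 2 * (Real.sqrt 2 * (1 / 2 * c)) = (Real.sqrt 2 * Real.sqrt 2) * (1 / 2 * c) := by
          ring
      _ = c := by rw [hsq]; ring
  linarith

end FTHM

open FTHM in
theorem specFTH (hTHN : SpecTHN) (hTRF : TY.SpecTRF) (hCHV : TY.SpecCHV) : SpecFTH := by
  intro M hM
  obtain ⟨C, hC⟩ := hTHN (2 * M) (by linarith)
  refine ⟨|C|, fun T u G hT hs hu => ?_⟩
  obtain ⟨v, v₁, v₂, N, hv, hr⟩ := hTRF T u G hs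
  have h0 : (0 : ℝ) ∈ Ico 0 T := ⟨le_refl _, hT⟩
  have r0 := FINM.rels hCHV hs h0 (hr 0 h0)
  have hm : ‖v 0‖ ^ 2 = 2 * M := by
    rw [r0.1, mul_pow, hu, Real.sq_sqrt (by norm_num)]
  obtain ⟨⟨D, hD⟩, hE⟩ := hC T v v₁ v₂ N hT hv hm
  constructor
  · refine ⟨Real.sqrt 2 * D, fun t ht => ?_⟩
    have r := FINM.rels hCHV hs ht (hr t ht)
    have hh := hD t ht
    exact FINM.bound_G hs ht (unb r.2.1 hh.1) (unb r.2.2.1 hh.2)
  · intro t ht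
    have r := FINM.rels hCHV hs ht (hr t ht)
    have h1 := hE t ht
    rw [r.2.2.2] at h1
    have m0 := hs.memG 0 h0 0
    have m1 := hs.memG 0 h0 1
    have h2 : ‖v₁ 0‖ ^ 2 ≤ 1 / 2 * (nrm (G 0 0) + nrm (G 0 1)) ^ 2 :=
      sq_le r0.2.1 (FINM.nrm_nonneg _) (FINM.nrm_sub m0 m1)
    have h3 : ‖v₂ 0‖ ^ 2 ≤ 1 / 2 * (nrm (G 0 0) + nrm (G 0 1)) ^ 2 :=
      sq_le r0.2.2.1 (FINM.nrm_nonneg _) (FINM.nrm_add m0 m1)
    have h4 : (nrm (G 0 0) + nrm (G 0 1)) ^ 2 ≤ 2 * (nrm (G 0 0) ^ 2 + nrm (G 0 1) ^ 2) := by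
      nlinarith [sq_nonneg (nrm (G 0 0) - nrm (G 0 1))]
    have h5 : ‖v₁ 0‖ ^ 2 + ‖v₂ 0‖ ^ 2 ≤ 2 * (nrm (G 0 0) ^ 2 + nrm (G 0 1) ^ 2) := by linarith
    have h6 : C * (‖v₁ 0‖ ^ 2 + ‖v₂ 0‖ ^ 2) ≤ |C| * (2 * (nrm (G 0 0) ^ 2 + nrm (G 0 1) ^ 2)) :=
      (mul_le_mul_of_nonneg_right (le_abs_self C) (by positivity)).trans
        (mul_le_mul_of_nonneg_left h5 (abs_nonneg C))
    linarith

end Pool.Agent.Lib.MP424d38.TH
end
end
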