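import Pool.Agent.Lib.MP_424d38_an.ES.SpecK
import Pool.Agent.Lib.MP_424d38_an.ES.SpecM
import Pool.Agent.Lib.MP_424d38_an.ES.LOW
import Pool.Agent.Lib.MP_424d38_an.TH.SpecC

section
/-!
# Block ES, module BDD: bounded in `H^{1/2}` implies bounded in `H¹`
-/
set_option autoImplicit false

open MeasureTheory Filter Topology Set
open scoped ENNReal ContDiff ComplexConjugate FourierTransform

noncomputable section

namespace Pool.Agent.Lib.MP424d38.ES

open Pool.Agent.Lib.MP424d38.TY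

namespace BDDM

theorem HH_nonneg (f : L2) : 0 ≤ HH f := by
  unfold HH
  apply integral_nonneg
  intro k
  positivity

theorem n4_nonneg (f : L2) : 0 ≤ n4 f := ENNReal.toReal_nonneg

/-- the pointwise bound for `n4 ^ 8`. -/
theorem n4_eight (hEMB : SpecEMB) (hCHN : SpecCHN) (hN4F : SpecN4F) (P : L2 ≃ₗᵢ[ℂ] L2) (hP : IsPF P)
    (f F₁ F₂ : L2) (hf : IsH1 f F₁ F₂) (D : ℝ) (h1 : XX P f ≤ D) (h2 : XX P (swp f) ≤ D) :
    n4 f ^ 8 ≤ (128 * D ^ 2) ^ 2 := by
  have e1 : n4 f ^ 4 = ∫ x, ‖f x‖ ^ 4 := (hN4F.1 f F₁ F₂ hf).2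
  have e2 : (∫ x, ‖f x‖ ^ 4) ≤ 32 * HH f ^ 2 := hEMB f F₁ F₂ hf
  have e3 : HH f = XX P f + XX P (swp f) := (hCHN P hP f F₁ F₂ hf).2
  have e4 : HH f ≤ 2 * D := by rw [e3]; linarith
  have e5 : HH f ^ 2 ≤ (2 * D) ^ 2 := pow_le_pow_left₀ (HH_nonneg f) e4 2
  have e6 : n4 f ^ 4 ≤ 128 * D ^ 2 := by
    rw [e1]; nlinarith
  have e7 : n4 f ^ 8 = (n4 f ^ 4) ^ 2 := by ring
  rw [e7]
  exact pow_le_pow_left₀ (pow_nonneg (n4_nonneg f) 4) e6 2

end BDDM

open BDDM

theorem specBDD (hEMB : SpecEMB) (hCHN : SpecCHN) (hGRC : SpecGRC) (hN4F : SpecN4F) : SpecBDD := by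
  intro P hP T v v₁ v₂ N hT hN D hD
  obtain ⟨c, C, hc, hC, hG⟩ := hGRC
  obtain ⟨K, hK⟩ : ∃ K : ℝ, K = (128 * D ^ 2) ^ 2 := ⟨_, rfl⟩
  have hK0 : 0 ≤ K := by rw [hK]; positivity
  have hb : ∀ t ∈ Ico 0 T, n4 (v t) ^ 8 ≤ K := by
    intro t ht
    rw [hK]
    exact n4_eight hEMB hCHN hN4F P hP (v t) (v₁ t) (v₂ t) (hN.h1 t ht) D (hD t ht).1 (hD t ht).2
  -- choose `t₁` near `T`
  obtain ⟨δ, hδ0, hδ⟩ : ∃ δ : ℝ, 0 < δ ∧ δ ^ 2 * K ≤ c := by
    refine ⟨min 1 (c / (K + 1)), by positivity, ?_⟩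
    have h1 : min 1 (c / (K + 1)) ≤ 1 := min_le_left _ _
    have h2 : min 1 (c / (K + 1)) ≤ c / (K + 1) := min_le_right _ _
    have h3 : 0 < min 1 (c / (K + 1)) := by positivity
    have h4 : min 1 (c / (K + 1)) ^ 2 ≤ c / (K + 1) := by nlinarith
    calc min 1 (c / (K + 1)) ^ 2 * K ≤ c / (K + 1) * K := mul_le_mul_of_nonneg_right h4 hK0
      _ ≤ c / (K + 1) * (K + 1) := mul_le_mul_of_nonneg_left (by linarith) (by positivity)
      _ = c := by field_simp
  obtain ⟨t₁, ht1, ht1T, htδ⟩ : ∃ t₁ : ℝ, 0 ≤ t₁ ∧ t₁ < T ∧ T - t₁ ≤ δ := by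
    refine ⟨max 0 (T - δ), le_max_left _ _, max_lt hT (by linarith), ?_⟩
    have := le_max_right 0 (T - δ)
    linarith
  have hsmall : ∀ t₂ : ℝ, t₁ ≤ t₂ → t₂ < T → (t₂ - t₁) * (∫ t in t₁..t₂, n4 (v t) ^ 8) ≤ c := by
    intro t₂ h12 h2T
    have h1 : ‖∫ t in t₁..t₂, n4 (v t) ^ 8‖ ≤ K * |t₂ - t₁| := by
      apply intervalIntegral.norm_integral_le_of_norm_le_const
      intro t ht
      rw [uIoc_of_le h12] at ht
      have htI : t ∈ Ico 0 T := ⟨ht1.trans ht.1.le, lt_of_le_of_lt ht.2 h2T⟩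
      rw [Real.norm_of_nonneg (pow_nonneg (n4_nonneg _) 8)]
      exact hb t htI
    have h2 : (∫ t in t₁..t₂, n4 (v t) ^ 8) ≤ K * (t₂ - t₁) := by
      refine (le_abs_self _).trans ?_
      rw [← Real.norm_eq_abs]
      refine h1.trans ?_
      rw [abs_of_nonneg (by linarith)]
    have h3 : 0 ≤ t₂ - t₁ := by linarith
    have h4 : t₂ - t₁ ≤ δ := by linarith
    calc (t₂ - t₁) * (∫ t in t₁..t₂, n4 (v t) ^ 8) ≤ (t₂ - t₁) * (K * (t₂ - t₁)) :=
          mul_le_mul_of_nonneg_left h2 h3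
      _ = (t₂ - t₁) ^ 2 * K := by ring
      _ ≤ δ ^ 2 * K := mul_le_mul_of_nonneg_right (pow_le_pow_left₀ h3 h4 2) hK0
      _ ≤ c := hδ
  have hnn : ∀ t₂ : ℝ, t₁ ≤ t₂ → 0 ≤ (t₂ - t₁) * (∫ t in t₁..t₂, n4 (v t) ^ 8) := by
    intro t₂ h12
    apply mul_nonneg (by linarith)
    apply intervalIntegral.integral_nonneg h12
    intro t _
    exact pow_nonneg (n4_nonneg _) 8
  obtain ⟨A, hA⟩ : ∃ A : ℝ, A = 1 + C * c ^ (1 / 4 : ℝ) := ⟨_, rfl⟩
  have hA0 : 0 ≤ A := by rw [hA]; positivity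
  have hlate : ∀ t : ℝ, t₁ ≤ t → t < T →
      ‖v₁ t‖ ^ 2 ≤ A * ‖v₁ t₁‖ ^ 2 ∧ ‖v₂ t‖ ^ 2 ≤ A * ‖v₂ t₁‖ ^ 2 := by
    intro t h1t htT
    have h := hG T v v₁ v₂ N hN t₁ t ht1 h1t htT (hsmall t h1t htT) t ⟨h1t, le_refl t⟩
    have hle : (1 + C * ((t - t₁) * (∫ r in t₁..t, n4 (v r) ^ 8)) ^ (1 / 4 : ℝ)) ≤ A := by
      rw [hA]
      have := Real.rpow_le_rpow (hnn t h1t) (hsmall t h1t htT) (by norm_num : (0 : ℝ) ≤ 1 / 4)
      have := mul_le_mul_of_nonneg_left this hC.le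
      linarith
    exact ⟨h.1.trans (mul_le_mul_of_nonneg_right hle (by positivity)),
      h.2.trans (mul_le_mul_of_nonneg_right hle (by positivity))⟩
  have hsub : Icc 0 t₁ ⊆ Ico 0 T := fun r hr => ⟨hr.1, lt_of_le_of_lt hr.2 ht1T⟩
  obtain ⟨C₁, hC1⟩ := (isCompact_Icc (a := (0 : ℝ)) (b := t₁)).exists_bound_of_continuousOn
    (hN.c1.mono hsub)
  obtain ⟨C₂, hC2⟩ := (isCompact_Icc (a := (0 : ℝ)) (b := t₁)).exists_bound_of_continuousOn
    (hN.c2.mono hsub)
  refine ⟨max (max C₁ C₂) (max (Real.sqrt (A * ‖v₁ t₁‖ ^ 2)) (Real.sqrt (A * ‖v₂ t₁‖ ^ 2))), ?_⟩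
  intro t ht
  rcases le_total t t₁ with h | h
  · have htI : t ∈ Icc 0 t₁ := ⟨ht.1, h⟩
    exact ⟨(hC1 t htI).trans ((le_max_left _ _).trans (le_max_left _ _)),
      (hC2 t htI).trans ((le_max_right _ _).trans (le_max_left _ _))⟩
  · have hl := hlate t h ht.2
    exact ⟨(Real.le_sqrt_of_sq_le hl.1).trans ((le_max_left _ _).trans (le_max_right _ _)),
      (Real.le_sqrt_of_sq_le hl.2).trans ((le_max_right _ _).trans (le_max_right _ _))⟩

end Pool.Agent.Lib.MP424d38.ES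
end
end

section
/-!
# Block ES, module CHN: the two spectral measures agree
-/
set_option autoImplicit false

open MeasureTheory Filter Topology Set
open scoped ENNReal ContDiff ComplexConjugate FourierTransform

noncomputable section

namespace Pool.Agent.Lib.MP424d38.ES

open Pool.Agent.Lib.MP424d38.TY

namespace CHNM

section gen

variable {X : Type*} [MeasurableSpace X]

/-- the image of `W dμ` under `q`. -/
def SM (μ : Measure X) (W : X → ℝ) (q : X → ℝ) : Measure ℝ :=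
  (μ.withDensity fun x => ENNReal.ofReal (W x)).map q

theorem finSM {μ : Measure X} {W : X → ℝ} {q : X → ℝ} (hW : Integrable W μ) (hq : Measurable q) :
    IsFiniteMeasure (SM μ W q) := by
  have := isFiniteMeasure_withDensity_ofReal hW.2
  exact Measure.isFiniteMeasure_map _ _

theorem intSM {F : Type*} [NormedAddCommGroup F] [NormedSpace ℝ F]
    {μ : Measure X} {W : X → ℝ} {q : X → ℝ} (hW : Integrable W μ) (h0 : ∀ x, 0 ≤ W x)
    (hq : Measurable q) (g : ℝ → F) (hg : StronglyMeasurable g) :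
    ∫ y, g y ∂(SM μ W q) = ∫ x, W x • g (q x) ∂μ := by
  rw [SM, integral_map hq.aemeasurable hg.aestronglyMeasurable,
    integral_withDensity_eq_integral_toReal_smul₀ hW.1.aemeasurable.ennreal_ofReal
      (Eventually.of_forall fun x => ENNReal.ofReal_lt_top)]
  refine integral_congr_ae (Eventually.of_forall fun x => ?_)
  simp only [ENNReal.toReal_ofReal (h0 x)]

theorem charSM {μ : Measure X} {W : X → ℝ} {q : X → ℝ} (hW : Integrable W μ) (h0 : ∀ x, 0 ≤ W x)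
    (hq : Measurable q) (t : ℝ) :
    charFun (SM μ W q) t = ∫ x, (W x : ℂ) * Complex.exp (t * q x * Complex.I) ∂μ := by
  rw [charFun_apply_real, intSM hW h0 hq (fun y => Complex.exp (t * y * Complex.I))
    (Continuous.stronglyMeasurable (by fun_prop))]
  rfl

theorem intSq {μ : Measure X} (f : Lp ℂ 2 μ) : Integrable (fun x => ‖f x‖ ^ 2) μ :=
  (memLp_two_iff_integrable_sq_norm (Lp.aestronglyMeasurable f)).1 (Lp.memLp f)

/-- an inner product with a modulation. -/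
theorem inMod {μ : Measure X} (f g : Lp ℂ 2 μ) (q : X → ℝ) (t : ℝ)
    (h : ∀ᵐ x ∂μ, g x = Complex.exp (t * q x * Complex.I) * f x) :
    inner ℂ f g = ∫ x, ((‖f x‖ ^ 2 : ℝ) : ℂ) * Complex.exp (t * q x * Complex.I) ∂μ := by
  rw [L2.inner_def]
  refine integral_congr_ae ?_
  filter_upwards [h] with x hx
  rw [hx, RCLike.inner_apply]
  have : f x * conj (f x) = ((‖f x‖ ^ 2 : ℝ) : ℂ) := by
    rw [Complex.mul_conj, Complex.normSq_eq_norm_sq]
  rw [mul_assoc, this]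
  ring

end gen

theorem prE_meas : Measurable prE := prE_mp.measurable

theorem innerE (f g : L2) : inner ℂ (toE f) (toE g) = inner ℂ f g :=
  (Lp.compMeasurePreservingₗᵢ ℂ prE prE_mp).inner_map_map f g

/-- the spectral integral through the full Fourier transform, for every `f` in `L²`. -/
theorem XXE (hPD2 : SpecPD2) (hTFE : SpecTFE) (P : L2 ≃ₗᵢ[ℂ] L2) (hP : IsPF P) (f : L2) :
    XX P f = ∫ k : E2, |2 * Real.pi * (prE k).2| * ‖(𝓕 (toE f) : L2E) k‖ ^ 2 := by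
  set W₁ : ℝ × ℝ → ℝ := fun x => ‖P f x‖ ^ 2 with hW₁
  set W₂ : E2 → ℝ := fun k => ‖(𝓕 (toE f) : L2E) k‖ ^ 2 with hW₂
  have i1 : Integrable W₁ := intSq (P f)
  have i2 : Integrable W₂ := intSq (𝓕 (toE f) : L2E)
  have p1 : ∀ x, 0 ≤ W₁ x := fun x => by positivity
  have p2 : ∀ x, 0 ≤ W₂ x := fun x => by positivity
  have q1 : Measurable fun x : ℝ × ℝ => x.2 := measurable_snd
  have q2 : Measurable fun k : E2 => (prE k).2 := measurable_snd.comp prE_meas
  have := finSM i1 q1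
  have := finSM i2 q2
  have heq : SM volume W₁ (fun x : ℝ × ℝ => x.2) = SM volume W₂ (fun k : E2 => (prE k).2) := by
    refine Measure.ext_of_charFun (funext fun t => ?_)
    rw [charSM i1 p1 q1, charSM i2 p2 q2]
    have hpi : (Real.pi : ℂ) ≠ 0 := Complex.ofReal_ne_zero.2 Real.pi_ne_zero
    have a1 : ∀ᵐ x : ℝ × ℝ, P (trn (t / (2 * Real.pi)) f) x
        = Complex.exp (t * x.2 * Complex.I) * P f x := by
      filter_upwards [(hPD2 P hP).1 (t / (2 * Real.pi)) f] with x hx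
      rw [hx]
      congr 2
      push_cast
      field_simp
    have a2 : ∀ᵐ k : E2, (𝓕 (toE (trn (t / (2 * Real.pi)) f)) : L2E) k
        = Complex.exp (t * (prE k).2 * Complex.I) * (𝓕 (toE f) : L2E) k := by
      filter_upwards [hTFE.1 (t / (2 * Real.pi)) f] with x hx
      rw [hx]
      congr 2
      push_cast
      field_simp
    have b1 := inMod (P f) (P (trn (t / (2 * Real.pi)) f)) (fun x : ℝ × ℝ => x.2) t a1
    have b2 := inMod (𝓕 (toE f) : L2E) (𝓕 (toE (trn (t / (2 * Real.pi)) f)) : L2E)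
      (fun k : E2 => (prE k).2) t a2
    rw [P.inner_map_map] at b1
    rw [Lp.inner_fourier_eq, innerE] at b2
    exact b1.symm.trans b2
  have c1 := intSM i1 p1 q1 (fun y => |2 * Real.pi * y|) (Continuous.stronglyMeasurable (by fun_prop))
  have c2 := intSM i2 p2 q2 (fun y => |2 * Real.pi * y|) (Continuous.stronglyMeasurable (by fun_prop))
  rw [heq, c2] at c1
  simp only [smul_eq_mul] at c1
  rw [XX]
  calc (∫ x : ℝ × ℝ, |2 * Real.pi * x.2| * ‖P f x‖ ^ 2) = ∫ x, W₁ x * |2 * Real.pi * x.2| := by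
        refine integral_congr_ae (Eventually.of_forall fun x => ?_)
        simp only [hW₁]; ring
    _ = ∫ k, W₂ k * |2 * Real.pi * (prE k).2| := c1.symm
    _ = _ := by
        refine integral_congr_ae (Eventually.of_forall fun x => ?_)
        simp only [hW₂]; ring

/-- weighted integrability from a derivative. -/
theorem intW {X : Type*} [MeasurableSpace X] {μ : Measure X} (f g : Lp ℂ 2 μ) (q : X → ℝ)
    (hq : Measurable q) (h : ∀ᵐ x ∂μ, g x = 2 * Real.pi * Complex.I * (q x : ℂ) * f x) :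
    Integrable (fun x => |2 * Real.pi * q x| * ‖f x‖ ^ 2) μ := by
  have h1 := intSq f
  have h2 := intSq g
  refine (h1.add h2).mono' ?_ ?_
  · exact (by fun_prop : Measurable fun x => |2 * Real.pi * q x|).aestronglyMeasurable.mul
      h1.aestronglyMeasurable
  · filter_upwards [h] with x hx
    have e : ‖g x‖ ^ 2 = |2 * Real.pi * q x| ^ 2 * ‖f x‖ ^ 2 := by
      rw [hx, norm_mul, norm_mul, norm_mul, norm_mul, Complex.norm_I, Complex.norm_real,
        Complex.norm_real, Complex.norm_two, abs_mul, abs_mul, Real.norm_eq_abs, Real.norm_eq_abs]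
      rw [abs_of_pos (by norm_num : (0 : ℝ) < 2)]
      ring
    rw [Real.norm_of_nonneg (by positivity)]
    show _ ≤ ‖f x‖ ^ 2 + ‖g x‖ ^ 2
    rw [e]
    nlinarith [sq_nonneg (|2 * Real.pi * q x| - 1), sq_nonneg ‖f x‖, sq_nonneg (|2 * Real.pi * q x|),
      mul_nonneg (sq_nonneg (|2 * Real.pi * q x| - 1)) (sq_nonneg ‖f x‖),
      mul_nonneg (sq_nonneg (|2 * Real.pi * q x|)) (sq_nonneg ‖f x‖)]

/-- exchange of the coordinates in `E2`. -/
def sE (k : E2) : E2 := inE (prE k).swap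

theorem sE_mp : MeasurePreserving sE (volume : Measure E2) (volume : Measure E2) :=
  inE_mp.comp ((Measure.measurePreserving_swap (μ := (volume : Measure ℝ))
    (ν := (volume : Measure ℝ))).comp prE_mp)

theorem sE_sE (k : E2) : sE (sE k) = k := rfl

end CHNM

open CHNM

theorem specCHN (hTFE : SpecTFE) (hPD2 : SpecPD2) (hFWD : TY.SpecFWD) : SpecCHN := by
  intro P hP f F₁ F₂ hf
  obtain ⟨g1, g2⟩ := (hFWD f F₁ F₂).1 hf
  have q1 : Measurable fun k : E2 => (prE k).1 := measurable_fst.comp prE_meas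
  have q2 : Measurable fun k : E2 => (prE k).2 := measurable_snd.comp prE_meas
  have i1 := intW (𝓕 (toE f) : L2E) (𝓕 (toE F₁) : L2E) (fun k => (prE k).1) q1 g1
  have i2 := intW (𝓕 (toE f) : L2E) (𝓕 (toE F₂) : L2E) (fun k => (prE k).2) q2 g2
  have e : (fun k : E2 => (|2 * Real.pi * (prE k).1| + |2 * Real.pi * (prE k).2|)
      * ‖(𝓕 (toE f) : L2E) k‖ ^ 2) = fun k => |2 * Real.pi * (prE k).1| * ‖(𝓕 (toE f) : L2E) k‖ ^ 2
        + |2 * Real.pi * (prE k).2| * ‖(𝓕 (toE f) : L2E) k‖ ^ 2 := by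
    funext k; ring
  refine ⟨by rw [e]; exact i1.add i2, ?_⟩
  rw [HH, e, integral_add i1 i2, XXE hPD2 hTFE P hP f, XXE hPD2 hTFE P hP (swp f), add_comm]
  congr 1
  have s1 : (∫ k : E2, |2 * Real.pi * (prE k).2| * ‖(𝓕 (toE (swp f)) : L2E) k‖ ^ 2)
      = ∫ k : E2, |2 * Real.pi * (prE (sE k)).1| * ‖(𝓕 (toE f) : L2E) (sE k)‖ ^ 2 := by
    refine integral_congr_ae ?_
    filter_upwards [hTFE.2 f] with k hk
    rw [hk]
    rfl
  rw [s1]
  have hms : AEStronglyMeasurable (fun k : E2 => |2 * Real.pi * (prE k).1| * ‖(𝓕 (toE f) : L2E) k‖ ^ 2)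
      (volume : Measure E2) := i1.1
  have := integral_map (μ := (volume : Measure E2)) sE_mp.measurable.aemeasurable
    (f := fun k : E2 => |2 * Real.pi * (prE k).1| * ‖(𝓕 (toE f) : L2E) k‖ ^ 2)
    (by rw [sE_mp.map_eq]; exact hms)
  rw [sE_mp.map_eq] at this
  exact this

end Pool.Agent.Lib.MP424d38.ES
end
end

section
/-!
# Block ES, module EMB: `H^{1/2} ⊂ L⁴`
-/
set_option autoImplicit false

open MeasureTheory Filter Topology Set
open scoped ENNReal ContDiff ComplexConjugate FourierTransform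

noncomputable section

namespace Pool.Agent.Lib.MP424d38.ES

open Pool.Agent.Lib.MP424d38.TY

namespace EMBM

/-- the squared norm in `L²` of a measure space, as an integral -/
theorem norm_sq {X : Type*} [MeasurableSpace X] {μ : Measure X} (f : Lp ℂ 2 μ) : ‖f‖ ^ 2 = ∫ k, ‖f k‖ ^ 2 ∂μ := by
  have h1 : ‖f‖ ^ 2 = RCLike.re (inner ℂ f f) := (inner_self_eq_norm_sq f).symm
  rw [h1, L2.inner_def, ← integral_re (L2.integrable_inner f f)]
  refine integral_congr_ae (Eventually.of_forall fun x => ?_)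
  simp only [inner_self_eq_norm_sq]

theorem integrable_sq {X : Type*} [MeasurableSpace X] {μ : Measure X} (f : Lp ℂ 2 μ) :
    Integrable (fun k => ‖f k‖ ^ 2) μ := (Lp.memLp f).integrable_norm_pow (by norm_num)

theorem meas_prE : Measurable (prE : E2 → ℝ × ℝ) := prE_mp.measurable

/-- Chebyshev -/
theorem cheb (g : L2) {s : ℝ} (hs : 0 < s) :
    volume {x : ℝ × ℝ | s < ‖g x‖} ≤ ENNReal.ofReal (‖g‖ ^ 2 / s ^ 2) := by
  have h1 : ENNReal.ofReal (s ^ 2) * volume {x : ℝ × ℝ | ENNReal.ofReal (s ^ 2) ≤ ENNReal.ofReal (‖g x‖ ^ 2)}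
      ≤ ∫⁻ x, ENNReal.ofReal (‖g x‖ ^ 2) := by
    refine mul_meas_ge_le_lintegral₀ ?_ _
    exact ((Lp.aestronglyMeasurable g).norm.aemeasurable.pow_const 2).ennreal_ofReal
  have h2 : (∫⁻ x, ENNReal.ofReal (‖g x‖ ^ 2)) = ENNReal.ofReal (‖g‖ ^ 2) := by
    rw [norm_sq g, ofReal_integral_eq_lintegral_ofReal (integrable_sq g) (Eventually.of_forall fun x => by positivity)]
  have h3 : volume {x : ℝ × ℝ | s < ‖g x‖}
      ≤ volume {x : ℝ × ℝ | ENNReal.ofReal (s ^ 2) ≤ ENNReal.ofReal (‖g x‖ ^ 2)} := by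
    refine measure_mono fun x hx => ?_
    refine ENNReal.ofReal_le_ofReal ?_
    have : s < ‖g x‖ := hx
    gcongr
  have hs2 : 0 < s ^ 2 := by positivity
  rw [h2] at h1
  refine h3.trans ?_
  rw [ENNReal.ofReal_div_of_pos hs2]
  rw [ENNReal.le_div_iff_mul_le (Or.inl (by rw [Ne, ENNReal.ofReal_eq_zero]; linarith)) (Or.inl ENNReal.ofReal_ne_top), mul_comm]
  exact h1

end EMBM

open EMBM in
theorem specEMB (hLOW : SpecLOW) (hLCK : SpecLCK) (hFWD : TY.SpecFWD) (hN4F : TY.SpecN4F) : SpecEMB := by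
  intro f F₁ F₂ hf
  obtain ⟨hF1, hF2⟩ := (hFWD f F₁ F₂).1 hf
  set Φ : L2E := (𝓕 (toE f) : L2E) with hΦ
  -- integrability of the weight
  have hpi : ∀ c : ℝ, ‖(2 * Real.pi * Complex.I * (c : ℂ) : ℂ)‖ = |2 * Real.pi * c| := by
    intro c
    rw [norm_mul, norm_mul, norm_mul, Complex.norm_I, mul_one, Complex.norm_real, Complex.norm_real, abs_mul, abs_mul,
      Real.norm_eq_abs, Real.norm_eq_abs]
    simp
  have hm1 : Measurable fun k : E2 => |2 * Real.pi * (prE k).1| := by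
    have := meas_prE.fst
    fun_prop
  have hm2 : Measurable fun k : E2 => |2 * Real.pi * (prE k).2| := by
    have := meas_prE.snd
    fun_prop
  have hI1 : Integrable fun k : E2 => |2 * Real.pi * (prE k).1| * ‖Φ k‖ ^ 2 := by
    have h0 := ((integrable_sq Φ).add (integrable_sq (𝓕 (toE F₁) : L2E)))
    refine h0.mono' ((hm1.aestronglyMeasurable).mul ((Lp.aestronglyMeasurable Φ).norm.pow 2)) ?_
    filter_upwards [hF1] with k hk
    rw [Pi.add_apply, Real.norm_of_nonneg (by positivity), hk, norm_mul, hpi, mul_pow]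
    nlinarith [sq_nonneg (|2 * Real.pi * (prE k).1| - 1), sq_nonneg ‖Φ k‖,
      mul_nonneg (sq_nonneg (|2 * Real.pi * (prE k).1| - 1)) (sq_nonneg ‖Φ k‖),
      mul_nonneg (sq_nonneg (|2 * Real.pi * (prE k).1|)) (sq_nonneg ‖Φ k‖)]
  have hI2 : Integrable fun k : E2 => |2 * Real.pi * (prE k).2| * ‖Φ k‖ ^ 2 := by
    have h0 := ((integrable_sq Φ).add (integrable_sq (𝓕 (toE F₂) : L2E)))
    refine h0.mono' ((hm2.aestronglyMeasurable).mul ((Lp.aestronglyMeasurable Φ).norm.pow 2)) ?_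
    filter_upwards [hF2] with k hk
    rw [Pi.add_apply, Real.norm_of_nonneg (by positivity), hk, norm_mul, hpi, mul_pow]
    nlinarith [sq_nonneg (|2 * Real.pi * (prE k).2| - 1), sq_nonneg ‖Φ k‖,
      mul_nonneg (sq_nonneg (|2 * Real.pi * (prE k).2| - 1)) (sq_nonneg ‖Φ k‖),
      mul_nonneg (sq_nonneg (|2 * Real.pi * (prE k).2|)) (sq_nonneg ‖Φ k‖)]
  have hIw : Integrable fun k : E2 => (|2 * Real.pi * (prE k).1| + |2 * Real.pi * (prE k).2|) * ‖Φ k‖ ^ 2 := by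
    refine (hI1.add hI2).congr (Eventually.of_forall fun k => ?_)
    simp only [Pi.add_apply]; ring
  have hHH : HH f = ∫ k : E2, (|2 * Real.pi * (prE k).1| + |2 * Real.pi * (prE k).2|) * ‖Φ k‖ ^ 2 := rfl
  have hHH0 : 0 ≤ HH f := by
    rw [hHH]; exact integral_nonneg fun k => by positivity
  set h : E2 → ℝ := fun k => max |2 * Real.pi * (prE k).1| |2 * Real.pi * (prE k).2| with hh
  have hhm : Measurable h := hm1.max hm2
  have hh0 : ∀ k, 0 ≤ h k := fun k => le_max_of_le_left (abs_nonneg _)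
  have hhF : Integrable fun k => h k * ‖Φ k‖ ^ 2 := by
    refine hIw.mono' (hhm.aestronglyMeasurable.mul ((Lp.aestronglyMeasurable Φ).norm.pow 2))
      (Eventually.of_forall fun k => ?_)
    rw [Real.norm_of_nonneg (mul_nonneg (hh0 k) (by positivity))]
    refine mul_le_mul_of_nonneg_right ?_ (by positivity)
    exact max_le (le_add_of_nonneg_right (abs_nonneg _)) (le_add_of_nonneg_left (abs_nonneg _))
  have hhle : (∫ k, h k * ‖Φ k‖ ^ 2) ≤ HH f := by
    rw [hHH]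
    refine integral_mono hhF hIw fun k => ?_
    refine mul_le_mul_of_nonneg_right ?_ (by positivity)
    exact max_le (le_add_of_nonneg_right (abs_nonneg _)) (le_add_of_nonneg_left (abs_nonneg _))
  -- the bound with `H > HH f`
  have main : ∀ H : ℝ, 0 < H → HH f ≤ H → (∫ x, ‖f x‖ ^ 4) ≤ 32 * H * HH f := by
    intro H hH hle
    have hc : 0 < 1 / (4 * H) := by positivity
    have hlc := hLCK f h (fun k => ‖Φ k‖ ^ 2) (1 / (4 * H)) hc hhm hh0 (fun k => by positivity) (integrable_sq Φ) hhF ?_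
    · have h4 : Integrable fun x => ‖f x‖ ^ 4 := (hN4F.1 f F₁ F₂ hf).1.integrable_norm_pow (by norm_num)
      rw [integral_eq_lintegral_of_nonneg_ae (Eventually.of_forall fun x => by positivity) h4.1]
      refine ENNReal.toReal_le_of_le_ofReal (by positivity) (hlc.trans (ENNReal.ofReal_le_ofReal ?_))
      have : 8 / (1 / (4 * H)) = 32 * H := by field_simp; ring
      rw [this]
      exact mul_le_mul_of_nonneg_left hhle (by positivity)
    · intro t ht
      set lam : ℝ := t ^ 2 / (4 * H) with hlam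
      have hlam0 : 0 < lam := by positivity
      obtain ⟨f₁, f₂, he, hf1, hf2⟩ := hLOW f hIw lam hlam0
      have hsub : volume {x : ℝ × ℝ | t < ‖f x‖} ≤ volume {x : ℝ × ℝ | t / 2 < ‖f₂ x‖} := by
        refine measure_mono_ae ?_
        have he' : ∀ᵐ x : ℝ × ℝ, f x = f₁ x + f₂ x := by
          have := Lp.coeFn_add f₁ f₂
          rw [← he] at this
          exact this
        filter_upwards [he', hf1] with x hx hx1
        intro hx2
        have hx2' : t < ‖f x‖ := hx2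
        have h5 : ‖f₁ x‖ ≤ t / 2 := by
          refine abs_le_of_sq_le_sq' ?_ (by positivity) |>.2
          refine hx1.trans ?_
          calc lam * HH f ≤ lam * H := mul_le_mul_of_nonneg_left hle hlam0.le
            _ = (t / 2) ^ 2 := by rw [hlam]; field_simp; ring
        have h6 : ‖f x‖ ≤ ‖f₁ x‖ + ‖f₂ x‖ := by rw [hx]; exact norm_add_le _ _
        show t / 2 < ‖f₂ x‖
        linarith
      refine hsub.trans ((cheb f₂ (by positivity : 0 < t / 2)).trans (ENNReal.ofReal_le_ofReal ?_))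
      rw [hf2]
      have e1 : 1 / (4 * H) * t ^ 2 = lam := by rw [hlam]; ring
      rw [e1]
      refine le_of_eq ?_
      rw [show (t / 2) ^ 2 = t ^ 2 / 4 by ring]
      field_simp
      rfl
  have hlim : Tendsto (fun ε : ℝ => 32 * (HH f + ε) * HH f) (𝓝[>] 0) (𝓝 (32 * (HH f + 0) * HH f)) := by
    refine Tendsto.mono_left ?_ nhdsWithin_le_nhds
    exact Continuous.tendsto (by fun_prop) 0
  have := ge_of_tendsto hlim (by
    filter_upwards [self_mem_nhdsWithin] with ε hε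
    exact main (HH f + ε) (by have : (0 : ℝ) < ε := hε; linarith) (by have : (0 : ℝ) < ε := hε; linarith))
  calc (∫ x, ‖f x‖ ^ 4) ≤ 32 * (HH f + 0) * HH f := this
    _ = 32 * HH f ^ 2 := by ring

end Pool.Agent.Lib.MP424d38.ES
end
end

section
/-!
# Block ES, module FI2 (transfer of the theorem from null coordinates to `EE`)
-/
set_option autoImplicit false

open MeasureTheory Filter Topology Set
open scoped ENNReal ContDiff ComplexConjugate

noncomputable section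

namespace Pool.Agent.Lib.MP424d38.ES

open Pool.Agent.Lib.MP424d38.TY

namespace FI2M

theorem norm_of (CH : SpecCHV) (w : L2) (g : EE → ℂ) (c : ℂ)
    (hg : AEStronglyMeasurable g volume) (hw : ∀ᵐ x : ℝ × ℝ, w x = c * g (PhiN x)) :
    ‖w‖ = ‖c‖ * (Real.sqrt 2 * nrm g) := by
  have h1 : eLpNorm w 2 volume = ‖c‖ₑ * eLpNorm (fun x => g (PhiN x)) 2 volume := by
    rw [eLpNorm_congr_ae hw]
    exact eLpNorm_const_smul c (fun x => g (PhiN x)) 2 volume
  rw [Lp.norm_def, h1, CH.2.2.2.2.1 g hg, ENNReal.toReal_mul, ENNReal.toReal_mul, toReal_enorm,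
    ENNReal.toReal_ofReal (Real.sqrt_nonneg _)]
  rfl

theorem lint_of (CH : SpecCHV) (F : EE → ℝ≥0∞) (hF : AEMeasurable F volume) :
    ∫⁻ x : ℝ × ℝ, F (PhiN x) = 2 * ∫⁻ z : EE, F z := by
  have h1 : AEMeasurable F (Measure.map PhiN (volume : Measure (ℝ × ℝ))) := by
    rw [CH.1]
    exact hF.smul_measure _
  rw [← lintegral_map' h1 CH.2.1.aemeasurable, CH.1, lintegral_smul_measure, smul_eq_mul]

theorem sint_of (CH : SpecCHV) (F : EE → ℝ) (hF : AEStronglyMeasurable F volume) (S : Set EE)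
    (hS : MeasurableSet S) :
    ∫ x in PhiN ⁻¹' S, F (PhiN x) = 2 * ∫ z in S, F z := by
  have h1 : AEStronglyMeasurable F (Measure.map PhiN (volume : Measure (ℝ × ℝ))) := by
    rw [CH.1]
    exact hF.smul_measure _
  rw [← setIntegral_map hS h1 CH.2.1.aemeasurable, CH.1, Measure.restrict_smul,
    integral_smul_measure]
  simp

theorem nrm_tri (f g h : EE → ℂ) (hf : MemLp f 2 volume) (hg : MemLp g 2 volume)
    (hh : ∀ x, h x = (1 / 2 : ℂ) * (f x + g x)) : nrm h ≤ 1 / 2 * (nrm f + nrm g) := by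
  have h1 : h = (1 / 2 : ℂ) • (f + g) := by
    ext x
    rw [hh x]
    rfl
  unfold nrm
  rw [h1, eLpNorm_const_smul, ENNReal.toReal_mul, toReal_enorm]
  have h2 : ‖(1 / 2 : ℂ)‖ = 1 / 2 := by norm_num
  rw [h2]
  refine mul_le_mul_of_nonneg_left ?_ (by norm_num)
  rw [← ENNReal.toReal_add hf.2.ne hg.2.ne]
  exact ENNReal.toReal_mono (ENNReal.add_ne_top.2 ⟨hf.2.ne, hg.2.ne⟩)
    (eLpNorm_add_le hf.1 hg.1 (by norm_num))

/-- the conclusions for one direction, from null coordinates to `EE`. -/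
theorem back (CH : SpecCHV) (T ε s : ℝ) (u : ℝ → EE → ℂ) (G : ℝ → Fin 2 → EE → ℂ)
    (v w : ℝ → L2) (α : ℝ × ℝ → ℝ) (hT : 0 < T) (hu : ∀ t ∈ Ico 0 T, MemLp (u t) 2 volume)
    (hG : ∀ t ∈ Ico 0 T, ∀ j, MemLp (G t j) 2 volume)
    (hα : ∀ x, α x = PhiN x 0 - s * PhiN x 1)
    (hv : ∀ t ∈ Ico 0 T, ∀ᵐ x : ℝ × ℝ, v t x = u t (PhiN x))
    (hw : ∀ t ∈ Ico 0 T, ∀ᵐ x : ℝ × ℝ,
      w t x = (1 / 2 : ℂ) * (G t 0 (PhiN x) + (s : ℂ) * G t 1 (PhiN x)))
    (hE : Esc2 T ε α v w) :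
    (∀ B : ℝ, ∃ t ∈ Ico 0 T,
      B < ∫ r in t..((t + T) / 2), nrm (fun x => G r 0 x + (s : ℂ) * G r 1 x)) ∧
    (∀ B : ℝ, ∀ᶠ t in 𝓝[<] T, ∀ y : ℝ,
      ENNReal.ofReal B < ∫⁻ x : EE, ENNReal.ofReal (|x 0 - s * x 1 - y| * ‖u t x‖ ^ 2)) ∧
    (∀ (R : ℝ) (y : ℝ → ℝ), ∃ᶠ t in 𝓝[<] T,
      ε / 2 ≤ ∫ x in {x : EE | R < |x 0 - s * x 1 - y t|}, ‖u t x‖ ^ 2) := by
  obtain ⟨e1, e3, e4⟩ := hE
  have hIco : ∀ᶠ t in 𝓝[<] T, t ∈ Ico 0 T := Ico_mem_nhdsLT hT
  have hc : ∀ y : ℝ, Continuous fun x : EE => x 0 - s * x 1 - y := fun y => by fun_prop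
  have hn : ∀ t ∈ Ico 0 T, ‖w t‖ = Real.sqrt 2 / 2 * nrm (fun x => G t 0 x + (s : ℂ) * G t 1 x) := by
    intro t ht
    have h1 : AEStronglyMeasurable (fun x => G t 0 x + (s : ℂ) * G t 1 x) volume :=
      (hG t ht 0).1.add ((hG t ht 1).1.const_mul _)
    rw [norm_of CH (w t) _ (1 / 2) h1 (hw t ht)]
    have h2 : ‖(1 / 2 : ℂ)‖ = 1 / 2 := by norm_num
    rw [h2]
    ring
  have h2pos : 0 < Real.sqrt 2 := Real.sqrt_pos.2 (by norm_num)
  refine ⟨?_, ?_, ?_⟩
  · intro B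
    obtain ⟨t, ht, h1⟩ := e1 (Real.sqrt 2 / 2 * B)
    refine ⟨t, ht, ?_⟩
    have hle : t ≤ (t + T) / 2 := by linarith [ht.2]
    have h2 : (∫ r in t..((t + T) / 2), ‖w r‖)
        = ∫ r in t..((t + T) / 2), Real.sqrt 2 / 2 * nrm (fun x => G r 0 x + (s : ℂ) * G r 1 x) := by
      refine intervalIntegral.integral_congr fun r hr => ?_
      rw [uIcc_of_le hle] at hr
      exact hn r ⟨ht.1.trans hr.1, lt_of_le_of_lt hr.2 (by linarith [ht.2])⟩
    rw [h2, intervalIntegral.integral_const_mul] at h1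
    exact lt_of_mul_lt_mul_left h1 (by positivity)
  · intro B
    filter_upwards [e3 (2 * max B 0), hIco] with t h1 ht y
    have h2 := h1 y
    have hm : AEMeasurable (fun x : EE => ENNReal.ofReal (|x 0 - s * x 1 - y| * ‖u t x‖ ^ 2))
        volume := by
      refine ENNReal.measurable_ofReal.comp_aemeasurable ?_
      refine AEMeasurable.mul ?_ ?_
      · exact (continuous_abs.comp (hc y)).measurable.aemeasurable
      · exact ((hu t ht).1.norm.aemeasurable).pow_const 2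
    have h3 : (∫⁻ x : ℝ × ℝ, ENNReal.ofReal (|α x - y| * ‖v t x‖ ^ 2))
        = 2 * ∫⁻ x : EE, ENNReal.ofReal (|x 0 - s * x 1 - y| * ‖u t x‖ ^ 2) := by
      rw [← lint_of CH _ hm]
      refine lintegral_congr_ae ?_
      filter_upwards [hv t ht] with x hx
      rw [hx, hα]
    rw [h3, ENNReal.ofReal_mul (by norm_num), ENNReal.ofReal_ofNat] at h2
    have h4 : ENNReal.ofReal (max B 0)
        < ∫⁻ x : EE, ENNReal.ofReal (|x 0 - s * x 1 - y| * ‖u t x‖ ^ 2) := by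
      by_contra hcon
      push Not at hcon
      exact absurd h2 (not_lt.2 (mul_le_mul_right hcon 2))
    exact lt_of_le_of_lt (ENNReal.ofReal_le_ofReal (le_max_left _ _)) h4
  · intro R y
    refine ((e4 R y).and_eventually hIco).mono ?_
    rintro t ⟨h1, ht⟩
    have hS : MeasurableSet {x : EE | R < |x 0 - s * x 1 - y t|} :=
      (isOpen_lt continuous_const (continuous_abs.comp (hc (y t)))).measurableSet
    have hm : AEStronglyMeasurable (fun x : EE => ‖u t x‖ ^ 2) volume := (hu t ht).1.norm.pow 2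
    have h2 := sint_of CH _ hm _ hS
    have h3 : (∫ x in {x : ℝ × ℝ | R < |α x - y t|}, ‖v t x‖ ^ 2)
        = ∫ x in PhiN ⁻¹' {x : EE | R < |x 0 - s * x 1 - y t|}, ‖u t (PhiN x)‖ ^ 2 := by
      have h4 : {x : ℝ × ℝ | R < |α x - y t|}
          = PhiN ⁻¹' {x : EE | R < |x 0 - s * x 1 - y t|} := by
        ext x
        show R < |α x - y t| ↔ R < |PhiN x 0 - s * PhiN x 1 - y t|
        rw [hα]
      rw [h4]
      refine integral_congr_ae (ae_restrict_of_ae ?_)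
      filter_upwards [hv t ht] with x hx
      rw [hx]
    rw [h3, h2] at h1
    linarith

end FI2M

open FI2M in
theorem specFI2 (NU : SpecNU2) (TR : SpecTRF) (CH : SpecCHV) : SpecFI2 := by
  intro M
  obtain ⟨ε, hε, hN⟩ := NU (2 * M)
  refine ⟨ε / 2, by positivity, ?_⟩
  intro T u G hT hS hM hB
  obtain ⟨v, v₁, v₂, N, hNls, hd⟩ := TR T u G hS
  have h0T : (0 : ℝ) ∈ Ico 0 T := ⟨le_rfl, hT⟩
  have h2sq : Real.sqrt 2 * Real.sqrt 2 = 2 := Real.mul_self_sqrt (by norm_num)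
  have h2pos : 0 < Real.sqrt 2 := Real.sqrt_pos.2 (by norm_num)
  have hm : ‖v 0‖ ^ 2 = 2 * M := by
    have h1 : ∀ᵐ x : ℝ × ℝ, v 0 x = 1 * u 0 (PhiN x) := by
      filter_upwards [(hd 0 h0T).1] with x hx
      rw [hx, one_mul]
    rw [norm_of CH (v 0) (u 0) 1 (hS.memu 0 h0T).1 h1, norm_one, one_mul, mul_pow, hM,
      Real.sq_sqrt (by norm_num)]
  have hG0 : ∀ t ∈ Ico 0 T, MemLp (fun x => G t 0 x + G t 1 x) 2 volume := fun t ht =>
    (hS.memG t ht 0).add (hS.memG t ht 1)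
  have hG1 : ∀ t ∈ Ico 0 T, MemLp (fun x => G t 0 x - G t 1 x) 2 volume := fun t ht =>
    (hS.memG t ht 0).sub (hS.memG t ht 1)
  have hhalf : ‖(1 / 2 : ℂ)‖ = 1 / 2 := by norm_num
  have n2 : ∀ t ∈ Ico 0 T, ‖v₂ t‖ = 1 / 2 * (Real.sqrt 2 * nrm (fun x => G t 0 x + G t 1 x)) :=
    fun t ht => by
      rw [norm_of CH (v₂ t) _ (1 / 2) (hG0 t ht).1 (hd t ht).2.2, hhalf]
  have n1 : ∀ t ∈ Ico 0 T, ‖v₁ t‖ = 1 / 2 * (Real.sqrt 2 * nrm (fun x => G t 0 x - G t 1 x)) :=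
    fun t ht => by
      rw [norm_of CH (v₁ t) _ (1 / 2) (hG1 t ht).1 (hd t ht).2.1, hhalf]
  have hunb : ¬ ∃ D : ℝ, ∀ t ∈ Ico 0 T, ‖v₁ t‖ ≤ D ∧ ‖v₂ t‖ ≤ D := by
    rintro ⟨D, hD⟩
    apply hB
    refine ⟨Real.sqrt 2 * D, fun t ht => ?_⟩
    obtain ⟨d1, d2⟩ := hD t ht
    rw [n1 t ht] at d1
    rw [n2 t ht] at d2
    have ee : ∀ X : ℝ, Real.sqrt 2 * (1 / 2 * (Real.sqrt 2 * X)) = X := fun X => by
      have : Real.sqrt 2 * (1 / 2 * (Real.sqrt 2 * X))
          = (Real.sqrt 2 * Real.sqrt 2) * (1 / 2 * X) := by ring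
      rw [this, h2sq]
      ring
    have a1 : nrm (fun x => G t 0 x - G t 1 x) ≤ Real.sqrt 2 * D := by
      have := mul_le_mul_of_nonneg_left d1 h2pos.le
      rwa [ee] at this
    have a2 : nrm (fun x => G t 0 x + G t 1 x) ≤ Real.sqrt 2 * D := by
      have := mul_le_mul_of_nonneg_left d2 h2pos.le
      rwa [ee] at this
    constructor
    · have := nrm_tri (fun x => G t 0 x + G t 1 x) (fun x => G t 0 x - G t 1 x) (G t 0)
        (hG0 t ht) (hG1 t ht) (fun x => by ring)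
      linarith
    · have hneg : nrm (fun x => -(G t 0 x - G t 1 x)) = nrm (fun x => G t 0 x - G t 1 x) := by
        unfold nrm
        congr 1
        exact eLpNorm_neg (fun x => G t 0 x - G t 1 x) 2 volume
      have := nrm_tri (fun x => G t 0 x + G t 1 x) (fun x => -(G t 0 x - G t 1 x)) (G t 1)
        (hG0 t ht) (hG1 t ht).neg (fun x => by ring)
      rw [hneg] at this
      linarith
  obtain ⟨hpi, halt⟩ := hN T v v₁ v₂ N hT hNls hm hunb
  refine ⟨by linarith, ?_⟩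
  rcases halt with hE | hE
  · refine ⟨1, Or.inl rfl, ?_⟩
    refine back CH T ε 1 u G v v₂ (fun x => x.1) hT hS.memu hS.memG ?_ (fun t ht => (hd t ht).1)
      ?_ hE
    · intro x
      simp only [PhiN, PiLp.toLp_apply, Matrix.cons_val_zero, Matrix.cons_val_one, one_mul]
      ring
    · intro t ht
      filter_upwards [(hd t ht).2.2] with x hx
      rw [hx, Complex.ofReal_one, one_mul]
  · refine ⟨-1, Or.inr rfl, ?_⟩
    refine back CH T ε (-1) u G v v₁ (fun x => x.2) hT hS.memu hS.memG ?_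
      (fun t ht => (hd t ht).1) ?_ hE
    · intro x
      simp only [PhiN, PiLp.toLp_apply, Matrix.cons_val_zero, Matrix.cons_val_one]
      ring
    · intro t ht
      filter_upwards [(hd t ht).2.1] with x hx
      rw [hx]
      push_cast
      ring

end Pool.Agent.Lib.MP424d38.ES
end
end

section
/-!
# Block ES, module GRB: Morawetz bound for a flow without sources
-/
set_option autoImplicit false

open MeasureTheory Filter Topology Set
open scoped ENNReal ContDiff ComplexConjugate FourierTransform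

noncomputable section

namespace Pool.Agent.Lib.MP424d38.ES

open Pool.Agent.Lib.MP424d38.TY

namespace GRBM

/-- a law without source is a law with source zero -/
theorem lawS_of_law {T : ℝ} {f F : ℝ → L1} (h : Law T f F) : LawS T f F (fun _ => (0 : L1)) := by
  refine ⟨h.cf, h.cF, continuousOn_const, fun β hβ t t' h0 ht h' => ?_⟩
  rw [h.law β hβ t t' h0 ht h']
  refine intervalIntegral.integral_congr fun r _ => ?_
  have h1 : (∫ a, β a * (0 : L1) a) = 0 := by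
    have h2 : (fun a => β a * (0 : L1) a) =ᵐ[volume] fun _ => (0 : ℝ) := by
      filter_upwards [Lp.coeFn_zero ℝ 1 (volume : Measure ℝ)] with a ha
      rw [ha]; simp
    rw [integral_congr_ae h2]; simp
  show (∫ a, deriv β a * F r a) = (∫ a, deriv β a * F r a) + ∫ a, β a * (0 : L1) a
  rw [h1, add_zero]

end GRBM

theorem specGRB (hMOR : SpecMOR) (hFLB : TY.SpecFLB) : SpecGRB := by
  intro T m R ρ p e hF t ht
  have h0 : (0 : ℝ) ∈ Ico 0 T := ⟨le_rfl, lt_of_le_of_lt ht.1 ht.2⟩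
  obtain ⟨-, -, h⟩ := hMOR T R ρ p e _ _ (GRBM.lawS_of_law hF.lawρ) (GRBM.lawS_of_law hF.lawp) hF.cR hF.pos t ht
  have e1 := (hFLB T m R ρ p e hF t ht).2.1
  have e2 := (hFLB T m R ρ p e hF 0 h0).2.1
  simp only [norm_zero, zero_mul, mul_zero, add_zero, intervalIntegral.integral_zero] at h
  rw [e1, e2] at h
  linarith [h]

end Pool.Agent.Lib.MP424d38.ES
end
end

section
set_option autoImplicit false

open MeasureTheory Filter Topology Set
open scoped ENNReal ContDiff ComplexConjugate FourierTransform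

noncomputable section

namespace Pool.Agent.Lib.MP424d38.ES

open Pool.Agent.Lib.MP424d38.TY

namespace LCKM

/-- `∫_0^x 4 t³ = x⁴`. -/
lemma int4 (x : ℝ) : (∫ t in (0:ℝ)..x, 4 * t ^ 3) = x ^ 4 := by
  rw [intervalIntegral.integral_const_mul, integral_pow]
  ring

/-- `∫_0^x 16 t = 8 x²`. -/
lemma int16 (x : ℝ) : (∫ t in (0:ℝ)..x, 16 * t) = 8 * x ^ 2 := by
  rw [intervalIntegral.integral_const_mul, integral_id]
  ring

/-- the layer cake formula for the fourth power. -/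
lemma lay4 (f : L2) : (∫⁻ x, ENNReal.ofReal (‖f x‖ ^ 4))
    = ∫⁻ t in Ioi (0:ℝ), volume {x : ℝ × ℝ | t < ‖f x‖} * ENNReal.ofReal (4 * t ^ 3) := by
  have h := lintegral_comp_eq_lintegral_meas_lt_mul (volume : Measure (ℝ × ℝ))
    (f := fun x => ‖f x‖) (g := fun t => 4 * t ^ 3)
    (Eventually.of_forall fun x => norm_nonneg _)
    (Lp.aestronglyMeasurable f).norm.aemeasurable
    (fun t _ => (by fun_prop : Continuous fun t : ℝ => 4 * t ^ 3).intervalIntegrable _ _)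
    (by
      refine (ae_restrict_iff' measurableSet_Ioi).2 (Eventually.of_forall fun t ht => ?_)
      have : (0:ℝ) < t := ht
      positivity)
  simp only [int4] at h
  exact h

/-- the layer cake formula for `h`. -/
lemma layh (h F : E2 → ℝ) (c : ℝ) (hc : 0 < c) (hm : Measurable h) (h0 : ∀ k, 0 ≤ h k)
    (F0 : ∀ k, 0 ≤ F k) (Fi : Integrable F) (hF : Integrable fun k => h k * F k) :
    (∫⁻ t in Ioi (0:ℝ), ENNReal.ofReal (∫ k in {k : E2 | c * t ^ 2 < h k}, F k) * ENNReal.ofReal (16 * t))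
      = ENNReal.ofReal (8 / c * ∫ k, h k * F k) := by
  set ν : Measure E2 := (volume : Measure E2).withDensity (fun k => ENNReal.ofReal (F k)) with hν
  have hq : Measurable fun k => Real.sqrt (h k / c) := (hm.div_const c).sqrt
  have key := lintegral_comp_eq_lintegral_meas_lt_mul ν
    (f := fun k => Real.sqrt (h k / c)) (g := fun t => 16 * t)
    (Eventually.of_forall fun x => Real.sqrt_nonneg _) hq.aemeasurable
    (fun t _ => (by fun_prop : Continuous fun t : ℝ => 16 * t).intervalIntegrable _ _)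
    (by
      refine (ae_restrict_iff' measurableSet_Ioi).2 (Eventually.of_forall fun t ht => ?_)
      have : (0:ℝ) < t := ht
      positivity)
  have hset : ∀ t ∈ Ioi (0:ℝ), ν {k | t < Real.sqrt (h k / c)}
      = ENNReal.ofReal (∫ k in {k : E2 | c * t ^ 2 < h k}, F k) := by
    intro t ht
    have ht0 : (0:ℝ) < t := ht
    have e : {k | t < Real.sqrt (h k / c)} = {k : E2 | c * t ^ 2 < h k} := by
      ext k
      simp only [mem_ofPred_eq]
      rw [Real.lt_sqrt ht0.le, lt_div_iff₀ hc, mul_comm]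
    have hms : MeasurableSet {k : E2 | c * t ^ 2 < h k} := measurableSet_lt measurable_const hm
    rw [e, hν, withDensity_apply _ hms,
      ofReal_integral_eq_lintegral_ofReal Fi.integrableOn (Eventually.of_forall fun k => F0 k)]
  rw [setLIntegral_congr_fun measurableSet_Ioi
    (fun t ht => by show _ * _ = _ * _; rw [hset t ht] : EqOn
      (fun t => ENNReal.ofReal (∫ k in {k : E2 | c * t ^ 2 < h k}, F k) * ENNReal.ofReal (16 * t))
      (fun t => ν {k | t < Real.sqrt (h k / c)} * ENNReal.ofReal (16 * t)) (Ioi 0)), ← key]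
  simp only [int16]
  have e2 : ∀ k, 8 * Real.sqrt (h k / c) ^ 2 = 8 / c * h k := by
    intro k
    rw [Real.sq_sqrt (div_nonneg (h0 k) hc.le)]
    ring
  simp only [e2]
  have hmeas : Measurable fun k => ENNReal.ofReal (8 / c * h k) := (hm.const_mul _).ennreal_ofReal
  rw [hν, lintegral_withDensity_eq_lintegral_mul₀ Fi.aestronglyMeasurable.aemeasurable.ennreal_ofReal
    hmeas.aemeasurable]
  have h8 : (0:ℝ) ≤ 8 / c := by positivity
  have e3 : ∀ k, ((fun k => ENNReal.ofReal (F k)) * fun k => ENNReal.ofReal (8 / c * h k)) k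
      = ENNReal.ofReal (8 / c * (h k * F k)) := by
    intro k
    simp only [Pi.mul_apply]
    rw [← ENNReal.ofReal_mul (F0 k)]
    congr 1
    ring
  simp only [e3]
  rw [← ofReal_integral_eq_lintegral_ofReal (hF.const_mul _)
    (Eventually.of_forall fun k => mul_nonneg h8 (mul_nonneg (h0 k) (F0 k))),
    MeasureTheory.integral_const_mul]

end LCKM

open LCKM in
theorem specLCK : SpecLCK := by
  intro f h F c hc hm h0 F0 Fi hF hb
  rw [lay4, ← layh h F c hc hm h0 F0 Fi hF]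
  refine setLIntegral_mono_ae' measurableSet_Ioi (Eventually.of_forall fun t ht => ?_)
  have ht0 : (0:ℝ) < t := ht
  have hI : 0 ≤ ∫ k in {k : E2 | c * t ^ 2 < h k}, F k := integral_nonneg F0
  calc volume {x : ℝ × ℝ | t < ‖f x‖} * ENNReal.ofReal (4 * t ^ 3)
      ≤ ENNReal.ofReal (4 / t ^ 2 * ∫ k in {k : E2 | c * t ^ 2 < h k}, F k) * ENNReal.ofReal (4 * t ^ 3) :=
        mul_le_mul_left (hb t ht0) _
    _ = ENNReal.ofReal (∫ k in {k : E2 | c * t ^ 2 < h k}, F k) * ENNReal.ofReal (16 * t) := by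
        rw [← ENNReal.ofReal_mul (by positivity), ← ENNReal.ofReal_mul hI]
        congr 1
        field_simp
        ring

end Pool.Agent.Lib.MP424d38.ES
end
end

section
/-!
# Block ES, module MOM: bounded moments imply integrability of `Γ`
-/
set_option autoImplicit false

open MeasureTheory Filter Topology Set
open scoped ENNReal ContDiff ComplexConjugate FourierTransform

noncomputable section

namespace Pool.Agent.Lib.MP424d38.ES

open Pool.Agent.Lib.MP424d38.TY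

namespace MOMM

/-- a nonnegative function, continuous on `[0,T)`, whose integrals over `[0,t]` are bounded for times `t` arbitrarily
close to `T`, is integrable on `[0,T)` -/
theorem integrableOn_of_frequently {T K : ℝ} (hT : 0 < T) {G : ℝ → ℝ} (hc : ContinuousOn G (Ico 0 T))
    (h0 : ∀ t ∈ Ico 0 T, 0 ≤ G t) (hK : ∃ᶠ t in 𝓝[<] T, (∫ s in (0 : ℝ)..t, G s) ≤ K) :
    IntegrableOn G (Ico 0 T) := by
  have hint : ∀ t : ℝ, 0 ≤ t → t < T → IntegrableOn G (Icc 0 t) := fun t h1 h2 =>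
    (hc.mono (fun x hx => ⟨hx.1, lt_of_le_of_lt hx.2 h2⟩)).integrableOn_Icc
  have hbd : ∀ t : ℝ, 0 ≤ t → t < T → (∫ s in (0 : ℝ)..t, G s) ≤ K := by
    intro t h1 h2
    have hev : ∀ᶠ t' in 𝓝[<] T, t < t' ∧ t' < T := by
      have := Ioo_mem_nhdsLT h2
      filter_upwards [this] with x hx
      exact hx
    obtain ⟨t', hK', h3, h4⟩ := (hK.and_eventually hev).exists
    refine le_trans ?_ hK'
    have ha : IntervalIntegrable G volume 0 t := by
      rw [intervalIntegrable_iff_integrableOn_Icc_of_le h1]; exact hint t h1 h2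
    have hb : IntervalIntegrable G volume t t' := by
      rw [intervalIntegrable_iff_integrableOn_Icc_of_le h3.le]
      exact (hint t' (h1.trans h3.le) h4).mono_set (Icc_subset_Icc_left h1)
    rw [← intervalIntegral.integral_add_adjacent_intervals ha hb]
    have : 0 ≤ ∫ s in t..t', G s := by
      refine intervalIntegral.integral_nonneg h3.le fun s hs => h0 s ⟨h1.trans hs.1, lt_of_le_of_lt hs.2 h4⟩
    linarith
  set b : ℕ → ℝ := fun n => T - T / (n + 1) with hb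
  have hb0 : ∀ n, 0 ≤ b n := by
    intro n
    have : T / ((n : ℝ) + 1) ≤ T := div_le_self hT.le (by linarith [Nat.cast_nonneg (α := ℝ) n])
    simp only [hb]; linarith
  have hbT : ∀ n, b n < T := by
    intro n
    have : 0 < T / ((n : ℝ) + 1) := by positivity
    simp only [hb]; linarith
  have hlim : Tendsto b atTop (𝓝 T) := by
    have h1 : Tendsto (fun n : ℕ => T / ((n : ℝ) + 1)) atTop (𝓝 0) := by
      have := (tendsto_one_div_add_atTop_nhds_zero_nat (𝕜 := ℝ)).const_mul T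
      simpa [div_eq_mul_inv] using this
    simpa using tendsto_const_nhds.sub h1
  have hI : IntegrableOn G (Ioc 0 T) := by
    refine integrableOn_Ioc_of_intervalIntegral_norm_bounded_right (l := atTop) (b := b) (I := K)
      (fun n => (hint (b n) (hb0 n) (hbT n)).mono_set Ioc_subset_Icc_self) hlim (Eventually.of_forall fun n => ?_)
    have h1 : (∫ x in Ioc 0 (b n), ‖G x‖) = ∫ x in Ioc 0 (b n), G x := by
      refine setIntegral_congr_fun measurableSet_Ioc fun x hx => ?_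
      exact Real.norm_of_nonneg (h0 x ⟨hx.1.le, lt_of_le_of_lt hx.2 (hbT n)⟩)
    rw [h1, ← intervalIntegral.integral_of_le (hb0 n)]
    exact hbd _ (hb0 n) (hbT n)
  rw [integrableOn_Ico_iff_integrableOn_Ioo]
  exact hI.mono_set Ioo_subset_Ioc_self

end MOMM

theorem specMOM (hLBD : TY.SpecLBD) (hSUP : TY.SpecSUP) (hPHI : TY.SpecPHI) (hUGB : TY.SpecUGB)
    (hFLB : TY.SpecFLB) : SpecMOM := by
  intro T m R ρ p e hT hF B hB
  obtain ⟨C, hC, hL⟩ := hLBD
  have hg := (hUGB T m R ρ p e hF).1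
  have hm : 0 ≤ m := (hFLB T m R ρ p e hF 0 ⟨le_rfl, hT⟩).1
  -- the running supremum
  have hce : ContinuousOn (fun t => Real.sqrt (∫ a, e t a)) (Ico 0 T) := by
    have h1 : ContinuousOn e (Ico 0 T) := by
      have := hF.lawp.cF.const_smul ((1 / 4 : ℝ))
      refine this.congr fun t _ => ?_
      show e t = (1 / 4 : ℝ) • ((4 : ℝ) • e t)
      rw [smul_smul]; norm_num
    exact (continuous_integral.comp_continuousOn h1).sqrt
  set A : ℝ → ℝ := supT (fun t => Real.sqrt (∫ a, e t a)) with hA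
  obtain ⟨hAm, hAc, hAle, -⟩ := hSUP T _ hce
  have hA2 : ∀ t ∈ Ico 0 T, 0 ≤ A t ∧ (∫ a, e t a) ≤ A t ^ 2 := by
    intro t ht
    have h1 : Real.sqrt (∫ a, e t a) ≤ A t := hAle t ht t ⟨ht.1, le_rfl⟩
    have h2 : 0 ≤ A t := (Real.sqrt_nonneg _).trans h1
    refine ⟨h2, ?_⟩
    have h3 : 0 ≤ ∫ a, e t a := (hFLB T m R ρ p e hF t ht).2.2.2.1
    calc (∫ a, e t a) = Real.sqrt (∫ a, e t a) ^ 2 := (Real.sq_sqrt h3).symm
      _ ≤ A t ^ 2 := by gcongr
  set G : ℝ → ℝ := fun s => ∫ r in (0 : ℝ)..s, gF ρ p e r with hG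
  set H : ℝ → ℝ := fun s => ∫ r in (0 : ℝ)..s, A r ^ 2 with hH
  have hGc : ∀ t ∈ Ico 0 T, ContinuousOn G (Icc 0 t) := by
    intro t ht
    have h1 : IntegrableOn (gF ρ p e) (uIcc 0 t) := by rw [uIcc_of_le ht.1]; exact (hg t ht).2
    have := intervalIntegral.continuousOn_primitive_interval h1
    rwa [uIcc_of_le ht.1] at this
  have hHc : ∀ t ∈ Ico 0 T, ContinuousOn H (Icc 0 t) := by
    intro t ht
    have h1 : IntegrableOn (fun r => A r ^ 2) (uIcc 0 t) := by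
      rw [uIcc_of_le ht.1]
      refine ContinuousOn.integrableOn_Icc ?_
      exact (hAc.mono (fun x hx => ⟨hx.1, lt_of_le_of_lt hx.2 ht.2⟩)).pow 2
    have := intervalIntegral.continuousOn_primitive_interval h1
    rwa [uIcc_of_le ht.1] at this
  have hGc' : ContinuousOn G (Ico 0 T) := by
    intro x hx
    obtain ⟨y, hy1, hy2⟩ := exists_between hx.2
    have h1 := (hGc y ⟨hx.1.trans hy1.le, hy2⟩) x ⟨hx.1, hy1.le⟩
    refine h1.mono_of_mem_nhdsWithin ?_
    have : Ico 0 T ∩ Iio y ⊆ Icc 0 y := fun z hz => ⟨hz.1.1, hz.2.le⟩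
    exact mem_of_superset (inter_mem self_mem_nhdsWithin (mem_nhdsWithin_of_mem_nhds (Iio_mem_nhds hy1))) this
  have hG0 : ∀ t ∈ Ico 0 T, 0 ≤ G t := fun t ht =>
    intervalIntegral.integral_nonneg ht.1 fun r hr => (hg r ⟨hr.1, lt_of_le_of_lt hr.2 ht.2⟩).1
  -- the key bound
  have key : ∀ t ∈ Ico 0 T, (∀ L : ℝ, 0 < L → DD (phi L) (ρ t) (ρ t) ≤ B) →
      64 * (∫ s in (0 : ℝ)..t, G s) ≤ B + C * m * Real.sqrt m * A 0 * t := by
    intro t ht hBt
    have hGi : IntervalIntegrable G volume 0 t := by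
      rw [intervalIntegrable_iff_integrableOn_Icc_of_le ht.1]; exact (hGc t ht).integrableOn_Icc
    have hHi : IntervalIntegrable H volume 0 t := by
      rw [intervalIntegrable_iff_integrableOn_Icc_of_le ht.1]; exact (hHc t ht).integrableOn_Icc
    have h1 : ∀ L : ℝ, 0 < L → 64 * (∫ s in (0 : ℝ)..t, G s) ≤
        B + C * m * Real.sqrt m * A 0 * t + C * m / L * ∫ s in (0 : ℝ)..t, H s := by
      intro L hL0
      have h2 := hL T m R ρ p e hF A hAm hA2 L hL0 0 0 t le_rfl le_rfl ht.1 ht.2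
      have h3 : (∫ s in (0 : ℝ)..t, (64 * (∫ r in (0 : ℝ)..s, gF ρ p e r) - C * m * Real.sqrt m * A 0
          - C * m / L * ∫ r in (0 : ℝ)..s, A r ^ 2))
          = 64 * (∫ s in (0 : ℝ)..t, G s) - C * m * Real.sqrt m * A 0 * t - C * m / L * ∫ s in (0 : ℝ)..t, H s := by
        have e1 : (∫ s in (0 : ℝ)..t, ((64 * G s - C * m * Real.sqrt m * A 0) - C * m / L * H s))
            = (∫ s in (0 : ℝ)..t, (64 * G s - C * m * Real.sqrt m * A 0)) - ∫ s in (0 : ℝ)..t, C * m / L * H s :=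
          intervalIntegral.integral_sub ((hGi.const_mul _).sub intervalIntegrable_const) (hHi.const_mul _)
        have e2 : (∫ s in (0 : ℝ)..t, (64 * G s - C * m * Real.sqrt m * A 0))
            = (∫ s in (0 : ℝ)..t, 64 * G s) - ∫ s in (0 : ℝ)..t, C * m * Real.sqrt m * A 0 :=
          intervalIntegral.integral_sub (hGi.const_mul _) intervalIntegrable_const
        have e3 : (∫ s in (0 : ℝ)..t, 64 * G s) = 64 * ∫ s in (0 : ℝ)..t, G s :=
          intervalIntegral.integral_const_mul _ _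
        have e4 : (∫ s in (0 : ℝ)..t, C * m / L * H s) = C * m / L * ∫ s in (0 : ℝ)..t, H s :=
          intervalIntegral.integral_const_mul _ _
        have e5 : (∫ _s in (0 : ℝ)..t, C * m * Real.sqrt m * A 0) = C * m * Real.sqrt m * A 0 * t := by
          rw [intervalIntegral.integral_const, smul_eq_mul, sub_zero, mul_comm]
        calc _ = (∫ s in (0 : ℝ)..t, ((64 * G s - C * m * Real.sqrt m * A 0) - C * m / L * H s)) := rfl
          _ = _ := by rw [e1, e2, e3, e4, e5]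
      rw [h3] at h2
      have h4 := (hPHI (ρ 0) m 1 L ((hF.pos 0 ⟨le_rfl, hT⟩).mono fun a ha => ha.1) (hF.mass 0 ⟨le_rfl, hT⟩)
        one_pos le_rfl hL0).1
      have h5 := hBt L hL0
      linarith
    have hlim : Tendsto (fun L : ℝ => B + C * m * Real.sqrt m * A 0 * t + C * m / L * ∫ s in (0 : ℝ)..t, H s) atTop
        (𝓝 (B + C * m * Real.sqrt m * A 0 * t + 0 * ∫ s in (0 : ℝ)..t, H s)) := by
      refine tendsto_const_nhds.add (Tendsto.mul_const _ ?_)
      exact tendsto_const_nhds.div_atTop tendsto_id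
    rw [zero_mul, add_zero] at hlim
    exact ge_of_tendsto hlim (by filter_upwards [eventually_gt_atTop (0 : ℝ)] with L hL0 using h1 L hL0)
  have hA0 : 0 ≤ A 0 := (hA2 0 ⟨le_rfl, hT⟩).1
  have hGint : IntegrableOn G (Ico 0 T) := by
    refine MOMM.integrableOn_of_frequently (K := (B + C * m * Real.sqrt m * A 0 * T) / 64) hT hGc' hG0 ?_
    have hev : ∀ᶠ t' in 𝓝[<] T, t' ∈ Ico 0 T := by
      filter_upwards [Ioo_mem_nhdsLT hT] with x hx
      exact ⟨hx.1.le, hx.2⟩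
    refine (hB.and_eventually hev).mono fun t ht => ?_
    have h1 := key t ht.2 ht.1
    have h2 : C * m * Real.sqrt m * A 0 * t ≤ C * m * Real.sqrt m * A 0 * T :=
      mul_le_mul_of_nonneg_left ht.2.2.le (by positivity)
    rw [le_div_iff₀ (by norm_num)]
    linarith
  have : Ga ρ p e = fun t => 1 + G t := rfl
  rw [this]
  exact (integrableOn_const (by simp) (by simp)).add hGint

end Pool.Agent.Lib.MP424d38.ES
end
end

section
set_option autoImplicit false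

open MeasureTheory Filter Topology Set
open scoped ENNReal ContDiff ComplexConjugate FourierTransform

noncomputable section

namespace Pool.Agent.Lib.MP424d38.ES

open Pool.Agent.Lib.MP424d38.TY

theorem specMTH (hGRB : SpecGRB) (hXGR : SpecXGR) (hFLO : TY.SpecFLO) : SpecMTH := by
  intro P hP T v v₁ v₂ N hN hm
  obtain ⟨ρ, p, e, hfl, hpt⟩ := hFLO T v v₁ v₂ N hN
  obtain ⟨hX, hmom⟩ := hXGR P hP T v v₁ v₂ N hN
  set m : ℝ := ‖v 0‖ ^ 2 with hmd
  have hm0 : 0 ≤ m := by positivity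
  have hpi : 0 < Real.pi := Real.pi_pos
  set θ : ℝ := m / (2 * Real.pi) with hθ
  have hθ1 : θ < 1 := by
    rw [hθ, div_lt_one (by positivity)]
    exact hm
  have hθ0 : 0 ≤ θ := by positivity
  refine ⟨(1 + θ) * XX P (v 0) / (1 - θ), fun t ht => ?_⟩
  have h0 : (0:ℝ) ∈ Ico 0 T := ⟨le_refl _, ht.1.trans_lt ht.2⟩
  have nrmp : ∀ s ∈ Ico 0 T, ‖p s‖ ≤ XX P (v s) := by
    intro s hs
    rw [L1.norm_eq_integral_norm]
    refine le_trans (le_of_eq ?_) (hmom s hs)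
    refine integral_congr_ae ?_
    filter_upwards [(hpt s hs).2.1] with a ha
    rw [ha, Real.norm_eq_abs]
  have hint : (∫ r in (0:ℝ)..t, gD (v r) (v₂ r)) = ∫ r in (0:ℝ)..t, gF ρ p e r := by
    refine intervalIntegral.integral_congr fun r hr => ?_
    rw [uIcc_of_le ht.1] at hr
    exact ((hpt r ⟨hr.1, hr.2.trans_lt ht.2⟩).2.2.2.1).symm
  have h1 := (hX 0 t (le_refl _) ht.1 ht.2).2
  rw [hint] at h1
  have h2 := hGRB T m _ ρ p e hfl t ht
  have h3 : m * (‖p t‖ + ‖p 0‖) ≤ m * (XX P (v t) + XX P (v 0)) :=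
    mul_le_mul_of_nonneg_left (add_le_add (nrmp t ht) (nrmp 0 h0)) hm0
  have h4 : 4 / Real.pi * (∫ r in (0:ℝ)..t, gF ρ p e r) ≤ θ * (XX P (v t) + XX P (v 0)) := by
    have h5 : (∫ r in (0:ℝ)..t, gF ρ p e r) ≤ m * (XX P (v t) + XX P (v 0)) / 8 := by linarith
    calc 4 / Real.pi * (∫ r in (0:ℝ)..t, gF ρ p e r)
        ≤ 4 / Real.pi * (m * (XX P (v t) + XX P (v 0)) / 8) :=
          mul_le_mul_of_nonneg_left h5 (by positivity)
      _ = θ * (XX P (v t) + XX P (v 0)) := by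
          rw [hθ]
          field_simp
          ring
  rw [le_div_iff₀ (by linarith)]
  nlinarith

end Pool.Agent.Lib.MP424d38.ES
end
end

section
/-!
# Block ES, module NU2 (both null directions)
-/
set_option autoImplicit false

open MeasureTheory Filter Topology Set
open scoped ENNReal ContDiff ComplexConjugate

noncomputable section

namespace Pool.Agent.Lib.MP424d38.ES

open Pool.Agent.Lib.MP424d38.TY

namespace NU2M

theorem mp : MeasurePreserving (fun x : ℝ × ℝ => x.swap) (volume : Measure (ℝ × ℝ)) volume :=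
  Measure.measurePreserving_swap (μ := (volume : Measure ℝ)) (ν := (volume : Measure ℝ))

theorem emb : MeasurableEmbedding (fun x : ℝ × ℝ => x.swap) :=
  (MeasurableEquiv.prodComm (α := ℝ) (β := ℝ)).measurableEmbedding

theorem lint (F : ℝ × ℝ → ℝ≥0∞) : ∫⁻ x : ℝ × ℝ, F x.swap = ∫⁻ x, F x :=
  mp.lintegral_comp_emb emb F

theorem sint (F : ℝ × ℝ → ℝ) (S : Set (ℝ × ℝ)) :
    ∫ x in (fun x : ℝ × ℝ => x.swap) ⁻¹' S, F x.swap = ∫ x in S, F x :=
  mp.setIntegral_preimage_emb emb F S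

theorem esc_swap (SW : SpecSWP) (T ε : ℝ) (v w : ℝ → L2)
    (h : Esc2 T ε (fun x => x.1) (fun t => swp (v t)) (fun t => swp (w t))) :
    Esc2 T ε (fun x => x.2) v w := by
  obtain ⟨h1, h2, h3⟩ := h
  refine ⟨?_, ?_, ?_⟩
  · intro B
    obtain ⟨t, ht, hB⟩ := h1 B
    refine ⟨t, ht, ?_⟩
    simp only [(SW.2.1 _).1] at hB
    exact hB
  · intro B
    filter_upwards [h2 B] with t ht y
    have h4 := ht y
    have h5 : (∫⁻ x : ℝ × ℝ, ENNReal.ofReal (|x.1 - y| * ‖swp (v t) x‖ ^ 2))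
        = ∫⁻ x : ℝ × ℝ, ENNReal.ofReal (|x.2 - y| * ‖v t x‖ ^ 2) := by
      rw [← lint (fun x : ℝ × ℝ => ENNReal.ofReal (|x.2 - y| * ‖v t x‖ ^ 2))]
      refine lintegral_congr_ae ?_
      filter_upwards [(SW.2.1 (v t)).2] with x hx
      rw [hx]
      rfl
    rw [← h5]
    exact h4
  · intro R y
    refine (h3 R y).mono fun t ht => ?_
    have h5 : (∫ x in {x : ℝ × ℝ | R < |x.1 - y t|}, ‖swp (v t) x‖ ^ 2)
        = ∫ x in {x : ℝ × ℝ | R < |x.2 - y t|}, ‖v t x‖ ^ 2 := by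
      rw [← sint (fun x : ℝ × ℝ => ‖v t x‖ ^ 2) {x : ℝ × ℝ | R < |x.2 - y t|}]
      have h6 : (fun x : ℝ × ℝ => x.swap) ⁻¹' {x : ℝ × ℝ | R < |x.2 - y t|}
          = {x : ℝ × ℝ | R < |x.1 - y t|} := rfl
      rw [h6]
      refine integral_congr_ae (ae_restrict_of_ae ?_)
      filter_upwards [(SW.2.1 (v t)).2] with x hx
      rw [hx]
    rw [← h5]
    exact ht

end NU2M

open NU2M in
theorem specNU2 (PFX : SpecPFX) (ONE : SpecON2) (MTH : SpecMTH) (BDD : SpecBDD) (SW : SpecSWP) :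
    SpecNU2 := by
  intro m
  obtain ⟨P, hP⟩ := PFX
  have key : ∀ (T : ℝ) (v v₁ v₂ N : ℝ → L2), 0 < T → Nls T v v₁ v₂ N →
      (¬ ∃ D : ℝ, ∀ t ∈ Ico 0 T, ‖v₁ t‖ ≤ D ∧ ‖v₂ t‖ ≤ D) →
      (¬ ∃ D : ℝ, ∀ t ∈ Ico 0 T, XX P (v t) ≤ D) ∨
        ¬ ∃ D : ℝ, ∀ t ∈ Ico 0 T, XX P (swp (v t)) ≤ D := by
    intro T v v₁ v₂ N hT hN hB
    by_contra hcon
    push Not at hcon
    obtain ⟨⟨D, hD⟩, ⟨D', hD'⟩⟩ := hcon
    exact hB (BDD P hP T v v₁ v₂ N hT hN (max D D') fun t ht =>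
      ⟨(hD t ht).trans (le_max_left _ _), (hD' t ht).trans (le_max_right _ _)⟩)
  rcases le_or_gt m 0 with hm | hm
  · refine ⟨1, one_pos, ?_⟩
    intro T v v₁ v₂ N hT hN hv hB
    exfalso
    have hlt : m < 2 * Real.pi := lt_of_le_of_lt hm (by positivity)
    rcases key T v v₁ v₂ N hT hN hB with h | h
    · exact h (MTH P hP T v v₁ v₂ N hN (by rw [hv]; exact hlt))
    · exact h (MTH P hP T _ _ _ _ (SW.2.2.2 T v v₁ v₂ N hN)
        (by rw [(SW.2.1 _).1, hv]; exact hlt))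
  · obtain ⟨ε, hε, hO⟩ := ONE m hm
    refine ⟨ε, hε, ?_⟩
    intro T v v₁ v₂ N hT hN hv hB
    rcases key T v v₁ v₂ N hT hN hB with h | h
    · obtain ⟨h1, h2⟩ := hO P hP T v v₁ v₂ N hT hN hv h
      exact ⟨h1, Or.inl h2⟩
    · obtain ⟨h1, h2⟩ := hO P hP T _ _ _ _ hT (SW.2.2.2 T v v₁ v₂ N hN)
        (by rw [(SW.2.1 _).1, hv]) h
      exact ⟨h1, Or.inr (esc_swap SW T ε v v₁ h2)⟩

end Pool.Agent.Lib.MP424d38.ES
end
end

section
/-!
# Block ES, module ON2 (the theorem for one null direction)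
-/
set_option autoImplicit false

open MeasureTheory Filter Topology Set
open scoped ENNReal ContDiff ComplexConjugate

noncomputable section

namespace Pool.Agent.Lib.MP424d38.ES

open Pool.Agent.Lib.MP424d38.TY

namespace ON2M

theorem sq_int (f : L2) : Integrable (fun x : ℝ × ℝ => ‖f x‖ ^ 2) volume := by
  have h := (Lp.memLp f).integrable_norm_pow (p := 2) (by norm_num)
  simpa using h

theorem slices {p : ℝ × ℝ → Prop} (h : ∀ᵐ x : ℝ × ℝ, p x) : ∀ᵐ a : ℝ, ∀ᵐ b : ℝ, p (a, b) := by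
  rw [Measure.volume_eq_prod] at h
  exact Measure.ae_ae_of_ae_prod h

theorem slice_int {F : ℝ × ℝ → ℝ} (h : Integrable F volume) :
    ∀ᵐ a : ℝ, Integrable (fun b => F (a, b)) volume := by
  rw [Measure.volume_eq_prod] at h
  exact h.prod_right_ae

theorem tonelli {F : ℝ × ℝ → ℝ≥0∞} (h : AEMeasurable F volume) :
    ∫⁻ x : ℝ × ℝ, F x = ∫⁻ a : ℝ, ∫⁻ b : ℝ, F (a, b) := by
  rw [Measure.volume_eq_prod] at h ⊢
  exact lintegral_prod _ h

theorem fub_set {F : ℝ × ℝ → ℝ} (h : Integrable F volume) (S : Set ℝ) :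
    ∫ x in S ×ˢ (univ : Set ℝ), F x = ∫ a in S, ∫ b : ℝ, F (a, b) := by
  rw [Measure.volume_eq_prod] at h ⊢
  rw [setIntegral_prod _ h.integrableOn]
  simp only [Measure.restrict_univ]

/-- first moment of the mass on the lines `a = const`. -/
theorem moment (f : L2) (y : ℝ) :
    (∫⁻ x : ℝ × ℝ, ENNReal.ofReal (|x.1 - y| * ‖f x‖ ^ 2))
      = ∫⁻ a : ℝ, ENNReal.ofReal (|a - y| * rhoD f a) := by
  have hm : AEMeasurable (fun x : ℝ × ℝ => ENNReal.ofReal (|x.1 - y| * ‖f x‖ ^ 2)) volume := by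
    refine ENNReal.measurable_ofReal.comp_aemeasurable ?_
    refine AEMeasurable.mul ?_ ?_
    · exact (continuous_abs.comp (continuous_fst.sub continuous_const)).measurable.aemeasurable
    · exact (sq_int f).aestronglyMeasurable.aemeasurable
  rw [tonelli hm]
  refine lintegral_congr_ae ?_
  filter_upwards [slice_int (sq_int f)] with a ha
  have h1 : ∀ b : ℝ, ENNReal.ofReal (|((a, b) : ℝ × ℝ).1 - y| * ‖f (a, b)‖ ^ 2)
      = ENNReal.ofReal |a - y| * ENNReal.ofReal (‖f (a, b)‖ ^ 2) := fun b =>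
    ENNReal.ofReal_mul (abs_nonneg _)
  simp only [h1]
  rw [lintegral_const_mul' _ _ ENNReal.ofReal_ne_top, ENNReal.ofReal_mul (abs_nonneg _)]
  congr 1
  rw [rhoD, ofReal_integral_eq_lintegral_ofReal ha (ae_of_all _ fun b => sq_nonneg _)]

theorem far_mass (f : L2) (y R : ℝ) :
    (∫ x in {x : ℝ × ℝ | R < |x.1 - y|}, ‖f x‖ ^ 2) = ∫ a in {a : ℝ | R < |a - y|}, rhoD f a := by
  have h1 : {x : ℝ × ℝ | R < |x.1 - y|} = {a : ℝ | R < |a - y|} ×ˢ (univ : Set ℝ) := by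
    ext x
    simp
  rw [h1, fub_set (sq_int f)]
  rfl

end ON2M

open ON2M in
theorem specON2 (GAB : SpecGAB) (COR : SpecCOR) (ESC : SpecESC) (RAT : SpecRAT) (KI2 : SpecKI2)
    (MOM : SpecMOM) (GRB : SpecGRB) (MTH : SpecMTH) (SPR : SpecSPR) (FLO : SpecFLO)
    (FLB : SpecFLB) : SpecON2 := by
  intro m hm
  obtain ⟨C₀, hC₀, hK⟩ := KI2
  obtain ⟨ε', hε', hE⟩ := ESC m C₀ hm hC₀
  refine ⟨ε' / (2 * m), by positivity, ?_⟩
  intro P hP T v v₁ v₂ N hT hN hm0 hX
  obtain ⟨ρ, p, e, hF, hd⟩ := FLO T v v₁ v₂ N hN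
  rw [hm0] at hF
  obtain ⟨w, f, c, hk2⟩ := hK P hP T v v₁ v₂ N hT hN ρ p e
    (fun t ht => ⟨(hd t ht).1, (hd t ht).2.1, (hd t ht).2.2.2.1⟩)
  have hk := hk2.toKin
  obtain ⟨g1, gmono, gcont, -, -⟩ := GAB T m _ ρ p e hT hF
  have h0T : (0 : ℝ) ∈ Ico 0 T := ⟨le_rfl, hT⟩
  -- `Γ` is unbounded, hence tends to infinity
  have hub : ∀ B : ℝ, ∃ t ∈ Ico 0 T, B < Ga ρ p e t := by
    intro B
    by_contra hcon
    push Not at hcon
    refine hX ⟨XX P (v 0) + 2 * B, fun t ht => ?_⟩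
    have h1 := hk.hX t ht
    have h2 := hcon t ht
    linarith
  have hG : Tendsto (Ga ρ p e) (𝓝[<] T) atTop := by
    rw [tendsto_atTop]
    intro B
    obtain ⟨t0, ht0, hB⟩ := hub B
    filter_upwards [Ico_mem_nhdsLT ht0.2] with t ht
    exact hB.le.trans (gmono ht0 ⟨ht0.1.trans ht.1, ht.2⟩ ht.1)
  have hnot := COR T m C₀ _ _ ρ p e w f c hT hC₀ hF hk hG
  -- the bound of `Γ` by the gradient
  have hb : ∀ t ∈ Ico 0 T, Ga ρ p e t ≤ 1 + m * Real.sqrt m / 8 * (‖v₂ t‖ + ‖v₂ 0‖) := by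
    intro t ht
    have h1 := GRB T m _ ρ p e hF t ht
    have h2 : ∀ s ∈ Ico 0 T, ‖p s‖ ≤ Real.sqrt m * ‖v₂ s‖ := fun s hs => by
      have := (FLB T m _ ρ p e hF s hs).2.2.2.2
      rw [(hd s hs).2.2.2.2, Real.sqrt_sq (norm_nonneg _)] at this
      exact this
    have h3 := h2 t ht
    have h4 := h2 0 h0T
    have h5 : m * (‖p t‖ + ‖p 0‖) ≤ m * (Real.sqrt m * ‖v₂ t‖ + Real.sqrt m * ‖v₂ 0‖) :=
      mul_le_mul_of_nonneg_left (add_le_add h3 h4) hm.le
    unfold Ga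
    linarith
  have hae : ∀ t ∈ Ico 0 T, ∀ᵐ a : ℝ, 0 ≤ ρ t a := fun t ht => by
    filter_upwards [hF.pos t ht] with a ha
    exact ha.1
  have hIco : ∀ᶠ t in 𝓝[<] T, t ∈ Ico 0 T := Ico_mem_nhdsLT hT
  refine ⟨?_, ?_, ?_, ?_⟩
  · by_contra hcon
    push Not at hcon
    exact hX (MTH P hP T v v₁ v₂ N hN (by rw [hm0]; exact hcon))
  · intro B
    by_contra hcon
    push Not at hcon
    set K : ℝ := m * Real.sqrt m / 8 with hK
    have hK0 : 0 ≤ K := by positivity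
    refine RAT T m C₀ _ _ ρ p e w f c hT hC₀ hF hk2 hG
      (2 * (T + K * (B + ‖v₂ 0‖ * T))) fun t ht => ?_
    have hTt : 0 < T - t := by linarith [ht.2]
    have hle : t ≤ (t + T) / 2 := by linarith
    have hsub : uIcc t ((t + T) / 2) ⊆ Ico 0 T := by
      rw [uIcc_of_le hle]
      intro r hr
      exact ⟨ht.1.trans hr.1, lt_of_le_of_lt hr.2 (by linarith)⟩
    have i1 : IntervalIntegrable (fun r => Ga ρ p e r) volume t ((t + T) / 2) :=
      (gcont.mono hsub).intervalIntegrable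
    have i2 : IntervalIntegrable (fun r => ‖v₂ r‖) volume t ((t + T) / 2) :=
      ((hN.c2.norm).mono hsub).intervalIntegrable
    have i3 : IntervalIntegrable (fun r => 1 + K * (‖v₂ r‖ + ‖v₂ 0‖)) volume t ((t + T) / 2) :=
      (intervalIntegrable_const).add ((i2.add intervalIntegrable_const).const_mul _)
    have h1 : (∫ _ in t..((t + T) / 2), Ga ρ p e t) ≤ ∫ r in t..((t + T) / 2), Ga ρ p e r := by
      refine intervalIntegral.integral_mono_on hle intervalIntegrable_const i1 fun r hr => ?_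
      exact gmono ht (hsub (by rw [uIcc_of_le hle]; exact hr)) hr.1
    have h2 : (∫ r in t..((t + T) / 2), Ga ρ p e r)
        ≤ ∫ r in t..((t + T) / 2), (1 + K * (‖v₂ r‖ + ‖v₂ 0‖)) := by
      refine intervalIntegral.integral_mono_on hle i1 i3 fun r hr => ?_
      exact hb r (hsub (by rw [uIcc_of_le hle]; exact hr))
    have h3 : (∫ r in t..((t + T) / 2), (1 + K * (‖v₂ r‖ + ‖v₂ 0‖)))
        = ((t + T) / 2 - t) + K * ((∫ r in t..((t + T) / 2), ‖v₂ r‖)
          + ((t + T) / 2 - t) * ‖v₂ 0‖) := by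
      rw [intervalIntegral.integral_add intervalIntegrable_const
        ((i2.add intervalIntegrable_const).const_mul _), intervalIntegral.integral_const_mul,
        intervalIntegral.integral_add i2 intervalIntegrable_const]
      simp
    rw [intervalIntegral.integral_const, smul_eq_mul] at h1
    rw [h3] at h2
    have h4 := hcon t ht
    have h5 : ((t + T) / 2 - t) * ‖v₂ 0‖ ≤ ‖v₂ 0‖ * T := by
      have : ((t + T) / 2 - t) ≤ T := by linarith [ht.1]
      nlinarith [norm_nonneg (v₂ 0)]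
    have h6 := mul_le_mul_of_nonneg_left (add_le_add h4 h5) hK0
    rw [le_div_iff₀ hTt]
    have h7 : ((t + T) / 2 - t) * Ga ρ p e t = Ga ρ p e t * (T - t) / 2 := by ring
    rw [h7] at h1
    linarith [ht.1]
  · intro B
    by_contra hcon
    rw [Filter.not_eventually] at hcon
    have hfr : ∃ᶠ t in 𝓝[<] T, ∀ L : ℝ, 0 < L →
        DD (phi L) (ρ t) (ρ t) ≤ 2 * m * max B 0 := by
      refine (hcon.and_eventually hIco).mono ?_
      rintro t ⟨h1, ht⟩ L hL
      push Not at h1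
      obtain ⟨y, hy⟩ := h1
      have h2 := (SPR (ρ t) m (hae t ht) (hF.mass t ht)).2 y L (max B 0) hL (le_max_right _ _)
      apply h2
      have h3 : (∫⁻ a : ℝ, ENNReal.ofReal (|a - y| * ρ t a))
          = ∫⁻ a : ℝ, ENNReal.ofReal (|a - y| * rhoD (v t) a) := by
        refine lintegral_congr_ae ?_
        filter_upwards [(hd t ht).1] with a ha
        rw [ha]
      rw [h3, ← moment]
      exact hy.trans (ENNReal.ofReal_le_ofReal (le_max_left _ _))
    exact hnot (MOM T m _ ρ p e hT hF _ hfr)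
  · intro R y
    by_contra hcon
    rw [Filter.not_frequently] at hcon
    set R' : ℝ := max R 1 with hR'
    have hR1 : 0 < R' := lt_of_lt_of_le one_pos (le_max_right _ _)
    refine hE T _ _ ρ p e w f c hT hF hk hG (2 * R') (by positivity) ?_
    filter_upwards [hcon, hIco] with t h1 ht
    push Not at h1
    have h2 := (SPR (ρ t) m (hae t ht) (hF.mass t ht)).1 (y t) R' hR1
    have h3 : (∫ a in {a : ℝ | R' < |a - y t|}, ρ t a)
        = ∫ x in {x : ℝ × ℝ | R' < |x.1 - y t|}, ‖v t x‖ ^ 2 := by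
      rw [far_mass]
      refine integral_congr_ae (ae_restrict_of_ae ?_)
      filter_upwards [(hd t ht).1] with a ha
      rw [ha]
    have h4 : (∫ x in {x : ℝ × ℝ | R' < |x.1 - y t|}, ‖v t x‖ ^ 2)
        ≤ ∫ x in {x : ℝ × ℝ | R < |x.1 - y t|}, ‖v t x‖ ^ 2 := by
      refine setIntegral_mono_set (sq_int (v t)).integrableOn
        (ae_of_all _ fun x => sq_nonneg _) ?_
      refine ae_of_all _ fun x hx => ?_
      have hx' : R' < |x.1 - y t| := hx
      exact lt_of_le_of_lt (le_max_left R 1) hx'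
    rw [h3] at h2
    have h5 : 2 * m * (ε' / (2 * m)) = ε' := by field_simp
    have h6 := mul_le_mul_of_nonneg_left (h4.trans h1.le) (show 0 ≤ 2 * m by positivity)
    linarith

end Pool.Agent.Lib.MP424d38.ES
end
end

section
/-!
# Block ES, module FIE (transfer of the theorem from null coordinates to `EE`)
-/
set_option autoImplicit false

open MeasureTheory Filter Topology Set
open scoped ENNReal ContDiff ComplexConjugate

noncomputable section

namespace Pool.Agent.Lib.MP424d38.ES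

open Pool.Agent.Lib.MP424d38.TY

namespace FIEM

theorem norm_of (CH : SpecCHV) (w : L2) (g : EE → ℂ) (c : ℂ)
    (hg : AEStronglyMeasurable g volume) (hw : ∀ᵐ x : ℝ × ℝ, w x = c * g (PhiN x)) :
    ‖w‖ = ‖c‖ * (Real.sqrt 2 * nrm g) := by
  have h1 : eLpNorm w 2 volume = ‖c‖ₑ * eLpNorm (fun x => g (PhiN x)) 2 volume := by
    rw [eLpNorm_congr_ae hw]
    exact eLpNorm_const_smul c (fun x => g (PhiN x)) 2 volume
  rw [Lp.norm_def, h1, CH.2.2.2.2.1 g hg, ENNReal.toReal_mul, ENNReal.toReal_mul, toReal_enorm,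
    ENNReal.toReal_ofReal (Real.sqrt_nonneg _)]
  rfl

theorem lint_of (CH : SpecCHV) (F : EE → ℝ≥0∞) (hF : AEMeasurable F volume) :
    ∫⁻ x : ℝ × ℝ, F (PhiN x) = 2 * ∫⁻ z : EE, F z := by
  have h1 : AEMeasurable F (Measure.map PhiN (volume : Measure (ℝ × ℝ))) := by
    rw [CH.1]
    exact hF.smul_measure _
  rw [← lintegral_map' h1 CH.2.1.aemeasurable, CH.1, lintegral_smul_measure, smul_eq_mul]

theorem sint_of (CH : SpecCHV) (F : EE → ℝ) (hF : AEStronglyMeasurable F volume) (S : Set EE)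
    (hS : MeasurableSet S) :
    ∫ x in PhiN ⁻¹' S, F (PhiN x) = 2 * ∫ z in S, F z := by
  have h1 : AEStronglyMeasurable F (Measure.map PhiN (volume : Measure (ℝ × ℝ))) := by
    rw [CH.1]
    exact hF.smul_measure _
  rw [← setIntegral_map hS h1 CH.2.1.aemeasurable, CH.1, Measure.restrict_smul,
    integral_smul_measure]
  simp

theorem nrm_tri (f g h : EE → ℂ) (hf : MemLp f 2 volume) (hg : MemLp g 2 volume)
    (hh : ∀ x, h x = (1 / 2 : ℂ) * (f x + g x)) : nrm h ≤ 1 / 2 * (nrm f + nrm g) := by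
  have h1 : h = (1 / 2 : ℂ) • (f + g) := by
    ext x
    rw [hh x]
    rfl
  unfold nrm
  rw [h1, eLpNorm_const_smul, ENNReal.toReal_mul, toReal_enorm]
  have h2 : ‖(1 / 2 : ℂ)‖ = 1 / 2 := by norm_num
  rw [h2]
  refine mul_le_mul_of_nonneg_left ?_ (by norm_num)
  rw [← ENNReal.toReal_add hf.2.ne hg.2.ne]
  exact ENNReal.toReal_mono (ENNReal.add_ne_top.2 ⟨hf.2.ne, hg.2.ne⟩)
    (eLpNorm_add_le hf.1 hg.1 (by norm_num))

/-- the conclusions for one direction, from null coordinates to `EE`. -/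
theorem back (CH : SpecCHV) (T ε s : ℝ) (u : ℝ → EE → ℂ) (G : ℝ → Fin 2 → EE → ℂ)
    (v w : ℝ → L2) (α : ℝ × ℝ → ℝ) (hT : 0 < T) (hu : ∀ t ∈ Ico 0 T, MemLp (u t) 2 volume)
    (hG : ∀ t ∈ Ico 0 T, ∀ j, MemLp (G t j) 2 volume)
    (hα : ∀ x, α x = PhiN x 0 - s * PhiN x 1)
    (hv : ∀ t ∈ Ico 0 T, ∀ᵐ x : ℝ × ℝ, v t x = u t (PhiN x))
    (hw : ∀ t ∈ Ico 0 T, ∀ᵐ x : ℝ × ℝ,
      w t x = (1 / 2 : ℂ) * (G t 0 (PhiN x) + (s : ℂ) * G t 1 (PhiN x)))
    (hE : Esc T ε α v w) :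
    ¬ IntegrableOn (fun t => nrm (fun x => G t 0 x + (s : ℂ) * G t 1 x)) (Ico 0 T) ∧
    (¬ ∃ C : ℝ, ∀ t ∈ Ico 0 T, nrm (fun x => G t 0 x + (s : ℂ) * G t 1 x) ≤ C / (T - t)) ∧
    (∀ B : ℝ, ∀ᶠ t in 𝓝[<] T, ∀ y : ℝ,
      ENNReal.ofReal B < ∫⁻ x : EE, ENNReal.ofReal (|x 0 - s * x 1 - y| * ‖u t x‖ ^ 2)) ∧
    (∀ (R : ℝ) (y : ℝ → ℝ), ∃ᶠ t in 𝓝[<] T,
      ε / 2 ≤ ∫ x in {x : EE | R < |x 0 - s * x 1 - y t|}, ‖u t x‖ ^ 2) := by
  obtain ⟨e1, e2, e3, e4⟩ := hE
  have hIco : ∀ᶠ t in 𝓝[<] T, t ∈ Ico 0 T := Ico_mem_nhdsLT hT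
  have hc : ∀ y : ℝ, Continuous fun x : EE => x 0 - s * x 1 - y := fun y => by fun_prop
  have hn : ∀ t ∈ Ico 0 T, ‖w t‖ = Real.sqrt 2 / 2 * nrm (fun x => G t 0 x + (s : ℂ) * G t 1 x) := by
    intro t ht
    have h1 : AEStronglyMeasurable (fun x => G t 0 x + (s : ℂ) * G t 1 x) volume :=
      (hG t ht 0).1.add ((hG t ht 1).1.const_mul _)
    rw [norm_of CH (w t) _ (1 / 2) h1 (hw t ht)]
    have h2 : ‖(1 / 2 : ℂ)‖ = 1 / 2 := by norm_num
    rw [h2]
    ring
  have h2pos : 0 < Real.sqrt 2 := Real.sqrt_pos.2 (by norm_num)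
  refine ⟨fun hI => ?_, ?_, ?_, ?_⟩
  · apply e1
    have hI2 : IntegrableOn
        (fun t => Real.sqrt 2 / 2 * nrm (fun x => G t 0 x + (s : ℂ) * G t 1 x)) (Ico 0 T) :=
      hI.const_mul (Real.sqrt 2 / 2)
    exact hI2.congr_fun (fun t ht => (hn t ht).symm) measurableSet_Ico
  · rintro ⟨C, hC⟩
    apply e2
    refine ⟨Real.sqrt 2 / 2 * C, fun t ht => ?_⟩
    rw [hn t ht, mul_div_assoc]
    exact mul_le_mul_of_nonneg_left (hC t ht) (by positivity)
  · intro B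
    filter_upwards [e3 (2 * max B 0), hIco] with t h1 ht y
    have h2 := h1 y
    have hm : AEMeasurable (fun x : EE => ENNReal.ofReal (|x 0 - s * x 1 - y| * ‖u t x‖ ^ 2))
        volume := by
      refine ENNReal.measurable_ofReal.comp_aemeasurable ?_
      refine AEMeasurable.mul ?_ ?_
      · exact (continuous_abs.comp (hc y)).measurable.aemeasurable
      · exact ((hu t ht).1.norm.aemeasurable).pow_const 2
    have h3 : (∫⁻ x : ℝ × ℝ, ENNReal.ofReal (|α x - y| * ‖v t x‖ ^ 2))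
        = 2 * ∫⁻ x : EE, ENNReal.ofReal (|x 0 - s * x 1 - y| * ‖u t x‖ ^ 2) := by
      rw [← lint_of CH _ hm]
      refine lintegral_congr_ae ?_
      filter_upwards [hv t ht] with x hx
      rw [hx, hα]
    rw [h3, ENNReal.ofReal_mul (by norm_num), ENNReal.ofReal_ofNat] at h2
    have h4 : ENNReal.ofReal (max B 0)
        < ∫⁻ x : EE, ENNReal.ofReal (|x 0 - s * x 1 - y| * ‖u t x‖ ^ 2) := by
      by_contra hcon
      push Not at hcon
      exact absurd h2 (not_lt.2 (mul_le_mul_right hcon 2))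
    exact lt_of_le_of_lt (ENNReal.ofReal_le_ofReal (le_max_left _ _)) h4
  · intro R y
    refine ((e4 R y).and_eventually hIco).mono ?_
    rintro t ⟨h1, ht⟩
    have hS : MeasurableSet {x : EE | R < |x 0 - s * x 1 - y t|} :=
      (isOpen_lt continuous_const (continuous_abs.comp (hc (y t)))).measurableSet
    have hm : AEStronglyMeasurable (fun x : EE => ‖u t x‖ ^ 2) volume := (hu t ht).1.norm.pow 2
    have h2 := sint_of CH _ hm _ hS
    have h3 : (∫ x in {x : ℝ × ℝ | R < |α x - y t|}, ‖v t x‖ ^ 2)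
        = ∫ x in PhiN ⁻¹' {x : EE | R < |x 0 - s * x 1 - y t|}, ‖u t (PhiN x)‖ ^ 2 := by
      have h4 : {x : ℝ × ℝ | R < |α x - y t|}
          = PhiN ⁻¹' {x : EE | R < |x 0 - s * x 1 - y t|} := by
        ext x
        show R < |α x - y t| ↔ R < |PhiN x 0 - s * PhiN x 1 - y t|
        rw [hα]
      rw [h4]
      refine integral_congr_ae (ae_restrict_of_ae ?_)
      filter_upwards [hv t ht] with x hx
      rw [hx]
    rw [h3, h2] at h1
    linarith

end FIEM

open FIEM in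
theorem specFIE (NU : SpecNUE) (TR : SpecTRF) (CH : SpecCHV) : SpecFIE := by
  intro M
  obtain ⟨ε, hε, hN⟩ := NU (2 * M)
  refine ⟨ε / 2, by positivity, ?_⟩
  intro T u G hT hS hM hB
  obtain ⟨v, v₁, v₂, N, hNls, hd⟩ := TR T u G hS
  have h0T : (0 : ℝ) ∈ Ico 0 T := ⟨le_rfl, hT⟩
  have h2sq : Real.sqrt 2 * Real.sqrt 2 = 2 := Real.mul_self_sqrt (by norm_num)
  have h2pos : 0 < Real.sqrt 2 := Real.sqrt_pos.2 (by norm_num)
  have hm : ‖v 0‖ ^ 2 = 2 * M := by
    have h1 : ∀ᵐ x : ℝ × ℝ, v 0 x = 1 * u 0 (PhiN x) := by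
      filter_upwards [(hd 0 h0T).1] with x hx
      rw [hx, one_mul]
    rw [norm_of CH (v 0) (u 0) 1 (hS.memu 0 h0T).1 h1, norm_one, one_mul, mul_pow, hM,
      Real.sq_sqrt (by norm_num)]
  have hG0 : ∀ t ∈ Ico 0 T, MemLp (fun x => G t 0 x + G t 1 x) 2 volume := fun t ht =>
    (hS.memG t ht 0).add (hS.memG t ht 1)
  have hG1 : ∀ t ∈ Ico 0 T, MemLp (fun x => G t 0 x - G t 1 x) 2 volume := fun t ht =>
    (hS.memG t ht 0).sub (hS.memG t ht 1)
  have hhalf : ‖(1 / 2 : ℂ)‖ = 1 / 2 := by norm_num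
  have n2 : ∀ t ∈ Ico 0 T, ‖v₂ t‖ = 1 / 2 * (Real.sqrt 2 * nrm (fun x => G t 0 x + G t 1 x)) :=
    fun t ht => by
      rw [norm_of CH (v₂ t) _ (1 / 2) (hG0 t ht).1 (hd t ht).2.2, hhalf]
  have n1 : ∀ t ∈ Ico 0 T, ‖v₁ t‖ = 1 / 2 * (Real.sqrt 2 * nrm (fun x => G t 0 x - G t 1 x)) :=
    fun t ht => by
      rw [norm_of CH (v₁ t) _ (1 / 2) (hG1 t ht).1 (hd t ht).2.1, hhalf]
  have hunb : ¬ ∃ D : ℝ, ∀ t ∈ Ico 0 T, ‖v₁ t‖ ≤ D ∧ ‖v₂ t‖ ≤ D := by
    rintro ⟨D, hD⟩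
    apply hB
    refine ⟨Real.sqrt 2 * D, fun t ht => ?_⟩
    obtain ⟨d1, d2⟩ := hD t ht
    rw [n1 t ht] at d1
    rw [n2 t ht] at d2
    have ee : ∀ X : ℝ, Real.sqrt 2 * (1 / 2 * (Real.sqrt 2 * X)) = X := fun X => by
      have : Real.sqrt 2 * (1 / 2 * (Real.sqrt 2 * X))
          = (Real.sqrt 2 * Real.sqrt 2) * (1 / 2 * X) := by ring
      rw [this, h2sq]
      ring
    have a1 : nrm (fun x => G t 0 x - G t 1 x) ≤ Real.sqrt 2 * D := by
      have := mul_le_mul_of_nonneg_left d1 h2pos.le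
      rwa [ee] at this
    have a2 : nrm (fun x => G t 0 x + G t 1 x) ≤ Real.sqrt 2 * D := by
      have := mul_le_mul_of_nonneg_left d2 h2pos.le
      rwa [ee] at this
    constructor
    · have := nrm_tri (fun x => G t 0 x + G t 1 x) (fun x => G t 0 x - G t 1 x) (G t 0)
        (hG0 t ht) (hG1 t ht) (fun x => by ring)
      linarith
    · have hneg : nrm (fun x => -(G t 0 x - G t 1 x)) = nrm (fun x => G t 0 x - G t 1 x) := by
        unfold nrm
        congr 1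
        exact eLpNorm_neg (fun x => G t 0 x - G t 1 x) 2 volume
      have := nrm_tri (fun x => G t 0 x + G t 1 x) (fun x => -(G t 0 x - G t 1 x)) (G t 1)
        (hG0 t ht) (hG1 t ht).neg (fun x => by ring)
      rw [hneg] at this
      linarith
  obtain ⟨hpi, halt⟩ := hN T v v₁ v₂ N hT hNls hm hunb
  refine ⟨by linarith, ?_⟩
  rcases halt with hE | hE
  · refine ⟨1, Or.inl rfl, ?_⟩
    refine back CH T ε 1 u G v v₂ (fun x => x.1) hT hS.memu hS.memG ?_ (fun t ht => (hd t ht).1)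
      ?_ hE
    · intro x
      simp only [PhiN, PiLp.toLp_apply, Matrix.cons_val_zero, Matrix.cons_val_one, one_mul]
      ring
    · intro t ht
      filter_upwards [(hd t ht).2.2] with x hx
      rw [hx, Complex.ofReal_one, one_mul]
  · refine ⟨-1, Or.inr rfl, ?_⟩
    refine back CH T ε (-1) u G v v₁ (fun x => x.2) hT hS.memu hS.memG ?_
      (fun t ht => (hd t ht).1) ?_ hE
    · intro x
      simp only [PhiN, PiLp.toLp_apply, Matrix.cons_val_zero, Matrix.cons_val_one]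
      ring
    · intro t ht
      filter_upwards [(hd t ht).2.1] with x hx
      rw [hx]
      push_cast
      ring

end Pool.Agent.Lib.MP424d38.ES
end
end

section
/-!
# Block ES, module RTE (blow-up rate, pointwise on time windows)

`RTE`: if the gradient is unbounded on `[0,T)` then for `s = 1` or `s = -1`, for every `K` there is `t₀ < T` with
`‖(∂_x + s ∂_z) u(t)‖ ≥ K/(T-t₀)` for all `t ∈ [t₀,T)`.
-/
set_option autoImplicit false

open MeasureTheory Filter Topology Set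
open scoped ENNReal ContDiff ComplexConjugate

noncomputable section

namespace Pool.Agent.Lib.MP424d38.ES

open Pool.Agent.Lib.MP424d38.TY

/-- `w` is large on whole final intervals, compared with their length. -/
def Rte (T : ℝ) (w : ℝ → ℝ) : Prop :=
  ∀ K : ℝ, ∃ t₀ ∈ Ico 0 T, ∀ t ∈ Ico t₀ T, K / (T - t₀) ≤ w t

/-- the rate in `EE`. -/
def SpecRTE : Prop := ∀ (T : ℝ) (u : ℝ → EE → ℂ) (G : ℝ → Fin 2 → EE → ℂ), 0 < T → H1Sol T u G →
  (¬ ∃ D : ℝ, ∀ t ∈ Ico 0 T, nrm (G t 0) ≤ D ∧ nrm (G t 1) ≤ D) →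
  ∃ s : ℝ, (s = 1 ∨ s = -1) ∧ Rte T (fun t => nrm (fun x => G t 0 x + (s : ℂ) * G t 1 x))

namespace RTEM

/-- one null direction. -/
theorem one (GAB : SpecGAB) (RAT : SpecRAT) (KI2 : SpecKI2) (GRB : SpecGRB) (FLO : SpecFLO)
    (FLB : SpecFLB) (P : L2 ≃ₗᵢ[ℂ] L2) (hP : IsPF P) (T : ℝ) (v v₁ v₂ N : ℝ → L2) (hT : 0 < T)
    (hN : Nls T v v₁ v₂ N) (hm : 0 < ‖v 0‖ ^ 2) (hX : ¬ ∃ D : ℝ, ∀ t ∈ Ico 0 T, XX P (v t) ≤ D) :
    Rte T (fun t => ‖v₂ t‖) := by
  obtain ⟨C₀, hC₀, hK⟩ := KI2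
  obtain ⟨ρ, p, e, hF, hd⟩ := FLO T v v₁ v₂ N hN
  set m : ℝ := ‖v 0‖ ^ 2 with hmdef
  obtain ⟨w, f, c, hk2⟩ := hK P hP T v v₁ v₂ N hT hN ρ p e
    (fun t ht => ⟨(hd t ht).1, (hd t ht).2.1, (hd t ht).2.2.2.1⟩)
  have hk := hk2.toKin
  obtain ⟨g1, gmono, gcont, -, -⟩ := GAB T m _ ρ p e hT hF
  have h0T : (0 : ℝ) ∈ Ico 0 T := ⟨le_rfl, hT⟩
  have hub : ∀ B : ℝ, ∃ t ∈ Ico 0 T, B < Ga ρ p e t := by
    intro B
    by_contra hcon
    push Not at hcon
    refine hX ⟨XX P (v 0) + 2 * B, fun t ht => ?_⟩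
    have h1 := hk.hX t ht
    have h2 := hcon t ht
    linarith
  have hG : Tendsto (Ga ρ p e) (𝓝[<] T) atTop := by
    rw [tendsto_atTop]
    intro B
    obtain ⟨t0, ht0, hB⟩ := hub B
    filter_upwards [Ico_mem_nhdsLT ht0.2] with t ht
    exact hB.le.trans (gmono ht0 ⟨ht0.1.trans ht.1, ht.2⟩ ht.1)
  have hb : ∀ t ∈ Ico 0 T, Ga ρ p e t ≤ 1 + m * Real.sqrt m / 8 * (‖v₂ t‖ + ‖v₂ 0‖) := by
    intro t ht
    have h1 := GRB T m _ ρ p e hF t ht
    have h2 : ∀ s ∈ Ico 0 T, ‖p s‖ ≤ Real.sqrt m * ‖v₂ s‖ := fun s hs => by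
      have := (FLB T m _ ρ p e hF s hs).2.2.2.2
      rw [(hd s hs).2.2.2.2, Real.sqrt_sq (norm_nonneg (v₂ s))] at this
      exact this
    have h3 := h2 t ht
    have h4 := h2 0 h0T
    have h5 : m * (‖p t‖ + ‖p 0‖) ≤ m * (Real.sqrt m * ‖v₂ t‖ + Real.sqrt m * ‖v₂ 0‖) :=
      mul_le_mul_of_nonneg_left (add_le_add h3 h4) hm.le
    unfold Ga
    linarith
  intro K
  set κ : ℝ := m * Real.sqrt m / 8 with hκdef
  have hκ : 0 < κ := by
    have := Real.sqrt_pos.2 hm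
    positivity
  have h1 := RAT T m C₀ _ _ ρ p e w f c hT hC₀ hF hk2 hG (κ * K + (1 + κ * ‖v₂ 0‖) * T)
  push Not at h1
  obtain ⟨t₀, ht₀, h2⟩ := h1
  refine ⟨t₀, ht₀, fun t ht => ?_⟩
  have htT : t ∈ Ico 0 T := ⟨ht₀.1.trans ht.1, ht.2⟩
  have h3 := gmono ht₀ htT ht.1
  have h4 := hb t htT
  have hT0 : 0 < T - t₀ := by linarith [ht₀.2]
  rw [div_lt_iff₀ hT0] at h2
  have h5 : Ga ρ p e t₀ ≤ 1 + κ * (‖v₂ t‖ + ‖v₂ 0‖) := h3.trans h4
  have h6 : Ga ρ p e t₀ * (T - t₀) ≤ (1 + κ * (‖v₂ t‖ + ‖v₂ 0‖)) * (T - t₀) :=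
    mul_le_mul_of_nonneg_right h5 hT0.le
  have h7 : (1 + κ * ‖v₂ 0‖) * (T - t₀) ≤ (1 + κ * ‖v₂ 0‖) * T := by
    refine mul_le_mul_of_nonneg_left (by linarith [ht₀.1]) ?_
    have := norm_nonneg (v₂ 0)
    positivity
  have h8 : κ * K < κ * (‖v₂ t‖ * (T - t₀)) := by nlinarith
  have h9 : K < ‖v₂ t‖ * (T - t₀) := lt_of_mul_lt_mul_left h8 hκ.le
  rw [div_le_iff₀ hT0]
  exact h9.le

/-- null coordinates. -/
theorem null (GAB : SpecGAB) (RAT : SpecRAT) (KI2 : SpecKI2) (GRB : SpecGRB) (FLO : SpecFLO)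
    (FLB : SpecFLB) (MTH : SpecMTH) (BDD : SpecBDD) (PFX : SpecPFX) (SWP : SpecSWP)
    (T : ℝ) (v v₁ v₂ N : ℝ → L2) (hT : 0 < T) (hN : Nls T v v₁ v₂ N)
    (hB : ¬ ∃ D : ℝ, ∀ t ∈ Ico 0 T, ‖v₁ t‖ ≤ D ∧ ‖v₂ t‖ ≤ D) :
    Rte T (fun t => ‖v₂ t‖) ∨ Rte T (fun t => ‖v₁ t‖) := by
  obtain ⟨P, hP⟩ := PFX
  have hs := SWP.2.2.2 T v v₁ v₂ N hN
  have hn := fun f => (SWP.2.1 f).1
  by_cases h1 : ∃ D : ℝ, ∀ t ∈ Ico 0 T, XX P (v t) ≤ D
  · by_cases h2 : ∃ D : ℝ, ∀ t ∈ Ico 0 T, XX P (swp (v t)) ≤ D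
    · obtain ⟨D₁, hD₁⟩ := h1
      obtain ⟨D₂, hD₂⟩ := h2
      exact absurd (BDD P hP T v v₁ v₂ N hT hN (max D₁ D₂) fun t ht =>
        ⟨(hD₁ t ht).trans (le_max_left _ _), (hD₂ t ht).trans (le_max_right _ _)⟩) hB
    · right
      have hm : 0 < ‖swp (v 0)‖ ^ 2 := by
        by_contra hcon
        have h3 : ‖swp (v 0)‖ ^ 2 < 2 * Real.pi :=
          lt_of_le_of_lt (not_lt.1 hcon) (by positivity)
        exact h2 (MTH P hP T _ _ _ _ hs h3)
      have h4 := one GAB RAT KI2 GRB FLO FLB P hP T _ _ _ _ hT hs hm h2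
      intro K
      obtain ⟨t₀, ht₀, h5⟩ := h4 K
      refine ⟨t₀, ht₀, fun t ht => ?_⟩
      have h6 := h5 t ht
      simp only [hn] at h6
      exact h6
  · left
    have hm : 0 < ‖v 0‖ ^ 2 := by
      by_contra hcon
      have h3 : ‖v 0‖ ^ 2 < 2 * Real.pi := lt_of_le_of_lt (not_lt.1 hcon) (by positivity)
      exact h1 (MTH P hP T _ _ _ _ hN h3)
    exact one GAB RAT KI2 GRB FLO FLB P hP T _ _ _ _ hT hN hm h1

end RTEM

open FIEM in
theorem specRTE (GAB : SpecGAB) (RAT : SpecRAT) (KI2 : SpecKI2) (GRB : SpecGRB) (FLO : SpecFLO)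
    (FLB : SpecFLB) (MTH : SpecMTH) (BDD : SpecBDD) (PFX : SpecPFX) (SWP : SpecSWP)
    (TR : SpecTRF) (CH : SpecCHV) : SpecRTE := by
  intro T u G hT hS hB
  obtain ⟨v, v₁, v₂, N, hNls, hd⟩ := TR T u G hS
  have h2sq : Real.sqrt 2 * Real.sqrt 2 = 2 := Real.mul_self_sqrt (by norm_num)
  have h2pos : 0 < Real.sqrt 2 := Real.sqrt_pos.2 (by norm_num)
  have hG : ∀ s : ℝ, ∀ t ∈ Ico 0 T,
      MemLp (fun x => G t 0 x + (s : ℂ) * G t 1 x) 2 volume := fun s t ht =>
    (hS.memG t ht 0).add ((hS.memG t ht 1).const_mul _)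
  have hhalf : ‖(1 / 2 : ℂ)‖ = 1 / 2 := by norm_num
  have n2 : ∀ t ∈ Ico 0 T, ‖v₂ t‖
      = Real.sqrt 2 / 2 * nrm (fun x => G t 0 x + ((1 : ℝ) : ℂ) * G t 1 x) := fun t ht => by
    rw [norm_of CH (v₂ t) _ (1 / 2) (hG 1 t ht).1 ?_, hhalf]
    · ring
    · filter_upwards [(hd t ht).2.2] with x hx
      rw [hx, Complex.ofReal_one, one_mul]
  have n1 : ∀ t ∈ Ico 0 T, ‖v₁ t‖
      = Real.sqrt 2 / 2 * nrm (fun x => G t 0 x + ((-1 : ℝ) : ℂ) * G t 1 x) := fun t ht => by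
    rw [norm_of CH (v₁ t) _ (1 / 2) (hG (-1) t ht).1 ?_, hhalf]
    · ring
    · filter_upwards [(hd t ht).2.1] with x hx
      rw [hx]
      push_cast
      ring
  have hunb : ¬ ∃ D : ℝ, ∀ t ∈ Ico 0 T, ‖v₁ t‖ ≤ D ∧ ‖v₂ t‖ ≤ D := by
    rintro ⟨D, hD⟩
    apply hB
    refine ⟨Real.sqrt 2 * D, fun t ht => ?_⟩
    obtain ⟨d1, d2⟩ := hD t ht
    rw [n1 t ht] at d1
    rw [n2 t ht] at d2
    have ee : ∀ X : ℝ, Real.sqrt 2 * (Real.sqrt 2 / 2 * X) = X := fun X => by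
      have : Real.sqrt 2 * (Real.sqrt 2 / 2 * X) = (Real.sqrt 2 * Real.sqrt 2) / 2 * X := by ring
      rw [this, h2sq]
      ring
    have a1 : nrm (fun x => G t 0 x + ((-1 : ℝ) : ℂ) * G t 1 x) ≤ Real.sqrt 2 * D := by
      have := mul_le_mul_of_nonneg_left d1 h2pos.le
      rwa [ee] at this
    have a2 : nrm (fun x => G t 0 x + ((1 : ℝ) : ℂ) * G t 1 x) ≤ Real.sqrt 2 * D := by
      have := mul_le_mul_of_nonneg_left d2 h2pos.le
      rwa [ee] at this
    constructor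
    · have := nrm_tri _ _ (G t 0) (hG 1 t ht) (hG (-1) t ht) (fun x => by push_cast; ring)
      linarith
    · have hneg : nrm (fun x => -(G t 0 x + ((-1 : ℝ) : ℂ) * G t 1 x))
          = nrm (fun x => G t 0 x + ((-1 : ℝ) : ℂ) * G t 1 x) := by
        unfold nrm
        congr 1
        exact eLpNorm_neg (fun x => G t 0 x + ((-1 : ℝ) : ℂ) * G t 1 x) 2 volume
      have := nrm_tri _ (fun x => -(G t 0 x + ((-1 : ℝ) : ℂ) * G t 1 x)) (G t 1)
        (hG 1 t ht) (hG (-1) t ht).neg (fun x => by push_cast; ring)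
      rw [hneg] at this
      linarith
  have key : ∀ (s : ℝ) (w : ℝ → L2),
      (∀ t ∈ Ico 0 T, ‖w t‖ = Real.sqrt 2 / 2 * nrm (fun x => G t 0 x + (s : ℂ) * G t 1 x)) →
      Rte T (fun t => ‖w t‖) → Rte T (fun t => nrm (fun x => G t 0 x + (s : ℂ) * G t 1 x)) := by
    intro s w hw hR K
    obtain ⟨t₀, ht₀, h1⟩ := hR (Real.sqrt 2 / 2 * K)
    refine ⟨t₀, ht₀, fun t ht => ?_⟩
    have h2 := h1 t ht
    simp only at h2
    rw [hw t ⟨ht₀.1.trans ht.1, ht.2⟩, mul_div_assoc] at h2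
    exact le_of_mul_le_mul_left h2 (by positivity)
  rcases RTEM.null GAB RAT KI2 GRB FLO FLB MTH BDD PFX SWP T v v₁ v₂ N hT hNls hunb with h | h
  · exact ⟨1, Or.inl rfl, key 1 v₂ n2 h⟩
  · exact ⟨-1, Or.inr rfl, key (-1) v₁ n1 h⟩

end Pool.Agent.Lib.MP424d38.ES
end
end

section
/-!
# Block ES, module SPR: spreading of the pair density
-/
set_option autoImplicit false

open MeasureTheory Filter Topology Set
open scoped ENNReal ContDiff ComplexConjugate FourierTransform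

noncomputable section

namespace Pool.Agent.Lib.MP424d38.ES

open Pool.Agent.Lib.MP424d38.TY

namespace SPRM

theorem key (ρ : L1) (m : ℝ) (hm : ∫ a, ρ a = m) (w : ℝ → ℝ) (hw : Integrable (fun a => w a * ρ a)) :
    Integrable (fun z : ℝ × ℝ => (w z.1 + w z.2) * (ρ z.1 * ρ z.2)) ∧
    (∫ z : ℝ × ℝ, (w z.1 + w z.2) * (ρ z.1 * ρ z.2)) = 2 * m * ∫ a, w a * ρ a := by
  have hρ : Integrable ρ := L1.integrable_coeFn ρ
  have h1 : Integrable (fun z : ℝ × ℝ => (w z.1 * ρ z.1) * ρ z.2) := hw.mul_prod hρ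
  have h2 : Integrable (fun z : ℝ × ℝ => ρ z.1 * (w z.2 * ρ z.2)) := hρ.mul_prod hw
  have e : (fun z : ℝ × ℝ => (w z.1 + w z.2) * (ρ z.1 * ρ z.2))
      = fun z => (w z.1 * ρ z.1) * ρ z.2 + ρ z.1 * (w z.2 * ρ z.2) := by
    funext z; ring
  rw [e]
  refine ⟨h1.add h2, ?_⟩
  have e1 : (∫ z : ℝ × ℝ, (w z.1 * ρ z.1) * ρ z.2) = (∫ a, w a * ρ a) * ∫ a, ρ a :=
    integral_prod_mul (fun a => w a * ρ a) (fun a => ρ a)
  have e2 : (∫ z : ℝ × ℝ, ρ z.1 * (w z.2 * ρ z.2)) = (∫ a, ρ a) * ∫ a, w a * ρ a :=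
    integral_prod_mul (fun a => ρ a) (fun a => w a * ρ a)
  rw [integral_add h1 h2, e1, e2, hm]
  ring

theorem pos2 (ρ : L1) (h0 : ∀ᵐ a : ℝ, 0 ≤ ρ a) : ∀ᵐ z : ℝ × ℝ, 0 ≤ ρ z.1 * ρ z.2 := by
  have h1 : ∀ᵐ z : ℝ × ℝ, 0 ≤ ρ z.1 := Measure.quasiMeasurePreserving_fst.ae h0
  have h2 : ∀ᵐ z : ℝ × ℝ, 0 ≤ ρ z.2 := Measure.quasiMeasurePreserving_snd.ae h0
  filter_upwards [h1, h2] with z a b using mul_nonneg a b

end SPRM

open SPRM

theorem specSPR (hHCF : TY.SpecHCF) (hDDB : TY.SpecDDB) : SpecSPR := by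
  intro ρ m h0 hm
  obtain ⟨c1, c2, c3, -⟩ := hHCF
  have hρ : Integrable ρ := L1.integrable_coeFn ρ
  have hm0 : 0 ≤ m := hm ▸ integral_nonneg_of_ae h0
  have hp := pos2 ρ h0
  constructor
  · intro y R hR
    set A : Set ℝ := {a : ℝ | R < |a - y|} with hA
    have hAm : MeasurableSet A := measurableSet_lt measurable_const (by fun_prop)
    have e0 : (fun a => A.indicator (fun _ => (1 : ℝ)) a * ρ a) = A.indicator ρ := by
      funext a
      by_cases h : a ∈ A <;> simp [h]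
    have hw : Integrable (fun a => A.indicator (fun _ => (1 : ℝ)) a * ρ a) := by
      rw [e0]; exact hρ.indicator hAm
    obtain ⟨k1, k2⟩ := key ρ m hm _ hw
    rw [e0, integral_indicator hAm] at k2
    have e1 : m ^ 2 = ∫ z : ℝ × ℝ, ρ z.1 * ρ z.2 := by
      have : (∫ z : ℝ × ℝ, ρ z.1 * ρ z.2) = (∫ a, ρ a) * ∫ a, ρ a :=
        integral_prod_mul (fun a => ρ a) (fun a => ρ a)
      rw [this, hm]; ring
    have i1 : Integrable (fun z : ℝ × ℝ => ρ z.1 * ρ z.2) := hρ.mul_prod hρ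
    have hcont : Continuous (hl (2 * R)) := c1.continuous.comp (continuous_id.div_const _)
    have i2 := (hDDB.1 (hl (2 * R)) 1 hcont
      (fun s => by rw [hl, abs_of_nonneg (c2 _).1]; exact (c2 _).2) ρ ρ).1
    rw [← k2, e1, DD, ← integral_sub i1 i2]
    refine integral_mono_ae (i1.sub i2) k1 ?_
    filter_upwards [hp] with z hz
    have hle : 1 - hl (2 * R) (z.1 - z.2) ≤ A.indicator (fun _ => (1 : ℝ)) z.1 + A.indicator (fun _ => (1 : ℝ)) z.2 := by
      by_cases h1 : z.1 ∈ A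
      · have := (c2 ((z.1 - z.2) / (2 * R))).1
        have h2 : 0 ≤ A.indicator (fun _ => (1 : ℝ)) z.2 := indicator_nonneg (fun _ _ => zero_le_one) _
        simp only [hl, indicator_of_mem h1]
        linarith
      · by_cases h2 : z.2 ∈ A
        · have := (c2 ((z.1 - z.2) / (2 * R))).1
          simp only [hl, indicator_of_mem h2, indicator_of_notMem h1]
          linarith
        · have g1 : |z.1 - y| ≤ R := not_lt.1 h1
          have g2 : |z.2 - y| ≤ R := not_lt.1 h2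
          have g3 : |z.1 - z.2| ≤ 2 * R := by
            have : z.1 - z.2 = (z.1 - y) - (z.2 - y) := by ring
            rw [this]
            exact (abs_sub _ _).trans (by linarith)
          have g4 : hl (2 * R) (z.1 - z.2) = 1 := by
            apply c3
            rw [abs_div, abs_of_pos (by linarith : 0 < 2 * R)]
            exact (div_le_one (by linarith)).2 g3
          rw [g4, indicator_of_notMem h1, indicator_of_notMem h2]
          norm_num
    have := mul_le_mul_of_nonneg_right hle hz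
    show ρ z.1 * ρ z.2 - hl (2 * R) (z.1 - z.2) * (ρ z.1 * ρ z.2) ≤ _
    linarith
  · intro y L B hL hB hlin
    have hnn : 0 ≤ᵐ[volume] fun a => |a - y| * ρ a := by
      filter_upwards [h0] with a ha using mul_nonneg (abs_nonneg _) ha
    have hmeas : AEStronglyMeasurable (fun a => |a - y| * ρ a) volume :=
      (by fun_prop : Continuous fun a : ℝ => |a - y|).aestronglyMeasurable.mul hρ.aestronglyMeasurable
    have hw : Integrable (fun a => |a - y| * ρ a) := by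
      refine ⟨hmeas, ?_⟩
      rw [hasFiniteIntegral_iff_ofReal hnn]
      exact lt_of_le_of_lt hlin ENNReal.ofReal_lt_top
    have hB' : (∫ a, |a - y| * ρ a) ≤ B := by
      rw [integral_eq_lintegral_of_nonneg_ae hnn hmeas]
      exact ENNReal.toReal_le_of_le_ofReal hB hlin
    obtain ⟨k1, k2⟩ := key ρ m hm (fun a => |a - y|) hw
    have : DD (phi L) ρ ρ ≤ 2 * m * ∫ a, |a - y| * ρ a := by
      rw [← k2, DD]
      refine integral_mono_of_nonneg ?_ k1 ?_
      · filter_upwards [hp] with z hz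
        exact mul_nonneg (mul_nonneg (abs_nonneg _) (c2 _).1) hz
      · filter_upwards [hp] with z hz
        refine mul_le_mul_of_nonneg_right ?_ hz
        have g1 : phi L (z.1 - z.2) ≤ |z.1 - z.2| := by
          rw [phi]
          exact mul_le_of_le_one_right (abs_nonneg _) (c2 _).2
        have g2 : |z.1 - z.2| ≤ |z.1 - y| + |z.2 - y| := by
          have : z.1 - z.2 = (z.1 - y) - (z.2 - y) := by ring
          rw [this]
          exact abs_sub _ _
        exact g1.trans g2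
    exact this.trans (mul_le_mul_of_nonneg_left hB' (by positivity))

end Pool.Agent.Lib.MP424d38.ES
end
end

section
set_option autoImplicit false

open MeasureTheory Filter Topology Set
open scoped ENNReal ContDiff ComplexConjugate FourierTransform SchwartzMap

noncomputable section

namespace Pool.Agent.Lib.MP424d38.ES

open Pool.Agent.Lib.MP424d38.TY

namespace TFEM

open FWDM

/-- the classes of test functions are dense in `L²`. -/
theorem ext_dense {A B : L2 → L2E} (hA : Continuous A) (hB : Continuous B)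
    (h : ∀ (ψ : ℝ × ℝ → ℂ) (hψ : Test ψ), A (cl ψ hψ) = B (cl ψ hψ)) (f : L2) : A f = B f := by
  have hd := MeasureTheory.Lp.dense_hasCompactSupport_contDiff (E := ℝ × ℝ) (F := ℂ)
    (μ := (volume : Measure (ℝ × ℝ))) (p := 2) (by simp)
  have hAB : A = B := by
    refine hA.ext_on hd hB fun g hg => ?_
    obtain ⟨ψ, h1, h2, h3⟩ := hg
    have hψ : Test ψ := ⟨h3, h2⟩
    have e : g = cl ψ hψ := Lp.ext (h1.trans (cl_ae ψ hψ).symm)
    rw [e]
    exact h ψ hψ
  rw [hAB]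

/-! ### multiplication by a unimodular symbol -/

/-- the phase. -/
def ph (h : ℝ) (k : E2) : ℂ := Complex.exp (2 * Real.pi * Complex.I * ((h * (prE k).2 : ℝ) : ℂ))

theorem ph_norm (h : ℝ) (k : E2) : ‖ph h k‖ = 1 := by
  have e : ph h k = Complex.exp (((2 * Real.pi * (h * (prE k).2) : ℝ) : ℂ) * Complex.I) := by
    unfold ph
    congr 1
    push_cast
    ring
  rw [e, Complex.norm_exp_ofReal_mul_I]

theorem ph_meas (h : ℝ) : Measurable (ph h) := by
  have h1 : Measurable prE := prE_mp.measurable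
  unfold ph
  fun_prop

theorem mulMem (h : ℝ) (g : L2E) : MemLp (fun k => ph h k * g k) 2 (volume : Measure E2) := by
  refine MemLp.of_le (Lp.memLp g)
    ((ph_meas h).aestronglyMeasurable.mul (Lp.aestronglyMeasurable g)) ?_
  refine Eventually.of_forall fun k => ?_
  rw [norm_mul, ph_norm, one_mul]

def mulF (h : ℝ) (g : L2E) : L2E := (mulMem h g).toLp _

theorem mulF_coe (h : ℝ) (g : L2E) : ∀ᵐ k : E2, mulF h g k = ph h k * g k :=
  (mulMem h g).coeFn_toLp

theorem mulF_isometry (h : ℝ) : Isometry (mulF h) := by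
  refine Isometry.of_dist_eq fun f g => ?_
  rw [dist_eq_norm, dist_eq_norm, Lp.norm_def, Lp.norm_def]
  congr 1
  refine eLpNorm_congr_norm_ae ?_
  filter_upwards [mulF_coe h f, mulF_coe h g, Lp.coeFn_sub f g, Lp.coeFn_sub (mulF h f) (mulF h g)]
    with k h1 h2 h3 h4
  rw [h3, h4, Pi.sub_apply, Pi.sub_apply, h1, h2, ← mul_sub, norm_mul, ph_norm, one_mul]

/-! ### translations -/

theorem test_tr {ψ : ℝ × ℝ → ℂ} (hψ : Test ψ) (h : ℝ) : Test (fun x => ψ (x + ((0:ℝ), h))) := by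
  refine ⟨hψ.1.comp (contDiff_id.add contDiff_const), ?_⟩
  exact hψ.2.comp_homeomorph (Homeomorph.addRight ((0:ℝ), h))

theorem trn_ae (h : ℝ) (f : L2) : ∀ᵐ x : ℝ × ℝ, trn h f x = f (x + ((0:ℝ), h)) :=
  Lp.coeFn_compMeasurePreserving f (measurePreserving_add_right volume ((0 : ℝ), h))

theorem trn_cl {ψ : ℝ × ℝ → ℂ} (hψ : Test ψ) (h : ℝ) :
    trn h (cl ψ hψ) = cl (fun x => ψ (x + ((0:ℝ), h))) (test_tr hψ h) := by
  refine Lp.ext ?_
  filter_upwards [trn_ae h (cl ψ hψ), cl_ae _ (test_tr hψ h),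
    (measurePreserving_add_right (volume : Measure (ℝ × ℝ)) ((0 : ℝ), h)).quasiMeasurePreserving.ae
      (cl_ae ψ hψ)] with x h1 h2 h3
  rw [h1, h2, h3]

theorem four_tr {ψ : ℝ × ℝ → ℂ} (hψ : Test ψ) (h : ℝ) (k : E2) :
    (𝓕 (sch (fun x => ψ (x + ((0:ℝ), h))) (test_tr hψ h)) : 𝓢(E2, ℂ)) k
      = ph h k * (𝓕 (sch ψ hψ) : 𝓢(E2, ℂ)) k := by
  rw [SchwartzMap.fourier_coe, SchwartzMap.fourier_coe]
  have e1 : (⇑(sch (fun x => ψ (x + ((0:ℝ), h))) (test_tr hψ h)) : E2 → ℂ)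
      = (⇑(sch ψ hψ)) ∘ fun v => v + inE ((0:ℝ), h) := rfl
  have e2 := VectorFourier.fourierIntegral_comp_add_right Real.fourierChar (volume : Measure E2)
    (innerₗ E2) (⇑(sch ψ hψ)) (inE ((0:ℝ), h))
  have e3 : 𝓕 ((⇑(sch ψ hψ)) ∘ fun v => v + inE ((0:ℝ), h)) k
      = Real.fourierChar (innerₗ E2 (inE ((0:ℝ), h)) k) • 𝓕 (⇑(sch ψ hψ)) k := congrFun e2 k
  rw [e1, e3, Circle.smul_def, Real.fourierChar_apply, smul_eq_mul]
  congr 1
  unfold ph
  congr 1
  have e4 : innerₗ E2 (inE ((0:ℝ), h)) k = h * (prE k).2 := by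
    rw [innerₗ_apply_apply, WithLp.prod_inner_apply]
    simp [inE, prE, mul_comm]
  rw [e4]
  push_cast
  ring

theorem cont_trn (h : ℝ) : Continuous (trn h) :=
  (Lp.compMeasurePreservingₗᵢ ℂ (fun x : ℝ × ℝ => x + ((0 : ℝ), h))
    (measurePreserving_add_right volume ((0 : ℝ), h))).continuous

theorem part1 (h : ℝ) (f : L2) : (𝓕 (toE (trn h f)) : L2E) = mulF h (𝓕 (toE f) : L2E) := by
  refine ext_dense (A := fun f => (𝓕 (toE (trn h f)) : L2E)) (B := fun f => mulF h (𝓕 (toE f) : L2E))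
    (cont_fourE.comp (cont_trn h)) ((mulF_isometry h).continuous.comp cont_fourE) ?_ f
  intro ψ hψ
  show (𝓕 (toE (trn h (cl ψ hψ))) : L2E) = mulF h (𝓕 (toE (cl ψ hψ)) : L2E)
  rw [trn_cl]
  refine Lp.ext ?_
  filter_upwards [four_cl _ (test_tr hψ h), four_cl ψ hψ, mulF_coe h (𝓕 (toE (cl ψ hψ)) : L2E)]
    with k h1 h2 h3
  rw [h1, h3, h2, four_tr hψ h k]

/-! ### exchange -/

theorem test_sw {ψ : ℝ × ℝ → ℂ} (hψ : Test ψ) : Test (fun x => ψ x.swap) := by
  refine ⟨hψ.1.comp (contDiff_snd.prodMk contDiff_fst), ?_⟩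
  exact hψ.2.comp_homeomorph (Homeomorph.prodComm ℝ ℝ)

theorem swp_ae (f : L2) : ∀ᵐ x : ℝ × ℝ, swp f x = f x.swap :=
  Lp.coeFn_compMeasurePreserving f
    (Measure.measurePreserving_swap (μ := (volume : Measure ℝ)) (ν := (volume : Measure ℝ)))

theorem swp_cl {ψ : ℝ × ℝ → ℂ} (hψ : Test ψ) : swp (cl ψ hψ) = cl (fun x => ψ x.swap) (test_sw hψ) := by
  refine Lp.ext ?_
  filter_upwards [swp_ae (cl ψ hψ), cl_ae _ (test_sw hψ),
    (Measure.measurePreserving_swap (μ := (volume : Measure ℝ))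
      (ν := (volume : Measure ℝ))).quasiMeasurePreserving.ae (cl_ae ψ hψ)] with x h1 h2 h3
  rw [h1, h2, h3]

theorem four_sw {ψ : ℝ × ℝ → ℂ} (hψ : Test ψ) (k : E2) :
    (𝓕 (sch (fun x => ψ x.swap) (test_sw hψ)) : 𝓢(E2, ℂ)) k
      = (𝓕 (sch ψ hψ) : 𝓢(E2, ℂ)) (inE (prE k).swap) := by
  rw [SchwartzMap.fourier_coe, SchwartzMap.fourier_coe]
  exact Real.fourier_comp_linearIsometry (LinearIsometryEquiv.withLpProdComm 2 ℝ ℝ ℝ)
    (⇑(sch ψ hψ)) k

theorem swE_mp : MeasurePreserving (fun k : E2 => inE (prE k).swap) (volume : Measure E2) volume :=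
  inE_mp.comp ((Measure.measurePreserving_swap (μ := (volume : Measure ℝ))
      (ν := (volume : Measure ℝ))).comp prE_mp)

theorem cont_swp : Continuous swp :=
  (Lp.compMeasurePreservingₗᵢ ℂ (fun x : ℝ × ℝ => x.swap)
    (Measure.measurePreserving_swap (μ := (volume : Measure ℝ)) (ν := (volume : Measure ℝ)))).continuous

theorem part2 (f : L2) : (𝓕 (toE (swp f)) : L2E)
    = Lp.compMeasurePreserving (fun k : E2 => inE (prE k).swap) swE_mp (𝓕 (toE f) : L2E) := by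
  refine ext_dense (A := fun f => (𝓕 (toE (swp f)) : L2E)) (B := fun f =>
    Lp.compMeasurePreserving (fun k : E2 => inE (prE k).swap) swE_mp (𝓕 (toE f) : L2E))
    (cont_fourE.comp cont_swp)
    ((Lp.compMeasurePreservingₗᵢ ℂ _ swE_mp).continuous.comp cont_fourE) ?_ f
  intro ψ hψ
  show (𝓕 (toE (swp (cl ψ hψ))) : L2E) = Lp.compMeasurePreserving (fun k : E2 => inE (prE k).swap)
    swE_mp (𝓕 (toE (cl ψ hψ)) : L2E)
  rw [swp_cl]
  refine Lp.ext ?_
  filter_upwards [four_cl _ (test_sw hψ), swE_mp.quasiMeasurePreserving.ae (four_cl ψ hψ),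
    Lp.coeFn_compMeasurePreserving (𝓕 (toE (cl ψ hψ)) : L2E) swE_mp] with k h1 h2 h3
  rw [h1, h3, Function.comp_apply, h2, four_sw hψ k]

end TFEM

open TFEM in
theorem specTFE : SpecTFE := by
  refine ⟨fun h f => ?_, fun f => ?_⟩
  · rw [part1 h f]
    exact mulF_coe h _
  · rw [part2 f]
    filter_upwards [Lp.coeFn_compMeasurePreserving (𝓕 (toE f) : L2E) swE_mp] with k hk
    rw [hk, Function.comp_apply]

end Pool.Agent.Lib.MP424d38.ES
end
end

section
/-!
# MP_424d38_an, block TH, module WDE: a weighted functional decreases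
-/
set_option autoImplicit false

open MeasureTheory Filter Topology Set
open scoped ENNReal ContDiff ComplexConjugate

noncomputable section

namespace Pool.Agent.Lib.MP424d38.TH

open Pool.Agent.Lib.MP424d38.TY Pool.Agent.Lib.MP424d38.ES

namespace WDEM

theorem int_g (g : L1) : Integrable (fun b => g b) := L1.integrable_coeFn g

/-- a continuous weight composed with the mass coordinate -/
theorem wcont {m : ℝ} {ψ : ℝ → ℝ} (hψ : ContinuousOn ψ (Icc 0 m)) {G : ℝ → ℝ} (hG : Continuous G)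
    (hm : ∀ a, 0 ≤ G a ∧ G a ≤ m) : Continuous fun a => ψ (G a) :=
  hψ.comp_continuous hG fun a => ⟨(hm a).1, (hm a).2⟩

/-- and it is bounded -/
theorem wbdd {m : ℝ} {ψ : ℝ → ℝ} (hψ : ContinuousOn ψ (Icc 0 m)) :
    ∃ C : ℝ, 0 ≤ C ∧ ∀ r ∈ Icc 0 m, |ψ r| ≤ C := by
  obtain ⟨C, hC⟩ := isCompact_Icc.exists_bound_of_continuousOn hψ
  exact ⟨max C 0, le_max_right _ _, fun r hr => (hC r hr).trans (le_max_left _ _)⟩

/-- multiplication of an integrable function by a weight -/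
theorem wint {m : ℝ} {ψ : ℝ → ℝ} (hψ : ContinuousOn ψ (Icc 0 m)) {G : ℝ → ℝ} (hG : Continuous G)
    (hm : ∀ a, 0 ≤ G a ∧ G a ≤ m) {h : ℝ → ℝ} (hh : Integrable h) :
    Integrable fun a => ψ (G a) * h a := by
  obtain ⟨C, -, hC⟩ := wbdd hψ
  refine hh.bdd_mul (c := C) (wcont hψ hG hm).aestronglyMeasurable ?_
  exact ae_of_all _ fun a => hC _ ⟨(hm a).1, (hm a).2⟩

/-- the product of two `L¹` functions dominated by an integrable function -/
theorem pint (f g : L1) {h : ℝ → ℝ} (hh : Integrable h) (hb : ∀ᵐ a : ℝ, |f a * g a| ≤ h a) :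
    Integrable fun a => f a * g a := by
  refine hh.mono' ?_ hb
  exact (Lp.aestronglyMeasurable f).mul (Lp.aestronglyMeasurable g)

end WDEM

open WDEM in
theorem specWDE (hLID : SpecLID) (hRMF : SpecRMF) : SpecWDE := by
  intro T m c₁ R ρ p e X Y c hF φ φ' f f' hd hφ' hf' hc s t hs hst ht
  have hflow : Flow T m R ρ p e := hF.toFlow
  have hφc : ContinuousOn φ (Icc 0 m) := fun r hr => (hd r hr).1.continuousAt.continuousWithinAt
  have hfc : ContinuousOn f (Icc 0 m) := fun r hr => (hd r hr).2.continuousAt.continuousWithinAt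
  have h4 : ∀ (g : L1), ∀ᵐ a : ℝ, ((4 : ℝ) • g : L1) a = 4 * g a := by
    intro g
    filter_upwards [Lp.coeFn_smul (4 : ℝ) g] with a ha
    rw [ha, Pi.smul_apply, smul_eq_mul]
  -- the two identities
  obtain ⟨i1, e1⟩ := hLID T m R ρ p e hflow X (fun t => (4 : ℝ) • Y t) c hF.lawX
    (fun r hr => by
      filter_upwards [hF.bdX r hr, h4 (Y r), hflow.pos r hr] with a h1 h2 h3
      refine ⟨h1.2.1, ?_⟩
      show |((4 : ℝ) • Y r : L1) a| ≤ 4 * e r a
      rw [h2, abs_mul, abs_of_pos (by norm_num : (0 : ℝ) < 4)]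
      have := h1.2.2.1
      linarith)
    φ φ' (fun r hr => (hd r hr).1) hφ' s t hs hst ht
  obtain ⟨i2, e2⟩ := hLID T m R ρ p e hflow p (fun t => (4 : ℝ) • e t) (fun _ => (0 : L1))
    (GRBM.lawS_of_law hflow.lawp)
    (fun r hr => by
      filter_upwards [h4 (e r), hflow.pos r hr] with a h2 h3
      refine ⟨h3.2.2.1, ?_⟩
      show |((4 : ℝ) • e r : L1) a| ≤ 4 * e r a
      rw [h2, abs_of_nonneg (by linarith [h3.2.1])])
    f f' (fun r hr => (hd r hr).2) hf' s t hs hst ht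
  have hsI : s ∈ Ico 0 T := ⟨hs, lt_of_le_of_lt hst ht⟩
  have htI : t ∈ Ico 0 T := ⟨hs.trans hst, ht⟩
  -- splitting the functional
  have hsplit : ∀ r ∈ Ico 0 T, (∫ a, (φ (Rm (ρ r) a) * X r a - f (Rm (ρ r) a) * p r a)) =
      (∫ a, φ (Rm (ρ r) a) * X r a) - ∫ a, f (Rm (ρ r) a) * p r a := by
    intro r hr
    obtain ⟨hc1, -, hc3⟩ := hRMF (ρ r) m (R r) (by
      filter_upwards [hflow.pos r hr] with a h; exact ⟨h.1, h.2.2.2⟩) (hflow.mass r hr)
    exact integral_sub (wint hφc hc1 hc3 (int_g _)) (wint hfc hc1 hc3 (int_g _))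
  rw [hsplit t htI, hsplit s hsI]
  -- the pointwise sign
  have hneg : ∀ r ∈ Icc s t,
      ((-4 * (∫ a, φ' (Rm (ρ r) a) * (p r a * X r a)))
        + (∫ a, φ' (Rm (ρ r) a) * (ρ r a * ((4 : ℝ) • Y r : L1) a))
        + ∫ a, φ (Rm (ρ r) a) * c r a) -
      ((-4 * (∫ a, f' (Rm (ρ r) a) * (p r a * p r a)))
        + (∫ a, f' (Rm (ρ r) a) * (ρ r a * ((4 : ℝ) • e r : L1) a))
        + ∫ a, f (Rm (ρ r) a) * (0 : L1) a) ≤ 0 := by
    intro r hr
    have hrI : r ∈ Ico 0 T := ⟨hs.trans hr.1, lt_of_le_of_lt hr.2 ht⟩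
    have hpos := hflow.pos r hrI
    have hbd := hF.bdX r hrI
    obtain ⟨hc1, -, hc3⟩ := hRMF (ρ r) m (R r) (by
      filter_upwards [hpos] with a h; exact ⟨h.1, h.2.2.2⟩) (hflow.mass r hrI)
    have hRe : Integrable fun a => |R r| * e r a := (int_g (e r)).const_mul _
    have habs : ∀ᵐ a : ℝ, ρ r a * e r a ≤ |R r| * e r a := by
      filter_upwards [hpos] with a h
      exact mul_le_mul_of_nonneg_right (h.2.2.2.trans (le_abs_self _)) h.2.1
    have jpX : Integrable fun a => p r a * X r a := by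
      refine pint _ _ hRe ?_
      filter_upwards [hpos, hbd, habs] with a h1 h2 h3
      have h4 : (|p r a * X r a|) ≤ ρ r a * e r a := by
        rw [abs_mul]
        nlinarith [sq_abs (p r a), sq_abs (X r a), sq_nonneg (|p r a| - |X r a|), h1.2.2.1,
          h2.2.1]
      exact h4.trans h3
    have jpp : Integrable fun a => p r a * p r a := by
      refine pint _ _ hRe ?_
      filter_upwards [hpos, habs] with a h1 h3
      have h4 : (|p r a * p r a|) ≤ ρ r a * e r a := by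
        rw [abs_mul_self]
        nlinarith [h1.2.2.1]
      exact h4.trans h3
    have jρY : Integrable fun a => ρ r a * ((4 : ℝ) • Y r : L1) a := by
      refine pint _ _ (hRe.const_mul 4) ?_
      filter_upwards [hpos, hbd, habs, h4 (Y r)] with a h1 h2 h3 h5
      rw [h5, abs_mul, abs_mul, abs_of_nonneg h1.1, abs_of_pos (by norm_num : (0 : ℝ) < 4)]
      have h6 := mul_le_mul_of_nonneg_left h2.2.2.1 h1.1
      nlinarith
    have jρe : Integrable fun a => ρ r a * ((4 : ℝ) • e r : L1) a := by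
      refine pint _ _ (hRe.const_mul 4) ?_
      filter_upwards [hpos, habs, h4 (e r)] with a h1 h3 h5
      rw [h5, abs_mul, abs_mul, abs_of_nonneg h1.1, abs_of_pos (by norm_num : (0 : ℝ) < 4),
        abs_of_nonneg h1.2.1]
      nlinarith
    have k1 := wint hφ' hc1 hc3 jpX
    have k2 := wint hφ' hc1 hc3 jρY
    have k3 := wint hφc hc1 hc3 (int_g (c r))
    have k4 := wint hf' hc1 hc3 jpp
    have k5 := wint hf' hc1 hc3 jρe
    have k6 : (∫ a, f (Rm (ρ r) a) * (0 : L1) a) = 0 := by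
      have h2 : (fun a => f (Rm (ρ r) a) * (0 : L1) a) =ᵐ[volume] fun _ => (0 : ℝ) := by
        filter_upwards [Lp.coeFn_zero ℝ 1 (volume : Measure ℝ)] with a ha
        rw [ha]; simp
      rw [integral_congr_ae h2]; simp
    have m1 : Integrable fun a => -4 * (φ' (Rm (ρ r) a) * (p r a * X r a)) := k1.const_mul (-4)
    have m2 : Integrable fun a => -4 * (φ' (Rm (ρ r) a) * (p r a * X r a))
        + φ' (Rm (ρ r) a) * (ρ r a * ((4 : ℝ) • Y r : L1) a) := m1.add k2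
    have m3 : Integrable fun a => -4 * (φ' (Rm (ρ r) a) * (p r a * X r a))
        + φ' (Rm (ρ r) a) * (ρ r a * ((4 : ℝ) • Y r : L1) a) + φ (Rm (ρ r) a) * c r a :=
      m2.add k3
    have m4 : Integrable fun a => -4 * (f' (Rm (ρ r) a) * (p r a * p r a)) := k4.const_mul (-4)
    have m5 : Integrable fun a => -4 * (f' (Rm (ρ r) a) * (p r a * p r a))
        + f' (Rm (ρ r) a) * (ρ r a * ((4 : ℝ) • e r : L1) a) := m4.add k5
    have hE : (∫ a, (-4 * (φ' (Rm (ρ r) a) * (p r a * X r a))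
        + φ' (Rm (ρ r) a) * (ρ r a * ((4 : ℝ) • Y r : L1) a) + φ (Rm (ρ r) a) * c r a
        - (-4 * (f' (Rm (ρ r) a) * (p r a * p r a))
          + f' (Rm (ρ r) a) * (ρ r a * ((4 : ℝ) • e r : L1) a)))) =
      ((-4 * (∫ a, φ' (Rm (ρ r) a) * (p r a * X r a)))
        + (∫ a, φ' (Rm (ρ r) a) * (ρ r a * ((4 : ℝ) • Y r : L1) a))
        + ∫ a, φ (Rm (ρ r) a) * c r a) -
      ((-4 * (∫ a, f' (Rm (ρ r) a) * (p r a * p r a)))
        + (∫ a, f' (Rm (ρ r) a) * (ρ r a * ((4 : ℝ) • e r : L1) a))) := by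
      rw [integral_sub m3 m5, integral_add m2 k3, integral_add m1 k2, integral_add m4 k5,
        integral_const_mul, integral_const_mul]
    rw [k6, add_zero, ← hE]
    refine integral_nonpos_of_ae ?_
    filter_upwards [hpos, hbd, h4 (Y r), h4 (e r)] with a h1 h2 h5 h6
    have h7 := hc (Rm (ρ r) a) ⟨(hc3 a).1, (hc3 a).2⟩ (ρ r a * e r a - p r a ^ 2)
      (ρ r a * Y r a - p r a * X r a) (c r a) h2.2.2.2.1 h2.2.2.2.2
    simp only [Pi.zero_apply]
    rw [h5, h6]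
    nlinarith [h7]
  have h5 := e1
  have h6 := e2
  have hle : (∫ r in s..t, ((-4 * (∫ a, φ' (Rm (ρ r) a) * (p r a * X r a)))
        + (∫ a, φ' (Rm (ρ r) a) * (ρ r a * ((4 : ℝ) • Y r : L1) a))
        + ∫ a, φ (Rm (ρ r) a) * c r a)) -
      (∫ r in s..t, ((-4 * (∫ a, f' (Rm (ρ r) a) * (p r a * p r a)))
        + (∫ a, f' (Rm (ρ r) a) * (ρ r a * ((4 : ℝ) • e r : L1) a))
        + ∫ a, f (Rm (ρ r) a) * (0 : L1) a)) ≤ 0 := by
    rw [← intervalIntegral.integral_sub i1 i2]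
    have h8 := intervalIntegral.integral_mono_on hst (i1.sub i2)
      (intervalIntegrable_const (c := (0 : ℝ))) (fun r hr => hneg r hr)
    simpa using h8
  linarith

end Pool.Agent.Lib.MP424d38.TH
end
end
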