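import Pool.Agent.Lib.MP_424d38_an.TH.SpecA
import Pool.Agent.Lib.MP_424d38_an.ES.SpecH

/-!
# Block TH, part B: the law of the density `X = ∫|l||v̂(a,l)|²dl` and the bound of its source
-/

set_option autoImplicit false

open MeasureTheory Filter Topology Set
open scoped ENNReal ContDiff ComplexConjugate FourierTransform

noncomputable section

namespace Pool.Agent.Lib.MP424d38.TH

open Pool.Agent.Lib.MP424d38.TY Pool.Agent.Lib.MP424d38.ES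

/-- `|D|f = -i S F₂`, `F₂ = ∂_b f`, `S` the multiplier with symbol `sign l`. -/
def aD (S : L2 →L[ℂ] L2) (F₂ : L2) : L2 := (-Complex.I) • S F₂

/-- the source `-2 Im ∫ conj(|D|f) N db`. -/
def srA (S : L2 →L[ℂ] L2) (F₂ N : L2) (a : ℝ) : ℝ := -2 * ∫ b, (conj (aD S F₂ (a, b)) * N (a, b)).im

/-- ADF (transform of `|D|f`).  Hypotheses ES.SpecPD2.
`P(S F₂)(a,ξ) = sign(2πξ)P F₂(a,ξ) = sign(2πξ)·2πiξ·Pf(a,ξ)`, and `P` is linear. -/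
def SpecADF : Prop := ∀ P : L2 ≃ₗᵢ[ℂ] L2, IsPF P → ∀ S : L2 →L[ℂ] L2, IsMT P Real.sign S →
  ∀ f F₁ F₂ : L2, IsH1 f F₁ F₂ → ∀ᵐ x : ℝ × ℝ, P (aD S F₂) x = ((|2 * Real.pi * x.2| : ℝ) : ℂ) * P f x

/-- XLW (the law of `X`).  Hypotheses ADF, ES.SpecMLW, ES.SpecMTX, ES.SpecMDE, ES.SpecPSL, ES.SpecPD2, TY.SpecDNS.
Proof.  `X t`, `Y t`, `c t` are the `L1` classes of `momD (v t)(S (v₂ t))`, `momD (v₂ t)(i S (v₂ t))`, `-2 momD (aD S (v₂ t))(N t)` (`ES/MLW.lean`: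
`mom`, `mom_cont`, `spec_int`): continuous in `t` as momenta of pairs of `L2`-continuous functions; `P(S v₂) = i|l|Pv`, so
`momD v (S v₂) = Mo |l| v`, and `∫Im(conj(v₂) i S v₂)db = ∫Re(conj(ilPv)·i|l|·i... )dξ`: with `P v₂ = ilPv`, `P(iSv₂) = -|l|Pv`:
`Im(conj(il)·(-|l|))|Pv|² = Im(i l|l|)|Pv|² = l|l||Pv|²`, so it is `Mo (l|l|) v`.
Law: let `σ_n(l) = min(|l|, n)`, `S_n` (MTX), MLW: `LawS` for `Mo σ_n`, `4 Mo (lσ_n)`, `src S_n`.  For fixed `β ∈ Cb1`, `|β|, |β'| ≤ C`, and `t ≤ t'` let `n → ∞`: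
`∫βMo σ_n(v t) → ∫βMo|l|(v t)` (dominated convergence on `ℝ × ℝ`, `|l||Pv|² ∈ L¹`, MDE); `∫β'Mo(lσ_n)(v r) → ∫β'Mo(l|l|)(v r)`, bounded by
`C‖v₂ r‖²`; `|∫β(src S_n - srA)| ≤ 2C‖S_n v(r) - aD S (v₂ r)‖‖N r‖ → 0` (Plancherel: `‖·‖² = ∬(|l|-σ_n)²|Pv|²`, dominated), bounded by
`4C‖v₂ r‖‖N r‖`; all bounds are continuous in `r ∈ [t,t']`, dominated convergence in `r`. -/
def SpecXLW : Prop := ∀ P : L2 ≃ₗᵢ[ℂ] L2, IsPF P → ∀ S : L2 →L[ℂ] L2, IsMT P Real.sign S →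
  ∀ (T : ℝ) (v v₁ v₂ N : ℝ → L2), Nls T v v₁ v₂ N → ∃ X Y c : ℝ → L1, LawS T X (fun t => (4 : ℝ) • Y t) c ∧
  ∀ t ∈ Ico 0 T, (∀ᵐ a : ℝ, X t a = Mo P (fun l => |l|) (v t) a) ∧
    (∀ᵐ a : ℝ, Y t a = Mo P (fun l => l * |l|) (v t) a) ∧ (∀ᵐ a : ℝ, c t a = srA S (v₂ t) (N t) a)

/-- SLX (slice data for `|D|`).  Hypotheses ADF, ES.SpecPSL, ES.SpecPD2, ES.SpecMX1.  As ES.SpecSLD (`ES/SLD.lean`) with `aD S F₂` instead of `S f`. -/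
def SpecSLX : Prop := ∀ P : L2 ≃ₗᵢ[ℂ] L2, IsPF P → ∀ S : L2 →L[ℂ] L2, IsMT P Real.sign S →
  ∀ f F₁ F₂ : L2, IsH1 f F₁ F₂ → ∀ N : L2, (∀ᵐ x : ℝ × ℝ, N x = ((‖f x‖ ^ 2 : ℝ) : ℂ) * f x) →
  ∀ᵐ a : ℝ, ∃ h k : L2R, (∀ᵐ b : ℝ, h b = f (a, b)) ∧ (∀ᵐ b : ℝ, k b = aD S F₂ (a, b)) ∧
    (∀ᵐ ξ : ℝ, (𝓕 h : L2R) ξ = P f (a, ξ)) ∧ IsM (fun l => |l|) h k ∧ E1 h ∧
    (∀ᵐ b : ℝ, N (a, b) = ((‖h b‖ ^ 2 : ℝ) : ℂ) * h b)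

/-- CBD (the pointwise bounds).  Hypotheses SLX, SLT, ES.SpecMDE (and lemmas of `ES/SKY.lean`: `src_eq`, `Mo_eq`, `gm_eq`).
Proof.  For a.e. `a`, `h, k` from SLX; `γ = gm h`, `η = et h` (MDE: `rhoD f = Mo 1`, `momD = Mo l`, `rhoD F₂ = Mo l²`), and the source is
`-2 Im∫conj(k)|h|²h`: SLT.  `|p| ≤ X` and `|Y| ≤ e` are immediate, `X² ≤ ρe` is Cauchy-Schwarz. -/
def SpecCBD : Prop := ∀ P : L2 ≃ₗᵢ[ℂ] L2, IsPF P → ∀ S : L2 →L[ℂ] L2, IsMT P Real.sign S →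
  ∀ f F₁ F₂ : L2, IsH1 f F₁ F₂ → ∀ N : L2, (∀ᵐ x : ℝ × ℝ, N x = ((‖f x‖ ^ 2 : ℝ) : ℂ) * f x) →
  ∀ᵐ a : ℝ,
    let γ := rhoD f a * rhoD F₂ a - momD f F₂ a ^ 2
    let η := rhoD f a * Mo P (fun l => l * |l|) f a - momD f F₂ a * Mo P (fun l => |l|) f a
    |momD f F₂ a| ≤ Mo P (fun l => |l|) f a ∧ Mo P (fun l => |l|) f a ^ 2 ≤ rhoD f a * rhoD F₂ a ∧
    |Mo P (fun l => l * |l|) f a| ≤ rhoD F₂ a ∧ |η| ≤ γ ∧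
    ∀ α : ℝ, 0 < α → |srA S F₂ N a| ≤ c0 / (2 * Real.pi) * (α * (γ + η) + α⁻¹ * (γ - η))

end Pool.Agent.Lib.MP424d38.TH
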