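import Pool.Agent.Lib.MP_424d38_an.ES.SpecH
import Pool.Agent.Lib.MP_424d38_an.SpecD
import Pool.Agent.Lib.MP_424d38_an.TH.SpecB
import Pool.Agent.Lib.MP_424d38_an.ES.KI2
import Pool.Agent.Lib.MP_424d38_an.TH.SpecE
import Pool.Agent.Lib.MP_424d38_an.TH.REP
import Pool.Agent.Lib.MP_424d38_an.ES.MTC

section
/-!
# Block ES, module GGI: `g(t) = gD (v t)(v₂ t)` is nonnegative and locally integrable
-/
set_option autoImplicit false

open MeasureTheory Filter Topology Set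
open scoped ENNReal ContDiff ComplexConjugate FourierTransform

noncomputable section

namespace Pool.Agent.Lib.MP424d38.ES

open Pool.Agent.Lib.MP424d38.TY

theorem specGGI (hFLO : TY.SpecFLO) (hUGB : TY.SpecUGB) : SpecGGI := by
  intro T v v₁ v₂ N hN t ht
  obtain ⟨ρ, p, e, hF, h⟩ := hFLO T v v₁ v₂ N hN
  obtain ⟨h0, hi⟩ := (hUGB T _ _ ρ p e hF).1 t ht
  have e1 : ∀ r ∈ Icc 0 t, gF ρ p e r = gD (v r) (v₂ r) := fun r hr =>
    (h r ⟨hr.1, lt_of_le_of_lt hr.2 ht.2⟩).2.2.2.1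
  refine ⟨?_, hi.congr_fun e1 measurableSet_Icc⟩
  rw [← e1 t ⟨ht.1, le_rfl⟩]
  exact h0

end Pool.Agent.Lib.MP424d38.ES
end
end

section
/-!
# Block ES, module MTX: existence of the multiplier operators
-/
set_option autoImplicit false

open MeasureTheory Filter Topology Set
open scoped ENNReal ContDiff ComplexConjugate FourierTransform

noncomputable section

namespace Pool.Agent.Lib.MP424d38.ES

open Pool.Agent.Lib.MP424d38.TY

namespace MTXM

/-- the symbol as a function on `ℝ × ℝ`. -/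
def sm (σ : ℝ → ℝ) (x : ℝ × ℝ) : ℂ := ((σ (2 * Real.pi * x.2) : ℝ) : ℂ)

theorem sm_meas {σ : ℝ → ℝ} (hσ : Measurable σ) : Measurable (sm σ) := by
  unfold sm
  have h1 : Measurable fun x : ℝ × ℝ => 2 * Real.pi * x.2 := measurable_snd.const_mul _
  have h2 : Measurable fun x : ℝ × ℝ => σ (2 * Real.pi * x.2) := hσ.comp h1
  exact Complex.measurable_ofReal.comp h2

theorem sm_le {σ : ℝ → ℝ} {C : ℝ} (hC : ∀ l, |σ l| ≤ C) (x : ℝ × ℝ) : ‖sm σ x‖ ≤ C := by
  unfold sm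
  rw [Complex.norm_real]
  exact hC _

theorem mem {σ : ℝ → ℝ} {C : ℝ} (hσ : Measurable σ) (hC : ∀ l, |σ l| ≤ C) (f : L2) :
    MemLp (fun x => sm σ x * f x) 2 volume := by
  refine MemLp.of_le_mul (c := C) (Lp.memLp f) ?_ ?_
  · exact ((sm_meas hσ).aestronglyMeasurable).mul (Lp.aestronglyMeasurable f)
  · refine Eventually.of_forall fun x => ?_
    rw [norm_mul]
    exact mul_le_mul_of_nonneg_right (sm_le hC x) (norm_nonneg _)

/-- multiplication by the symbol. -/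
def mulOp {σ : ℝ → ℝ} {C : ℝ} (hσ : Measurable σ) (hC : ∀ l, |σ l| ≤ C) : L2 →L[ℂ] L2 :=
  LinearMap.mkContinuous
    { toFun := fun f => (mem hσ hC f).toLp _
      map_add' := by
        intro f g
        apply Lp.ext
        filter_upwards [(mem hσ hC (f + g)).coeFn_toLp, (mem hσ hC f).coeFn_toLp,
          (mem hσ hC g).coeFn_toLp, Lp.coeFn_add f g,
          Lp.coeFn_add ((mem hσ hC f).toLp _) ((mem hσ hC g).toLp _)] with x h1 h2 h3 h4 h5
        rw [h1, h5, h4, Pi.add_apply, Pi.add_apply, h2, h3]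
        ring
      map_smul' := by
        intro c f
        apply Lp.ext
        filter_upwards [(mem hσ hC (c • f)).coeFn_toLp, (mem hσ hC f).coeFn_toLp,
          Lp.coeFn_smul c f, Lp.coeFn_smul c ((mem hσ hC f).toLp _)] with x h1 h2 h3 h4
        rw [h1, RingHom.id_apply, h4, h3, Pi.smul_apply, Pi.smul_apply, h2, smul_eq_mul, smul_eq_mul]
        ring } C
    (by
      intro f
      apply Lp.norm_le_mul_norm_of_ae_le_mul
      filter_upwards [(mem hσ hC f).coeFn_toLp] with x h1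
      refine le_trans (le_of_eq (congrArg norm h1)) ?_
      rw [norm_mul]
      exact mul_le_mul_of_nonneg_right (sm_le hC x) (norm_nonneg _))

theorem mulOp_ae {σ : ℝ → ℝ} {C : ℝ} (hσ : Measurable σ) (hC : ∀ l, |σ l| ≤ C) (f : L2) :
    ∀ᵐ x : ℝ × ℝ, mulOp hσ hC f x = sm σ x * f x := (mem hσ hC f).coeFn_toLp

end MTXM

open MTXM in
theorem specMTX : SpecMTX := by
  intro P _hP σ C hσ hC
  refine ⟨⟨(P.symm.toContinuousLinearEquiv : L2 →L[ℂ] L2).comp
    ((mulOp hσ hC).comp (P.toContinuousLinearEquiv : L2 →L[ℂ] L2)), ?_⟩, ?_⟩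
  · intro f
    have e : P (((P.symm.toContinuousLinearEquiv : L2 →L[ℂ] L2).comp
        ((mulOp hσ hC).comp (P.toContinuousLinearEquiv : L2 →L[ℂ] L2))) f)
        = mulOp hσ hC (P f) := P.apply_symm_apply _
    rw [e]
    exact mulOp_ae hσ hC (P f)
  · intro S hS f
    have h1 : ‖P (S f)‖ ≤ C * ‖P f‖ := by
      apply Lp.norm_le_mul_norm_of_ae_le_mul
      filter_upwards [hS f] with x hx
      rw [hx, norm_mul]
      exact mul_le_mul_of_nonneg_right (sm_le hC x) (norm_nonneg _)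
    rwa [P.norm_map, P.norm_map] at h1

end Pool.Agent.Lib.MP424d38.ES
end
end

section
/-!
# Block ES, module SKY: source bound, first form
-/
set_option autoImplicit false

open MeasureTheory Filter Topology Set
open scoped ENNReal ContDiff ComplexConjugate FourierTransform

noncomputable section

namespace Pool.Agent.Lib.MP424d38.ES

open Pool.Agent.Lib.MP424d38.TY

namespace SKYM

/-- the cubic term on a slice. -/
def cub (h : L2R) (b : ℝ) : ℂ := ((‖h b‖ ^ 2 : ℝ) : ℂ) * h b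

theorem cub_mem {h : L2R} (hi : Integrable fun b => ‖h b‖ ^ 6) : MemLp (cub h) 2 volume := by
  have hm : AEStronglyMeasurable (cub h) volume := by
    have h1 : AEStronglyMeasurable (fun b => h b) volume := Lp.aestronglyMeasurable h
    have h2 : AEStronglyMeasurable (fun b => ((‖h b‖ ^ 2 : ℝ) : ℂ)) volume :=
      Complex.continuous_ofReal.comp_aestronglyMeasurable (h1.norm.pow 2)
    exact h2.mul h1
  rw [memLp_two_iff_integrable_sq_norm hm]
  refine hi.congr (Eventually.of_forall fun b => ?_)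
  show ‖h b‖ ^ 6 = ‖((‖h b‖ ^ 2 : ℝ) : ℂ) * h b‖ ^ 2
  rw [norm_mul, Complex.norm_real, Real.norm_eq_abs, abs_of_nonneg (by positivity)]
  ring

theorem int_mul {h : L2R} (hi : Integrable fun b => ‖h b‖ ^ 6) (g : L2R) :
    Integrable fun b => conj (g b) * cub h b := by
  have h1 : MemLp (fun b => conj (g b)) 2 volume := by
    refine (memLp_congr_norm ?_ (Lp.aestronglyMeasurable g) ?_).2 (Lp.memLp g)
    · exact Complex.continuous_conj.comp_aestronglyMeasurable (Lp.aestronglyMeasurable g)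
    · exact Eventually.of_forall fun b => by simp
  exact h1.integrable_mul (cub_mem hi)

/-- removal of the linear part of the symbol. -/
theorem shift (hSB1 : SpecSB1) (hMX1 : SpecMX1) (σ : ℝ → ℝ) (θ : ℝ) (h g : L2R) (hE : E1 h)
    (hg : IsM σ h g) : ∃ g' : L2R, IsM (fun l => σ l - θ * l) h g' ∧
      (∫ b, conj (g b) * cub h b).im = (∫ b, conj (g' b) * cub h b).im := by
  obtain ⟨d, hd⟩ := hMX1.1 (fun l => l) h measurable_id hE
  obtain ⟨-, -, i6, -, -, -, hdz⟩ := hSB1 h hE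
  have z : (∫ b, conj (d b) * cub h b).im = 0 := hdz d hd
  refine ⟨g + (-(θ : ℂ)) • d, ?_, ?_⟩
  · have e : (𝓕 (g + (-(θ : ℂ)) • d) : L2R) = 𝓕 g + (-(θ : ℂ)) • (𝓕 d : L2R) := by
      rw [FourierTransform.fourier_add, FourierTransform.fourier_smul]
    unfold IsM
    rw [e]
    filter_upwards [hg, hd, Lp.coeFn_add (𝓕 g : L2R) ((-(θ : ℂ)) • (𝓕 d : L2R)),
      Lp.coeFn_smul (-(θ : ℂ)) (𝓕 d : L2R)] with ξ e1 e2 e3 e4
    rw [e3, Pi.add_apply, e4, Pi.smul_apply, e1, e2, smul_eq_mul]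
    push_cast
    ring
  · have e1 : (∫ b, conj ((g + (-(θ : ℂ)) • d : L2R) b) * cub h b)
        = (∫ b, conj (g b) * cub h b) - (θ : ℂ) * ∫ b, conj (d b) * cub h b := by
      rw [← integral_const_mul, ← integral_sub (int_mul i6 g) ((int_mul i6 d).const_mul _)]
      refine integral_congr_ae ?_
      filter_upwards [Lp.coeFn_add g ((-(θ : ℂ)) • d), Lp.coeFn_smul (-(θ : ℂ)) d] with b e3 e4
      rw [e3, Pi.add_apply, e4, Pi.smul_apply, smul_eq_mul, map_add, map_mul, map_neg,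
        Complex.conj_ofReal]
      ring
    rw [e1, Complex.sub_im, Complex.im_ofReal_mul, z, mul_zero, sub_zero]

/-- the source on a slice. -/
theorem src_eq {f N : L2} {S : L2 →L[ℂ] L2} {a : ℝ} {h g : L2R}
    (hi : Integrable fun b => ‖h b‖ ^ 6) (gb : ∀ᵐ b : ℝ, g b = S f (a, b))
    (Nb : ∀ᵐ b : ℝ, N (a, b) = ((‖h b‖ ^ 2 : ℝ) : ℂ) * h b) :
    src S f N a = -2 * (∫ b, conj (g b) * cub h b).im := by
  unfold src
  congr 1
  have e : (∫ b, (conj (g b) * cub h b).im) = (∫ b, conj (g b) * cub h b).im :=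
    integral_im (int_mul hi g)
  rw [← e]
  refine integral_congr_ae ?_
  filter_upwards [gb, Nb] with b e1 e2
  rw [e2, ← e1]
  rfl

theorem Mo_eq {P : L2 ≃ₗᵢ[ℂ] L2} {f : L2} {a : ℝ} {h : L2R}
    (hh : ∀ᵐ ξ : ℝ, (𝓕 h : L2R) ξ = P f (a, ξ)) (τ : ℝ → ℝ) : Mo P τ f a = sp τ h := by
  unfold Mo sp
  refine integral_congr_ae ?_
  filter_upwards [hh] with ξ e
  rw [e]

theorem gm_eq {P : L2 ≃ₗᵢ[ℂ] L2} {f F₂ : L2} {a : ℝ} {h : L2R}
    (hh : ∀ᵐ ξ : ℝ, (𝓕 h : L2R) ξ = P f (a, ξ)) (e1 : rhoD f a = Mo P (fun _ => 1) f a)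
    (e2 : momD f F₂ a = Mo P (fun l => l) f a) (e3 : rhoD F₂ a = Mo P (fun l => l ^ 2) f a) :
    rhoD f a * rhoD F₂ a - momD f F₂ a ^ 2 = gm h := by
  rw [e1, e2, e3, Mo_eq hh, Mo_eq hh, Mo_eq hh]
  rfl

end SKYM

open SKYM in
theorem specSKY (hSLD : SpecSLD) (hKEY : SpecKEY) (hSB1 : SpecSB1) (hMX1 : SpecMX1)
    (hMDE : SpecMDE) : SpecSKY := by
  intro P hP f F₁ F₂ hf N hN lam σ S hlam hA hS
  obtain ⟨-, -, θ, hθ⟩ := hA
  filter_upwards [hSLD P hP f F₁ F₂ hf N hN σ S hS, (hMDE P hP f F₁ F₂ hf).1] with a h1 h2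
  obtain ⟨h, g, -, gb, hh, hM, hE, Nb⟩ := h1
  obtain ⟨-, e1, e2, e3⟩ := h2
  rw [gm_eq hh e1 e2 e3, src_eq (hSB1 h hE).2.2.1 gb Nb]
  obtain ⟨g', hg', e4⟩ := shift hSB1 hMX1 σ θ h g hE hM
  have k := hKEY (fun l => σ l - θ * l) lam h g' hlam hθ hE hg'
  have k' : |(∫ b, conj (g' b) * cub h b).im| ≤ 2 / Real.pi * lam * gm h := k
  rw [e4, abs_mul]
  have e5 : |(-2 : ℝ)| = 2 := by norm_num
  rw [e5]
  calc 2 * |(∫ b, conj (g' b) * cub h b).im| ≤ 2 * (2 / Real.pi * lam * gm h) := by linarith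
    _ = 4 / Real.pi * lam * gm h := by ring

end Pool.Agent.Lib.MP424d38.ES
end
end

section
/-!
# Block ES, module SKS: source bound, second form
-/
set_option autoImplicit false

open MeasureTheory Filter Topology Set
open scoped ENNReal ContDiff ComplexConjugate FourierTransform

noncomputable section

namespace Pool.Agent.Lib.MP424d38.ES

open Pool.Agent.Lib.MP424d38.TY

open SKYM in
theorem specSKS (hSLD : SpecSLD) (hSLI : SpecSLI) (hSB1 : SpecSB1) (hMX1 : SpecMX1)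
    (hMDE : SpecMDE) : SpecSKS := by
  obtain ⟨C, hC, hS0⟩ := hSLI
  refine ⟨2 * C, by positivity, ?_⟩
  intro P hP f F₁ F₂ hf N hN n K σ S hn hK hA hS
  obtain ⟨-, -, θ, hθ, hz⟩ := hA
  have key : ∀ᵐ a : ℝ, |src S f N a| ≤ 2 * C *
      (g2 P n f a + n / K * (rhoD f a * rhoD F₂ a - momD f F₂ a ^ 2)) ∧ 0 ≤ g2 P n f a := by
    filter_upwards [hSLD P hP f F₁ F₂ hf N hN σ S hS, (hMDE P hP f F₁ F₂ hf).1] with a h1 h2
    obtain ⟨h, g, -, gb, hh, hM, hE, Nb⟩ := h1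
    obtain ⟨-, e1, e2, e3⟩ := h2
    rw [gm_eq hh e1 e2 e3, src_eq (hSB1 h hE).2.2.1 gb Nb]
    obtain ⟨g', hg', e4⟩ := shift hSB1 hMX1 σ θ h g hE hM
    have k := hS0 n K (fun l => σ l - θ * l) h g' hn hK hθ hz hE hg'
    have e6 : g2 P n f a = gw (ch n) h := by
      unfold g2 gw
      rw [Mo_eq hh, Mo_eq hh, Mo_eq hh]
    have k1 : 0 ≤ gw (ch n) h := k.1
    have k' : |(∫ b, conj (g' b) * cub h b).im| ≤ C * (gw (ch n) h + n / K * gm h) := k.2
    rw [e4, abs_mul, e6]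
    have e5 : |(-2 : ℝ)| = 2 := by norm_num
    rw [e5]
    refine ⟨?_, k1⟩
    calc 2 * |(∫ b, conj (g' b) * cub h b).im| ≤ 2 * (C * (gw (ch n) h + n / K * gm h)) := by
          linarith
      _ = 2 * C * (gw (ch n) h + n / K * gm h) := by ring
  exact ⟨key.mono fun a h => h.1, key.mono fun a h => h.2⟩

end Pool.Agent.Lib.MP424d38.ES
end
end

section
/-!
# Block ES, module SLD: slice data
-/
set_option autoImplicit false

open MeasureTheory Filter Topology Set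
open scoped ENNReal ContDiff ComplexConjugate FourierTransform

noncomputable section

namespace Pool.Agent.Lib.MP424d38.ES

open Pool.Agent.Lib.MP424d38.TY

theorem specSLD (hPSL : SpecPSL) (hPD2 : SpecPD2) (hMX1 : SpecMX1) : SpecSLD := by
  intro P hP f F₁ F₂ hf N hN σ S hS
  obtain ⟨sl, -, -⟩ := hPSL P hP
  obtain ⟨-, pd⟩ := hPD2 P hP
  obtain ⟨-, -, nrm, -⟩ := hMX1
  have a1 : ∀ᵐ a : ℝ, ∀ᵐ b : ℝ, N (a, b) = ((‖f (a, b)‖ ^ 2 : ℝ) : ℂ) * f (a, b) :=
    Measure.ae_ae_of_ae_prod hN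
  have a2 : ∀ᵐ a : ℝ, ∀ᵐ b : ℝ, P (S f) (a, b)
      = ((σ (2 * Real.pi * b) : ℝ) : ℂ) * P f (a, b) := Measure.ae_ae_of_ae_prod (hS f)
  have a3 : ∀ᵐ a : ℝ, ∀ᵐ b : ℝ, P F₂ (a, b) = 2 * Real.pi * Complex.I * (b : ℂ) * P f (a, b) :=
    Measure.ae_ae_of_ae_prod (pd f F₁ F₂ hf)
  filter_upwards [a1, a2, a3, sl f, sl (S f), sl F₂] with a h1 h2 h3 h4 h5 h6
  obtain ⟨h, hb, hh⟩ := h4
  obtain ⟨g, gb, gh⟩ := h5
  obtain ⟨k, -, kh⟩ := h6
  refine ⟨h, g, hb, gb, hh, ?_, ?_, ?_⟩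
  · filter_upwards [hh, gh, h2] with ξ e1 e2 e3
    rw [e2, e3, e1]
  · have i1 := (nrm k).2.2
    refine i1.congr ?_
    filter_upwards [hh, kh, h3] with ξ e1 e2 e3
    rw [e2, e3, e1, norm_mul, mul_pow]
    congr 1
    rw [show (2 * Real.pi * Complex.I * (ξ : ℂ) : ℂ) = ((2 * Real.pi * ξ : ℝ) : ℂ) * Complex.I by
      push_cast; ring, norm_mul, Complex.norm_I, mul_one, Complex.norm_real, Real.norm_eq_abs, sq_abs]
  · filter_upwards [hb, h1] with b e1 e2
    rw [e2, e1]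

end Pool.Agent.Lib.MP424d38.ES
end
end

section
/-!
# Block ES, module TOT: the law of the total
-/
set_option autoImplicit false

open MeasureTheory Filter Topology Set
open scoped ENNReal ContDiff ComplexConjugate FourierTransform

noncomputable section

namespace Pool.Agent.Lib.MP424d38.ES

open Pool.Agent.Lib.MP424d38.TY

theorem specTOT (hMLW : SpecMLW) (hPSL : SpecPSL) : SpecTOT := by
  intro P hP T v v₁ v₂ N hN σ C S hσ hC hS
  obtain ⟨m, f, c, hL, h⟩ := hMLW P hP T v v₁ v₂ N hN σ C S hσ hC hS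
  have hc : ∀ t ∈ Ico 0 T, ‖c t‖ = ∫ a, |src S (v t) (N t) a| := by
    intro t ht
    rw [L1.norm_eq_integral_norm]
    apply integral_congr_ae
    filter_upwards [(h t ht).2.2] with a ha
    rw [ha, Real.norm_eq_abs]
  have hcont : ContinuousOn (fun t => ‖c t‖) (Ico 0 T) := hL.cs.norm
  refine ⟨hcont.congr fun t ht => (hc t ht).symm, ?_⟩
  intro s t hs hst htT
  have hsub : Icc s t ⊆ Ico 0 T := fun r hr => ⟨hs.trans hr.1, lt_of_le_of_lt hr.2 htT⟩
  have hone : Cb1 (fun _ : ℝ => (1 : ℝ)) := by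
    refine ⟨contDiff_const, 1, fun a => ?_⟩
    simp
  have hlaw := hL.law _ hone s t hs hst htT
  have hm : ∀ r ∈ Ico 0 T, (∫ a, (fun _ : ℝ => (1 : ℝ)) a * m r a)
      = ∫ x : ℝ × ℝ, σ (2 * Real.pi * x.2) * ‖P (v r) x‖ ^ 2 := by
    intro r hr
    rw [← ((hPSL P hP).2.2 σ C hσ hC (v r)).2.1]
    apply integral_congr_ae
    filter_upwards [(h r hr).1] with a ha
    simp only [one_mul]
    exact ha
  rw [hm t ⟨hs.trans hst, htT⟩, hm s ⟨hs, lt_of_le_of_lt hst htT⟩] at hlaw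
  rw [hlaw]
  have e1 : (∫ r in s..t, ((∫ a, deriv (fun _ : ℝ => (1 : ℝ)) a * ((fun t => (4 : ℝ) • f t) r : L1) a)
      + ∫ a, (fun _ : ℝ => (1 : ℝ)) a * c r a)) = ∫ r in s..t, ∫ a, c r a := by
    apply intervalIntegral.integral_congr
    intro r _
    simp
  rw [e1]
  have hci : ContinuousOn (fun r => ∫ a, c r a) (Icc s t) :=
    (continuous_integral.comp_continuousOn (hL.cs.mono hsub))
  have hcn : ContinuousOn (fun r => ‖c r‖) (Icc s t) := hcont.mono hsub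
  calc |∫ r in s..t, ∫ a, c r a| ≤ ∫ r in s..t, |∫ a, c r a| :=
        intervalIntegral.abs_integral_le_integral_abs hst
    _ ≤ ∫ r in s..t, ∫ a, |src S (v r) (N r) a| := by
        have e2 : (∫ r in s..t, ∫ a, |src S (v r) (N r) a|) = ∫ r in s..t, ‖c r‖ := by
          apply intervalIntegral.integral_congr
          intro r hr
          rw [uIcc_of_le hst] at hr
          exact (hc r (hsub hr)).symm
        rw [e2]
        apply intervalIntegral.integral_mono_on hst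
        · apply ContinuousOn.intervalIntegrable
          rw [uIcc_of_le hst]
          exact hci.abs
        · apply ContinuousOn.intervalIntegrable
          rw [uIcc_of_le hst]
          exact hcn
        · intro r _
          rw [L1.norm_eq_integral_norm]
          exact norm_integral_le_integral_norm (fun a => c r a)

end Pool.Agent.Lib.MP424d38.ES
end
end

section
/-! XGR: growth of `X`. -/
set_option autoImplicit false

open MeasureTheory Filter Topology Set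
open scoped ENNReal ContDiff ComplexConjugate FourierTransform

noncomputable section

namespace Pool.Agent.Lib.MP424d38.ES

open Pool.Agent.Lib.MP424d38.TY

namespace XGRM

/-- the truncation `min(|l|,n)`. -/
def sg (n : ℕ) (l : ℝ) : ℝ := min |l| n

lemma sg_meas (n : ℕ) : Measurable (sg n) := by
  unfold sg
  exact (continuous_abs.min continuous_const).measurable

lemma sg_nonneg (n : ℕ) (l : ℝ) : 0 ≤ sg n l := le_min (abs_nonneg _) (Nat.cast_nonneg _)

lemma sg_le (n : ℕ) (l : ℝ) : sg n l ≤ |l| := min_le_left _ _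

lemma sg_bd (n : ℕ) (l : ℝ) : |sg n l| ≤ n := by
  rw [abs_of_nonneg (sg_nonneg n l)]
  exact min_le_right _ _

lemma sg_lip (n : ℕ) (l l' : ℝ) : |sg n l - sg n l'| ≤ |l - l'| := by
  unfold sg
  refine (abs_min_sub_min_le_max _ _ _ _).trans ?_
  rw [sub_self, abs_zero]
  exact max_le (abs_abs_sub_abs_le _ _) (abs_nonneg _)

lemma sg_adm (n : ℕ) : Adm 1 (sg n) :=
  ⟨sg_meas n, ⟨n, sg_bd n⟩, 0, fun l l' => by
    rw [zero_mul, zero_mul, sub_zero, sub_zero, one_mul]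
    exact sg_lip n l l'⟩

/-- integrability of `|l||Pf|²`. -/
lemma intX (P : L2 ≃ₗᵢ[ℂ] L2) (f : L2)
    (h : Integrable fun x : ℝ × ℝ => (1 + (2 * Real.pi * x.2) ^ 2) * ‖P f x‖ ^ 2) :
    Integrable fun x : ℝ × ℝ => |2 * Real.pi * x.2| * ‖P f x‖ ^ 2 := by
  refine h.mono' ?_ (Eventually.of_forall fun x => ?_)
  · refine AEStronglyMeasurable.mul ?_ ?_
    · exact (by fun_prop : Continuous fun x : ℝ × ℝ => |2 * Real.pi * x.2|).aestronglyMeasurable
    · exact ((Lp.aestronglyMeasurable (P f)).norm.pow 2)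
  · rw [Real.norm_eq_abs, abs_of_nonneg (by positivity)]
    refine mul_le_mul_of_nonneg_right ?_ (by positivity)
    have h1 : (2 * Real.pi * x.2) ^ 2 = |2 * Real.pi * x.2| ^ 2 := (sq_abs _).symm
    rw [h1]
    nlinarith [sq_nonneg (|2 * Real.pi * x.2| - 1), abs_nonneg (2 * Real.pi * x.2)]

lemma intS (P : L2 ≃ₗᵢ[ℂ] L2) (f : L2) (n : ℕ)
    (h : Integrable fun x : ℝ × ℝ => |2 * Real.pi * x.2| * ‖P f x‖ ^ 2) :
    Integrable fun x : ℝ × ℝ => sg n (2 * Real.pi * x.2) * ‖P f x‖ ^ 2 := by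
  refine h.mono' ?_ (Eventually.of_forall fun x => ?_)
  · refine AEStronglyMeasurable.mul ?_ ?_
    · exact (by unfold sg; fun_prop : Continuous fun x : ℝ × ℝ => sg n (2 * Real.pi * x.2)).aestronglyMeasurable
    · exact ((Lp.aestronglyMeasurable (P f)).norm.pow 2)
  · rw [Real.norm_eq_abs, abs_of_nonneg (mul_nonneg (sg_nonneg _ _) (by positivity))]
    exact mul_le_mul_of_nonneg_right (sg_le _ _) (by positivity)

lemma lim (P : L2 ≃ₗᵢ[ℂ] L2) (f : L2)
    (h : Integrable fun x : ℝ × ℝ => |2 * Real.pi * x.2| * ‖P f x‖ ^ 2) :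
    Tendsto (fun n : ℕ => ∫ x : ℝ × ℝ, sg n (2 * Real.pi * x.2) * ‖P f x‖ ^ 2) atTop (𝓝 (XX P f)) := by
  unfold XX
  refine tendsto_integral_of_dominated_convergence _ (fun n => (intS P f n h).1) h ?_ ?_
  · intro n
    refine Eventually.of_forall fun x => ?_
    rw [Real.norm_eq_abs, abs_of_nonneg (mul_nonneg (sg_nonneg _ _) (by positivity))]
    exact mul_le_mul_of_nonneg_right (sg_le _ _) (by positivity)
  · refine Eventually.of_forall fun x => ?_
    refine Tendsto.mul_const _ ?_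
    refine tendsto_const_nhds.congr' ?_
    obtain ⟨m, hm⟩ := exists_nat_ge |2 * Real.pi * x.2|
    filter_upwards [eventually_ge_atTop m] with n hn
    unfold sg
    rw [min_eq_left (hm.trans (by exact_mod_cast hn))]

theorem main (hTOT : SpecTOT) (hSKY : SpecSKY) (hMTX : SpecMTX) (hMDE : SpecMDE) (hGGI : SpecGGI)
    (hSOB : SpecSOB) (P : L2 ≃ₗᵢ[ℂ] L2) (hP : IsPF P) (T : ℝ) (v v₁ v₂ N : ℝ → L2)
    (hN : Nls T v v₁ v₂ N) :
  (∀ s t : ℝ, 0 ≤ s → s ≤ t → t < T →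
    0 ≤ XX P (v t) ∧ XX P (v t) ≤ XX P (v s) + 4 / Real.pi * ∫ r in s..t, gD (v r) (v₂ r)) ∧
  (∀ t ∈ Ico 0 T, (∫ a, |momD (v t) (v₂ t) a|) ≤ XX P (v t)) := by
  have hX : ∀ t ∈ Ico 0 T, Integrable fun x : ℝ × ℝ => |2 * Real.pi * x.2| * ‖P (v t) x‖ ^ 2 :=
    fun t ht => intX P (v t) (hMDE P hP _ _ _ (hN.h1 t ht)).2.1
  constructor
  · intro s t hs hst ht
    have hsT : s ∈ Ico 0 T := ⟨hs, hst.trans_lt ht⟩
    have htT : t ∈ Ico 0 T := ⟨hs.trans hst, ht⟩
    refine ⟨integral_nonneg fun x => by positivity, ?_⟩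
    have hn : ∀ n : ℕ, ∫ x : ℝ × ℝ, sg n (2 * Real.pi * x.2) * ‖P (v t) x‖ ^ 2
        ≤ XX P (v s) + 4 / Real.pi * ∫ r in s..t, gD (v r) (v₂ r) := by
      intro n
      obtain ⟨S, hS⟩ := (hMTX P hP (sg n) n (sg_meas n) (sg_bd n)).1
      obtain ⟨hc, hb⟩ := hTOT P hP T v v₁ v₂ N hN (sg n) n S (sg_meas n) (sg_bd n) hS
      have h1 := hb s t hs hst ht
      have h2 := (le_abs_self _).trans h1
      have h3 : ∫ x : ℝ × ℝ, sg n (2 * Real.pi * x.2) * ‖P (v s) x‖ ^ 2 ≤ XX P (v s) := by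
        refine integral_mono (intS P _ n (hX s hsT)) (hX s hsT) fun x => ?_
        exact mul_le_mul_of_nonneg_right (sg_le _ _) (by positivity)
      have hsub : Icc s t ⊆ Ico 0 T := fun r hr => ⟨hs.trans hr.1, hr.2.trans_lt ht⟩
      have h4 : (∫ r in s..t, ∫ a, |src S (v r) (N r) a|) ≤ ∫ r in s..t, 4 / Real.pi * gD (v r) (v₂ r) := by
        refine intervalIntegral.integral_mono_on hst ?_ ?_ ?_
        · exact ContinuousOn.intervalIntegrable_of_Icc hst (hc.mono hsub)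
        · refine IntervalIntegrable.const_mul ?_ _
          rw [intervalIntegrable_iff_integrableOn_Ioc_of_le hst]
          exact ((hGGI T v v₁ v₂ N hN t htT).2).mono_set
            (fun r hr => ⟨hs.trans hr.1.le, hr.2⟩)
        · intro r hr
          have hrT := hsub hr
          have h5 := hSKY P hP (v r) (v₁ r) (v₂ r) (hN.h1 r hrT) (N r) (hN.nl r hrT) 1 (sg n) S
            zero_le_one (sg_adm n) hS
          have h6 := (hSOB (v r) (v₁ r) (v₂ r) (hN.h1 r hrT)).2.2.1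
          rw [gD, ← integral_const_mul]
          refine integral_mono_of_nonneg (Eventually.of_forall fun a => abs_nonneg _) (h6.const_mul _) ?_
          filter_upwards [h5] with a ha
          rw [mul_one] at ha
          exact ha
      rw [intervalIntegral.integral_const_mul] at h4
      linarith
    exact le_of_tendsto (lim P (v t) (hX t htT)) (Eventually.of_forall hn)
  · intro t ht
    have hI := hX t ht
    have hI' : Integrable (fun x : ℝ × ℝ => |2 * Real.pi * x.2| * ‖P (v t) x‖ ^ 2)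
      ((volume : Measure ℝ).prod volume) := hI
    have h1 : XX P (v t) = ∫ a, ∫ ξ, |2 * Real.pi * ξ| * ‖P (v t) (a, ξ)‖ ^ 2 :=
      integral_prod (μ := (volume : Measure ℝ)) (ν := (volume : Measure ℝ)) _ hI'
    rw [h1]
    refine integral_mono_of_nonneg (Eventually.of_forall fun a => abs_nonneg _)
      hI'.integral_prod_left ?_
    filter_upwards [(hMDE P hP _ _ _ (hN.h1 t ht)).1] with a ha
    rw [ha.2.2.1, Mo]
    refine abs_integral_le_integral_abs.trans (le_of_eq ?_)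
    refine integral_congr_ae (Eventually.of_forall fun ξ => ?_)
    simp only
    rw [abs_mul, abs_of_nonneg (by positivity : (0 : ℝ) ≤ ‖P (v t) (a, ξ)‖ ^ 2)]

end XGRM

theorem specXGR (hTOT : SpecTOT) (hSKY : SpecSKY) (hMTX : SpecMTX) (hMDE : SpecMDE)
    (hGGI : SpecGGI) (hSOB : SpecSOB) : SpecXGR := fun P hP T v v₁ v₂ N hN =>
  XGRM.main hTOT hSKY hMTX hMDE hGGI hSOB P hP T v v₁ v₂ N hN

end Pool.Agent.Lib.MP424d38.ES
end
end

section
/-!
# Block TH, module CBD: the pointwise bounds of the densities `X`, `Y` and of the source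
-/
set_option autoImplicit false

open MeasureTheory Filter Topology Set
open scoped ENNReal ContDiff ComplexConjugate FourierTransform

noncomputable section

namespace Pool.Agent.Lib.MP424d38.TH

open Pool.Agent.Lib.MP424d38.TY Pool.Agent.Lib.MP424d38.ES

namespace CBDM

/-- an integral bound for weights. -/
theorem abs_int_le {α : Type*} [MeasurableSpace α] {μ : Measure α} {φ ψ w : α → ℝ}
    (hψ : Integrable (fun x => ψ x * w x) μ) (hle : ∀ x, |φ x| ≤ ψ x) (hw : ∀ x, 0 ≤ w x) :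
    |∫ x, φ x * w x ∂μ| ≤ ∫ x, ψ x * w x ∂μ := by
  rw [← Real.norm_eq_abs]
  refine norm_integral_le_of_norm_le hψ (Eventually.of_forall fun x => ?_)
  rw [norm_mul, Real.norm_eq_abs, Real.norm_eq_abs, abs_of_nonneg (hw x)]
  exact mul_le_mul_of_nonneg_right (hle x) (hw x)

/-- Cauchy-Schwarz for the moments. -/
theorem cs {α : Type*} [MeasurableSpace α] {μ : Measure α} {l w : α → ℝ}
    (h0 : Integrable w μ) (h1 : Integrable (fun x => l x * w x) μ)
    (h2 : Integrable (fun x => l x ^ 2 * w x) μ) (hw : ∀ x, 0 ≤ w x) :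
    (∫ x, l x * w x ∂μ) ^ 2 ≤ (∫ x, w x ∂μ) * ∫ x, l x ^ 2 * w x ∂μ := by
  have key : ∀ t : ℝ, 0 ≤ (∫ x, w x ∂μ) * (t * t) + (-2 * ∫ x, l x * w x ∂μ) * t
      + ∫ x, l x ^ 2 * w x ∂μ := by
    intro t
    have e : (∫ x, w x ∂μ) * (t * t) + (-2 * ∫ x, l x * w x ∂μ) * t + ∫ x, l x ^ 2 * w x ∂μ
        = ∫ x, (t - l x) ^ 2 * w x ∂μ := by
      have e1 : ∀ x, (t - l x) ^ 2 * w x
          = ((t * t) * w x + (-2 * t) * (l x * w x)) + l x ^ 2 * w x := fun x => by ring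
      have i1 : Integrable (fun x => (t * t) * w x) μ := h0.const_mul _
      have i2 : Integrable (fun x => (-2 * t) * (l x * w x)) μ := h1.const_mul _
      have i3 : Integrable (fun x => (t * t) * w x + (-2 * t) * (l x * w x)) μ := i1.add i2
      simp_rw [e1]
      rw [integral_add i3 h2, integral_add i1 i2, integral_const_mul, integral_const_mul]
      ring
    rw [e]
    exact integral_nonneg fun x => mul_nonneg (sq_nonneg _) (hw x)
  have := discrim_le_zero key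
  unfold discrim at this
  nlinarith

end CBDM

open CBDM SKYM in
theorem specCBD (hSLX : SpecSLX) (hSLT : SpecSLT) (hMDE : SpecMDE) (hSB1 : SpecSB1) :
    SpecCBD := by
  intro P hP S hS f F₁ F₂ hf N hN
  filter_upwards [hSLX P hP S hS f F₁ F₂ hf N hN, (hMDE P hP f F₁ F₂ hf).1] with a h1 h2
  obtain ⟨h, k, -, kb, hh, hM, hE, Nb⟩ := h1
  obtain ⟨hI, e1, e2, e3⟩ := h2
  obtain ⟨s1, s2⟩ := hSLT h k hE hM
  have i6 : Integrable fun b => ‖h b‖ ^ 6 := (hSB1 h hE).2.2.1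
  have hγ : rhoD f a * rhoD F₂ a - momD f F₂ a ^ 2 = gm h := gm_eq hh e1 e2 e3
  have hη : rhoD f a * Mo P (fun l => l * |l|) f a - momD f F₂ a * Mo P (fun l => |l|) f a
      = et h := by
    rw [e1, e2, Mo_eq hh, Mo_eq hh, Mo_eq hh, Mo_eq hh]
    rfl
  have hw : ∀ ξ : ℝ, 0 ≤ ‖P f (a, ξ)‖ ^ 2 := fun ξ => sq_nonneg _
  have iabs : Integrable fun ξ : ℝ => |2 * Real.pi * ξ| * ‖P f (a, ξ)‖ ^ 2 :=
    MoLem.int_slice (φ := fun l => |l|) hI measurable_id.abs (c := 1) (fun s => by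
      rw [abs_abs, one_mul]
      nlinarith [sq_abs s, abs_nonneg s, sq_nonneg (|s| - 1)])
  have i2 : Integrable fun ξ : ℝ => (2 * Real.pi * ξ) ^ 2 * ‖P f (a, ξ)‖ ^ 2 :=
    MoLem.int_slice (φ := fun l => l ^ 2) hI (measurable_id.pow_const 2) (c := 1) (fun s => by
      rw [abs_of_nonneg (sq_nonneg s), one_mul]
      linarith)
  have i0 : Integrable fun ξ : ℝ => ‖P f (a, ξ)‖ ^ 2 := by
    have := MoLem.int_slice (φ := fun _ => 1) hI measurable_const (c := 1) (fun s => by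
      rw [abs_one, one_mul]
      nlinarith [sq_nonneg s])
    simpa using this
  intro γ η
  refine ⟨?_, ?_, ?_, ?_, ?_⟩
  · rw [e2]
    exact abs_int_le (φ := fun ξ => 2 * Real.pi * ξ) iabs (fun ξ => le_rfl) hw
  · rw [e1, e3]
    have e4 : Mo P (fun _ => 1) f a = ∫ ξ, ‖P f (a, ξ)‖ ^ 2 := by
      unfold Mo
      simp only [one_mul]
    have e5 : Mo P (fun l => l ^ 2) f a = ∫ ξ, |2 * Real.pi * ξ| ^ 2 * ‖P f (a, ξ)‖ ^ 2 := by
      unfold Mo
      simp only [sq_abs]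
    rw [e4, e5]
    refine cs i0 iabs ?_ hw
    simpa only [sq_abs] using i2
  · rw [e3]
    refine abs_int_le (φ := fun ξ => 2 * Real.pi * ξ * |2 * Real.pi * ξ|) i2 (fun ξ => ?_) hw
    rw [abs_mul, abs_abs, ← sq, sq_abs]
  · show |rhoD f a * Mo P (fun l => l * |l|) f a - momD f F₂ a * Mo P (fun l => |l|) f a|
      ≤ rhoD f a * rhoD F₂ a - momD f F₂ a ^ 2
    rw [hγ, hη]
    exact s1
  · intro α hα
    have hs : srA S F₂ N a = -2 * (∫ b, conj (k b) * (((‖h b‖ ^ 2 : ℝ) : ℂ) * h b)).im := by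
      unfold srA
      congr 1
      have e : (∫ b, (conj (k b) * cub h b).im) = (∫ b, conj (k b) * cub h b).im :=
        integral_im (int_mul i6 k)
      refine Eq.trans ?_ e
      refine integral_congr_ae ?_
      filter_upwards [kb, Nb] with b e1 e2
      rw [e2, ← e1]
      rfl
    show |srA S F₂ N a| ≤ c0 / (2 * Real.pi) *
      (α * ((rhoD f a * rhoD F₂ a - momD f F₂ a ^ 2) +
          (rhoD f a * Mo P (fun l => l * |l|) f a - momD f F₂ a * Mo P (fun l => |l|) f a))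
        + α⁻¹ * ((rhoD f a * rhoD F₂ a - momD f F₂ a ^ 2) -
          (rhoD f a * Mo P (fun l => l * |l|) f a - momD f F₂ a * Mo P (fun l => |l|) f a)))
    rw [hγ, hη, hs, abs_mul]
    have e5 : |(-2 : ℝ)| = 2 := by norm_num
    rw [e5]
    calc 2 * |(∫ b, conj (k b) * (((‖h b‖ ^ 2 : ℝ) : ℂ) * h b)).im|
        ≤ 2 * (c0 / (4 * Real.pi) * (α * (gm h + et h) + α⁻¹ * (gm h - et h))) := by
          have := s2 α hα
          linarith
      _ = c0 / (2 * Real.pi) * (α * (gm h + et h) + α⁻¹ * (gm h - et h)) := by ring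

end Pool.Agent.Lib.MP424d38.TH
end
end

section
/-!
# Block TH, module THN: the theorem in null coordinates
-/
set_option autoImplicit false

open MeasureTheory Filter Topology Set
open scoped ENNReal ContDiff ComplexConjugate FourierTransform

noncomputable section

namespace Pool.Agent.Lib.MP424d38.TH

open Pool.Agent.Lib.MP424d38.TY Pool.Agent.Lib.MP424d38.ES

namespace THNM

lemma XX_nonneg (P : L2 ≃ₗᵢ[ℂ] L2) (f : L2) : 0 ≤ XX P f := by
  unfold XX
  exact integral_nonneg fun x => by positivity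

lemma HH_nonneg (f : L2) : 0 ≤ HH f := by
  unfold HH
  apply integral_nonneg
  intro k
  positivity

/-- Cauchy-Schwarz: `XX P f ≤ ‖f‖ ‖F₂‖`. -/
lemma XX_le (hMDE : ES.SpecMDE) (P : L2 ≃ₗᵢ[ℂ] L2) (hP : IsPF P) (f F₁ F₂ : L2)
    (hf : IsH1 f F₁ F₂) : XX P f ≤ ‖f‖ * ‖F₂‖ := by
  obtain ⟨-, hI, hF⟩ := hMDE P hP f F₁ F₂ hf
  have hX := XGRM.intX P f hI
  have h2 : Integrable fun x : ℝ × ℝ => ‖P f x‖ ^ 2 := PSLM.int_sq (P f)
  have h1 : Integrable fun x : ℝ × ℝ => (2 * Real.pi * x.2) ^ 2 * ‖P f x‖ ^ 2 := by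
    have := hI.sub h2
    refine this.congr (Eventually.of_forall fun x => ?_)
    simp only [Pi.sub_apply]
    ring
  have hn : ‖f‖ ^ 2 = ∫ x : ℝ × ℝ, ‖P f x‖ ^ 2 := by
    rw [← PSLM.norm_sq_eq, LinearIsometryEquiv.norm_map]
  have hq : ∀ s : ℝ, 0 ≤ ‖F₂‖ ^ 2 * (s * s) + (-2 * XX P f) * s + ‖f‖ ^ 2 := by
    intro s
    have e : ‖F₂‖ ^ 2 * (s * s) + (-2 * XX P f) * s + ‖f‖ ^ 2 =
        ∫ x : ℝ × ℝ, (|2 * Real.pi * x.2| * s - 1) ^ 2 * ‖P f x‖ ^ 2 := by
      have e1 : (fun x : ℝ × ℝ => (|2 * Real.pi * x.2| * s - 1) ^ 2 * ‖P f x‖ ^ 2) =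
          fun x : ℝ × ℝ => (s * s) * ((2 * Real.pi * x.2) ^ 2 * ‖P f x‖ ^ 2) +
            ((-2 * s) * (|2 * Real.pi * x.2| * ‖P f x‖ ^ 2) + ‖P f x‖ ^ 2) := by
        funext x
        have e2 : (2 * Real.pi * x.2) ^ 2 = |2 * Real.pi * x.2| ^ 2 := (sq_abs _).symm
        rw [e2]
        ring
      have hadd : Integrable fun x : ℝ × ℝ =>
          (-2 * s) * (|2 * Real.pi * x.2| * ‖P f x‖ ^ 2) + ‖P f x‖ ^ 2 := (hX.const_mul _).add h2
      rw [e1, integral_add (h1.const_mul _) hadd,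
        integral_add (hX.const_mul _) h2, integral_const_mul, integral_const_mul, ← hF, ← hn]
      unfold XX
      ring
    rw [e]
    exact integral_nonneg fun x => by positivity
  have hd := discrim_le_zero hq
  unfold discrim at hd
  have h3 : XX P f ^ 2 ≤ (‖f‖ * ‖F₂‖) ^ 2 := by nlinarith
  exact (abs_le_of_sq_le_sq' h3 (by positivity)).2

end THNM

open THNM

theorem specTHN (hXBD : SpecXBD) (hPFX : ES.SpecPFX) (hBDD : ES.SpecBDD) (hCHN : ES.SpecCHN)
    (hEMB : ES.SpecEMB) (hMDE : ES.SpecMDE) (hSWP : TY.SpecSWP) : SpecTHN := by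
  intro m hm
  obtain ⟨C, hC, hX⟩ := hXBD m hm
  obtain ⟨P, hP⟩ := hPFX
  refine ⟨64 * C ^ 2 * m, fun T v v₁ v₂ N hT hN hv => ?_⟩
  have hN' := hSWP.2.2.2 T v v₁ v₂ N hN
  have hv' : ‖swp (v 0)‖ ^ 2 = m := by rw [(hSWP.2.1 (v 0)).1, hv]
  have h0 : (0 : ℝ) ∈ Ico 0 T := ⟨le_refl _, hT⟩
  have hb : ∀ t ∈ Ico 0 T, XX P (v t) ≤ C * XX P (v 0) := hX P hP T v v₁ v₂ N hN hv
  have hb' : ∀ t ∈ Ico 0 T, XX P (swp (v t)) ≤ C * XX P (swp (v 0)) :=
    hX P hP T (fun t => swp (v t)) (fun t => swp (v₂ t)) (fun t => swp (v₁ t))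
      (fun t => swp (N t)) hN' hv'
  constructor
  · obtain ⟨D', hD'⟩ := hBDD P hP T v v₁ v₂ N hT hN
      (max (C * XX P (v 0)) (C * XX P (swp (v 0)))) (fun t ht =>
        ⟨(hb t ht).trans (le_max_left _ _), (hb' t ht).trans (le_max_right _ _)⟩)
    exact ⟨D', hD'⟩
  · intro t ht
    have h1 := hEMB (v t) (v₁ t) (v₂ t) (hN.h1 t ht)
    have h2 := (hCHN P hP (v t) (v₁ t) (v₂ t) (hN.h1 t ht)).2
    have h3 : XX P (v 0) ≤ ‖v 0‖ * ‖v₂ 0‖ := XX_le hMDE P hP _ _ _ (hN.h1 0 h0)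
    have h4 : XX P (swp (v 0)) ≤ ‖v 0‖ * ‖v₁ 0‖ := by
      have := XX_le hMDE P hP _ _ _ (hN'.h1 0 h0)
      rwa [(hSWP.2.1 (v 0)).1, (hSWP.2.1 (v₁ 0)).1] at this
    have h5 : HH (v t) ≤ C * (‖v 0‖ * (‖v₂ 0‖ + ‖v₁ 0‖)) := by
      rw [h2]
      calc XX P (v t) + XX P (swp (v t)) ≤ C * XX P (v 0) + C * XX P (swp (v 0)) :=
            add_le_add (hb t ht) (hb' t ht)
        _ ≤ C * (‖v 0‖ * ‖v₂ 0‖) + C * (‖v 0‖ * ‖v₁ 0‖) :=
            add_le_add (mul_le_mul_of_nonneg_left h3 hC.le) (mul_le_mul_of_nonneg_left h4 hC.le)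
        _ = C * (‖v 0‖ * (‖v₂ 0‖ + ‖v₁ 0‖)) := by ring
    have h6 : HH (v t) ^ 2 ≤ (C * (‖v 0‖ * (‖v₂ 0‖ + ‖v₁ 0‖))) ^ 2 :=
      pow_le_pow_left₀ (HH_nonneg _) h5 2
    have h7 : (C * (‖v 0‖ * (‖v₂ 0‖ + ‖v₁ 0‖))) ^ 2 =
        C ^ 2 * m * (‖v₂ 0‖ + ‖v₁ 0‖) ^ 2 := by
      rw [← hv]
      ring
    have hm0 : 0 ≤ m := by rw [← hv]; positivity
    have h8 : (‖v₂ 0‖ + ‖v₁ 0‖) ^ 2 ≤ 2 * (‖v₁ 0‖ ^ 2 + ‖v₂ 0‖ ^ 2) := by
      nlinarith [sq_nonneg (‖v₂ 0‖ - ‖v₁ 0‖)]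
    have h9 : C ^ 2 * m * (‖v₂ 0‖ + ‖v₁ 0‖) ^ 2 ≤
        C ^ 2 * m * (2 * (‖v₁ 0‖ ^ 2 + ‖v₂ 0‖ ^ 2)) :=
      mul_le_mul_of_nonneg_left h8 (by positivity)
    calc (∫ x, ‖v t x‖ ^ 4) ≤ 32 * HH (v t) ^ 2 := h1
      _ ≤ 32 * (C ^ 2 * m * (2 * (‖v₁ 0‖ ^ 2 + ‖v₂ 0‖ ^ 2))) := by
          rw [h7] at h6
          linarith
      _ = 64 * C ^ 2 * m * (‖v₁ 0‖ ^ 2 + ‖v₂ 0‖ ^ 2) := by ring

end Pool.Agent.Lib.MP424d38.TH
end
end

section
/-!
# Block TH, module XBD: the bound of `XX`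
-/
set_option autoImplicit false

open MeasureTheory Filter Topology Set
open scoped ENNReal ContDiff ComplexConjugate FourierTransform

noncomputable section

namespace Pool.Agent.Lib.MP424d38.TH

open Pool.Agent.Lib.MP424d38.TY Pool.Agent.Lib.MP424d38.ES

namespace XBDM

lemma sign_meas : Measurable Real.sign := by
  unfold Real.sign
  exact Measurable.ite measurableSet_Iio measurable_const
    (Measurable.ite measurableSet_Ioi measurable_const measurable_const)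

lemma sign_bd (l : ℝ) : |Real.sign l| ≤ 1 := by
  rcases Real.sign_apply_eq l with h | h | h <;> rw [h] <;> norm_num

/-- the numerical condition. -/
lemma num {m : ℝ} (hm : m ≤ 358 / 10) : c0 / (2 * Real.pi) * m < 2 * Real.pi := by
  have hpi : 3.1415 < Real.pi := Real.pi_gt_d4
  have hpi0 : 0 < Real.pi := Real.pi_pos
  have hc : 0 < c0 := by unfold c0; norm_num
  rw [div_mul_eq_mul_div, div_lt_iff₀ (by positivity)]
  have h1 : c0 * m ≤ c0 * (358 / 10) := mul_le_mul_of_nonneg_left hm hc.le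
  have h2 : c0 * (358 / 10) < 2 * Real.pi * (2 * Real.pi) := by
    unfold c0
    nlinarith
  linarith

/-- Fubini for the total of `X`. -/
lemma tot (hMDE : ES.SpecMDE) (P : L2 ≃ₗᵢ[ℂ] L2) (hP : IsPF P) (f F₁ F₂ : L2) (hf : IsH1 f F₁ F₂) :
    (∫ a, Mo P (fun l => |l|) f a) = XX P f := by
  have hI := XGRM.intX P f (hMDE P hP _ _ _ hf).2.1
  have hI' : Integrable (fun x : ℝ × ℝ => |2 * Real.pi * x.2| * ‖P f x‖ ^ 2)
    ((volume : Measure ℝ).prod volume) := hI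
  have h1 : XX P f = ∫ a, ∫ ξ, |2 * Real.pi * ξ| * ‖P f (a, ξ)‖ ^ 2 :=
    integral_prod (μ := (volume : Measure ℝ)) (ν := (volume : Measure ℝ)) _ hI'
  rw [h1]
  rfl

lemma XX_zero (P : L2 ≃ₗᵢ[ℂ] L2) : XX P 0 = 0 := by
  unfold XX
  have h1 : P (0 : L2) = 0 := map_zero P
  rw [h1]
  have h2 : ∀ᵐ x : ℝ × ℝ, ((0 : L2) : ℝ × ℝ → ℂ) x = 0 := by
    filter_upwards [Lp.coeFn_zero ℂ 2 (volume : Measure (ℝ × ℝ))] with x hx
    rw [hx]
    rfl
  have h3 : (∫ x : ℝ × ℝ, |2 * Real.pi * x.2| * ‖((0 : L2) : ℝ × ℝ → ℂ) x‖ ^ 2)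
      = ∫ _x : ℝ × ℝ, (0 : ℝ) := by
    refine integral_congr_ae ?_
    filter_upwards [h2] with x hx
    rw [hx, norm_zero]
    ring
  rw [h3, integral_zero]

/-- conservation of mass. -/
lemma mass (hFLO : TY.SpecFLO) (hDNS : TY.SpecDNS) {T : ℝ} {v v₁ v₂ N : ℝ → L2}
    (hN : Nls T v v₁ v₂ N) {t : ℝ} (ht : t ∈ Ico 0 T) : ‖v t‖ ^ 2 = ‖v 0‖ ^ 2 := by
  obtain ⟨ρ, p, e, hfl, hpt⟩ := hFLO T v v₁ v₂ N hN
  rw [← hfl.mass t ht, ← (hDNS.1 (v t)).2.2]
  refine integral_congr_ae ?_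
  filter_upwards [(hpt t ht).1] with a ha
  rw [ha]

end XBDM

open XBDM

theorem specXBD (hTHR : SpecTHR) (hXLW : SpecXLW) (hCBD : SpecCBD) (hMTX : ES.SpecMTX)
    (hMDE : ES.SpecMDE) (hFLO : TY.SpecFLO) (hDNS : TY.SpecDNS) : SpecXBD := by
  intro m hm
  by_cases hm0 : 0 < m
  · have hc1 : 0 < c0 / (2 * Real.pi) := by
      have : 0 < c0 := by unfold c0; norm_num
      have := Real.pi_pos
      positivity
    obtain ⟨C, hC, h⟩ := hTHR m (c0 / (2 * Real.pi)) hm0 hc1 (num hm)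
    refine ⟨C, hC, fun P hP T v v₁ v₂ N hN hv t ht => ?_⟩
    obtain ⟨S, hS⟩ := (hMTX P hP Real.sign 1 sign_meas sign_bd).1
    obtain ⟨ρ, p, e, hfl, hpt⟩ := hFLO T v v₁ v₂ N hN
    obtain ⟨X, Y, c, hlaw, hX⟩ := hXLW P hP S hS T v v₁ v₂ N hN
    rw [hv] at hfl
    have hF : Flow3 T m (c0 / (2 * Real.pi)) (fun t => ‖v t‖ * ‖v₁ t‖) ρ p e X Y c := by
      refine ⟨hfl, hlaw, fun s hs => ?_⟩
      have hb := hCBD P hP S hS (v s) (v₁ s) (v₂ s) (hN.h1 s hs) (N s) (hN.nl s hs)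
      filter_upwards [hb, (hpt s hs).1, (hpt s hs).2.1, (hpt s hs).2.2.1, (hX s hs).1,
        (hX s hs).2.1, (hX s hs).2.2] with a h1 h2 h3 h4 h5 h6 h7
      rw [h2, h3, h4, h5, h6, h7]
      exact h1
    have hint : ∀ s ∈ Ico 0 T, (∫ a, X s a) = XX P (v s) := by
      intro s hs
      rw [← tot hMDE P hP (v s) (v₁ s) (v₂ s) (hN.h1 s hs)]
      exact integral_congr_ae (hX s hs).1
    have h0 : (0 : ℝ) ∈ Ico 0 T := ⟨le_refl _, ht.1.trans_lt ht.2⟩
    have h1 := h T _ ρ p e X Y c hF t ht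
    rwa [hint t ht, hint 0 h0] at h1
  · refine ⟨1, one_pos, fun P hP T v v₁ v₂ N hN hv t ht => ?_⟩
    have h1 : ‖v 0‖ ^ 2 = 0 := le_antisymm (by rw [hv]; exact not_lt.1 hm0) (by positivity)
    have h2 : v 0 = 0 := by
      rw [← norm_eq_zero]
      exact pow_eq_zero_iff (two_ne_zero) |>.1 h1
    have h3 : v t = 0 := by
      rw [← norm_eq_zero]
      refine pow_eq_zero_iff (two_ne_zero) |>.1 ?_
      rw [mass hFLO hDNS hN ht, h1]
    rw [h2, h3, XX_zero, mul_zero]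

end Pool.Agent.Lib.MP424d38.TH
end
end

section
/-! # MP_424d38_an, block TH, module XLW (helper67): the law of `X` -/
set_option autoImplicit false

open MeasureTheory Filter Topology Set
open scoped ENNReal ContDiff ComplexConjugate FourierTransform InnerProductSpace

noncomputable section

namespace Pool.Agent.Lib.MP424d38.TH

open Pool.Agent.Lib.MP424d38.TY Pool.Agent.Lib.MP424d38.ES

namespace XLWM

open Pool.Agent.Lib.MP424d38.TY.BILM Pool.Agent.Lib.MP424d38.ES.MLWM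
  Pool.Agent.Lib.MP424d38.ES.XGRM

lemma nsq (f : L2) : ‖f‖ ^ 2 = ∫ x : ℝ × ℝ, ‖f x‖ ^ 2 := by
  have h1 : ‖f‖ ^ 2 = RCLike.re (inner ℂ f f) := (inner_self_eq_norm_sq f).symm
  rw [h1, L2.inner_def, ← integral_re (L2.integrable_inner f f)]
  refine integral_congr_ae (Eventually.of_forall fun x => ?_)
  simp only [inner_self_eq_norm_sq]

/-- Plancherel for the difference. -/
lemma diff_sq (hADF : SpecADF) {P : L2 ≃ₗᵢ[ℂ] L2} (hP : IsPF P) {S : L2 →L[ℂ] L2}
    (hS : IsMT P Real.sign S) {n : ℕ} {Sn : L2 →L[ℂ] L2} (hSn : IsMT P (sg n) Sn) {f F₁ F₂ : L2}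
    (hf : IsH1 f F₁ F₂) : ‖Sn f - aD S F₂‖ ^ 2
      = ∫ x : ℝ × ℝ, (|2 * Real.pi * x.2| - sg n (2 * Real.pi * x.2)) ^ 2 * ‖P f x‖ ^ 2 := by
  rw [← P.norm_map, map_sub, nsq]
  refine integral_congr_ae ?_
  filter_upwards [hSn f, hADF P hP S hS f F₁ F₂ hf, Lp.coeFn_sub (P (Sn f)) (P (aD S F₂))] with x h1 h2 h3
  rw [h3, Pi.sub_apply, h1, h2, ← sub_mul, norm_mul, mul_pow]
  congr 1
  rw [← Complex.ofReal_sub, Complex.norm_real, Real.norm_eq_abs, sq_abs]
  ring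

lemma dom_int {P : L2 ≃ₗᵢ[ℂ] L2} {f : L2}
    (h : Integrable fun x : ℝ × ℝ => (1 + (2 * Real.pi * x.2) ^ 2) * ‖P f x‖ ^ 2) :
    Integrable fun x : ℝ × ℝ => (2 * Real.pi * x.2) ^ 2 * ‖P f x‖ ^ 2 := by
  refine h.mono' ?_ (Eventually.of_forall fun x => ?_)
  · refine AEStronglyMeasurable.mul ?_ ?_
    · exact (by fun_prop : Continuous fun x : ℝ × ℝ => (2 * Real.pi * x.2) ^ 2).aestronglyMeasurable
    · exact ((Lp.aestronglyMeasurable (P f)).norm.pow 2)
  · rw [Real.norm_eq_abs, abs_of_nonneg (by positivity)]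
    exact mul_le_mul_of_nonneg_right (by linarith) (by positivity)

lemma fac_le (n : ℕ) (l : ℝ) : 0 ≤ (|l| - sg n l) ^ 2 ∧ (|l| - sg n l) ^ 2 ≤ l ^ 2 := by
  refine ⟨sq_nonneg _, ?_⟩
  rw [← sq_abs l]
  have h1 := sg_nonneg n l
  have h2 := sg_le n l
  exact pow_le_pow_left₀ (by linarith) (by linarith) 2

lemma fac_meas (P : L2 ≃ₗᵢ[ℂ] L2) (f : L2) (n : ℕ) : AEStronglyMeasurable
    (fun x : ℝ × ℝ => (|2 * Real.pi * x.2| - sg n (2 * Real.pi * x.2)) ^ 2 * ‖P f x‖ ^ 2) volume := by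
  refine AEStronglyMeasurable.mul ?_ ?_
  · exact (by unfold sg; fun_prop : Continuous fun x : ℝ × ℝ =>
      (|2 * Real.pi * x.2| - sg n (2 * Real.pi * x.2)) ^ 2).aestronglyMeasurable
  · exact ((Lp.aestronglyMeasurable (P f)).norm.pow 2)

/-- `S_n f → |D| f`. -/
lemma conv (hADF : SpecADF) {P : L2 ≃ₗᵢ[ℂ] L2} (hP : IsPF P) {S : L2 →L[ℂ] L2}
    (hS : IsMT P Real.sign S) {Sn : ℕ → L2 →L[ℂ] L2} (hSn : ∀ n, IsMT P (sg n) (Sn n))
    {f F₁ F₂ : L2} (hf : IsH1 f F₁ F₂)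
    (hi : Integrable fun x : ℝ × ℝ => (1 + (2 * Real.pi * x.2) ^ 2) * ‖P f x‖ ^ 2) :
    Tendsto (fun n => ‖Sn n f - aD S F₂‖) atTop (𝓝 0) := by
  have h1 : Tendsto (fun n => ‖Sn n f - aD S F₂‖ ^ 2) atTop (𝓝 0) := by
    simp_rw [fun n => diff_sq hADF hP hS (hSn n) hf]
    have h2 : (∫ x : ℝ × ℝ, (0 : ℝ)) = 0 := integral_zero _ _
    rw [← h2]
    refine tendsto_integral_of_dominated_convergence
      (fun x : ℝ × ℝ => (2 * Real.pi * x.2) ^ 2 * ‖P f x‖ ^ 2) (fun n => fac_meas P f n)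
      (dom_int hi) ?_ ?_
    · intro n
      refine Eventually.of_forall fun x => ?_
      obtain ⟨h3, h4⟩ := fac_le n (2 * Real.pi * x.2)
      rw [Real.norm_eq_abs, abs_of_nonneg (mul_nonneg h3 (by positivity))]
      exact mul_le_mul_of_nonneg_right h4 (by positivity)
    · refine Eventually.of_forall fun x => ?_
      refine tendsto_const_nhds.congr' ?_
      obtain ⟨m, hm⟩ := exists_nat_ge |2 * Real.pi * x.2|
      filter_upwards [eventually_ge_atTop m] with n hn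
      unfold sg
      rw [min_eq_left (hm.trans (by exact_mod_cast hn)), sub_self]
      ring
  have h2 := h1.sqrt
  simp only [Real.sqrt_sq (norm_nonneg _), Real.sqrt_zero] at h2
  exact h2

/-- the uniform bound. -/
lemma bd (hADF : SpecADF) {P : L2 ≃ₗᵢ[ℂ] L2} (hP : IsPF P) {S : L2 →L[ℂ] L2}
    (hS : IsMT P Real.sign S) {n : ℕ} {Sn : L2 →L[ℂ] L2} (hSn : IsMT P (sg n) Sn)
    {f F₁ F₂ : L2} (hf : IsH1 f F₁ F₂)
    (hi : Integrable fun x : ℝ × ℝ => (1 + (2 * Real.pi * x.2) ^ 2) * ‖P f x‖ ^ 2) :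
    ‖Sn f - aD S F₂‖ ≤ ‖aD S F₂‖ := by
  have h1 : ‖aD S F₂‖ ^ 2 = ∫ x : ℝ × ℝ, (2 * Real.pi * x.2) ^ 2 * ‖P f x‖ ^ 2 := by
    rw [← P.norm_map, nsq]
    refine integral_congr_ae ?_
    filter_upwards [hADF P hP S hS f F₁ F₂ hf] with x h2
    rw [h2, norm_mul, mul_pow]
    congr 1
    rw [Complex.norm_real, Real.norm_eq_abs, abs_abs, sq_abs]
  have h2 : ‖Sn f - aD S F₂‖ ^ 2 ≤ ‖aD S F₂‖ ^ 2 := by
    rw [diff_sq hADF hP hS hSn hf, h1]
    refine integral_mono_of_nonneg (Eventually.of_forall fun x => ?_) (dom_int hi)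
      (Eventually.of_forall fun x => ?_)
    · exact mul_nonneg (sq_nonneg _) (by positivity)
    · exact mul_le_mul_of_nonneg_right (fac_le n _).2 (by positivity)
  exact (sq_le_sq₀ (norm_nonneg _) (norm_nonneg _)).1 h2

/-- difference of two weighted momenta. -/
lemma mom_diff (hDNS : SpecDNS) {β : ℝ → ℝ} (hβ : Continuous β) {B : ℝ} (hB : ∀ a, |β a| ≤ B)
    (f F g G : L2) : |(∫ a, β a * momD f F a) - ∫ a, β a * momD g G a|
      ≤ B * (‖f - g‖ * ‖F‖ + ‖g‖ * ‖F - G‖) := by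
  have hB0 : 0 ≤ B := (abs_nonneg _).trans (hB 0)
  have hi : ∀ f F : L2, Integrable fun a => β a * momD f F a := fun f F =>
    Integrable.bdd_mul (c := B) (hDNS.2.1 f F) hβ.aestronglyMeasurable
      (Eventually.of_forall fun a => by rw [Real.norm_eq_abs]; exact hB a)
  rw [← integral_sub (hi f F) (hi g G)]
  refine abs_integral_le_integral_abs.trans ?_
  refine le_trans ?_ (mul_le_mul_of_nonneg_left (hDNS.2.2.2.2.1 f F g G) hB0)
  rw [← integral_const_mul]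
  refine integral_mono ((hi f F).sub (hi g G)).abs
    (((hDNS.2.1 f F).sub (hDNS.2.1 g G)).abs.const_mul B) fun a => ?_
  simp only
  rw [← mul_sub, abs_mul]
  exact mul_le_mul_of_nonneg_right (hB a) (abs_nonneg _)

lemma mom_contOn (hDNS : SpecDNS) {β : ℝ → ℝ} (hβ : Continuous β) {B : ℝ} (hB : ∀ a, |β a| ≤ B)
    {s : Set ℝ} {f g : ℝ → L2} (hf : ContinuousOn f s) (hg : ContinuousOn g s) :
    ContinuousOn (fun r => ∫ a, β a * momD (f r) (g r) a) s := by
  have h : (fun r => ∫ a, β a * momD (f r) (g r) a)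
      = fun r => (∫ x : ℝ × ℝ, ((β x.1 : ℝ) : ℂ) * (conj (f r x) * g r x)).im := by
    funext r
    rw [form_im hDNS hβ hB]
  rw [h]
  exact Complex.continuous_im.comp_continuousOn (form_cont hβ hB hf hg)

/-- `momD F₂ Q = Mo (l τ)` if `P Q = - τ P f`, `P F₂ = i l P f`. -/
lemma spec2 {P : L2 ≃ₗᵢ[ℂ] L2}
    (hP : ∀ f g : L2, ∀ᵐ a : ℝ, (∫ b, conj (f (a, b)) * g (a, b)) = ∫ ξ, conj (P f (a, ξ)) * P g (a, ξ))
    (v w q : L2) (τ : ℝ → ℝ)
    (hw : ∀ᵐ x : ℝ × ℝ, P w x = 2 * Real.pi * Complex.I * (x.2 : ℂ) * P v x)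
    (hq : ∀ᵐ x : ℝ × ℝ, P q x = -(((τ (2 * Real.pi * x.2) : ℝ) : ℂ) * P v x)) :
    ∀ᵐ a : ℝ, momD w q a = Mo P (fun l => l * τ l) v a := by
  have hint : Integrable (fun x : ℝ × ℝ => conj (w x) * q x) ((volume : Measure ℝ).prod volume) :=
    int_mul (Lp.memLp w).star (Lp.memLp q)
  have hq' : ∀ᵐ a : ℝ, ∀ᵐ ξ : ℝ, P q (a, ξ) = -(((τ (2 * Real.pi * ξ) : ℝ) : ℂ) * P v (a, ξ)) :=
    Measure.ae_ae_of_ae_prod (μ := (volume : Measure ℝ)) (ν := (volume : Measure ℝ)) hq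
  have hw' : ∀ᵐ a : ℝ, ∀ᵐ ξ : ℝ, P w (a, ξ) = 2 * Real.pi * Complex.I * (ξ : ℂ) * P v (a, ξ) :=
    Measure.ae_ae_of_ae_prod (μ := (volume : Measure ℝ)) (ν := (volume : Measure ℝ)) hw
  filter_upwards [hP w q, hint.prod_right_ae, hq', hw'] with a h1 h2 h3 h3'
  have h4 := Complex.imCLM.integral_comp_comm h2
  simp only [Complex.imCLM_apply] at h4
  rw [momD, h4, h1, Mo]
  have h5 : (∫ ξ, conj (P w (a, ξ)) * P q (a, ξ))
      = Complex.I * ((∫ ξ, (2 * Real.pi * ξ) * τ (2 * Real.pi * ξ) * ‖P v (a, ξ)‖ ^ 2 : ℝ) : ℂ) := by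
    have h8 : ((∫ ξ, (2 * Real.pi * ξ) * τ (2 * Real.pi * ξ) * ‖P v (a, ξ)‖ ^ 2 : ℝ) : ℂ)
        = ∫ ξ, (((2 * Real.pi * ξ) * τ (2 * Real.pi * ξ) * ‖P v (a, ξ)‖ ^ 2 : ℝ) : ℂ) :=
      integral_ofReal.symm
    rw [h8, ← integral_const_mul]
    refine integral_congr_ae ?_
    filter_upwards [h3, h3'] with ξ h6 h6'
    have h7 : conj (P v (a, ξ)) * P v (a, ξ) = ((‖P v (a, ξ)‖ ^ 2 : ℝ) : ℂ) := by
      rw [mul_comm, Complex.mul_conj, Complex.normSq_eq_norm_sq]
    rw [h6, h6']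
    have h9 : conj (2 * Real.pi * Complex.I * (ξ : ℂ) * P v (a, ξ))
        = -(2 * Real.pi * Complex.I * (ξ : ℂ)) * conj (P v (a, ξ)) := by
      rw [map_mul, map_mul, map_mul, map_mul, Complex.conj_I, Complex.conj_ofReal,
        Complex.conj_ofReal, map_ofNat]
      ring
    rw [h9]
    calc -(2 * Real.pi * Complex.I * (ξ : ℂ)) * conj (P v (a, ξ)) *
          -(((τ (2 * Real.pi * ξ) : ℝ) : ℂ) * P v (a, ξ))
        = Complex.I * ((2 * Real.pi * (ξ : ℂ)) * ((τ (2 * Real.pi * ξ) : ℝ) : ℂ) *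
          (conj (P v (a, ξ)) * P v (a, ξ))) := by ring
      _ = _ := by
        rw [h7]
        push_cast
        rfl
  rw [h5, Complex.I_mul_im, Complex.ofReal_re]

lemma mom_on (hDNS : SpecDNS) {s : Set ℝ} {f g : ℝ → L2} (hf : ContinuousOn f s)
    (hg : ContinuousOn g s) : ContinuousOn (fun t => mom hDNS (f t) (g t)) s := by
  intro t ht
  have h : ContinuousWithinAt (fun t => (f t, g t)) s t := (hf t ht).prodMk (hg t ht)
  exact ((mom_cont hDNS).continuousAt (x := (f t, g t))).comp_continuousWithinAt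
    (f := fun t => (f t, g t)) h

lemma mom_int' (hDNS : SpecDNS) (β : ℝ → ℝ) (c : ℝ) (f g : L2) :
    ∫ a, β a * (c • mom hDNS f g : L1) a = ∫ a, β a * (c * momD f g a) := by
  refine integral_congr_ae ?_
  filter_upwards [mom_coe hDNS f g, Lp.coeFn_smul c (mom hDNS f g)] with a h1 h2
  rw [h2, Pi.smul_apply, smul_eq_mul, h1]

lemma pull (β : ℝ → ℝ) (c : ℝ) (u : ℝ → ℝ) : ∫ a, β a * (c * u a) = c * ∫ a, β a * u a := by
  rw [← integral_const_mul]
  exact integral_congr_ae (Eventually.of_forall fun a => by simp only; ring)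

theorem main (hADF : SpecADF) (hMLW : SpecMLW) (hMTX : SpecMTX) (hMDE : SpecMDE) (hPSL : SpecPSL)
    (hPD2 : SpecPD2) (hDNS : SpecDNS) (P : L2 ≃ₗᵢ[ℂ] L2) (hP : IsPF P) (S : L2 →L[ℂ] L2)
    (hS : IsMT P Real.sign S) (T : ℝ) (v v₁ v₂ N : ℝ → L2) (hN : Nls T v v₁ v₂ N) :
  ∃ X Y c : ℝ → L1, LawS T X (fun t => (4 : ℝ) • Y t) c ∧
  ∀ t ∈ Ico 0 T, (∀ᵐ a : ℝ, X t a = Mo P (fun l => |l|) (v t) a) ∧
    (∀ᵐ a : ℝ, Y t a = Mo P (fun l => l * |l|) (v t) a) ∧ (∀ᵐ a : ℝ, c t a = srA S (v₂ t) (N t) a) := by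
  obtain ⟨-, p2, -⟩ := hPSL P hP
  obtain ⟨-, d2⟩ := hPD2 P hP
  have cS : Continuous S := S.continuous
  have cA : Continuous fun w : L2 => aD S w := cS.const_smul (-Complex.I)
  -- the transforms
  have hPS : ∀ t ∈ Ico 0 T, ∀ᵐ x : ℝ × ℝ, P (S (v₂ t)) x
      = Complex.I * (((|2 * Real.pi * x.2| : ℝ) : ℂ) * P (v t) x) := by
    intro t ht
    have e1 : S (v₂ t) = Complex.I • aD S (v₂ t) := by
      unfold aD
      rw [smul_smul]
      simp
    rw [e1, map_smul]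
    filter_upwards [hADF P hP S hS _ _ _ (hN.h1 t ht),
      Lp.coeFn_smul Complex.I (P (aD S (v₂ t)))] with x h1 h2
    rw [h2, Pi.smul_apply, smul_eq_mul, h1]
  have hPIS : ∀ t ∈ Ico 0 T, ∀ᵐ x : ℝ × ℝ, P (Complex.I • S (v₂ t)) x
      = -(((|2 * Real.pi * x.2| : ℝ) : ℂ) * P (v t) x) := by
    intro t ht
    rw [map_smul]
    filter_upwards [hPS t ht, Lp.coeFn_smul Complex.I (P (S (v₂ t)))] with x h1 h2
    rw [h2, Pi.smul_apply, smul_eq_mul, h1, ← mul_assoc, Complex.I_mul_I]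
    ring
  refine ⟨fun t => mom hDNS (v t) (S (v₂ t)), fun t => mom hDNS (v₂ t) (Complex.I • S (v₂ t)),
    fun t => (-2 : ℝ) • mom hDNS (aD S (v₂ t)) (N t), ?_, ?_⟩
  · constructor
    · exact mom_on hDNS hN.cv (cS.comp_continuousOn hN.c2)
    · exact (mom_on hDNS hN.c2 ((cS.comp_continuousOn hN.c2).const_smul Complex.I)).const_smul (4 : ℝ)
    · exact (mom_on hDNS (cA.comp_continuousOn hN.c2) hN.cN).const_smul (-2 : ℝ)
    · intro β hβ t t' ht0 htt' ht'
      obtain ⟨B, hB⟩ := hβ.2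
      have hB1 : ∀ a, |β a| ≤ B := fun a => (hB a).1
      have hB2 : ∀ a, |deriv β a| ≤ B := fun a => (hB a).2
      have hB0 : 0 ≤ B := (abs_nonneg _).trans (hB1 0)
      have hβc := cb1_cont hβ
      have hβd := cb1_dcont hβ
      have hsub : Icc t t' ⊆ Ico 0 T := fun r hr => ⟨ht0.trans hr.1, hr.2.trans_lt ht'⟩
      have hcv := hN.cv.mono hsub
      have hc2 := hN.c2.mono hsub
      have hcN := hN.cN.mono hsub
      have hi : ∀ r ∈ Ico 0 T, Integrable fun x : ℝ × ℝ =>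
          (1 + (2 * Real.pi * x.2) ^ 2) * ‖P (v r) x‖ ^ 2 :=
        fun r hr => (hMDE P hP _ _ _ (hN.h1 r hr)).2.1
      choose Sn hSn using fun n : ℕ => (hMTX P hP (sg n) n (sg_meas n) (sg_bd n)).1
      -- errors
      set dl : ℕ → ℝ → ℝ := fun n r => ‖Sn n (v r) - aD S (v₂ r)‖ with hdl
      have hdl0 : ∀ r ∈ Ico 0 T, Tendsto (fun n => dl n r) atTop (𝓝 0) := fun r hr =>
        conv hADF hP hS hSn (hN.h1 r hr) (hi r hr)
      have hdlb : ∀ n, ∀ r ∈ Ico 0 T, dl n r ≤ ‖aD S (v₂ r)‖ := fun n r hr =>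
        bd hADF hP hS (hSn n) (hN.h1 r hr) (hi r hr)
      have en1 : ∀ n r, ‖Complex.I • Sn n (v r) - S (v₂ r)‖ = dl n r := by
        intro n r
        have e1 : Complex.I • Sn n (v r) - S (v₂ r) = Complex.I • (Sn n (v r) - aD S (v₂ r)) := by
          unfold aD
          rw [smul_sub, smul_smul]
          simp
        rw [e1, norm_smul, Complex.norm_I, one_mul]
      have en2 : ∀ n r, ‖-(Sn n (v r)) - Complex.I • S (v₂ r)‖ = dl n r := by
        intro n r
        have e1 : -(Sn n (v r)) - Complex.I • S (v₂ r) = -(Sn n (v r) - aD S (v₂ r)) := by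
          unfold aD
          rw [neg_smul]
          abel
        rw [e1, norm_neg]
      -- the quantities
      set A : ℕ → ℝ → ℝ := fun n r => ∫ a, β a * momD (v r) (Complex.I • Sn n (v r)) a with hA
      set A' : ℝ → ℝ := fun r => ∫ a, β a * momD (v r) (S (v₂ r)) a with hA'
      set G : ℕ → ℝ → ℝ := fun n r => 4 * (∫ a, deriv β a * momD (v₂ r) (-(Sn n (v r))) a)
        + (-2) * ∫ a, β a * momD (Sn n (v r)) (N r) a with hG
      set G' : ℝ → ℝ := fun r => 4 * (∫ a, deriv β a * momD (v₂ r) (Complex.I • S (v₂ r)) a)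
        + (-2) * ∫ a, β a * momD (aD S (v₂ r)) (N r) a with hG'
      -- the laws of the truncations
      have hlaw : ∀ n, A n t' - A n t = ∫ r in t..t', G n r := by
        intro n
        obtain ⟨m, f, c, hl, hae⟩ := hMLW P hP T v v₁ v₂ N hN (sg n) n (Sn n) (sg_meas n) (sg_bd n) (hSn n)
        have k1 : ∀ r ∈ Ico 0 T, ∫ a, β a * m r a = A n r := by
          intro r hr
          have q1 : ∀ᵐ x : ℝ × ℝ, P (Complex.I • Sn n (v r)) x
              = Complex.I * (((sg n (2 * Real.pi * x.2) : ℝ) : ℂ) * P (v r) x) := by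
            rw [map_smul]
            filter_upwards [hSn n (v r), Lp.coeFn_smul Complex.I (P (Sn n (v r)))] with x h2 h3
            rw [h3, Pi.smul_apply, smul_eq_mul, h2]
          refine integral_congr_ae ?_
          filter_upwards [(hae r hr).1, spec_int P p2 (v r) _ (sg n) q1] with a h1 h2
          rw [h1, ← h2]
        have k2 : ∀ r ∈ Ico 0 T, ∫ a, deriv β a * ((4 : ℝ) • f r : L1) a
            = 4 * ∫ a, deriv β a * momD (v₂ r) (-(Sn n (v r))) a := by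
          intro r hr
          have q1 : ∀ᵐ x : ℝ × ℝ, P (-(Sn n (v r))) x
              = -(((sg n (2 * Real.pi * x.2) : ℝ) : ℂ) * P (v r) x) := by
            rw [map_neg]
            filter_upwards [hSn n (v r), Lp.coeFn_neg (P (Sn n (v r)))] with x h2 h3
            rw [h3, Pi.neg_apply, h2]
          rw [← integral_const_mul]
          refine integral_congr_ae ?_
          filter_upwards [(hae r hr).2.1, spec2 p2 (v r) (v₂ r) _ (sg n) (d2 _ _ _ (hN.h1 r hr)) q1,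
            Lp.coeFn_smul (4 : ℝ) (f r)] with a h1 h2 h3
          rw [h3, Pi.smul_apply, smul_eq_mul, h1, h2]
          ring
        have k3 : ∀ r ∈ Ico 0 T, ∫ a, β a * c r a = (-2) * ∫ a, β a * momD (Sn n (v r)) (N r) a := by
          intro r hr
          rw [← integral_const_mul]
          refine integral_congr_ae ?_
          filter_upwards [(hae r hr).2.2] with a h1
          rw [h1, src, momD]
          ring
        have h1 := hl.law β hβ t t' ht0 htt' ht'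
        rw [k1 t' (hsub ⟨htt', le_refl _⟩), k1 t (hsub ⟨le_refl _, htt'⟩)] at h1
        rw [h1]
        refine intervalIntegral.integral_congr fun r hr => ?_
        rw [uIcc_of_le htt'] at hr
        rw [k2 r (hsub hr), k3 r (hsub hr)]
      -- convergence of the left hand side
      have hAlim : ∀ r ∈ Ico 0 T, Tendsto (fun n => A n r) atTop (𝓝 (A' r)) := by
        intro r hr
        rw [tendsto_iff_norm_sub_tendsto_zero]
        have h1 : Tendsto (fun n => B * (‖v r‖ * dl n r)) atTop (𝓝 0) := by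
          have := ((hdl0 r hr).const_mul ‖v r‖).const_mul B
          simpa using this
        refine squeeze_zero (fun n => norm_nonneg _) (fun n => ?_) h1
        rw [Real.norm_eq_abs]
        refine (mom_diff hDNS hβc hB1 _ _ _ _).trans (le_of_eq ?_)
        rw [sub_self, norm_zero, zero_mul, zero_add, en1]
      have hGd : ∀ n r, |G n r - G' r| ≤ (4 * B * ‖v₂ r‖ + 2 * B * ‖N r‖) * dl n r := by
        intro n r
        have h1 := mom_diff hDNS hβd hB2 (v₂ r) (-(Sn n (v r))) (v₂ r) (Complex.I • S (v₂ r))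
        have h2 := mom_diff hDNS hβc hB1 (Sn n (v r)) (N r) (aD S (v₂ r)) (N r)
        rw [sub_self, norm_zero, zero_mul, zero_add, en2] at h1
        rw [sub_self, norm_zero, mul_zero, add_zero] at h2
        have e1 : G n r - G' r = 4 * ((∫ a, deriv β a * momD (v₂ r) (-(Sn n (v r))) a)
            - ∫ a, deriv β a * momD (v₂ r) (Complex.I • S (v₂ r)) a)
            + (-2) * ((∫ a, β a * momD (Sn n (v r)) (N r) a) - ∫ a, β a * momD (aD S (v₂ r)) (N r) a) := by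
          rw [hG, hG']
          ring
        rw [e1]
        refine (abs_add_le _ _).trans ?_
        rw [abs_mul, abs_mul, abs_of_pos (by norm_num : (0 : ℝ) < 4),
          abs_neg, abs_of_pos (by norm_num : (0 : ℝ) < 2)]
        have h3 : dl n r = ‖Sn n (v r) - aD S (v₂ r)‖ := rfl
        rw [← h3] at h2
        nlinarith
      have hGlim : ∀ r ∈ Ico 0 T, Tendsto (fun n => G n r) atTop (𝓝 (G' r)) := by
        intro r hr
        rw [tendsto_iff_norm_sub_tendsto_zero]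
        have h1 : Tendsto (fun n => (4 * B * ‖v₂ r‖ + 2 * B * ‖N r‖) * dl n r) atTop (𝓝 0) := by
          have := (hdl0 r hr).const_mul (4 * B * ‖v₂ r‖ + 2 * B * ‖N r‖)
          simpa using this
        refine squeeze_zero (fun n => norm_nonneg _) (fun n => ?_) h1
        rw [Real.norm_eq_abs]
        exact hGd n r
      have hGc : ∀ n, ContinuousOn (G n) (Icc t t') := fun n =>
        (continuousOn_const.mul (mom_contOn hDNS hβd hB2 hc2
          (((Sn n).continuous.comp_continuousOn hcv).neg))).add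
          (continuousOn_const.mul (mom_contOn hDNS hβc hB1 ((Sn n).continuous.comp_continuousOn hcv) hcN))
      have hG'c : ContinuousOn G' (Icc t t') :=
        (continuousOn_const.mul (mom_contOn hDNS hβd hB2 hc2
          ((cS.comp_continuousOn hc2).const_smul Complex.I))).add
          (continuousOn_const.mul (mom_contOn hDNS hβc hB1 (cA.comp_continuousOn hc2) hcN))
      have hbc : ContinuousOn (fun r => |G' r| + (4 * B * ‖v₂ r‖ + 2 * B * ‖N r‖) * ‖aD S (v₂ r)‖)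
          (Icc t t') :=
        hG'c.abs.add (((continuousOn_const.mul hc2.norm).add (continuousOn_const.mul hcN.norm)).mul
          (cA.comp_continuousOn hc2).norm)
      have hRlim : Tendsto (fun n => ∫ r in t..t', G n r) atTop (𝓝 (∫ r in t..t', G' r)) := by
        refine intervalIntegral.tendsto_integral_filter_of_dominated_convergence
          (fun r => |G' r| + (4 * B * ‖v₂ r‖ + 2 * B * ‖N r‖) * ‖aD S (v₂ r)‖) ?_ ?_ ?_ ?_
        · refine Eventually.of_forall fun n => ?_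
          rw [uIoc_of_le htt']
          exact ((hGc n).mono Ioc_subset_Icc_self).aestronglyMeasurable measurableSet_Ioc
        · refine Eventually.of_forall fun n => ?_
          refine Eventually.of_forall fun r hr => ?_
          rw [uIoc_of_le htt'] at hr
          have hrT := hsub (Ioc_subset_Icc_self hr)
          rw [Real.norm_eq_abs]
          have h1 := hGd n r
          have h2 := hdlb n r hrT
          have h3 : |G n r| ≤ |G' r| + |G n r - G' r| := by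
            have := abs_add_le (G' r) (G n r - G' r)
            rw [add_sub_cancel] at this
            exact this
          have h4 : 0 ≤ 4 * B * ‖v₂ r‖ + 2 * B * ‖N r‖ := by positivity
          have h5 := mul_le_mul_of_nonneg_left h2 h4
          linarith
        · exact ContinuousOn.intervalIntegrable_of_Icc htt' hbc
        · refine Eventually.of_forall fun r hr => ?_
          rw [uIoc_of_le htt'] at hr
          exact hGlim r (hsub (Ioc_subset_Icc_self hr))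
      have hLlim : Tendsto (fun n => A n t' - A n t) atTop (𝓝 (A' t' - A' t)) :=
        (hAlim t' (hsub ⟨htt', le_refl _⟩)).sub (hAlim t (hsub ⟨le_refl _, htt'⟩))
      have hfin : A' t' - A' t = ∫ r in t..t', G' r := by
        refine tendsto_nhds_unique hLlim ?_
        simp_rw [hlaw]
        exact hRlim
      have h1 : ∀ r, ∫ a, β a * mom hDNS (v r) (S (v₂ r)) a = A' r := fun r => mom_int hDNS β _ _
      simp only [h1]
      rw [hfin]
      refine intervalIntegral.integral_congr fun r _ => ?_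
      rw [mom_int', mom_int', pull, pull]
  · intro t ht
    refine ⟨?_, ?_, ?_⟩
    · filter_upwards [mom_coe hDNS (v t) (S (v₂ t)),
        spec_int P p2 (v t) _ (fun l => |l|) (hPS t ht)] with a h2 h3
      rw [h2, h3]
    · filter_upwards [mom_coe hDNS (v₂ t) (Complex.I • S (v₂ t)),
        spec2 p2 (v t) (v₂ t) _ (fun l => |l|) (d2 _ _ _ (hN.h1 t ht)) (hPIS t ht)] with a h2 h3
      rw [h2, h3]
    · filter_upwards [mom_coe hDNS (aD S (v₂ t)) (N t),
        Lp.coeFn_smul (-2 : ℝ) (mom hDNS (aD S (v₂ t)) (N t))] with a h1 h2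
      rw [h2, Pi.smul_apply, smul_eq_mul, h1]
      rfl

end XLWM

theorem specXLW (hADF : SpecADF) (hMLW : SpecMLW) (hMTX : SpecMTX) (hMDE : SpecMDE)
    (hPSL : SpecPSL) (hPD2 : SpecPD2) (hDNS : SpecDNS) : SpecXLW :=
  fun P hP S hS T v v₁ v₂ N hN => XLWM.main hADF hMLW hMTX hMDE hPSL hPD2 hDNS P hP S hS T v v₁ v₂ N hN

end Pool.Agent.Lib.MP424d38.TH
end
end
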