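import Pool.Agent.Lib.MP_424d38_an.TH.SpecC
import Pool.Agent.Lib.MP_424d38_an.ES.NEA

section
/-!
# MP_424d38_an, block TH, module LID: the identity for weights depending on the mass coordinate
-/
set_option autoImplicit false

open MeasureTheory Filter Topology Set
open scoped ENNReal ContDiff ComplexConjugate

noncomputable section

namespace Pool.Agent.Lib.MP424d38.TH

open Pool.Agent.Lib.MP424d38.TY Pool.Agent.Lib.MP424d38.ES

namespace LIDM

theorem int_g (g : L1) : Integrable (fun b => g b) := L1.integrable_coeFn g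

/-- a uniformly continuous family of bounded weights against a continuous family in `L¹` -/
theorem pair_cont {S : Set ℝ} {B : ℝ → ℝ → ℝ} {f : ℝ → L1}
    (hBc : ∀ r ∈ S, Continuous (B r)) (hBb : ∀ r ∈ S, ∃ C : ℝ, ∀ a, |B r a| ≤ C)
    (hB : ∀ t ∈ S, ∀ ε : ℝ, 0 < ε → ∃ δ : ℝ, 0 < δ ∧ ∀ r ∈ S, |r - t| < δ → ∀ a,
      |B r a - B t a| ≤ ε)
    (hf : ContinuousOn f S) : ContinuousOn (fun r => ∫ a, B r a * f r a) S := by
  have hint : ∀ r ∈ S, ∀ g : L1, Integrable fun a => B r a * g a := by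
    intro r hr g
    obtain ⟨C, hC⟩ := hBb r hr
    exact (int_g g).bdd_mul (c := C) (hBc r hr).aestronglyMeasurable (ae_of_all _ fun a => hC a)
  rw [Metric.continuousOn_iff]
  intro t ht ε hε
  obtain ⟨C, hC⟩ := hBb t ht
  have hC0 : 0 ≤ C := (abs_nonneg _).trans (hC 0)
  obtain ⟨δ1, hδ1, h1⟩ := Metric.continuousOn_iff.1 hf t ht (min 1 (ε / (2 * (C + 1))))
    (lt_min one_pos (by positivity))
  obtain ⟨δ2, hδ2, h2⟩ := hB t ht (ε / (2 * (‖f t‖ + 2))) (by positivity)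
  refine ⟨min δ1 δ2, lt_min hδ1 hδ2, fun r hr hrt => ?_⟩
  have hr1 := h1 r hr (hrt.trans_le (min_le_left _ _))
  have hr2 := h2 r hr (by
    have := hrt.trans_le (min_le_right _ _)
    rwa [Real.dist_eq] at this)
  rw [dist_eq_norm] at hr1
  have hn1 : ‖f r - f t‖ < 1 := hr1.trans_le (min_le_left _ _)
  have hn2 : ‖f r - f t‖ < ε / (2 * (C + 1)) := hr1.trans_le (min_le_right _ _)
  have hfr : ‖f r‖ ≤ ‖f t‖ + 1 := by
    have := norm_le_norm_add_norm_sub' (f r) (f t)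
    linarith
  have hnorm : ∀ g : L1, ‖g‖ = ∫ b, ‖g b‖ := fun g => L1.norm_eq_integral_norm g
  -- split
  have hs : (∫ a, B r a * f r a) - ∫ a, B t a * f t a =
      (∫ a, (B r a - B t a) * f r a) + ∫ a, B t a * (f r - f t : L1) a := by
    have e1 : (∫ a, (B r a - B t a) * f r a) = (∫ a, B r a * f r a) - ∫ a, B t a * f r a := by
      rw [← integral_sub (hint r hr _) (hint t ht _)]
      refine integral_congr_ae (ae_of_all _ fun a => ?_)
      show (B r a - B t a) * f r a = B r a * f r a - B t a * f r a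
      ring
    have e2 : (∫ a, B t a * (f r - f t : L1) a) = (∫ a, B t a * f r a) - ∫ a, B t a * f t a := by
      rw [← integral_sub (hint t ht _) (hint t ht _)]
      refine integral_congr_ae ?_
      filter_upwards [Lp.coeFn_sub (f r) (f t)] with a ha
      rw [ha, Pi.sub_apply]
      ring
    rw [e1, e2]; ring
  rw [Real.dist_eq, hs]
  have b1 : |∫ a, (B r a - B t a) * f r a| ≤ ε / (2 * (‖f t‖ + 2)) * ‖f r‖ := by
    rw [hnorm (f r), ← integral_const_mul, ← Real.norm_eq_abs]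
    refine norm_integral_le_of_norm_le ((int_g (f r)).norm.const_mul _)
      (ae_of_all _ fun a => ?_)
    rw [norm_mul]
    exact mul_le_mul_of_nonneg_right (hr2 a) (norm_nonneg _)
  have b2 : |∫ a, B t a * (f r - f t : L1) a| ≤ C * ‖f r - f t‖ := by
    rw [hnorm (f r - f t), ← integral_const_mul, ← Real.norm_eq_abs]
    refine norm_integral_le_of_norm_le ((int_g (f r - f t)).norm.const_mul _)
      (ae_of_all _ fun a => ?_)
    rw [norm_mul]
    exact mul_le_mul_of_nonneg_right (hC a) (norm_nonneg _)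
  have c1 : ε / (2 * (‖f t‖ + 2)) * ‖f r‖ < ε / 2 := by
    have hpos : 0 < ‖f t‖ + 2 := by positivity
    have : ε / (2 * (‖f t‖ + 2)) * ‖f r‖ ≤ ε / (2 * (‖f t‖ + 2)) * (‖f t‖ + 1) :=
      mul_le_mul_of_nonneg_left hfr (by positivity)
    refine this.trans_lt ?_
    have e3 : ε / (2 * (‖f t‖ + 2)) * (‖f t‖ + 2) = ε / 2 := by field_simp
    rw [← e3]
    exact mul_lt_mul_of_pos_left (by linarith) (by positivity)
  have c2 : C * ‖f r - f t‖ ≤ ε / 2 := by
    have : C * ‖f r - f t‖ ≤ (C + 1) * (ε / (2 * (C + 1))) :=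
      mul_le_mul (by linarith) hn2.le (norm_nonneg _) (by linarith)
    have e3 : (C + 1) * (ε / (2 * (C + 1))) = ε / 2 := by field_simp
    rwa [e3] at this
  calc |(∫ a, (B r a - B t a) * f r a) + ∫ a, B t a * (f r - f t : L1) a|
      ≤ |∫ a, (B r a - B t a) * f r a| + |∫ a, B t a * (f r - f t : L1) a| := abs_add_le _ _
    _ < ε / 2 + ε / 2 := by linarith
    _ = ε := by ring

/-- a continuous weight on `[0,m]` composed with a family with values in `[0,m]` -/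
theorem comp_unif {m : ℝ} {ψ : ℝ → ℝ} (hψ : ContinuousOn ψ (Icc 0 m)) {S : Set ℝ}
    {G : ℝ → ℝ → ℝ} (hG : ∀ r ∈ S, ∀ a, 0 ≤ G r a ∧ G r a ≤ m) {N : ℝ → ℝ → ℝ}
    (hN : ∀ t ∈ S, ∀ ε : ℝ, 0 < ε → ∃ δ : ℝ, 0 < δ ∧ ∀ r ∈ S, |r - t| < δ → N r t ≤ ε)
    (hGN : ∀ r ∈ S, ∀ t ∈ S, ∀ a, |G r a - G t a| ≤ N r t) :
    ∀ t ∈ S, ∀ ε : ℝ, 0 < ε → ∃ δ : ℝ, 0 < δ ∧ ∀ r ∈ S, |r - t| < δ → ∀ a,
      |ψ (G r a) - ψ (G t a)| ≤ ε := by
  intro t ht ε hε
  have hu := isCompact_Icc.uniformContinuousOn_of_continuous hψ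
  rw [Metric.uniformContinuousOn_iff] at hu
  obtain ⟨δ1, hδ1, h1⟩ := hu ε hε
  obtain ⟨δ, hδ, h2⟩ := hN t ht (δ1 / 2) (by positivity)
  refine ⟨δ, hδ, fun r hr hrt a => ?_⟩
  have h3 := h1 (G r a) ⟨(hG r hr a).1, (hG r hr a).2⟩ (G t a) ⟨(hG t ht a).1, (hG t ht a).2⟩ (by
    rw [Real.dist_eq]
    have := (hGN r hr t ht a).trans (h2 r hr hrt)
    linarith)
  rw [Real.dist_eq] at h3
  exact h3.le

/-- products of uniformly continuous families -/
theorem mul_unif {S : Set ℝ} {A B : ℝ → ℝ → ℝ} {CA : ℝ} (hA : ∀ r ∈ S, ∀ a, |A r a| ≤ CA)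
    (hB : ∀ r ∈ S, ∃ C : ℝ, ∀ a, |B r a| ≤ C)
    (hAu : ∀ t ∈ S, ∀ ε : ℝ, 0 < ε → ∃ δ : ℝ, 0 < δ ∧ ∀ r ∈ S, |r - t| < δ → ∀ a,
      |A r a - A t a| ≤ ε)
    (hBu : ∀ t ∈ S, ∀ ε : ℝ, 0 < ε → ∃ δ : ℝ, 0 < δ ∧ ∀ r ∈ S, |r - t| < δ → ∀ a,
      |B r a - B t a| ≤ ε) :
    ∀ t ∈ S, ∀ ε : ℝ, 0 < ε → ∃ δ : ℝ, 0 < δ ∧ ∀ r ∈ S, |r - t| < δ → ∀ a,
      |A r a * B r a - A t a * B t a| ≤ ε := by
  intro t ht ε hε
  obtain ⟨C, hC⟩ := hB t ht
  have hC0 : 0 ≤ C := (abs_nonneg _).trans (hC 0)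
  have hCA0 : 0 ≤ CA := (abs_nonneg _).trans (hA t ht 0)
  obtain ⟨δ1, hδ1, h1⟩ := hAu t ht (ε / (2 * (C + 1))) (by positivity)
  obtain ⟨δ2, hδ2, h2⟩ := hBu t ht (ε / (2 * (CA + 1))) (by positivity)
  refine ⟨min δ1 δ2, lt_min hδ1 hδ2, fun r hr hrt a => ?_⟩
  have e1 := h1 r hr (hrt.trans_le (min_le_left _ _)) a
  have e2 := h2 r hr (hrt.trans_le (min_le_right _ _)) a
  have e3 : A r a * B r a - A t a * B t a = A r a * (B r a - B t a) + (A r a - A t a) * B t a := by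
    ring
  rw [e3]
  have b1 : |A r a * (B r a - B t a)| ≤ ε / 2 := by
    rw [abs_mul]
    have : |A r a| * |B r a - B t a| ≤ (CA + 1) * (ε / (2 * (CA + 1))) :=
      mul_le_mul ((hA r hr a).trans (by linarith)) e2 (abs_nonneg _) (by linarith)
    have e4 : (CA + 1) * (ε / (2 * (CA + 1))) = ε / 2 := by field_simp
    rwa [e4] at this
  have b2 : |(A r a - A t a) * B t a| ≤ ε / 2 := by
    rw [abs_mul]
    have : |A r a - A t a| * |B t a| ≤ (ε / (2 * (C + 1))) * (C + 1) :=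
      mul_le_mul e1 ((hC a).trans (by linarith)) (abs_nonneg _) (by positivity)
    have e4 : (ε / (2 * (C + 1))) * (C + 1) = ε / 2 := by field_simp
    rwa [e4] at this
  calc |A r a * (B r a - B t a) + (A r a - A t a) * B t a|
      ≤ |A r a * (B r a - B t a)| + |(A r a - A t a) * B t a| := abs_add_le _ _
    _ ≤ ε / 2 + ε / 2 := add_le_add b1 b2
    _ = ε := by ring

/-- continuity in norm in the form used above -/
theorem norm_unif {S : Set ℝ} {f : ℝ → L1} (hf : ContinuousOn f S) (C : ℝ) (hC : 0 ≤ C) :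
    ∀ t ∈ S, ∀ ε : ℝ, 0 < ε → ∃ δ : ℝ, 0 < δ ∧ ∀ r ∈ S, |r - t| < δ → C * ‖f r - f t‖ ≤ ε := by
  intro t ht ε hε
  obtain ⟨δ, hδ, h⟩ := Metric.continuousOn_iff.1 hf t ht (ε / (C + 1)) (by positivity)
  refine ⟨δ, hδ, fun r hr hrt => ?_⟩
  have h1 := h r hr (by rwa [Real.dist_eq])
  rw [dist_eq_norm] at h1
  have : C * ‖f r - f t‖ ≤ (C + 1) * (ε / (C + 1)) :=
    mul_le_mul (by linarith) h1.le (norm_nonneg _) (by linarith)
  have e4 : (C + 1) * (ε / (C + 1)) = ε := by field_simp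
  rwa [e4] at this

end LIDM

open LIDM in
theorem specLID (hNID : SpecNID) (hLMT : SpecLMT) (hRNF : SpecRNF) : SpecLID := by
  intro T m R ρ p e hF F F₁ s₁ hL hb φ φ' hd hφ' s t hs hst ht D
  have hφc : ContinuousOn φ (Icc 0 m) := fun r hr => (hd r hr).continuousAt.continuousWithinAt
  have hsub : Icc s t ⊆ Ico 0 T := fun x hx => ⟨hs.trans hx.1, hx.2.trans_lt ht⟩
  have hsI : s ∈ Ico 0 T := ⟨hs, lt_of_le_of_lt hst ht⟩
  have htI : t ∈ Ico 0 T := ⟨hs.trans hst, ht⟩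
  have cρ : ContinuousOn ρ (Ico 0 T) := hF.lawρ.cf
  have cp : ContinuousOn p (Ico 0 T) := hF.lawp.cf
  have ce : ContinuousOn e (Ico 0 T) := by
    have h2 : ContinuousOn (fun t => (4⁻¹ : ℝ) • ((4 : ℝ) • e t)) (Ico 0 T) :=
      hF.lawp.cF.const_smul (4⁻¹ : ℝ)
    refine h2.congr fun t _ => ?_
    show e t = (4⁻¹ : ℝ) • ((4 : ℝ) • e t)
    rw [smul_smul, inv_mul_cancel₀ (by norm_num : (4:ℝ) ≠ 0), one_smul]
  have cE : ContinuousOn (fun t => ∫ a, e t a) (Ico 0 T) := continuous_integral.comp_continuousOn ce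
  obtain ⟨Cφ, hCφ⟩ := isCompact_Icc.exists_bound_of_continuousOn hφc
  obtain ⟨Cψ, hCψ⟩ := isCompact_Icc.exists_bound_of_continuousOn hφ'
  have hR0 : ∀ r ∈ Ico 0 T, 0 ≤ R r := by
    intro r hr
    obtain ⟨a, ha⟩ := (hF.pos r hr).exists
    exact ha.1.trans ha.2.2.2
  have hlm : ∀ r ∈ Ico 0 T, ∀ᵐ a : ℝ, 0 ≤ ρ r a ∧ ρ r a ≤ R r ∧ 0 ≤ e r a ∧
      p r a ^ 2 ≤ ρ r a * e r a := by
    intro r hr
    filter_upwards [hF.pos r hr] with a h
    exact ⟨h.1, h.2.2.2, h.2.1, h.2.2.1⟩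
  -- the limits at a fixed time
  have L1' := fun r (hr : r ∈ Ico 0 T) (G : L1) => (hLMT (ρ r) (p r) (e r) G G m (R r) (hR0 r hr)
    (hlm r hr) (hF.mass r hr) φ hφc).1
  have L2' := fun r (hr : r ∈ Ico 0 T) => (hLMT (ρ r) (p r) (e r) (F r) (F₁ r) m (R r) (hR0 r hr)
    (hlm r hr) (hF.mass r hr) φ' hφ').2.1 (by
      filter_upwards [hb r hr] with a h; exact h.1)
  have L3' := fun r (hr : r ∈ Ico 0 T) => (hLMT (ρ r) (p r) (e r) (F r) (F₁ r) m (R r) (hR0 r hr)
    (hlm r hr) (hF.mass r hr) φ' hφ').2.2 (by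
      filter_upwards [hb r hr] with a h; exact h.2)
  -- the integrands
  set I : ℕ → ℝ → ℝ := fun n r => ((∫ a, (-4 * (φ' (Rn n (ρ r) a) * qc n (p r) a)) * F r a)
          + (∫ a, (φ' (Rn n (ρ r) a) * qc n (ρ r) a) * F₁ r a) + ∫ a, φ (Rn n (ρ r) a) * s₁ r a)
    with hI
  have hI1 : ∀ n r, I n r = -4 * (∫ a, (φ' (Rn n (ρ r) a) * qc n (p r) a) * F r a)
          + (∫ a, (φ' (Rn n (ρ r) a) * qc n (ρ r) a) * F₁ r a) + ∫ a, φ (Rn n (ρ r) a) * s₁ r a := by
    intro n r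
    rw [hI]
    simp only
    congr 2
    rw [← integral_const_mul]
    refine integral_congr_ae (ae_of_all _ fun a => ?_)
    show (-4 * (φ' (Rn n (ρ r) a) * qc n (p r) a)) * F r a =
      -4 * ((φ' (Rn n (ρ r) a) * qc n (p r) a) * F r a)
    ring
  have hlim : ∀ r ∈ Ico 0 T, Tendsto (fun n : ℕ => I n r) atTop (𝓝 (D r)) := by
    intro r hr
    simp only [hI1]
    exact (((L2' r hr).1.const_mul (-4)).add (L3' r hr).1).add (L1' r hr (s₁ r))
  -- bounds
  set Bd : ℝ → ℝ := fun r => 8 * Cψ * R r * (∫ a, e r a) + Cφ * ‖s₁ r‖ with hBd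
  have cBd : ContinuousOn Bd (Ico 0 T) :=
    ((continuousOn_const.mul hF.cR).mul cE).add (continuousOn_const.mul hL.cs.norm)
  have hRn : ∀ n : ℕ, 1 ≤ n → ∀ r ∈ Ico 0 T, ∀ a, 0 ≤ Rn n (ρ r) a ∧ Rn n (ρ r) a ≤ m := by
    intro n hn r hr a
    obtain ⟨C, -, h1, -⟩ := hRNF n hn
    have := h1 (ρ r) m (by filter_upwards [hF.pos r hr] with a h; exact h.1) (hF.mass r hr) a
    exact ⟨this.1, this.2.1⟩
  have hnorm : ∀ g : L1, ‖g‖ = ∫ b, ‖g b‖ := fun g => L1.norm_eq_integral_norm g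
  have hbound : ∀ n : ℕ, 1 ≤ n → ∀ r ∈ Ico 0 T, |I n r| ≤ Bd r := by
    intro n hn r hr
    rw [hI1]
    have b1 := (L2' r hr).2 Cψ (fun x hx => hCψ x hx) n hn
    have b2 := (L3' r hr).2 Cψ (fun x hx => hCψ x hx) n hn
    have b3 : |∫ a, φ (Rn n (ρ r) a) * s₁ r a| ≤ Cφ * ‖s₁ r‖ := by
      rw [hnorm (s₁ r), ← integral_const_mul, ← Real.norm_eq_abs]
      refine norm_integral_le_of_norm_le ((int_g (s₁ r)).norm.const_mul _)
        (ae_of_all _ fun a => ?_)
      rw [norm_mul]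
      exact mul_le_mul_of_nonneg_right
        (hCφ _ ⟨(hRn n hn r hr a).1, (hRn n hn r hr a).2⟩) (norm_nonneg _)
    have b4 : |(-4 * ∫ a, (φ' (Rn n (ρ r) a) * qc n (p r) a) * F r a)| ≤
        4 * (Cψ * R r * ∫ a, e r a) := by
      rw [abs_mul]
      have : |(-4 : ℝ)| = 4 := by norm_num
      rw [this]
      exact mul_le_mul_of_nonneg_left b1 (by norm_num)
    calc |(-4 * ∫ a, (φ' (Rn n (ρ r) a) * qc n (p r) a) * F r a)
            + (∫ a, (φ' (Rn n (ρ r) a) * qc n (ρ r) a) * F₁ r a)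
            + ∫ a, φ (Rn n (ρ r) a) * s₁ r a|
        ≤ |(-4 * ∫ a, (φ' (Rn n (ρ r) a) * qc n (p r) a) * F r a)
            + (∫ a, (φ' (Rn n (ρ r) a) * qc n (ρ r) a) * F₁ r a)|
            + |∫ a, φ (Rn n (ρ r) a) * s₁ r a| := abs_add_le _ _
      _ ≤ (|(-4 * ∫ a, (φ' (Rn n (ρ r) a) * qc n (p r) a) * F r a)|
            + |∫ a, (φ' (Rn n (ρ r) a) * qc n (ρ r) a) * F₁ r a|)
            + |∫ a, φ (Rn n (ρ r) a) * s₁ r a| := by gcongr; exact abs_add_le _ _
      _ ≤ (4 * (Cψ * R r * ∫ a, e r a) + 4 * Cψ * R r * ∫ a, e r a) + Cφ * ‖s₁ r‖ := by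
          gcongr
      _ = Bd r := by rw [hBd]; ring
  -- continuity in time
  have hcont : ∀ n : ℕ, 1 ≤ n → ContinuousOn (I n) (Ico 0 T) := by
    intro n hn
    obtain ⟨C, hC, h1, h2, h3, h4, -, -⟩ := hRNF n hn
    have hRc : ∀ g : L1, Continuous (Rn n g) := fun g =>
      continuous_iff_continuousAt.2 fun a => (h2 g a).1.continuousAt
    have uG : ∀ {ψ : ℝ → ℝ}, ContinuousOn ψ (Icc 0 m) → ∀ t ∈ Ico 0 T, ∀ ε : ℝ, 0 < ε →
        ∃ δ : ℝ, 0 < δ ∧ ∀ r ∈ Ico 0 T, |r - t| < δ → ∀ a,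
          |ψ (Rn n (ρ r) a) - ψ (Rn n (ρ t) a)| ≤ ε := by
      intro ψ hψ
      refine comp_unif hψ (fun r hr a => hRn n hn r hr a) (N := fun r t => 1 * ‖ρ r - ρ t‖)
        (norm_unif cρ 1 zero_le_one) ?_
      intro r _ t _ a
      rw [one_mul]
      exact (h4 (ρ r) (ρ t) a).1
    have uq : ∀ {g : ℝ → L1}, ContinuousOn g (Ico 0 T) → ∀ t ∈ Ico 0 T, ∀ ε : ℝ, 0 < ε →
        ∃ δ : ℝ, 0 < δ ∧ ∀ r ∈ Ico 0 T, |r - t| < δ → ∀ a,
          |qc n (g r) a - qc n (g t) a| ≤ ε := by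
      intro g hg t ht ε hε
      obtain ⟨δ, hδ, h⟩ := norm_unif hg C hC.le t ht ε hε
      exact ⟨δ, hδ, fun r hr hrt a => ((h4 (g r) (g t) a).2).trans (h r hr hrt)⟩
    have wc : ∀ {ψ : ℝ → ℝ}, ContinuousOn ψ (Icc 0 m) → ∀ r ∈ Ico 0 T,
        Continuous fun a => ψ (Rn n (ρ r) a) := fun hψ r hr =>
      hψ.comp_continuous (hRc _) fun a => ⟨(hRn n hn r hr a).1, (hRn n hn r hr a).2⟩
    have c1 : ∀ {g : ℝ → L1}, ContinuousOn g (Ico 0 T) → ∀ {f : ℝ → L1},
        ContinuousOn f (Ico 0 T) →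
        ContinuousOn (fun r => ∫ a, (φ' (Rn n (ρ r) a) * qc n (g r) a) * f r a) (Ico 0 T) := by
      intro g hg f hf
      have hA : ∀ r ∈ Ico 0 T, ∀ a, |φ' (Rn n (ρ r) a)| ≤ Cψ := fun r hr a =>
        hCψ _ ⟨(hRn n hn r hr a).1, (hRn n hn r hr a).2⟩
      have hB : ∀ r ∈ Ico 0 T, ∃ C' : ℝ, ∀ a, |qc n (g r) a| ≤ C' := fun r _ =>
        ⟨C * ‖g r‖, fun a => (h2 (g r) a).2⟩
      refine pair_cont (B := fun r a => φ' (Rn n (ρ r) a) * qc n (g r) a) ?_ ?_ ?_ hf
      · intro r hr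
        exact (wc hφ' r hr).mul (h3 _)
      · intro r hr
        obtain ⟨C', hC'⟩ := hB r hr
        refine ⟨Cψ * C', fun a => ?_⟩
        rw [abs_mul]
        exact mul_le_mul (hA r hr a) (hC' a) (abs_nonneg _) ((abs_nonneg _).trans (hA r hr a))
      · exact mul_unif hA hB (uG hφ') (uq hg)
    have c3 : ContinuousOn (fun r => ∫ a, φ (Rn n (ρ r) a) * s₁ r a) (Ico 0 T) := by
      refine pair_cont (B := fun r a => φ (Rn n (ρ r) a)) (fun r hr => wc hφc r hr) ?_ (uG hφc)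
        hL.cs
      intro r hr
      exact ⟨Cφ, fun a => hCφ _ ⟨(hRn n hn r hr a).1, (hRn n hn r hr a).2⟩⟩
    have hfin : ContinuousOn (fun r => -4 * (∫ a, (φ' (Rn n (ρ r) a) * qc n (p r) a) * F r a)
          + (∫ a, (φ' (Rn n (ρ r) a) * qc n (ρ r) a) * F₁ r a)
          + ∫ a, φ (Rn n (ρ r) a) * s₁ r a) (Ico 0 T) :=
      ((continuousOn_const.mul (c1 cp hL.cf)).add (c1 cρ hL.cF)).add c3
    exact hfin.congr fun r _ => hI1 n r
  -- dominated convergence
  have hmeas : ∀ n : ℕ, 1 ≤ n → AEStronglyMeasurable (I n) (volume.restrict (uIoc s t)) := by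
    intro n hn
    rw [uIoc_of_le hst]
    exact ((hcont n hn).mono (Ioc_subset_Icc_self.trans hsub)).aestronglyMeasurable
      measurableSet_Ioc
  have iBd : IntervalIntegrable Bd volume s t := by
    apply ContinuousOn.intervalIntegrable
    rw [uIcc_of_le hst]
    exact cBd.mono hsub
  have hDint : IntervalIntegrable D volume s t := by
    have hm : AEStronglyMeasurable D (volume.restrict (uIoc s t)) := by
      refine aestronglyMeasurable_of_tendsto_ae (u := atTop)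
        (f := fun n r => I (n + 1) r) (fun n => hmeas (n + 1) (by omega)) ?_
      rw [ae_restrict_iff' measurableSet_uIoc]
      refine ae_of_all _ fun r hr => ?_
      rw [uIoc_of_le hst] at hr
      exact (hlim r (hsub ⟨hr.1.le, hr.2⟩)).comp (tendsto_add_atTop_nat 1)
    refine iBd.mono_fun' hm ?_
    rw [Filter.EventuallyLE, ae_restrict_iff' measurableSet_uIoc]
    refine ae_of_all _ fun r hr => ?_
    rw [uIoc_of_le hst] at hr
    have hrI := hsub ⟨hr.1.le, hr.2⟩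
    have h1 : Tendsto (fun n : ℕ => |I n r|) atTop (𝓝 |D r|) := (hlim r hrI).abs
    exact le_of_tendsto h1 (eventually_atTop.2 ⟨1, fun n hn => hbound n hn r hrI⟩)
  refine ⟨hDint, ?_⟩
  have hconv : Tendsto (fun n : ℕ => ∫ r in s..t, I n r) atTop (𝓝 (∫ r in s..t, D r)) := by
    refine intervalIntegral.tendsto_integral_filter_of_dominated_convergence Bd ?_ ?_ iBd ?_
    · exact eventually_atTop.2 ⟨1, fun n hn => hmeas n hn⟩
    · refine eventually_atTop.2 ⟨1, fun n hn => ae_of_all _ fun r hr => ?_⟩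
      rw [uIoc_of_le hst] at hr
      exact hbound n hn r (hsub ⟨hr.1.le, hr.2⟩)
    · refine ae_of_all _ fun r hr => ?_
      rw [uIoc_of_le hst] at hr
      exact hlim r (hsub ⟨hr.1.le, hr.2⟩)
  have hleft : Tendsto (fun n : ℕ => (∫ a, φ (Rn n (ρ t) a) * F t a) -
      ∫ a, φ (Rn n (ρ s) a) * F s a) atTop
      (𝓝 ((∫ a, φ (Rm (ρ t) a) * F t a) - ∫ a, φ (Rm (ρ s) a) * F s a)) :=
    (L1' t htI (F t)).sub (L1' s hsI (F s))
  refine tendsto_nhds_unique hleft (hconv.congr' ?_)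
  refine eventually_atTop.2 ⟨1, fun n hn => ?_⟩
  exact (hNID T m R ρ p e hF F F₁ s₁ hL φ φ' hd hφ' n hn s t hs hst ht).symm

end Pool.Agent.Lib.MP424d38.TH
end
end

section
/-!
# Block TH, module LMT: the limit at a fixed time
-/
set_option autoImplicit false

open MeasureTheory Filter Topology Set
open scoped ENNReal ContDiff ComplexConjugate

noncomputable section

namespace Pool.Agent.Lib.MP424d38.TH

open Pool.Agent.Lib.MP424d38.TY Pool.Agent.Lib.MP424d38.ES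

namespace LMTM

theorem int_mul {A : ℝ → ℝ} {C : ℝ} (hA : Continuous A) (hC : ∀ a, |A a| ≤ C) (g : L1) :
    Integrable (fun a => A a * g a) := by
  refine (L1.integrable_coeFn g).bdd_mul (c := C) hA.aestronglyMeasurable ?_
  exact ae_of_all _ fun a => hC a

theorem abs_int_le {A : ℝ → ℝ} {C : ℝ} (hC : ∀ a, |A a| ≤ C) (g : L1) :
    |∫ a, A a * g a| ≤ C * ‖g‖ := by
  have h1 : ‖g‖ = ∫ b, ‖g b‖ := L1.norm_eq_integral_norm g
  rw [h1, ← integral_const_mul, ← Real.norm_eq_abs]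
  refine norm_integral_le_of_norm_le ((L1.integrable_coeFn g).norm.const_mul C)
    (ae_of_all _ fun b => ?_)
  rw [norm_mul]
  exact mul_le_mul_of_nonneg_right (hC _) (norm_nonneg _)

/-- product with a bounded continuous function -/
def mW {W : ℝ → ℝ} {K : ℝ} (hW : Continuous W) (hK : ∀ a, |W a| ≤ K) (h : L1) : L1 :=
  (int_mul hW hK h).toL1 _

theorem mW_coe {W : ℝ → ℝ} {K : ℝ} (hW : Continuous W) (hK : ∀ a, |W a| ≤ K) (h : L1) :
    ∀ᵐ a : ℝ, mW hW hK h a = W a * h a := (int_mul hW hK h).coeFn_toL1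

theorem rep (hKPF : SpecKPF) {n : ℕ} (hn : 1 ≤ n) {W : ℝ → ℝ} {K : ℝ} (hW : Continuous W)
    (hK : ∀ a, |W a| ≤ K) (g h : L1) :
    (∫ a, (W a * qc n g a) * h a) =
      (∫ u, deriv (kap n) u * ∫ v, mW hW hK h (v + u) * g v) / 2 ∧
    Integrable (fun u => deriv (kap n) u * ∫ v, mW hW hK h (v + u) * g v) := by
  obtain ⟨-, -, ⟨hc, C, hC⟩, -⟩ := hKPF n hn
  have hs := GLMM.shear (deriv (kap n)) C hc.continuous (fun s => (hC s).1) (mW hW hK h) g
  refine ⟨?_, hs.2⟩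
  rw [← hs.1]
  set f : L1 := mW hW hK h with hf
  have h0 : Integrable (fun z : ℝ × ℝ => f z.1 * g z.2) (volume.prod volume) :=
    (L1.integrable_coeFn f).mul_prod (L1.integrable_coeFn g)
  have h1 : Integrable (fun z : ℝ × ℝ => deriv (kap n) (z.1 - z.2) * (f z.1 * g z.2))
      (volume.prod volume) := by
    refine h0.bdd_mul (c := C) ?_ (ae_of_all _ fun z => (hC _).1)
    exact (hc.continuous.comp (continuous_fst.sub continuous_snd)).aestronglyMeasurable
  have h2 : DD (deriv (kap n)) f g = ∫ a, (2 * qc n g a) * f a := by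
    unfold DD
    rw [Measure.volume_eq_prod, integral_prod _ h1]
    refine integral_congr_ae (ae_of_all _ fun a => ?_)
    show ∫ b, deriv (kap n) (a - b) * (f a * g b) = (2 * qc n g a) * f a
    unfold qc
    rw [← integral_const_mul, ← integral_mul_const]
    refine integral_congr_ae (ae_of_all _ fun b => ?_)
    simp only []
    ring
  have h3 : (∫ a, (W a * qc n g a) * h a) = ∫ a, ((2 * qc n g a) * f a) / 2 := by
    refine integral_congr_ae ?_
    filter_upwards [mW_coe hW hK h] with a ha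
    rw [hf, ha]
    ring
  rw [h3, h2, integral_div]

/-- correlation of a bounded function with an integrable one -/
theorem contL1 (f ρ : L1) (R₀ : ℝ) (hR : 0 ≤ R₀) (hρb : ∀ᵐ a : ℝ, ‖ρ a‖ ≤ R₀) :
    Continuous fun u => ∫ v, f (v + u) * ρ v := by
  have hρi := L1.integrable_coeFn ρ
  have h1 : ∀ f : L1, Integrable (fun v => f v * ρ v) := fun f => by
    have := (L1.integrable_coeFn f).bdd_mul (c := R₀) hρi.aestronglyMeasurable hρb
    exact this.congr (Eventually.of_forall fun v => mul_comm _ _)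
  have h2 : Continuous fun f : L1 => ∫ v, f v * ρ v := by
    have : LipschitzWith (Real.toNNReal R₀) fun f : L1 => ∫ v, f v * ρ v := by
      apply LipschitzWith.of_dist_le_mul
      intro f g
      rw [Real.dist_eq, ← integral_sub (h1 f) (h1 g), dist_eq_norm, L1.norm_eq_integral_norm,
        Real.coe_toNNReal R₀ hR, ← integral_const_mul, ← Real.norm_eq_abs]
      apply norm_integral_le_of_norm_le ((L1.integrable_coeFn (f - g)).norm.const_mul R₀)
      filter_upwards [hρb, Lp.coeFn_sub f g] with a ha hb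
      rw [hb, Pi.sub_apply, ← sub_mul, norm_mul, mul_comm]
      exact mul_le_mul_of_nonneg_right ha (norm_nonneg _)
    exact this.continuous
  have h3 : (fun u => ∫ v, f (v + u) * ρ v) =
      (fun f : L1 => ∫ v, f v * ρ v) ∘ fun z => GLMM.tr 1 z f := by
    funext z
    simp only [Function.comp]
    apply integral_congr_ae
    filter_upwards [GLMM.tr_coe 1 z f] with a ha
    rw [ha]
  rw [h3]
  exact h2.comp (GLMM.tr_cont 1 ENNReal.one_ne_top f)

/-- correlation of two square integrable functions -/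
theorem contL2 (f g : L1) (hf2 : Integrable (fun a => f a ^ 2))
    (hg2 : Integrable (fun a => g a ^ 2)) : Continuous fun u => ∫ v, f (v + u) * g v := by
  have hfL : MemLp (fun a => f a) 2 volume := by
    rw [memLp_two_iff_integrable_sq (L1.integrable_coeFn f).aestronglyMeasurable]; exact hf2
  have hgL : MemLp (fun a => g a) 2 volume := by
    rw [memLp_two_iff_integrable_sq (L1.integrable_coeFn g).aestronglyMeasurable]; exact hg2
  set P : Lp ℝ 2 (volume : Measure ℝ) := hfL.toLp _ with hP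
  set Q : Lp ℝ 2 (volume : Measure ℝ) := hgL.toLp _ with hQ
  have hPc : ∀ᵐ a : ℝ, P a = f a := hfL.coeFn_toLp
  have hQc : ∀ᵐ a : ℝ, Q a = g a := hgL.coeFn_toLp
  have hG2 : (fun u => ∫ v, f (v + u) * g v) = fun u => inner ℝ (GLMM.tr 2 u P) Q := by
    funext u
    rw [L2.inner_def]
    apply integral_congr_ae
    have h2 : ∀ᵐ a : ℝ, P (a + u) = f (a + u) :=
      (measurePreserving_add_right volume u).quasiMeasurePreserving.ae hPc
    filter_upwards [GLMM.tr_coe 2 u P, hQc, h2] with a ha hb hc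
    rw [ha, hb, hc]
    simp [mul_comm]
  rw [hG2]
  exact (GLMM.tr_cont 2 ENNReal.ofNat_ne_top P).inner continuous_const

/-- the abstract limit: a family of functionals, bounded by the sup norm -/
theorem lim {J : ℕ → (ℝ → ℝ) → ℝ} {L D : ℝ} {w : ℕ → ℝ → ℝ} {w₀ : ℝ → ℝ} (hD : 0 ≤ D)
    (hJ : ∀ n : ℕ, 1 ≤ n → ∀ ε : ℝ, 0 < ε → (∀ a, |w n a - w₀ a| ≤ ε) →
      |J n (w n) - J n w₀| ≤ ε * D)
    (hu : ∀ ε : ℝ, 0 < ε → ∀ᶠ n : ℕ in atTop, ∀ a, |w n a - w₀ a| ≤ ε)
    (hL : Tendsto (fun n => J n w₀) atTop (𝓝 L)) : Tendsto (fun n => J n (w n)) atTop (𝓝 L) := by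
  rw [Metric.tendsto_nhds] at hL ⊢
  intro ε hε
  have h1 := hu (ε / (2 * (D + 1))) (by positivity)
  filter_upwards [hL (ε / 2) (by positivity), h1, eventually_ge_atTop 1] with n hn1 hn2 hn3
  have h2 := hJ n hn3 _ (by positivity) hn2
  rw [Real.dist_eq] at hn1 ⊢
  have h3 : ε / (2 * (D + 1)) * D ≤ ε / 2 := by
    calc ε / (2 * (D + 1)) * D ≤ ε / (2 * (D + 1)) * (D + 1) :=
          mul_le_mul_of_nonneg_left (by linarith) (by positivity)
      _ = ε / 2 := by field_simp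
  have h4 := abs_add_le (J n (w n) - J n w₀) (J n w₀ - L)
  rw [sub_add_sub_cancel] at h4
  linarith

end LMTM

open LMTM in
theorem specLMT (hRNF : SpecRNF) (hRMF : SpecRMF) (hKPF : SpecKPF) : SpecLMT := by
  intro ρ p e F G m R₀ hR₀ hpos hm ψ hψ
  have hei := L1.integrable_coeFn e
  have hρi := L1.integrable_coeFn ρ
  obtain ⟨hRc, -, hRb⟩ := hRMF ρ m R₀ (hpos.mono fun a ha => ⟨ha.1, ha.2.1⟩) hm
  have hm0 : 0 ≤ m := (hRb 0).1.trans (hRb 0).2
  have hn' : ∀ n : ℕ, 1 ≤ n → (∀ a, 0 ≤ Rn n ρ a ∧ Rn n ρ a ≤ m) ∧ Continuous (Rn n ρ) ∧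
      (∀ g : L1, Continuous (qc n g)) ∧ (∀ g : L1, ∃ C : ℝ, ∀ a, |qc n g a| ≤ C) ∧
      ∀ a, |Rn n ρ a - Rm ρ a| ≤ 2 * R₀ / n := by
    intro n hn
    obtain ⟨C, hC, h1, h2, h3, -, -, h6⟩ := hRNF n hn
    refine ⟨fun a => ⟨(h1 ρ m (hpos.mono fun a ha => ha.1) hm a).1,
      (h1 ρ m (hpos.mono fun a ha => ha.1) hm a).2.1⟩, ?_, h3, fun g => ⟨C * ‖g‖, fun a =>
        (h2 g a).2⟩, h6 ρ R₀ (hpos.mono fun a ha => ⟨ha.1, ha.2.1⟩)⟩
    exact continuous_iff_continuousAt.2 fun a => (h2 ρ a).1.continuousAt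
  obtain ⟨K, hK⟩ := isCompact_Icc.exists_bound_of_continuousOn hψ
  have hψn : ∀ n : ℕ, 1 ≤ n → Continuous fun a => ψ (Rn n ρ a) := fun n hn =>
    hψ.comp_continuous (hn' n hn).2.1 (hn' n hn).1
  have hψm : Continuous fun a => ψ (Rm ρ a) := hψ.comp_continuous hRc hRb
  have hunif : ∀ ε : ℝ, 0 < ε → ∀ᶠ n : ℕ in atTop, ∀ a, |ψ (Rn n ρ a) - ψ (Rm ρ a)| ≤ ε := by
    intro ε hε
    have h1 := isCompact_Icc.uniformContinuousOn_of_continuous hψ
    rw [Metric.uniformContinuousOn_iff] at h1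
    obtain ⟨δ, hδ, h2⟩ := h1 ε hε
    have h3 : Tendsto (fun n : ℕ => 2 * R₀ / (n : ℝ)) atTop (𝓝 0) :=
      tendsto_const_div_atTop_nhds_zero_nat _
    have h4 : ∀ᶠ n : ℕ in atTop, 2 * R₀ / (n : ℝ) < δ := h3.eventually (gt_mem_nhds hδ)
    filter_upwards [h4, eventually_ge_atTop 1] with n hn1 hn2 a
    have h5 := h2 _ ((hn' n hn2).1 a) _ (hRb a) (by
      rw [Real.dist_eq]
      exact ((hn' n hn2).2.2.2.2 a).trans_lt hn1)
    rw [Real.dist_eq] at h5
    exact h5.le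
  set E : ℝ := R₀ * ∫ a, e a with hE
  have he0 : 0 ≤ ∫ a, e a := integral_nonneg_of_ae (hpos.mono fun a ha => ha.2.2.1)
  have hE0 : 0 ≤ E := mul_nonneg hR₀ he0
  have hρb : ∀ᵐ a : ℝ, ‖ρ a‖ ≤ R₀ := by
    filter_upwards [hpos] with a ha
    rw [Real.norm_eq_abs, abs_of_nonneg ha.1]; exact ha.2.1
  have hρe : Integrable (fun a => ρ a * e a) := hei.bdd_mul (c := R₀) hρi.aestronglyMeasurable hρb
  -- squares
  have hsq : ∀ g : L1, (∀ᵐ a : ℝ, g a ^ 2 ≤ ρ a * e a) →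
      Integrable (fun a => g a ^ 2) ∧ (∫ a, g a ^ 2) ≤ E := by
    intro g hg
    have hi : Integrable (fun a => g a ^ 2) := by
      refine hρe.mono' ((L1.integrable_coeFn g).aestronglyMeasurable.pow 2) ?_
      filter_upwards [hg] with a ha
      rw [Real.norm_eq_abs, abs_of_nonneg (sq_nonneg _)]
      exact ha
    refine ⟨hi, ?_⟩
    rw [hE, ← integral_const_mul]
    refine integral_mono_ae hi (hei.const_mul R₀) ?_
    filter_upwards [hpos, hg] with a ha hga
    exact hga.trans (mul_le_mul_of_nonneg_right ha.2.1 ha.2.2.1)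
  -- integrability of the integrands
  have hJi : ∀ n : ℕ, 1 ≤ n → ∀ (W : ℝ → ℝ) (C : ℝ), Continuous W → (∀ a, |W a| ≤ C) →
      ∀ g h : L1, Integrable fun a => (W a * qc n g a) * h a := by
    intro n hn W C hW hC g h
    obtain ⟨C', hC'⟩ := (hn' n hn).2.2.2.1 g
    refine int_mul (C := C * C') (hW.mul ((hn' n hn).2.2.1 g)) (fun a => ?_) h
    show |W a * qc n g a| ≤ C * C'
    rw [abs_mul]
    exact mul_le_mul (hC a) (hC' a) (abs_nonneg _) ((abs_nonneg _).trans (hC a))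
  have hKb : ∀ a, |ψ (Rm ρ a)| ≤ K := fun a => hK _ (hRb a)
  have hKn : ∀ n : ℕ, 1 ≤ n → ∀ a, |ψ (Rn n ρ a)| ≤ K := fun n hn a => hK _ ((hn' n hn).1 a)
  -- the transfer from a bound of the functionals
  have hdiff : ∀ (g h : L1) (D : ℝ), (∀ n : ℕ, 1 ≤ n → ∀ (W : ℝ → ℝ) (C : ℝ), Continuous W →
      (∀ a, |W a| ≤ C) → |∫ a, (W a * qc n g a) * h a| ≤ C * D) →
      ∀ n : ℕ, 1 ≤ n → ∀ ε : ℝ, 0 < ε → (∀ a, |ψ (Rn n ρ a) - ψ (Rm ρ a)| ≤ ε) →
      |(∫ a, (ψ (Rn n ρ a) * qc n g a) * h a) - ∫ a, (ψ (Rm ρ a) * qc n g a) * h a| ≤ ε * D := by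
    intro g h D hD n hn ε hε hw
    have h1 := hD n hn (fun a => ψ (Rn n ρ a) - ψ (Rm ρ a)) ε ((hψn n hn).sub hψm) hw
    rw [← integral_sub (hJi n hn _ K (hψn n hn) (hKn n hn) g h)
      (hJi n hn _ K hψm hKb g h)]
    refine le_of_eq_of_le ?_ h1
    congr 1
    refine integral_congr_ae (ae_of_all _ fun a => ?_)
    simp only []
    ring
  refine ⟨?_, fun hF => ?_, fun hG => ?_⟩
  · -- part 1
    refine lim (J := fun _ W => ∫ a, W a * F a) (w := fun n a => ψ (Rn n ρ a))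
      (w₀ := fun a => ψ (Rm ρ a)) (D := ‖F‖) (norm_nonneg _) ?_ hunif tendsto_const_nhds
    intro n hn ε hε hw
    show |(∫ a, ψ (Rn n ρ a) * F a) - ∫ a, ψ (Rm ρ a) * F a| ≤ ε * ‖F‖
    rw [← integral_sub (int_mul (hψn n hn) (hKn n hn) F) (int_mul hψm hKb F)]
    refine le_of_eq_of_le ?_ (abs_int_le hw F)
    congr 1
    refine integral_congr_ae (ae_of_all _ fun a => ?_)
    simp only []
    ring
  · -- part 2
    obtain ⟨hF2, hFE⟩ := hsq F hF
    obtain ⟨hp2, hpE⟩ := hsq p (hpos.mono fun a ha => ha.2.2.2)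
    have hb : ∀ n : ℕ, 1 ≤ n → ∀ (W : ℝ → ℝ) (C : ℝ), Continuous W → (∀ a, |W a| ≤ C) →
        |∫ a, (W a * qc n p a) * F a| ≤ C * E := by
      intro n hn W C hW hC
      have hC0 : 0 ≤ C := (abs_nonneg _).trans (hC 0)
      obtain ⟨h1, -⟩ := rep hKPF hn hW hC p F
      have h2 : ∀ u, |∫ v, mW hW hC F (v + u) * p v| ≤ C * E := by
        intro u
        have hFu : Integrable fun v => F (v + u) ^ 2 := hF2.comp_add_right u
        have h3 : (∫ v, (C / 2) * (F (v + u) ^ 2 + p v ^ 2)) ≤ C * E := by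
          rw [integral_const_mul, integral_add hFu hp2,
            integral_add_right_eq_self (fun v => F v ^ 2) u]
          have : C / 2 * ((∫ v, F v ^ 2) + ∫ v, p v ^ 2) ≤ C / 2 * (E + E) :=
            mul_le_mul_of_nonneg_left (by linarith) (by positivity)
          linarith
        refine le_trans ?_ h3
        rw [← Real.norm_eq_abs]
        apply norm_integral_le_of_norm_le ((hFu.add hp2).const_mul (C / 2))
        have h4 : ∀ᵐ v : ℝ, mW hW hC F (v + u) = W (v + u) * F (v + u) :=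
          (measurePreserving_add_right volume u).quasiMeasurePreserving.ae (mW_coe hW hC F)
        filter_upwards [h4] with v hv
        rw [hv, Real.norm_eq_abs, abs_mul, abs_mul]
        have h5 : |F (v + u)| * |p v| ≤ (F (v + u) ^ 2 + p v ^ 2) / 2 := by
          have h6 := sq_nonneg (|F (v + u)| - |p v|)
          have h7 := sq_abs (F (v + u))
          have h8 := sq_abs (p v)
          nlinarith
        have h6 := mul_le_mul (hC (v + u)) h5 (by positivity) hC0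
        show |W (v + u)| * |F (v + u)| * |p v| ≤ C / 2 * (F (v + u) ^ 2 + p v ^ 2)
        linarith [mul_assoc |W (v + u)| |F (v + u)| |p v|]
      have h3 := GLMM.bound hKPF _ _ h2 n hn
      rw [h1, abs_div, abs_of_pos (by norm_num : (0 : ℝ) < 2)]
      linarith
    have hW2 : Integrable fun a => mW hψm hKb F a ^ 2 := by
      refine (hF2.const_mul (K ^ 2)).mono'
        ((L1.integrable_coeFn (mW hψm hKb F)).aestronglyMeasurable.pow 2) ?_
      filter_upwards [mW_coe hψm hKb F] with a ha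
      rw [ha, Real.norm_eq_abs, abs_of_nonneg (sq_nonneg _), mul_pow]
      refine mul_le_mul_of_nonneg_right ?_ (sq_nonneg _)
      rw [← sq_abs (ψ (Rm ρ a))]
      exact pow_le_pow_left₀ (abs_nonneg _) (hKb a) 2
    refine ⟨?_, fun Cψ hCψ n hn => ?_⟩
    · refine lim (J := fun n W => ∫ a, (W a * qc n p a) * F a) (w := fun n a => ψ (Rn n ρ a))
        (w₀ := fun a => ψ (Rm ρ a)) (D := E) hE0 (hdiff p F E hb) hunif ?_
      have h1 := (GLMM.approx hKPF _ (contL2 (mW hψm hKb F) p hW2 hp2)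
        (fun n hn => (rep hKPF hn hψm hKb p F).2)).div_const 2
      have h2 : (2 * ∫ v, mW hψm hKb F (v + 0) * p v) / 2 = ∫ a, ψ (Rm ρ a) * (p a * F a) := by
        rw [mul_div_cancel_left₀ _ (two_ne_zero)]
        refine integral_congr_ae ?_
        filter_upwards [mW_coe hψm hKb F] with a ha
        rw [add_zero, ha]
        ring
      rw [h2] at h1
      refine h1.congr' ?_
      filter_upwards [eventually_ge_atTop 1] with n hn
      exact (rep hKPF hn hψm hKb p F).1.symm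
    · have h1 := hb n hn (fun a => ψ (Rn n ρ a)) Cψ (hψn n hn) (fun a => hCψ _ ((hn' n hn).1 a))
      rw [hE, ← mul_assoc] at h1
      exact h1
  · -- part 3
    have hGi := L1.integrable_coeFn G
    have hb : ∀ n : ℕ, 1 ≤ n → ∀ (W : ℝ → ℝ) (C : ℝ), Continuous W → (∀ a, |W a| ≤ C) →
        |∫ a, (W a * qc n ρ a) * G a| ≤ C * (4 * E) := by
      intro n hn W C hW hC
      have hC0 : 0 ≤ C := (abs_nonneg _).trans (hC 0)
      obtain ⟨h1, -⟩ := rep hKPF hn hW hC ρ G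
      have h2 : ∀ u, |∫ v, mW hW hC G (v + u) * ρ v| ≤ C * (4 * E) := by
        intro u
        have heu : Integrable fun v => e (v + u) := hei.comp_add_right u
        have h3 : (∫ v, (C * (4 * R₀)) * e (v + u)) = C * (4 * E) := by
          rw [integral_const_mul, integral_add_right_eq_self (fun v => e v) u, hE]
          ring
        rw [← h3, ← Real.norm_eq_abs]
        apply norm_integral_le_of_norm_le (heu.const_mul _)
        have h4 : ∀ᵐ v : ℝ, mW hW hC G (v + u) = W (v + u) * G (v + u) :=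
          (measurePreserving_add_right volume u).quasiMeasurePreserving.ae (mW_coe hW hC G)
        have h5 : ∀ᵐ v : ℝ, |G (v + u)| ≤ 4 * e (v + u) :=
          (measurePreserving_add_right volume u).quasiMeasurePreserving.ae hG
        filter_upwards [h4, h5, hρb] with v hv hv2 hv3
        rw [hv, Real.norm_eq_abs, abs_mul, abs_mul]
        rw [Real.norm_eq_abs] at hv3
        have h6 := mul_le_mul (mul_le_mul (hC (v + u)) hv2 (abs_nonneg _) hC0) hv3 (abs_nonneg _)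
          (mul_nonneg hC0 ((abs_nonneg _).trans hv2))
        show |W (v + u)| * |G (v + u)| * |ρ v| ≤ C * (4 * R₀) * e (v + u)
        refine h6.trans (le_of_eq ?_)
        ring
      have h3 := GLMM.bound hKPF _ _ h2 n hn
      rw [h1, abs_div, abs_of_pos (by norm_num : (0 : ℝ) < 2)]
      linarith
    refine ⟨?_, fun Cψ hCψ n hn => ?_⟩
    · refine lim (J := fun n W => ∫ a, (W a * qc n ρ a) * G a) (w := fun n a => ψ (Rn n ρ a))
        (w₀ := fun a => ψ (Rm ρ a)) (D := 4 * E) (by positivity) (hdiff ρ G (4 * E) hb) hunif ?_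
      have h1 := (GLMM.approx hKPF _ (contL1 (mW hψm hKb G) ρ R₀ hR₀ hρb)
        (fun n hn => (rep hKPF hn hψm hKb ρ G).2)).div_const 2
      have h2 : (2 * ∫ v, mW hψm hKb G (v + 0) * ρ v) / 2 = ∫ a, ψ (Rm ρ a) * (ρ a * G a) := by
        rw [mul_div_cancel_left₀ _ (two_ne_zero)]
        refine integral_congr_ae ?_
        filter_upwards [mW_coe hψm hKb G] with a ha
        rw [add_zero, ha]
        ring
      rw [h2] at h1
      refine h1.congr' ?_
      filter_upwards [eventually_ge_atTop 1] with n hn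
      exact (rep hKPF hn hψm hKb ρ G).1.symm
    · have h1 := hb n hn (fun a => ψ (Rn n ρ a)) Cψ (hψn n hn) (fun a => hCψ _ ((hn' n hn).1 a))
      refine h1.trans (le_of_eq ?_)
      rw [hE]
      ring

end Pool.Agent.Lib.MP424d38.TH
end
end

section
/-!
# Module NID: the mollified identity
-/
set_option autoImplicit false

open MeasureTheory Filter Topology Set
open scoped ENNReal ContDiff ComplexConjugate

noncomputable section

namespace Pool.Agent.Lib.MP424d38.TH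

open Pool.Agent.Lib.MP424d38.TY Pool.Agent.Lib.MP424d38.ES

theorem specNID (hTDT : SpecTDT) (hRNF : SpecRNF) : SpecNID := by
  intro T m R ρ p e hfl F F₁ s₁ hlaw φ φ' hφ hφ' n hn s t h0 hst htT
  obtain ⟨C, hC, hR1, hR2, hR3, hR4, hR5, -⟩ := hRNF n hn
  have hpos : ∀ t ∈ Ico 0 T, ∀ᵐ a : ℝ, 0 ≤ ρ t a := fun t ht => by
    filter_upwards [hfl.pos t ht] with a ha
    exact ha.1
  have hin : ∀ t ∈ Ico 0 T, ∀ a, Rn n (ρ t) a ∈ Icc 0 m := fun t ht a =>
    ⟨(hR1 (ρ t) m (hpos t ht) (hfl.mass t ht) a).1, (hR1 (ρ t) m (hpos t ht) (hfl.mass t ht) a).2.1⟩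
  have hφc : ContinuousOn φ (Icc 0 m) := fun r hr => (hφ r hr).continuousAt.continuousWithinAt
  obtain ⟨M0, hM0⟩ := isCompact_Icc.exists_bound_of_continuousOn hφc
  obtain ⟨M1, hM1⟩ := isCompact_Icc.exists_bound_of_continuousOn hφ'
  have huc : UniformContinuousOn φ' (Icc 0 m) := isCompact_Icc.uniformContinuousOn_of_continuous hφ'
  have hcρ : ContinuousOn ρ (Ico 0 T) := hfl.lawρ.cf
  have hcp : ContinuousOn p (Ico 0 T) := by
    have h1 := (hfl.lawρ.cF).const_smul ((4 : ℝ)⁻¹)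
    refine h1.congr fun r _ => ?_
    show p r = (4 : ℝ)⁻¹ • ((4 : ℝ) • p r)
    rw [smul_smul]
    norm_num
  have hRc : ∀ g : L1, Continuous (Rn n g) := fun g =>
    continuous_iff_continuousAt.2 fun a => (hR2 g a).1.continuousAt
  -- continuity in time at fixed `a`
  have hlip : ∀ (K : L1 → ℝ) (D : ℝ), (∀ g g', |K g - K g'| ≤ D * ‖g - g'‖) → Continuous K := by
    intro K D hK
    have : LipschitzWith (Real.toNNReal D) K := by
      refine LipschitzWith.of_dist_le_mul fun g g' => ?_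
      rw [Real.dist_eq, dist_eq_norm]
      exact (hK g g').trans (mul_le_mul_of_nonneg_right (Real.le_coe_toNNReal D) (norm_nonneg _))
    exact this.continuous
  have hRK : ∀ a, Continuous fun g : L1 => Rn n g a := fun a =>
    hlip _ 1 fun g g' => by rw [one_mul]; exact (hR4 g g' a).1
  have hqK : ∀ a, Continuous fun g : L1 => qc n g a := fun a =>
    hlip _ C fun g g' => (hR4 g g' a).2
  have hRt : ∀ a, ContinuousOn (fun r => Rn n (ρ r) a) (Ico 0 T) := fun a =>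
    (hRK a).comp_continuousOn hcρ
  have hqt : ∀ a, ContinuousOn (fun r => qc n (p r) a) (Ico 0 T) := fun a =>
    (hqK a).comp_continuousOn hcp
  -- the general estimate of products
  have hprod : ∀ g : ℝ → L1, ContinuousOn g (Ico 0 T) → ∀ t ∈ Ico 0 T, ∀ ε : ℝ, 0 < ε →
      ∃ δ : ℝ, 0 < δ ∧ ∀ r ∈ Ico 0 T, |r - t| < δ → ∀ a,
        |φ' (Rn n (ρ r) a) * qc n (g r) a - φ' (Rn n (ρ t) a) * qc n (g t) a| ≤ ε := by
    intro g hg t ht ε hε
    have hM1' : 0 ≤ M1 := (norm_nonneg _).trans (hM1 _ (hin t ht 0))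
    set A : ℝ := C * ‖g t‖ + 1 with hA
    have hApos : 0 < A := by positivity
    obtain ⟨δ1, hδ1, hd1⟩ := Metric.uniformContinuousOn_iff.1 huc (ε / (2 * A)) (by positivity)
    set D : ℝ := M1 * C + 1 with hD
    have hDpos : 0 < D := by positivity
    obtain ⟨δ2, hδ2, hd2⟩ := Metric.continuousOn_iff.1 hcρ t ht δ1 hδ1
    obtain ⟨δ3, hδ3, hd3⟩ := Metric.continuousOn_iff.1 hg t ht (ε / (2 * D)) (by positivity)
    refine ⟨min δ2 δ3, lt_min hδ2 hδ3, fun r hr hrt a => ?_⟩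
    have h1 : dist (ρ r) (ρ t) < δ1 := hd2 r hr (by
      rw [Real.dist_eq]; exact hrt.trans_le (min_le_left _ _))
    have h2 : dist (g r) (g t) < ε / (2 * D) := hd3 r hr (by
      rw [Real.dist_eq]; exact hrt.trans_le (min_le_right _ _))
    rw [dist_eq_norm] at h1 h2
    have h3 : dist (Rn n (ρ r) a) (Rn n (ρ t) a) < δ1 := by
      rw [Real.dist_eq]
      exact (hR4 (ρ r) (ρ t) a).1.trans_lt h1
    have h4 := hd1 _ (hin r hr a) _ (hin t ht a) h3
    rw [Real.dist_eq] at h4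
    have h5 : φ' (Rn n (ρ r) a) * qc n (g r) a - φ' (Rn n (ρ t) a) * qc n (g t) a =
        φ' (Rn n (ρ r) a) * (qc n (g r) a - qc n (g t) a) +
          (φ' (Rn n (ρ r) a) - φ' (Rn n (ρ t) a)) * qc n (g t) a := by ring
    rw [h5]
    refine (abs_add_le _ _).trans ?_
    rw [abs_mul, abs_mul]
    have h6 : |φ' (Rn n (ρ r) a)| ≤ M1 := hM1 _ (hin r hr a)
    have h7 : |qc n (g r) a - qc n (g t) a| ≤ C * ‖g r - g t‖ := (hR4 _ _ a).2
    have h8 : |qc n (g t) a| ≤ C * ‖g t‖ := (hR2 (g t) a).2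
    have h9 : |φ' (Rn n (ρ r) a)| * |qc n (g r) a - qc n (g t) a| ≤ ε / 2 := by
      calc |φ' (Rn n (ρ r) a)| * |qc n (g r) a - qc n (g t) a|
          ≤ M1 * (C * ‖g r - g t‖) := mul_le_mul h6 h7 (abs_nonneg _) hM1'
        _ = (M1 * C) * ‖g r - g t‖ := by ring
        _ ≤ D * ‖g r - g t‖ := mul_le_mul_of_nonneg_right (by rw [hD]; linarith) (norm_nonneg _)
        _ ≤ D * (ε / (2 * D)) := mul_le_mul_of_nonneg_left h2.le hDpos.le
        _ = ε / 2 := by field_simp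
    have h10 : |φ' (Rn n (ρ r) a) - φ' (Rn n (ρ t) a)| * |qc n (g t) a| ≤ ε / 2 := by
      calc |φ' (Rn n (ρ r) a) - φ' (Rn n (ρ t) a)| * |qc n (g t) a|
          ≤ (ε / (2 * A)) * A := mul_le_mul h4.le (h8.trans (by rw [hA]; linarith))
            (abs_nonneg _) (by positivity)
        _ = ε / 2 := by field_simp
    linarith
  refine hTDT T F F₁ s₁ hlaw (fun t a => φ (Rn n (ρ t) a))
    (fun t a => φ' (Rn n (ρ t) a) * qc n (ρ t) a)
    (fun t a => -4 * (φ' (Rn n (ρ t) a) * qc n (p t) a)) ?_ ?_ ?_ ?_ s t h0 hst htT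
  · intro r hr
    have hder : ∀ a, HasDerivAt (fun a => φ (Rn n (ρ r) a))
        (φ' (Rn n (ρ r) a) * qc n (ρ r) a) a := fun a =>
      (hφ _ (hin r hr a)).comp a (hR2 (ρ r) a).1
    have hφ'c : Continuous fun a => φ' (Rn n (ρ r) a) :=
      hφ'.comp_continuous (hRc (ρ r)) fun a => hin r hr a
    have hde : deriv (fun a => φ (Rn n (ρ r) a)) = fun a => φ' (Rn n (ρ r) a) * qc n (ρ r) a :=
      funext fun a => (hder a).deriv
    have hM1' : 0 ≤ M1 := (norm_nonneg _).trans (hM1 _ (hin r hr 0))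
    have hbd : ∀ (g : L1) (a : ℝ), |φ' (Rn n (ρ r) a) * qc n g a| ≤ M1 * (C * ‖g‖) := by
      intro g a
      rw [abs_mul]
      exact mul_le_mul (hM1 _ (hin r hr a)) (hR2 g a).2 (abs_nonneg _) hM1'
    refine ⟨⟨?_, max M0 (M1 * (C * ‖ρ r‖)), fun a => ⟨?_, ?_⟩⟩, hde, ?_, ?_⟩
    · rw [contDiff_one_iff_deriv]
      refine ⟨fun a => (hder a).differentiableAt, ?_⟩
      rw [hde]
      exact hφ'c.mul (hR3 (ρ r))
    · exact (hM0 _ (hin r hr a)).trans (le_max_left _ _)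
    · rw [hde]
      exact (hbd (ρ r) a).trans (le_max_right _ _)
    · exact continuous_const.mul (hφ'c.mul (hR3 (p r)))
    · refine ⟨4 * (M1 * (C * ‖p r‖)), fun a => ?_⟩
      show |-4 * (φ' (Rn n (ρ r) a) * qc n (p r) a)| ≤ _
      rw [abs_mul, abs_neg, abs_of_pos (by norm_num : (0 : ℝ) < 4)]
      exact mul_le_mul_of_nonneg_left (hbd (p r) a) (by norm_num)
  · intro r hr ε hε
    obtain ⟨δ1, hδ1, h1⟩ := hprod ρ hcρ r hr ε hε
    obtain ⟨δ2, hδ2, h2⟩ := hprod p hcp r hr (ε / 4) (by positivity)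
    refine ⟨min δ1 δ2, lt_min hδ1 hδ2, fun r' hr' hd a => ⟨?_, ?_⟩⟩
    · exact h1 r' hr' (hd.trans_le (min_le_left _ _)) a
    · have h3 := h2 r' hr' (hd.trans_le (min_le_right _ _)) a
      show |-4 * (φ' (Rn n (ρ r') a) * qc n (p r') a) - -4 * (φ' (Rn n (ρ r) a) * qc n (p r) a)| ≤ ε
      rw [← mul_sub, abs_mul, abs_neg, abs_of_pos (by norm_num : (0 : ℝ) < 4)]
      linarith
  · intro a
    exact hφc.comp (hRt a) fun r hr => hin r hr a
  · intro a r hr
    have hrI : r ∈ Ico 0 T := ⟨hr.1.le, hr.2⟩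
    have hGc : ContinuousOn (fun x => -4 * qc n (p x) a) (Ico 0 T) :=
      continuousOn_const.mul (hqt a)
    have hnhds : Ioo 0 T ∈ 𝓝 r := isOpen_Ioo.mem_nhds hr
    have hd : HasDerivAt (fun x => Rn n (ρ x) a) (-4 * qc n (p r) a) r := by
      have h1 : HasDerivAt (fun x => ∫ y in (0 : ℝ)..x, -4 * qc n (p y) a) (-4 * qc n (p r) a) r := by
        refine intervalIntegral.integral_hasDerivAt_right ?_ ?_ ?_
        · refine ContinuousOn.intervalIntegrable ?_
          rw [uIcc_of_le hr.1.le]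
          exact hGc.mono fun x hx => ⟨hx.1, hx.2.trans_lt hr.2⟩
        · exact (hGc.mono Ioo_subset_Ico_self).stronglyMeasurableAtFilter isOpen_Ioo r hr
        · exact (hGc.mono Ioo_subset_Ico_self).continuousAt hnhds
      have h2 := h1.const_add (Rn n (ρ 0) a)
      refine h2.congr_of_eventuallyEq ?_
      filter_upwards [hnhds] with x hx
      have h3 := hR5 T ρ p hfl.lawρ a 0 x le_rfl hx.1.le hx.2
      rw [← h3]
      ring
    have h4 := (hφ _ (hin r hrI a)).comp r hd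
    refine h4.congr_deriv ?_
    show φ' (Rn n (ρ r) a) * (-4 * qc n (p r) a) = -4 * (φ' (Rn n (ρ r) a) * qc n (p r) a)
    ring

end Pool.Agent.Lib.MP424d38.TH
end
end

section
/-!
# Block TH, module RMF: facts on the mass coordinate
-/
set_option autoImplicit false

open MeasureTheory Filter Topology Set
open scoped ENNReal ContDiff ComplexConjugate

noncomputable section

namespace Pool.Agent.Lib.MP424d38.TH

open Pool.Agent.Lib.MP424d38.TY Pool.Agent.Lib.MP424d38.ES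

theorem specRMF : SpecRMF := by
  intro ρ m R₀ hρ hm
  have hi : Integrable (fun a => ρ a) := L1.integrable_coeFn ρ
  have h0 : ∀ᵐ a : ℝ, 0 ≤ ρ a := hρ.mono fun a h => h.1
  have hR : ∀ᵐ a : ℝ, ρ a ≤ R₀ := hρ.mono fun a h => h.2
  -- monotone
  have hmono : Monotone (Rm ρ) := by
    intro a b hab
    unfold Rm
    exact setIntegral_mono_set hi.integrableOn (ae_restrict_of_ae h0)
      (Iio_subset_Iio hab).eventuallyLE
  -- increments
  have hinc : ∀ a b : ℝ, a ≤ b → Rm ρ b - Rm ρ a ≤ R₀ * (b - a) := by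
    intro a b hab
    have hU : Iio b = Iio a ∪ Ico a b := (Iio_union_Ico_eq_Iio hab).symm
    have hd : Disjoint (Iio a) (Ico a b) := by
      rw [Set.disjoint_left]
      intro x hx hx'
      exact absurd hx' (fun h => not_lt.2 h.1 hx)
    have e1 : Rm ρ b = Rm ρ a + ∫ x in Ico a b, ρ x := by
      unfold Rm
      rw [hU, setIntegral_union hd measurableSet_Ico hi.integrableOn hi.integrableOn]
    have e2 : (∫ x in Ico a b, ρ x) ≤ ∫ x in Ico a b, R₀ := by
      refine setIntegral_mono_ae hi.integrableOn ?_ hR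
      exact integrableOn_const (by simp)
    rw [setIntegral_const, smul_eq_mul] at e2
    have e3 : (volume : Measure ℝ).real (Ico a b) = b - a := by
      rw [Measure.real, Real.volume_Ico, ENNReal.toReal_ofReal (by linarith)]
    rw [e3] at e2
    linarith
  have hR0 : 0 ≤ R₀ := by
    obtain ⟨a, ha⟩ := hρ.exists
    exact ha.1.trans ha.2
  have hcont : Continuous (Rm ρ) := by
    have : LipschitzWith R₀.toNNReal (Rm ρ) := by
      refine LipschitzWith.of_dist_le_mul fun a b => ?_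
      rw [Real.coe_toNNReal R₀ hR0, Real.dist_eq, Real.dist_eq]
      rcases le_total a b with h | h
      · rw [abs_sub_comm, abs_of_nonneg (sub_nonneg.2 (hmono h)), abs_sub_comm,
          abs_of_nonneg (sub_nonneg.2 h)]
        exact hinc a b h
      · rw [abs_of_nonneg (sub_nonneg.2 (hmono h)), abs_of_nonneg (sub_nonneg.2 h)]
        exact hinc b a h
    exact this.continuous
  refine ⟨hcont, hmono, fun a => ⟨?_, ?_⟩⟩
  · unfold Rm
    exact setIntegral_nonneg_of_ae_restrict (ae_restrict_of_ae h0)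
  · unfold Rm
    rw [← hm]
    exact setIntegral_le_integral hi h0

end Pool.Agent.Lib.MP424d38.TH
end
end
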