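import Pool.Agent.Lib.MP_424d38_an.TH.SpecA

section
/-!
# FIX: the inequality for fixed `v`
-/
set_option autoImplicit false

open MeasureTheory Filter Topology Set
open scoped ENNReal ContDiff ComplexConjugate FourierTransform

noncomputable section

namespace Pool.Agent.Lib.MP424d38.TH

open Pool.Agent.Lib.MP424d38.TY Pool.Agent.Lib.MP424d38.ES

namespace FIXM

theorem amgm {c u u' : ℝ} (hc : 0 ≤ c) (hu : 0 ≤ u) (hu' : 0 ≤ u') (h : c ^ 2 ≤ 4 * (u * u'))
    (a b : ℝ≥0∞) :
    ENNReal.ofReal c * (a * b) ≤ ENNReal.ofReal u * a ^ 2 + ENNReal.ofReal u' * b ^ 2 := by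
  rcases hc.eq_or_lt with h0 | h0
  · rw [← h0, ENNReal.ofReal_zero, zero_mul]
    exact zero_le
  have h1 : 0 < u * u' := by nlinarith
  have hu0 : 0 < u := by
    rcases hu.eq_or_lt with h2 | h2
    · rw [← h2, zero_mul] at h1
      exact absurd h1 (lt_irrefl _)
    · exact h2
  have hu0' : 0 < u' := by
    rcases hu'.eq_or_lt with h2 | h2
    · rw [← h2, mul_zero] at h1
      exact absurd h1 (lt_irrefl _)
    · exact h2
  by_cases ha : a = ⊤
  · have h2 : ENNReal.ofReal u * a ^ 2 = ⊤ := by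
      rw [ha]
      have : (⊤ : ℝ≥0∞) ^ 2 = ⊤ := by simp
      rw [this]
      exact ENNReal.mul_top (by simpa using hu0)
    rw [h2, top_add]
    exact le_top
  by_cases hb : b = ⊤
  · have h2 : ENNReal.ofReal u' * b ^ 2 = ⊤ := by
      rw [hb]
      have : (⊤ : ℝ≥0∞) ^ 2 = ⊤ := by simp
      rw [this]
      exact ENNReal.mul_top (by simpa using hu0')
    rw [h2, add_top]
    exact le_top
  have ea : a = ENNReal.ofReal a.toReal := (ENNReal.ofReal_toReal ha).symm
  have eb : b = ENNReal.ofReal b.toReal := (ENNReal.ofReal_toReal hb).symm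
  have ha0 : 0 ≤ a.toReal := ENNReal.toReal_nonneg
  have hb0 : 0 ≤ b.toReal := ENNReal.toReal_nonneg
  set s := a.toReal with hs
  set t := b.toReal with ht
  rw [ea, eb, ← ENNReal.ofReal_mul ha0, ← ENNReal.ofReal_mul hc, ← ENNReal.ofReal_pow ha0,
    ← ENNReal.ofReal_pow hb0, ← ENNReal.ofReal_mul hu, ← ENNReal.ofReal_mul hu',
    ← ENNReal.ofReal_add (by positivity) (by positivity)]
  refine ENNReal.ofReal_le_ofReal ?_
  have h2 : 0 ≤ u * (u * s ^ 2 + u' * t ^ 2 - c * (s * t)) := by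
    have h3 : u * (u * s ^ 2 + u' * t ^ 2 - c * (s * t)) =
        (u * s - c * t / 2) ^ 2 + (u * u' - c ^ 2 / 4) * t ^ 2 := by ring
    rw [h3]
    have h4 : 0 ≤ (u * u' - c ^ 2 / 4) * t ^ 2 := mul_nonneg (by linarith) (sq_nonneg _)
    positivity
  have h3 := nonneg_of_mul_nonneg_right h2 hu0
  linarith

/-- half of the weight of `E(x)²` -/
def uu (v α x y : ℝ) : ℝ :=
  if |x - y| ≤ v then
    if 0 ≤ x then (if 0 ≤ y then 0 else -y * (c0 * α * v ^ 2 / (v - x) ^ 2))
    else if x ≤ -v then (if y ≤ -v then 0 else (v + y) * (c0 * v ^ 2 / (α * (2 * v + x) ^ 2)))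
    else if 0 ≤ y then -x * ((v - y) ^ 2 / (c0 * α * v ^ 2))
    else if y ≤ -v then (v + x) * (α * (2 * v + y) ^ 2 / (c0 * v ^ 2))
    else if x < y then (y - x) * α⁻¹ else (x - y) * α
  else 0

theorem c0_pos : 0 < c0 := by unfold c0; norm_num

theorem uu_nonneg {v α : ℝ} (hv : 0 < v) (hα : 0 < α) (x y : ℝ) : 0 ≤ uu v α x y := by
  have hc := c0_pos
  unfold uu
  split_ifs with h1 h2 h3 h4 h5 h6 h7 h8
  · exact le_rfl
  · exact mul_nonneg (by linarith) (by positivity)
  · exact le_rfl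
  · exact mul_nonneg (by linarith) (by positivity)
  · exact mul_nonneg (by linarith) (by positivity)
  · exact mul_nonneg (by linarith) (by positivity)
  · exact mul_nonneg (by linarith) (by positivity)
  · exact mul_nonneg (by linarith) (by positivity)
  · exact le_rfl

theorem uu_meas (v α : ℝ) : Measurable fun p : ℝ × ℝ => uu v α p.1 p.2 := by
  unfold uu
  refine Measurable.ite ?_ (Measurable.ite ?_ (Measurable.ite ?_ ?_ ?_) (Measurable.ite ?_
    (Measurable.ite ?_ ?_ ?_) (Measurable.ite ?_ ?_ (Measurable.ite ?_ ?_ (Measurable.ite ?_ ?_ ?_)))))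
    measurable_const
  · exact measurableSet_le (by fun_prop) measurable_const
  · exact measurableSet_le measurable_const measurable_fst
  · exact measurableSet_le measurable_const measurable_snd
  · exact measurable_const
  · fun_prop
  · exact measurableSet_le measurable_fst measurable_const
  · exact measurableSet_le measurable_snd measurable_const
  · exact measurable_const
  · fun_prop
  · exact measurableSet_le measurable_const measurable_snd
  · fun_prop
  · exact measurableSet_le measurable_snd measurable_const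
  · fun_prop
  · exact measurableSet_lt measurable_fst measurable_snd
  · fun_prop
  · fun_prop

theorem cl_eq {v : ℝ} (hv : 0 < v) (x : ℝ) : (0 ≤ x → |x + v| - |x| = v) ∧
    (x ≤ -v → |x + v| - |x| = -v) ∧ (-v ≤ x → x ≤ 0 → |x + v| - |x| = v + 2 * x) := by
  refine ⟨fun h => ?_, fun h => ?_, fun h h' => ?_⟩
  · rw [abs_of_nonneg (by linarith), abs_of_nonneg h]
    ring
  · rw [abs_of_nonpos (by linarith), abs_of_nonpos (by linarith)]
    ring
  · rw [abs_of_nonneg (by linarith), abs_of_nonpos h']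
    ring

theorem uR0 {v α x y : ℝ} (h : |x - y| ≤ v) (hx : 0 ≤ x) (hy : 0 ≤ y) : uu v α x y = 0 := by
  unfold uu
  rw [if_pos h, if_pos hx, if_pos hy]

theorem uR1 {v α x y : ℝ} (h : |x - y| ≤ v) (hx : 0 ≤ x) (hy : y < 0) :
    uu v α x y = -y * (c0 * α * v ^ 2 / (v - x) ^ 2) := by
  unfold uu
  rw [if_pos h, if_pos hx, if_neg (not_le.2 hy)]

theorem uL0 {v α x y : ℝ} (hv : 0 < v) (h : |x - y| ≤ v) (hx : x ≤ -v) (hy : y ≤ -v) :
    uu v α x y = 0 := by
  unfold uu
  rw [if_pos h, if_neg (by linarith), if_pos hx, if_pos hy]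

theorem uL1 {v α x y : ℝ} (hv : 0 < v) (h : |x - y| ≤ v) (hx : x ≤ -v) (hy : -v < y) :
    uu v α x y = (v + y) * (c0 * v ^ 2 / (α * (2 * v + x) ^ 2)) := by
  unfold uu
  rw [if_pos h, if_neg (by linarith), if_pos hx, if_neg (not_le.2 hy)]

theorem uI1 {v α x y : ℝ} (h : |x - y| ≤ v) (hx : x < 0) (hx' : -v < x) (hy : 0 ≤ y) :
    uu v α x y = -x * ((v - y) ^ 2 / (c0 * α * v ^ 2)) := by
  unfold uu
  rw [if_pos h, if_neg (not_le.2 hx), if_neg (not_le.2 hx'), if_pos hy]

theorem uI2 {v α x y : ℝ} (hv : 0 < v) (h : |x - y| ≤ v) (hx : x < 0) (hx' : -v < x)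
    (hy : y ≤ -v) :
    uu v α x y = (v + x) * (α * (2 * v + y) ^ 2 / (c0 * v ^ 2)) := by
  unfold uu
  rw [if_pos h, if_neg (not_le.2 hx), if_neg (not_le.2 hx'), if_neg (by linarith), if_pos hy]

theorem uI3 {v α x y : ℝ} (h : |x - y| ≤ v) (hx : x < 0) (hx' : -v < x) (hy : y < 0)
    (hy' : -v < y) (hxy : x < y) : uu v α x y = (y - x) * α⁻¹ := by
  unfold uu
  rw [if_pos h, if_neg (not_le.2 hx), if_neg (not_le.2 hx'), if_neg (not_le.2 hy),
    if_neg (not_le.2 hy'), if_pos hxy]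

theorem uI4 {v α x y : ℝ} (h : |x - y| ≤ v) (hx : x < 0) (hx' : -v < x) (hy : y < 0)
    (hy' : -v < y) (hxy : y ≤ x) : uu v α x y = (x - y) * α := by
  unfold uu
  rw [if_pos h, if_neg (not_le.2 hx), if_neg (not_le.2 hx'), if_neg (not_le.2 hy),
    if_neg (not_le.2 hy'), if_neg (not_lt.2 hxy)]

theorem pair1 {v α : ℝ} (hv : 0 < v) (hα : 0 < α) (x y : ℝ) (hxy : |x - y| ≤ v) (h : y ≤ x) :
    (Sg (v, x, y)) ^ 2 ≤ 4 * (uu v α x y * uu v α y x) := by
  have hc := c0_pos
  have hc0 : c0 ≠ 0 := hc.ne'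
  have hv0 : v ≠ 0 := hv.ne'
  have hα0 : α ≠ 0 := hα.ne'
  have hc1 : 1 ≤ c0 := by unfold c0; norm_num
  have hyx : |y - x| ≤ v := by rwa [abs_sub_comm]
  have hS : Sg (v, x, y) = (|x + v| - |x|) - (|y + v| - |y|) := by
    simp only [Sg]
    ring
  obtain ⟨hx1, hx2, hx3⟩ := cl_eq hv x
  obtain ⟨hy1, hy2, hy3⟩ := cl_eq hv y
  rw [hS]
  obtain ⟨hl, hr⟩ := abs_le.1 hxy
  by_cases h0x : 0 ≤ x
  · rw [hx1 h0x]
    by_cases h0y : 0 ≤ y
    · rw [hy1 h0y, uR0 hxy h0x h0y]
      simp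
    · push Not at h0y
      by_cases hvy : y ≤ -v
      · have ey : y = -v := by linarith
        have ex : x = 0 := by linarith
        rw [hy2 hvy, uR1 hxy h0x h0y, uL1 hv hyx hvy (by linarith), ey, ex]
        have e1 : -(-v) * (c0 * α * v ^ 2 / (v - 0) ^ 2) *
            ((v + 0) * (c0 * v ^ 2 / (α * (2 * v + -v) ^ 2))) = c0 ^ 2 * v ^ 2 := by
          have : 2 * v + -v = v := by ring
          rw [this, sub_zero, add_zero]
          field_simp
        rw [e1]
        have h2 : 1 ≤ c0 ^ 2 := by nlinarith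
        nlinarith [mul_nonneg (sub_nonneg.2 h2) (sq_nonneg v)]
      · push Not at hvy
        rw [hy3 hvy.le h0y.le, uR1 hxy h0x h0y, uI1 hyx h0y hvy h0x]
        have hvx : v - x ≠ 0 := by
          have : 0 < v - x := by linarith
          exact this.ne'
        apply le_of_eq
        field_simp
        ring
  · push Not at h0x
    have h0y : y < 0 := by linarith
    by_cases hvx : x ≤ -v
    · rw [hx2 hvx, hy2 (h.trans hvx), uL0 hv hxy hvx (h.trans hvx)]
      simp
    · push Not at hvx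
      rw [hx3 hvx.le h0x.le]
      by_cases hvy : y ≤ -v
      · rw [hy2 hvy, uI2 hv hxy h0x hvx hvy, uL1 hv hyx hvy hvx]
        obtain ⟨w, hw⟩ : ∃ w, w = 2 * v + y := ⟨_, rfl⟩
        have h2v : w ≠ 0 := by
          have : 0 < w := by rw [hw]; linarith
          exact this.ne'
        rw [← hw]
        apply le_of_eq
        field_simp
        ring
      · push Not at hvy
        rw [hy3 hvy.le h0y.le, uI4 hxy h0x hvx h0y hvy h]
        rcases h.eq_or_lt with he | hlt
        · rw [he]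
          simp
        · rw [uI3 hyx h0y hvy h0x hvx hlt]
          apply le_of_eq
          field_simp
          ring

theorem pair {v α : ℝ} (hv : 0 < v) (hα : 0 < α) (x y : ℝ) (hxy : |x - y| ≤ v) :
    |Sg (v, x, y)| ^ 2 ≤ 4 * (uu v α x y * uu v α y x) := by
  rw [sq_abs]
  rcases le_total y x with h | h
  · exact pair1 hv hα x y hxy h
  · have h1 := pair1 hv hα y x (by rwa [abs_sub_comm]) h
    have h2 : Sg (v, x, y) = -Sg (v, y, x) := by
      simp only [Sg]
      ring
    rw [h2, neg_sq, mul_comm (uu v α x y)]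
    exact h1

theorem lint {f : ℝ → ℝ} (hf : Continuous f) {a b : ℝ} (hab : a ≤ b)
    (h0 : ∀ y ∈ Icc a b, 0 ≤ f y) :
    ∫⁻ y in Icc a b, ENNReal.ofReal (f y) = ENNReal.ofReal (∫ y in a..b, f y) := by
  rw [intervalIntegral.integral_of_le hab, ← integral_Icc_eq_integral_Ioc,
    ofReal_integral_eq_lintegral_ofReal (hf.continuousOn.integrableOn_Icc)]
  exact (ae_restrict_iff' measurableSet_Icc).2 (Eventually.of_forall h0)

theorem poly {s : ℝ} (h0 : 0 ≤ s) (h1 : s ≤ 1) : s + 2 * (1 - s ^ 3) / (3 * c0) ≤ c0 := by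
  have hc := c0_pos
  have h2 : s + 2 * (1 - s ^ 3) / (3 * c0) - c0 =
      (3 * c0 * s + 2 * (1 - s ^ 3) - 3 * c0 ^ 2) / (3 * c0) := by
    field_simp
  have h3 : 3 * c0 * s + 2 * (1 - s ^ 3) - 3 * c0 ^ 2 ≤ 0 := by
    unfold c0
    nlinarith [mul_nonneg (add_nonneg h0 (by norm_num : (0 : ℝ) ≤ 2 * 0.7423))
      (sq_nonneg (s - 0.7423))]
  have h4 : (3 * c0 * s + 2 * (1 - s ^ 3) - 3 * c0 ^ 2) / (3 * c0) ≤ 0 :=
    div_nonpos_of_nonpos_of_nonneg h3 (by positivity)
  linarith

theorem poly2 {v s : ℝ} (hv : 0 < v) (h0 : 0 ≤ s) (h1 : s ≤ v) :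
    s ^ 2 + 2 * s * ((v ^ 3 - s ^ 3) / 3) / (c0 * v ^ 2) ≤ c0 * v * s := by
  have hc := c0_pos
  have h2 := poly (s := s / v) (by positivity) ((div_le_one hv).2 h1)
  have h3 := mul_le_mul_of_nonneg_left h2 (show 0 ≤ s * v by positivity)
  have e1 : s * v * (s / v + 2 * (1 - (s / v) ^ 3) / (3 * c0)) =
      s ^ 2 + 2 * s * ((v ^ 3 - s ^ 3) / 3) / (c0 * v ^ 2) := by
    field_simp
  rw [e1] at h3
  linarith

/-- the integral of the weight -/
theorem weight {v α : ℝ} (hv : 0 < v) (hα : 0 < α) (x : ℝ) :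
    ∫⁻ y, ENNReal.ofReal (uu v α x y) ≤ ENNReal.ofReal (c0 * v * wt α v x / 2) := by
  have hc := c0_pos
  by_cases h0x : 0 ≤ x
  · by_cases hvx : x < v
    · have h1 : ∀ y, ENNReal.ofReal (uu v α x y) ≤ (Icc (x - v) 0).indicator
          (fun y => ENNReal.ofReal (-y * (c0 * α * v ^ 2 / (v - x) ^ 2))) y := by
        intro y
        unfold uu
        by_cases hxy : |x - y| ≤ v
        · rw [if_pos hxy, if_pos h0x]
          by_cases h0y : 0 ≤ y
          · rw [if_pos h0y, ENNReal.ofReal_zero]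
            exact zero_le
          · rw [if_neg h0y]
            push Not at h0y
            obtain ⟨hl, hr⟩ := abs_le.1 hxy
            rw [indicator_of_mem (show y ∈ Icc (x - v) 0 from ⟨by linarith, h0y.le⟩)]
        · rw [if_neg hxy, ENNReal.ofReal_zero]
          exact zero_le
      refine (lintegral_mono h1).trans ?_
      rw [lintegral_indicator measurableSet_Icc, lint (by fun_prop) (by linarith)
        (fun y hy => mul_nonneg (by linarith [hy.2]) (by positivity))]
      refine ENNReal.ofReal_le_ofReal (le_of_eq ?_)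
      rw [intervalIntegral.integral_mul_const, intervalIntegral.integral_neg, integral_id]
      unfold wt
      rw [max_eq_left (by linarith : (0 : ℝ) ≤ x + v), max_eq_left h0x]
      have hvx' : v - x ≠ 0 := by linarith
      field_simp
      ring
    · push Not at hvx
      have h1 : ∀ᵐ y : ℝ, ENNReal.ofReal (uu v α x y) = 0 := by
        refine Eventually.of_forall fun y => ?_
        unfold uu
        by_cases hxy : |x - y| ≤ v
        · obtain ⟨hl, hr⟩ := abs_le.1 hxy
          rw [if_pos hxy, if_pos h0x, if_pos (by linarith), ENNReal.ofReal_zero]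
        · rw [if_neg hxy, ENNReal.ofReal_zero]
      rw [lintegral_congr_ae h1, lintegral_zero]
      exact zero_le
  · push Not at h0x
    by_cases hvx : x ≤ -v
    · by_cases h2v : -(2 * v) < x
      · have h1 : ∀ y, ENNReal.ofReal (uu v α x y) ≤ (Icc (-v) (x + v)).indicator
            (fun y => ENNReal.ofReal ((v + y) * (c0 * v ^ 2 / (α * (2 * v + x) ^ 2)))) y := by
          intro y
          unfold uu
          by_cases hxy : |x - y| ≤ v
          · rw [if_pos hxy, if_neg (by linarith), if_pos hvx]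
            by_cases h0y : y ≤ -v
            · rw [if_pos h0y, ENNReal.ofReal_zero]
              exact zero_le
            · rw [if_neg h0y]
              push Not at h0y
              obtain ⟨hl, hr⟩ := abs_le.1 hxy
              rw [indicator_of_mem (show y ∈ Icc (-v) (x + v) from ⟨h0y.le, by linarith⟩)]
          · rw [if_neg hxy, ENNReal.ofReal_zero]
            exact zero_le
        refine (lintegral_mono h1).trans ?_
        rw [lintegral_indicator measurableSet_Icc, lint (by fun_prop) (by linarith)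
          (fun y hy => mul_nonneg (by linarith [hy.1]) (by positivity))]
        refine ENNReal.ofReal_le_ofReal (le_of_eq ?_)
        rw [intervalIntegral.integral_mul_const,
          intervalIntegral.integral_add (by simp) intervalIntegral.intervalIntegrable_id, integral_id,
          intervalIntegral.integral_const]
        unfold wt
        rw [max_eq_right (by linarith : x + v ≤ 0), max_eq_right h0x.le]
        obtain ⟨w, hw⟩ : ∃ w, w = 2 * v + x := ⟨_, rfl⟩
        have hvx' : w ≠ 0 := by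
          have : 0 < w := by rw [hw]; linarith
          exact this.ne'
        rw [← hw]
        have hxw : x = w - 2 * v := by rw [hw]; ring
        rw [hxw]
        simp only [smul_eq_mul]
        field_simp
        ring
      · push Not at h2v
        have h1 : ∀ᵐ y : ℝ, ENNReal.ofReal (uu v α x y) = 0 := by
          refine Eventually.of_forall fun y => ?_
          unfold uu
          by_cases hxy : |x - y| ≤ v
          · obtain ⟨hl, hr⟩ := abs_le.1 hxy
            rw [if_pos hxy, if_neg (by linarith), if_pos hvx, if_pos (by linarith),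
              ENNReal.ofReal_zero]
          · rw [if_neg hxy, ENNReal.ofReal_zero]
        rw [lintegral_congr_ae h1, lintegral_zero]
        exact zero_le
    · push Not at hvx
      have h1 : ∀ y, ENNReal.ofReal (uu v α x y) ≤
          (Icc x 0).indicator (fun y => ENNReal.ofReal ((y - x) * α⁻¹)) y +
          (Icc (-v) x).indicator (fun y => ENNReal.ofReal ((x - y) * α)) y +
          (Icc 0 (x + v)).indicator
            (fun y => ENNReal.ofReal (-x * ((v - y) ^ 2 / (c0 * α * v ^ 2)))) y +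
          (Icc (x - v) (-v)).indicator
            (fun y => ENNReal.ofReal ((v + x) * (α * (2 * v + y) ^ 2 / (c0 * v ^ 2)))) y := by
        intro y
        unfold uu
        by_cases hxy : |x - y| ≤ v
        · obtain ⟨hl, hr⟩ := abs_le.1 hxy
          rw [if_pos hxy, if_neg (by linarith), if_neg (by linarith)]
          by_cases h0y : 0 ≤ y
          · rw [if_pos h0y, indicator_of_mem (show y ∈ Icc 0 (x + v) from ⟨h0y, by linarith⟩)]
            exact le_add_right (le_add_left le_rfl)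
          · rw [if_neg h0y]
            push Not at h0y
            by_cases hvy : y ≤ -v
            · rw [if_pos hvy,
                indicator_of_mem (show y ∈ Icc (x - v) (-v) from ⟨by linarith, hvy⟩)]
              exact le_add_left le_rfl
            · rw [if_neg hvy]
              push Not at hvy
              by_cases h : x < y
              · rw [if_pos h, indicator_of_mem (show y ∈ Icc x 0 from ⟨h.le, h0y.le⟩)]
                exact le_add_right (le_add_right (le_add_right le_rfl))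
              · rw [if_neg h]
                push Not at h
                rw [indicator_of_mem (show y ∈ Icc (-v) x from ⟨hvy.le, h⟩)]
                exact le_add_right (le_add_right (le_add_left le_rfl))
        · rw [if_neg hxy, ENNReal.ofReal_zero]
          exact zero_le
      refine (lintegral_mono h1).trans ?_
      rw [lintegral_add_right _ (Measurable.indicator (by fun_prop) measurableSet_Icc),
        lintegral_add_right _ (Measurable.indicator (by fun_prop) measurableSet_Icc),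
        lintegral_add_right _ (Measurable.indicator (by fun_prop) measurableSet_Icc),
        lintegral_indicator measurableSet_Icc, lintegral_indicator measurableSet_Icc,
        lintegral_indicator measurableSet_Icc, lintegral_indicator measurableSet_Icc,
        lint (by fun_prop) (by linarith)
          (fun y hy => mul_nonneg (by linarith [hy.1]) (by positivity)),
        lint (by fun_prop) (by linarith)
          (fun y hy => mul_nonneg (by linarith [hy.2]) (by positivity)),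
        lint (by fun_prop) (by linarith)
          (fun y hy => mul_nonneg (by linarith [hy.2]) (by positivity)),
        lint (by fun_prop) (by linarith)
          (fun y hy => mul_nonneg (by linarith [hy.2]) (by positivity))]
      have i1 : ∫ y in x..0, (y - x) * α⁻¹ = α⁻¹ * (-x) ^ 2 / 2 := by
        rw [intervalIntegral.integral_mul_const,
          intervalIntegral.integral_sub intervalIntegral.intervalIntegrable_id (by simp),
          integral_id, intervalIntegral.integral_const]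
        simp only [smul_eq_mul]
        ring
      have i2 : ∫ y in (-v)..x, (x - y) * α = α * (v + x) ^ 2 / 2 := by
        rw [intervalIntegral.integral_mul_const,
          intervalIntegral.integral_sub (by simp) intervalIntegral.intervalIntegrable_id,
          integral_id, intervalIntegral.integral_const]
        simp only [smul_eq_mul]
        ring
      have i3 : ∫ y in (0 : ℝ)..(x + v), -x * ((v - y) ^ 2 / (c0 * α * v ^ 2)) =
          -x * ((v ^ 3 - (-x) ^ 3) / 3) / (c0 * α * v ^ 2) := by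
        rw [intervalIntegral.integral_const_mul, intervalIntegral.integral_div]
        have e : ∫ y in (0 : ℝ)..(x + v), (v - y) ^ 2 = (v ^ 3 - (-x) ^ 3) / 3 := by
          rw [intervalIntegral.integral_comp_sub_left (fun y => y ^ 2) v, integral_pow]
          norm_num
        rw [e]
        ring
      have i4 : ∫ y in (x - v)..(-v), (v + x) * (α * (2 * v + y) ^ 2 / (c0 * v ^ 2)) =
          (v + x) * α * ((v ^ 3 - (v + x) ^ 3) / 3) / (c0 * v ^ 2) := by
        rw [intervalIntegral.integral_const_mul, intervalIntegral.integral_div,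
          intervalIntegral.integral_const_mul]
        have e : ∫ y in (x - v)..(-v), (2 * v + y) ^ 2 = (v ^ 3 - (v + x) ^ 3) / 3 := by
          rw [intervalIntegral.integral_comp_add_left (fun y => y ^ 2) (2 * v), integral_pow]
          norm_num
          ring
        rw [e]
        ring
      have hx' : 0 < -x := by linarith
      have hvx' : 0 < v + x := by linarith
      have n3 : 0 ≤ -x * ((v ^ 3 - (-x) ^ 3) / 3) / (c0 * α * v ^ 2) := by
        have h3 : (-x) ^ 3 ≤ v ^ 3 := pow_le_pow_left₀ hx'.le (by linarith) 3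
        have : 0 ≤ (v ^ 3 - (-x) ^ 3) / 3 := by linarith
        positivity
      have n4 : 0 ≤ (v + x) * α * ((v ^ 3 - (v + x) ^ 3) / 3) / (c0 * v ^ 2) := by
        have h3 : (v + x) ^ 3 ≤ v ^ 3 := pow_le_pow_left₀ hvx'.le (by linarith) 3
        have : 0 ≤ (v ^ 3 - (v + x) ^ 3) / 3 := by linarith
        positivity
      rw [i1, i2, i3, i4, ← ENNReal.ofReal_add (by positivity) (by positivity),
        ← ENNReal.ofReal_add (by positivity) n3, ← ENNReal.ofReal_add (by positivity) n4]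
      refine ENNReal.ofReal_le_ofReal ?_
      unfold wt
      rw [max_eq_left (by linarith : (0 : ℝ) ≤ x + v), max_eq_right h0x.le]
      have p1 := poly2 hv hx'.le (by linarith : -x ≤ v)
      have p2 := poly2 hv hvx'.le (by linarith : v + x ≤ v)
      have q1 := mul_le_mul_of_nonneg_left p1 (inv_nonneg.2 hα.le)
      have q2 := mul_le_mul_of_nonneg_left p2 hα.le
      have e1 : α⁻¹ * ((-x) ^ 2 + 2 * -x * ((v ^ 3 - (-x) ^ 3) / 3) / (c0 * v ^ 2)) =
          2 * (α⁻¹ * (-x) ^ 2 / 2 + -x * ((v ^ 3 - (-x) ^ 3) / 3) / (c0 * α * v ^ 2)) := by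
        field_simp
      have e2 : α * ((v + x) ^ 2 + 2 * (v + x) * ((v ^ 3 - (v + x) ^ 3) / 3) / (c0 * v ^ 2)) =
          2 * (α * (v + x) ^ 2 / 2 + (v + x) * α * ((v ^ 3 - (v + x) ^ 3) / 3) / (c0 * v ^ 2)) := by
        field_simp
      rw [e1] at q1
      rw [e2] at q2
      have e3 : c0 * v * (α * (x + v - 0) + α⁻¹ * (v - (x + v - 0))) / 2 =
          (α⁻¹ * (c0 * v * -x) + α * (c0 * v * (v + x))) / 2 := by ring
      rw [e3]
      linarith

end FIXM

open FIXM in
theorem specFIX : SpecFIX := by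
  intro v α E hv hα hE
  have hW : Measurable fun p : ℝ × ℝ => ENNReal.ofReal (uu v α p.1 p.2) := (uu_meas v α).ennreal_ofReal
  have h1 : (∫⁻ x, ∫⁻ y in {y : ℝ | |x - y| ≤ v}, ENNReal.ofReal |Sg (v, x, y)| * (E x * E y)) ≤
      ∫⁻ x, ∫⁻ y, (ENNReal.ofReal (uu v α x y) * E x ^ 2 + ENNReal.ofReal (uu v α y x) * E y ^ 2) := by
    refine lintegral_mono fun x => ?_
    have hm : MeasurableSet {y : ℝ | |x - y| ≤ v} :=
      measurableSet_le (by fun_prop) measurable_const
    refine le_trans ?_ (setLIntegral_le_lintegral {y : ℝ | |x - y| ≤ v} _)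
    refine setLIntegral_mono' hm fun y hy => ?_
    exact amgm (abs_nonneg _) (uu_nonneg hv hα x y) (uu_nonneg hv hα y x) (pair hv hα x y hy) _ _
  refine h1.trans ?_
  have hA : Measurable fun p : ℝ × ℝ => ENNReal.ofReal (uu v α p.1 p.2) * E p.1 ^ 2 :=
    hW.mul ((hE.comp measurable_fst).pow_const 2)
  have hB : Measurable fun p : ℝ × ℝ => ENNReal.ofReal (uu v α p.2 p.1) * E p.2 ^ 2 :=
    (hW.comp measurable_swap).mul ((hE.comp measurable_snd).pow_const 2)
  have h2 : (∫⁻ x, ∫⁻ y, (ENNReal.ofReal (uu v α x y) * E x ^ 2 +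
      ENNReal.ofReal (uu v α y x) * E y ^ 2)) =
      (∫⁻ x, ∫⁻ y, ENNReal.ofReal (uu v α x y) * E x ^ 2) +
      ∫⁻ x, ∫⁻ y, ENNReal.ofReal (uu v α y x) * E y ^ 2 := by
    rw [← lintegral_add_left hA.lintegral_prod_right']
    refine lintegral_congr fun x => ?_
    exact lintegral_add_left (f := fun y => ENNReal.ofReal (uu v α x y) * E x ^ 2)
      (hA.comp (measurable_const.prodMk measurable_id)) _
  have h3 : (∫⁻ x, ∫⁻ y, ENNReal.ofReal (uu v α y x) * E y ^ 2) =
      ∫⁻ x, ∫⁻ y, ENNReal.ofReal (uu v α x y) * E x ^ 2 :=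
    lintegral_lintegral_swap hB.aemeasurable
  have h4 : (∫⁻ x, ∫⁻ y, ENNReal.ofReal (uu v α x y) * E x ^ 2) ≤
      ∫⁻ x, ENNReal.ofReal (c0 * v * wt α v x / 2) * E x ^ 2 := by
    refine lintegral_mono fun x => ?_
    have h5 := lintegral_mul_const (μ := volume) (f := fun y => ENNReal.ofReal (uu v α x y))
      (E x ^ 2) (hW.comp (measurable_const.prodMk measurable_id))
    rw [h5]
    exact mul_le_mul_left (weight hv hα x) _
  rw [h2, h3]
  refine (add_le_add h4 h4).trans (le_of_eq ?_)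
  have hwm : Measurable fun x => ENNReal.ofReal (c0 * v * wt α v x / 2) * E x ^ 2 := by
    refine Measurable.mul ?_ (hE.pow_const 2)
    unfold wt
    fun_prop
  rw [← lintegral_add_left hwm]
  refine lintegral_congr fun x => ?_
  rw [← add_mul]
  have hw0 : 0 ≤ c0 * v * wt α v x / 2 := by
    have hc := c0_pos
    have h5 : 0 ≤ wt α v x := by
      unfold wt
      have h6 : 0 ≤ max (x + v) 0 - max x 0 := by
        have := max_le_max (by linarith : x ≤ x + v) (le_refl (0 : ℝ))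
        linarith
      have h7 : max (x + v) 0 - max x 0 ≤ v := by
        have h8 : max (x + v) 0 ≤ max x 0 + v := max_le (by linarith [le_max_left x 0])
          (by linarith [le_max_right x 0])
        linarith
      have h8 : 0 ≤ v - (max (x + v) 0 - max x 0) := by linarith
      positivity
    positivity
  rw [← ENNReal.ofReal_add hw0 hw0, add_halves]

end Pool.Agent.Lib.MP424d38.TH
end
end

section
/-!
# Module FOL of block TH: folding
-/
set_option autoImplicit false

open MeasureTheory Filter Topology Set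
open scoped ENNReal ContDiff ComplexConjugate FourierTransform

noncomputable section

namespace Pool.Agent.Lib.MP424d38.TH

open Pool.Agent.Lib.MP424d38.TY Pool.Agent.Lib.MP424d38.ES

namespace FOLM

instance volHaar2 : (volume : Measure (ℝ × ℝ)).IsAddHaarMeasure :=
  inferInstanceAs ((volume : Measure ℝ).prod (volume : Measure ℝ)).IsAddHaarMeasure

instance volHaar3 : (volume : Measure (ℝ × ℝ × ℝ)).IsAddHaarMeasure :=
  inferInstanceAs ((volume : Measure ℝ).prod (volume : Measure (ℝ × ℝ))).IsAddHaarMeasure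

/-- linear involutions preserve the volume -/
theorem mp_invol (L : (ℝ × ℝ × ℝ) →ₗ[ℝ] (ℝ × ℝ × ℝ)) (h : ∀ z, L (L z) = z) :
    MeasurePreserving L (volume : Measure (ℝ × ℝ × ℝ)) volume := by
  have hcomp : L ∘ₗ L = LinearMap.id := LinearMap.ext h
  have hdet : LinearMap.det L * LinearMap.det L = 1 := by
    rw [← LinearMap.det_comp, hcomp, LinearMap.det_id]
  have hne : LinearMap.det L ≠ 0 := by
    intro h0
    rw [h0, mul_zero] at hdet
    exact zero_ne_one hdet
  have habs : |(LinearMap.det L)⁻¹| = 1 := by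
    rw [abs_inv]
    have h1 : |LinearMap.det L| * |LinearMap.det L| = 1 := by rw [← abs_mul, hdet, abs_one]
    have h2 : |LinearMap.det L| = 1 := by nlinarith [abs_nonneg (LinearMap.det L)]
    rw [h2, inv_one]
  have hc : Continuous L := L.continuous_of_finiteDimensional
  refine ⟨hc.measurable, ?_⟩
  rw [Measure.map_linearMap_addHaar_eq_smul_addHaar (μ := (volume : Measure (ℝ × ℝ × ℝ))) hne, habs,
    ENNReal.ofReal_one, one_smul]

/-- `s₃` -/
def s3 : (ℝ × ℝ × ℝ) →ₗ[ℝ] (ℝ × ℝ × ℝ) where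
  toFun z := (z.2.1 - z.2.2, z.2.2 + z.1, z.2.2)
  map_add' z w := by ext <;> simp <;> ring
  map_smul' c z := by ext <;> simp <;> ring

/-- `s₄` -/
def s4 : (ℝ × ℝ × ℝ) →ₗ[ℝ] (ℝ × ℝ × ℝ) where
  toFun z := (-z.1, z.2.1 + z.1, z.2.2 + z.1)
  map_add' z w := by ext <;> simp <;> ring
  map_smul' c z := by ext <;> simp <;> ring

theorem s3_apply (v x y : ℝ) : s3 (v, x, y) = (x - y, y + v, y) := rfl

theorem s4_apply (v x y : ℝ) : s4 (v, x, y) = (-v, x + v, y + v) := rfl

theorem mp3 : MeasurePreserving s3 (volume : Measure (ℝ × ℝ × ℝ)) volume :=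
  mp_invol s3 fun ⟨v, x, y⟩ => by
    rw [s3_apply, s3_apply]
    ext <;> simp

theorem mp4 : MeasurePreserving s4 (volume : Measure (ℝ × ℝ × ℝ)) volume :=
  mp_invol s4 fun ⟨v, x, y⟩ => by
    rw [s4_apply, s4_apply]
    ext <;> simp

/-- the integrand -/
def Ph (g : ℝ → ℝ≥0∞) (z : ℝ × ℝ × ℝ) : ℝ≥0∞ := ENNReal.ofReal |Sg z| * P4 g z

theorem Ph_meas {g : ℝ → ℝ≥0∞} (hg : Measurable g) : Measurable (Ph g) := by
  unfold Ph Sg P4
  fun_prop

theorem Ph_s3 (g : ℝ → ℝ≥0∞) (z : ℝ × ℝ × ℝ) : Ph g (s3 z) = Ph g z := by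
  obtain ⟨v, x, y⟩ := z
  rw [s3_apply]
  unfold Ph Sg P4
  have e1 : y + v + (x - y) = x + v := by ring
  have e2 : y + (x - y) = x := by ring
  simp only [e1, e2]
  have e3 : |x + v| + |y| - |x| - |y + v| = |x + v| + |y| - |y + v| - |x| := by ring
  rw [e3]
  ring

theorem Ph_s4 (g : ℝ → ℝ≥0∞) (z : ℝ × ℝ × ℝ) : Ph g (s4 z) = Ph g z := by
  obtain ⟨v, x, y⟩ := z
  rw [s4_apply]
  unfold Ph Sg P4
  have e1 : x + v + -v = x := by ring
  have e2 : y + v + -v = y := by ring
  simp only [e1, e2]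
  have e3 : |x| + |y + v| - |y| - |x + v| = -(|x + v| + |y| - |y + v| - |x|) := by ring
  rw [e3, abs_neg]
  ring

/-- the set `|x - y| ≤ |v|` -/
def A : Set (ℝ × ℝ × ℝ) := {z | |z.2.1 - z.2.2| ≤ |z.1|}

/-- the set `|x - y| ≤ v`, `v > 0` -/
def A1 : Set (ℝ × ℝ × ℝ) := {z | 0 < z.1 ∧ |z.2.1 - z.2.2| ≤ z.1}

theorem A_meas : MeasurableSet A := by
  unfold A
  exact measurableSet_le (by fun_prop) (by fun_prop)

theorem A1_meas : MeasurableSet A1 := by
  have h1 : MeasurableSet {z : ℝ × ℝ × ℝ | (0 : ℝ) < z.1} :=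
    measurableSet_lt measurable_const measurable_fst
  have h2 : MeasurableSet {z : ℝ × ℝ × ℝ | |z.2.1 - z.2.2| ≤ z.1} :=
    measurableSet_le (by fun_prop) measurable_fst
  exact h1.inter h2

theorem step1 {g : ℝ → ℝ≥0∞} (hg : Measurable g) :
    ∫⁻ z, Ph g z ≤ 2 * ∫⁻ z, A.indicator (Ph g) z := by
  have hm : Measurable (A.indicator (Ph g)) := (Ph_meas hg).indicator A_meas
  have h1 : ∀ z, Ph g z ≤ A.indicator (Ph g) z + A.indicator (Ph g) (s3 z) := by
    rintro ⟨v, x, y⟩
    by_cases h : (v, x, y) ∈ A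
    · rw [indicator_of_mem h]
      exact le_self_add
    · have h2 : s3 (v, x, y) ∈ A := by
        have h3 : ¬ |x - y| ≤ |v| := h
        rw [s3_apply]
        show |y + v - y| ≤ |x - y|
        rw [add_sub_cancel_left]
        exact (not_le.1 h3).le
      rw [indicator_of_mem h2, Ph_s3]
      exact le_add_self
  calc ∫⁻ z, Ph g z ≤ ∫⁻ z, (A.indicator (Ph g) z + A.indicator (Ph g) (s3 z)) :=
        lintegral_mono h1
    _ = (∫⁻ z, A.indicator (Ph g) z) + ∫⁻ z, A.indicator (Ph g) (s3 z) :=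
        lintegral_add_left hm _
    _ = 2 * ∫⁻ z, A.indicator (Ph g) z := by
        rw [mp3.lintegral_comp hm, two_mul]

theorem step2 {g : ℝ → ℝ≥0∞} (hg : Measurable g) :
    ∫⁻ z, A.indicator (Ph g) z ≤ 2 * ∫⁻ z, A1.indicator (Ph g) z := by
  have hm : Measurable (A1.indicator (Ph g)) := (Ph_meas hg).indicator A1_meas
  have h1 : ∀ z, A.indicator (Ph g) z ≤ A1.indicator (Ph g) z + A1.indicator (Ph g) (s4 z) := by
    rintro ⟨v, x, y⟩
    by_cases h : (v, x, y) ∈ A
    · have h3 : |x - y| ≤ |v| := h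
      rw [indicator_of_mem h]
      rcases lt_trichotomy v 0 with hv | hv | hv
      · have h2 : s4 (v, x, y) ∈ A1 := by
          rw [s4_apply]
          refine ⟨neg_pos.2 hv, ?_⟩
          show |x + v - (y + v)| ≤ -v
          rw [add_sub_add_right_eq_sub, ← abs_of_neg hv]
          exact h3
        rw [indicator_of_mem h2, Ph_s4]
        exact le_add_self
      · subst hv
        have h4 : Ph g (0, x, y) = 0 := by
          unfold Ph Sg
          simp
        rw [h4]
        exact zero_le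
      · have h2 : (v, x, y) ∈ A1 := ⟨hv, by
          show |x - y| ≤ v
          rw [← abs_of_pos hv]
          exact h3⟩
        rw [indicator_of_mem h2]
        exact le_self_add
    · rw [indicator_of_notMem h]
      exact zero_le
  calc ∫⁻ z, A.indicator (Ph g) z
      ≤ ∫⁻ z, (A1.indicator (Ph g) z + A1.indicator (Ph g) (s4 z)) := lintegral_mono h1
    _ = (∫⁻ z, A1.indicator (Ph g) z) + ∫⁻ z, A1.indicator (Ph g) (s4 z) :=
        lintegral_add_left hm _
    _ = 2 * ∫⁻ z, A1.indicator (Ph g) z := by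
        rw [mp4.lintegral_comp hm, two_mul]

theorem step3 {g : ℝ → ℝ≥0∞} (hg : Measurable g) :
    ∫⁻ z, A1.indicator (Ph g) z =
      ∫⁻ v in Ioi (0 : ℝ), ∫⁻ x, ∫⁻ y in {y : ℝ | |x - y| ≤ v}, Ph g (v, x, y) := by
  have hm : Measurable (A1.indicator (Ph g)) := (Ph_meas hg).indicator A1_meas
  have h1 : ∫⁻ z, A1.indicator (Ph g) z = ∫⁻ v, ∫⁻ w, A1.indicator (Ph g) (v, w) :=
    lintegral_prod _ hm.aemeasurable
  rw [h1, ← lintegral_indicator measurableSet_Ioi]
  refine lintegral_congr fun v => ?_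
  have h2 : ∫⁻ w, A1.indicator (Ph g) (v, w) = ∫⁻ x, ∫⁻ y, A1.indicator (Ph g) (v, x, y) :=
    lintegral_prod _ (hm.comp measurable_prodMk_left).aemeasurable
  rw [h2]
  by_cases hv : v ∈ Ioi (0 : ℝ)
  · rw [indicator_of_mem hv]
    refine lintegral_congr fun x => ?_
    have hms : MeasurableSet {y : ℝ | |x - y| ≤ v} := measurableSet_le (by fun_prop) (by fun_prop)
    rw [← lintegral_indicator hms]
    refine lintegral_congr fun y => ?_
    by_cases hy : |x - y| ≤ v
    · rw [indicator_of_mem (show (v, x, y) ∈ A1 from ⟨hv, hy⟩),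
        indicator_of_mem (show y ∈ {y : ℝ | |x - y| ≤ v} from hy)]
    · rw [indicator_of_notMem (show (v, x, y) ∉ A1 from fun h => hy h.2),
        indicator_of_notMem (show y ∉ {y : ℝ | |x - y| ≤ v} from hy)]
  · rw [indicator_of_notMem hv]
    have h3 : ∀ x y, A1.indicator (Ph g) (v, x, y) = 0 := fun x y =>
      indicator_of_notMem (fun h => hv h.1) _
    simp only [h3, lintegral_zero]

end FOLM

theorem specFOL : SpecFOL := by
  intro g hg
  have h1 := FOLM.step1 hg
  have h2 := FOLM.step2 hg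
  have h3 := FOLM.step3 hg
  calc (∫⁻ z : ℝ × ℝ × ℝ, ENNReal.ofReal |Sg z| * P4 g z) = ∫⁻ z, FOLM.Ph g z := rfl
    _ ≤ 2 * ∫⁻ z, FOLM.A.indicator (FOLM.Ph g) z := h1
    _ ≤ 2 * (2 * ∫⁻ z, FOLM.A1.indicator (FOLM.Ph g) z) := by gcongr
    _ = 4 * ∫⁻ z, FOLM.A1.indicator (FOLM.Ph g) z := by
        rw [← mul_assoc]
        norm_num
    _ = _ := by rw [h3]; rfl

end Pool.Agent.Lib.MP424d38.TH
end
end

section
/-!
# Module RHS of block TH: the right side of the slice inequality
-/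
set_option autoImplicit false

open MeasureTheory Filter Topology Set
open scoped ENNReal ContDiff ComplexConjugate FourierTransform

noncomputable section

namespace Pool.Agent.Lib.MP424d38.TH

open Pool.Agent.Lib.MP424d38.TY Pool.Agent.Lib.MP424d38.ES

namespace RHSM

/-- `(s - r)(s₊ - r₊)` -/
def k1 (s r : ℝ) : ℝ := (s - r) * (max s 0 - max r 0)

/-- `(s - r)((s - r) - (s₊ - r₊))` -/
def k2 (s r : ℝ) : ℝ := (s - r) * ((s - r) - (max s 0 - max r 0))

theorem k1_nonneg (s r : ℝ) : 0 ≤ k1 s r := by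
  unfold k1
  rcases le_total s r with h | h
  · exact mul_nonneg_of_nonpos_of_nonpos (by linarith) (by linarith [max_le_max_right (0 : ℝ) h])
  · exact mul_nonneg (by linarith) (by linarith [max_le_max_right (0 : ℝ) h])

theorem k2_nonneg (s r : ℝ) : 0 ≤ k2 s r := by
  unfold k2
  have key : ∀ a b : ℝ, a ≤ b → max b 0 - max a 0 ≤ b - a := by
    intro a b hab
    rcases le_total a 0 with ha | ha <;> rcases le_total b 0 with hb | hb
    · rw [max_eq_right ha, max_eq_right hb]; linarith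
    · rw [max_eq_right ha, max_eq_left hb]; linarith
    · rw [max_eq_left ha, max_eq_right hb]; linarith
    · rw [max_eq_left ha, max_eq_left hb]
  rcases le_total s r with h | h
  · exact mul_nonneg_of_nonpos_of_nonpos (by linarith) (by linarith [key s r h])
  · exact mul_nonneg (by linarith) (by linarith [key r s h])

theorem k1_symm (s r : ℝ) : k1 s r = k1 r s := by
  unfold k1; ring

theorem k2_symm (s r : ℝ) : k2 s r = k2 r s := by
  unfold k2; ring

/-- the kernel -/
def K (α s r : ℝ) : ℝ := α * k1 s r + α⁻¹ * k2 s r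

theorem K_nonneg {α : ℝ} (hα : 0 < α) (s r : ℝ) : 0 ≤ K α s r := by
  unfold K
  have := k1_nonneg s r
  have := k2_nonneg s r
  positivity

theorem K_symm (α s r : ℝ) : K α s r = K α r s := by
  unfold K
  rw [k1_symm, k2_symm]

theorem wt_eq (α v x : ℝ) : v * wt α v x = K α (x + v) x := by
  unfold wt K k1 k2
  rw [add_sub_cancel_left]
  ring

/-- weights below `1 + ξ²` -/
theorem int_u {q : ℝ → ℝ} (hq : Measurable q) (h0 : ∀ ξ, 0 ≤ q ξ)
    (hi : Integrable fun ξ => (1 + ξ ^ 2) * q ξ) {u : ℝ → ℝ} (hu : Measurable u)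
    (hb : ∀ ξ, |u ξ| ≤ 1 + ξ ^ 2) : Integrable fun ξ => u ξ * q ξ := by
  refine hi.mono' (hu.mul hq).aestronglyMeasurable (Eventually.of_forall fun ξ => ?_)
  rw [norm_mul, Real.norm_eq_abs, Real.norm_eq_abs, abs_of_nonneg (h0 ξ)]
  exact mul_le_mul_of_nonneg_right (hb ξ) (h0 ξ)

theorem abs_le_q (ξ : ℝ) : |ξ| ≤ 1 + ξ ^ 2 := by
  have h := sq_nonneg (|ξ| - 1)
  have h2 := sq_abs ξ
  nlinarith [abs_nonneg ξ]

theorem max_abs_le (ξ : ℝ) : |max ξ 0| ≤ |ξ| := by
  rcases le_total ξ 0 with h | h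
  · rw [max_eq_right h, abs_zero]; exact abs_nonneg _
  · rw [max_eq_left h]

theorem maxe (ξ : ℝ) : max ξ 0 = (ξ + |ξ|) / 2 := by
  rcases le_total ξ 0 with h | h
  · rw [max_eq_right h, abs_of_nonpos h]; ring
  · rw [max_eq_left h, abs_of_nonneg h]; ring

/-- the double integrals -/
theorem dbl {q : ℝ → ℝ} (hq : Measurable q) (h0 : ∀ ξ, 0 ≤ q ξ)
    (hi : Integrable fun ξ => (1 + ξ ^ 2) * q ξ) :
    (Integrable fun z : ℝ × ℝ => k1 z.1 z.2 * (q z.1 * q z.2)) ∧
    (Integrable fun z : ℝ × ℝ => k2 z.1 z.2 * (q z.1 * q z.2)) ∧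
    (∫ z : ℝ × ℝ, k1 z.1 z.2 * (q z.1 * q z.2)) =
      ((∫ ξ, q ξ) * (∫ ξ, ξ ^ 2 * q ξ) - (∫ ξ, ξ * q ξ) ^ 2)
      + ((∫ ξ, q ξ) * (∫ ξ, ξ * |ξ| * q ξ) - (∫ ξ, ξ * q ξ) * (∫ ξ, |ξ| * q ξ)) ∧
    (∫ z : ℝ × ℝ, k2 z.1 z.2 * (q z.1 * q z.2)) =
      ((∫ ξ, q ξ) * (∫ ξ, ξ ^ 2 * q ξ) - (∫ ξ, ξ * q ξ) ^ 2)
      - ((∫ ξ, q ξ) * (∫ ξ, ξ * |ξ| * q ξ) - (∫ ξ, ξ * q ξ) * (∫ ξ, |ξ| * q ξ)) := by
  have ia : Integrable q := by
    have := int_u hq h0 hi (u := fun _ => 1) measurable_const fun ξ => by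
      rw [abs_one]; nlinarith [sq_nonneg ξ]
    simpa using this
  have ib : Integrable fun ξ => ξ * q ξ := int_u hq h0 hi measurable_id fun ξ => abs_le_q ξ
  have ie : Integrable fun ξ => ξ ^ 2 * q ξ :=
    int_u hq h0 hi (u := fun ξ => ξ ^ 2) (by fun_prop) fun ξ => by
      rw [abs_of_nonneg (sq_nonneg ξ)]; linarith
  have iX : Integrable fun ξ => |ξ| * q ξ :=
    int_u hq h0 hi (u := fun ξ => |ξ|) (by fun_prop) fun ξ => by
      rw [abs_abs]; exact abs_le_q ξ
  have iY : Integrable fun ξ => ξ * |ξ| * q ξ :=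
    int_u hq h0 hi (u := fun ξ => ξ * |ξ|) (by fun_prop) fun ξ => by
      rw [abs_mul, abs_abs, ← pow_two, sq_abs]; linarith
  have ic : Integrable fun ξ => max ξ 0 * q ξ :=
    int_u hq h0 hi (u := fun ξ => max ξ 0) (by fun_prop) fun ξ =>
      (max_abs_le ξ).trans (abs_le_q ξ)
  have id : Integrable fun ξ => ξ * max ξ 0 * q ξ :=
    int_u hq h0 hi (u := fun ξ => ξ * max ξ 0) (by fun_prop) fun ξ => by
      rw [abs_mul]
      have h1 := max_abs_le ξ
      have h2 := sq_abs ξ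
      nlinarith [abs_nonneg ξ]
  have vC : (∫ ξ, max ξ 0 * q ξ) = ((∫ ξ, ξ * q ξ) + ∫ ξ, |ξ| * q ξ) / 2 := by
    rw [← integral_add ib iX, ← integral_div]
    refine integral_congr_ae (Eventually.of_forall fun ξ => ?_)
    show max ξ 0 * q ξ = (ξ * q ξ + |ξ| * q ξ) / 2
    rw [maxe]; ring
  have vD : (∫ ξ, ξ * max ξ 0 * q ξ) = ((∫ ξ, ξ ^ 2 * q ξ) + ∫ ξ, ξ * |ξ| * q ξ) / 2 := by
    rw [← integral_add ie iY, ← integral_div]
    refine integral_congr_ae (Eventually.of_forall fun ξ => ?_)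
    show ξ * max ξ 0 * q ξ = (ξ ^ 2 * q ξ + ξ * |ξ| * q ξ) / 2
    rw [maxe]; ring
  -- products
  have p1 : Integrable fun z : ℝ × ℝ => (z.1 * max z.1 0 * q z.1) * q z.2 := id.mul_prod ia
  have p2 : Integrable fun z : ℝ × ℝ => (max z.1 0 * q z.1) * (z.2 * q z.2) := ic.mul_prod ib
  have p3 : Integrable fun z : ℝ × ℝ => (z.1 * q z.1) * (max z.2 0 * q z.2) := ib.mul_prod ic
  have p4 : Integrable fun z : ℝ × ℝ => q z.1 * (z.2 * max z.2 0 * q z.2) := ia.mul_prod id
  have v1 : (∫ z : ℝ × ℝ, (z.1 * max z.1 0 * q z.1) * q z.2)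
      = (∫ ξ, ξ * max ξ 0 * q ξ) * ∫ ξ, q ξ :=
    integral_prod_mul (μ := volume) (ν := volume) (fun ξ : ℝ => ξ * max ξ 0 * q ξ) q
  have v2 : (∫ z : ℝ × ℝ, (max z.1 0 * q z.1) * (z.2 * q z.2))
      = (∫ ξ, max ξ 0 * q ξ) * ∫ ξ, ξ * q ξ :=
    integral_prod_mul (μ := volume) (ν := volume) (fun ξ : ℝ => max ξ 0 * q ξ) (fun ξ => ξ * q ξ)
  have v3 : (∫ z : ℝ × ℝ, (z.1 * q z.1) * (max z.2 0 * q z.2))
      = (∫ ξ, ξ * q ξ) * ∫ ξ, max ξ 0 * q ξ :=
    integral_prod_mul (μ := volume) (ν := volume) (fun ξ : ℝ => ξ * q ξ) (fun ξ => max ξ 0 * q ξ)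
  have v4 : (∫ z : ℝ × ℝ, q z.1 * (z.2 * max z.2 0 * q z.2))
      = (∫ ξ, q ξ) * ∫ ξ, ξ * max ξ 0 * q ξ :=
    integral_prod_mul (μ := volume) (ν := volume) q (fun ξ : ℝ => ξ * max ξ 0 * q ξ)
  have r1 : Integrable fun z : ℝ × ℝ => (z.1 ^ 2 * q z.1) * q z.2 := ie.mul_prod ia
  have r2 : Integrable fun z : ℝ × ℝ => (z.1 * q z.1) * (z.2 * q z.2) := ib.mul_prod ib
  have r3 : Integrable fun z : ℝ × ℝ => q z.1 * (z.2 ^ 2 * q z.2) := ia.mul_prod ie
  have w1 : (∫ z : ℝ × ℝ, (z.1 ^ 2 * q z.1) * q z.2) = (∫ ξ, ξ ^ 2 * q ξ) * ∫ ξ, q ξ :=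
    integral_prod_mul (μ := volume) (ν := volume) (fun ξ : ℝ => ξ ^ 2 * q ξ) q
  have w2 : (∫ z : ℝ × ℝ, (z.1 * q z.1) * (z.2 * q z.2)) = (∫ ξ, ξ * q ξ) * ∫ ξ, ξ * q ξ :=
    integral_prod_mul (μ := volume) (ν := volume) (fun ξ : ℝ => ξ * q ξ) (fun ξ => ξ * q ξ)
  have w3 : (∫ z : ℝ × ℝ, q z.1 * (z.2 ^ 2 * q z.2)) = (∫ ξ, q ξ) * ∫ ξ, ξ ^ 2 * q ξ :=
    integral_prod_mul (μ := volume) (ν := volume) q (fun ξ : ℝ => ξ ^ 2 * q ξ)
  have e1 : (fun z : ℝ × ℝ => k1 z.1 z.2 * (q z.1 * q z.2)) = fun z : ℝ × ℝ =>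
      (z.1 * max z.1 0 * q z.1) * q z.2 - (max z.1 0 * q z.1) * (z.2 * q z.2)
        - (z.1 * q z.1) * (max z.2 0 * q z.2) + q z.1 * (z.2 * max z.2 0 * q z.2) := by
    funext z; unfold k1; ring
  have e2 : (fun z : ℝ × ℝ => k2 z.1 z.2 * (q z.1 * q z.2)) = fun z : ℝ × ℝ =>
      (z.1 ^ 2 * q z.1) * q z.2 - (z.1 * q z.1) * (z.2 * q z.2)
        - (z.1 * q z.1) * (z.2 * q z.2) + q z.1 * (z.2 ^ 2 * q z.2)
        - k1 z.1 z.2 * (q z.1 * q z.2) := by
    funext z; unfold k1 k2; ring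
  have j12 : Integrable fun z : ℝ × ℝ =>
      (z.1 * max z.1 0 * q z.1) * q z.2 - (max z.1 0 * q z.1) * (z.2 * q z.2) := p1.sub p2
  have j123 : Integrable fun z : ℝ × ℝ =>
      (z.1 * max z.1 0 * q z.1) * q z.2 - (max z.1 0 * q z.1) * (z.2 * q z.2)
        - (z.1 * q z.1) * (max z.2 0 * q z.2) := j12.sub p3
  have j1234 : Integrable fun z : ℝ × ℝ =>
      (z.1 * max z.1 0 * q z.1) * q z.2 - (max z.1 0 * q z.1) * (z.2 * q z.2)
        - (z.1 * q z.1) * (max z.2 0 * q z.2) + q z.1 * (z.2 * max z.2 0 * q z.2) := j123.add p4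
  have J1 : Integrable fun z : ℝ × ℝ => k1 z.1 z.2 * (q z.1 * q z.2) := by
    rw [e1]; exact j1234
  have l12 : Integrable fun z : ℝ × ℝ =>
      (z.1 ^ 2 * q z.1) * q z.2 - (z.1 * q z.1) * (z.2 * q z.2) := r1.sub r2
  have l123 : Integrable fun z : ℝ × ℝ =>
      (z.1 ^ 2 * q z.1) * q z.2 - (z.1 * q z.1) * (z.2 * q z.2)
        - (z.1 * q z.1) * (z.2 * q z.2) := l12.sub r2
  have l1234 : Integrable fun z : ℝ × ℝ =>
      (z.1 ^ 2 * q z.1) * q z.2 - (z.1 * q z.1) * (z.2 * q z.2)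
        - (z.1 * q z.1) * (z.2 * q z.2) + q z.1 * (z.2 ^ 2 * q z.2) := l123.add r3
  have J2 : Integrable fun z : ℝ × ℝ => k2 z.1 z.2 * (q z.1 * q z.2) := by
    rw [e2]; exact l1234.sub J1
  have V1 : (∫ z : ℝ × ℝ, k1 z.1 z.2 * (q z.1 * q z.2)) =
      ((∫ ξ, q ξ) * (∫ ξ, ξ ^ 2 * q ξ) - (∫ ξ, ξ * q ξ) ^ 2)
      + ((∫ ξ, q ξ) * (∫ ξ, ξ * |ξ| * q ξ) - (∫ ξ, ξ * q ξ) * (∫ ξ, |ξ| * q ξ)) := by
    rw [e1, integral_add j123 p4, integral_sub j12 p3, integral_sub p1 p2, v1, v2, v3, v4, vC, vD]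
    ring
  refine ⟨J1, J2, V1, ?_⟩
  rw [e2, integral_sub l1234 J1, integral_add l123 r3, integral_sub l12 r2, integral_sub r1 r2,
    w1, w2, w3, V1]
  ring

/-- the lintegral part for a symmetric function -/
theorem half {φ : ℝ × ℝ → ℝ≥0∞} (hφ : Measurable φ) (hs : ∀ s r, φ (s, r) = φ (r, s)) :
    2 * ∫⁻ v in Ioi (0 : ℝ), ∫⁻ x, φ (x + v, x) ≤ ∫⁻ z, φ z := by
  set J : ℝ → ℝ≥0∞ := fun v => ∫⁻ x, φ (x + v, x) with hJ
  have hm : Measurable fun p : ℝ × ℝ => φ (p.2 + p.1, p.2) := by fun_prop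
  have hJm : Measurable J := hm.lintegral_prod_right'
  have hJneg : ∀ v, J (-v) = J v := by
    intro v
    show ∫⁻ x, φ (x + -v, x) = ∫⁻ x, φ (x + v, x)
    rw [← lintegral_add_right_eq_self (fun x => φ (x + -v, x)) v]
    refine lintegral_congr fun x => ?_
    rw [add_neg_cancel_right, hs]
  have h1 : ∫⁻ v, (Iio (0 : ℝ)).indicator J v = ∫⁻ v, (Ioi (0 : ℝ)).indicator J v := by
    rw [← lintegral_neg_eq_self]
    refine lintegral_congr fun v => ?_
    by_cases hv : 0 < v
    · rw [indicator_of_mem (show v ∈ Ioi (0 : ℝ) from hv),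
        indicator_of_mem (show -v ∈ Iio (0 : ℝ) from neg_neg_iff_pos.2 hv), hJneg]
    · rw [indicator_of_notMem (show v ∉ Ioi (0 : ℝ) from hv),
        indicator_of_notMem (show -v ∉ Iio (0 : ℝ) from fun h => hv (neg_neg_iff_pos.1 h))]
  have h2 : ∫⁻ v, J v = ∫⁻ z, φ z := by
    have a1 : ∫⁻ v, J v = ∫⁻ x, ∫⁻ v, φ (x + v, x) :=
      lintegral_lintegral_swap (f := fun v x => φ (x + v, x)) hm.aemeasurable
    rw [a1]
    have a2 : ∀ x, ∫⁻ v, φ (x + v, x) = ∫⁻ s, φ (x, s) := by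
      intro x
      rw [lintegral_add_left_eq_self (fun s => φ (s, x)) x]
      exact lintegral_congr fun s => hs s x
    simp only [a2]
    exact (lintegral_prod _ hφ.aemeasurable).symm
  rw [← h2, two_mul, ← lintegral_indicator measurableSet_Ioi]
  calc (∫⁻ v, (Ioi (0 : ℝ)).indicator J v) + ∫⁻ v, (Ioi (0 : ℝ)).indicator J v
      = (∫⁻ v, (Ioi (0 : ℝ)).indicator J v) + ∫⁻ v, (Iio (0 : ℝ)).indicator J v := by rw [h1]
    _ = ∫⁻ v, ((Ioi (0 : ℝ)).indicator J v + (Iio (0 : ℝ)).indicator J v) :=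
        (lintegral_add_left (hJm.indicator measurableSet_Ioi) _).symm
    _ ≤ ∫⁻ v, J v := by
        refine lintegral_mono fun v => ?_
        rcases lt_trichotomy v 0 with hv | hv | hv
        · rw [indicator_of_mem (show v ∈ Iio (0 : ℝ) from hv),
            indicator_of_notMem (show v ∉ Ioi (0 : ℝ) from fun h => lt_asymm hv h), zero_add]
        · rw [indicator_of_notMem (show v ∉ Iio (0 : ℝ) from fun h => (ne_of_lt h) hv),
            indicator_of_notMem (show v ∉ Ioi (0 : ℝ) from fun h => (ne_of_gt h) hv), zero_add]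
          exact zero_le
        · rw [indicator_of_mem (show v ∈ Ioi (0 : ℝ) from hv),
            indicator_of_notMem (show v ∉ Iio (0 : ℝ) from fun h => lt_asymm hv h), add_zero]

end RHSM

open RHSM in
theorem specRHS : SpecRHS := by
  intro q α hq h0 hi hα γ η
  obtain ⟨J1, J2, V1, V2⟩ := dbl hq h0 hi
  have n1 : 0 ≤ γ + η := by
    rw [← V1]
    exact integral_nonneg fun z => mul_nonneg (k1_nonneg _ _) (mul_nonneg (h0 _) (h0 _))
  have n2 : 0 ≤ γ - η := by
    rw [← V2]
    exact integral_nonneg fun z => mul_nonneg (k2_nonneg _ _) (mul_nonneg (h0 _) (h0 _))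
  refine ⟨abs_le.2 ⟨by linarith, by linarith⟩, ?_⟩
  set φ : ℝ × ℝ → ℝ≥0∞ := fun z => ENNReal.ofReal (K α z.1 z.2 * (q z.1 * q z.2)) with hφd
  have hφ : Measurable φ := by
    rw [hφd]
    unfold K k1 k2
    fun_prop
  have hs : ∀ s r, φ (s, r) = φ (r, s) := by
    intro s r
    show ENNReal.ofReal (K α s r * (q s * q r)) = ENNReal.ofReal (K α r s * (q r * q s))
    rw [K_symm α s r, mul_comm (q s)]
  have hlhs : (∫⁻ v in Ioi (0 : ℝ), ∫⁻ x, ENNReal.ofReal (v * wt α v x) *
      ENNReal.ofReal (q (x + v) * q x)) = ∫⁻ v in Ioi (0 : ℝ), ∫⁻ x, φ (x + v, x) := by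
    refine lintegral_congr fun v => lintegral_congr fun x => ?_
    rw [wt_eq, ← ENNReal.ofReal_mul (K_nonneg hα _ _)]
  have htot : ∫⁻ z, φ z = ENNReal.ofReal (α * (γ + η) + α⁻¹ * (γ - η)) := by
    have hint : Integrable fun z : ℝ × ℝ => K α z.1 z.2 * (q z.1 * q z.2) := by
      have := (J1.const_mul α).add (J2.const_mul α⁻¹)
      refine this.congr (Eventually.of_forall fun z => ?_)
      show α * (k1 z.1 z.2 * (q z.1 * q z.2)) + α⁻¹ * (k2 z.1 z.2 * (q z.1 * q z.2))
        = K α z.1 z.2 * (q z.1 * q z.2)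
      unfold K; ring
    have hv : (∫ z : ℝ × ℝ, K α z.1 z.2 * (q z.1 * q z.2)) = α * (γ + η) + α⁻¹ * (γ - η) := by
      have e : (fun z : ℝ × ℝ => K α z.1 z.2 * (q z.1 * q z.2)) = fun z : ℝ × ℝ =>
          α * (k1 z.1 z.2 * (q z.1 * q z.2)) + α⁻¹ * (k2 z.1 z.2 * (q z.1 * q z.2)) := by
        funext z; unfold K; ring
      rw [e, integral_add (J1.const_mul α) (J2.const_mul α⁻¹), integral_const_mul,
        integral_const_mul, V1, V2]
    rw [← hv, ofReal_integral_eq_lintegral_ofReal hint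
      (Eventually.of_forall fun z => mul_nonneg (K_nonneg hα _ _) (mul_nonneg (h0 _) (h0 _)))]
  rw [hlhs]
  have h2 := half hφ hs
  rw [htot] at h2
  have hpos : 0 ≤ α * (γ + η) + α⁻¹ * (γ - η) := by
    have := inv_pos.2 hα
    positivity
  have h3 : ENNReal.ofReal ((α * (γ + η) + α⁻¹ * (γ - η)) / 2)
      = ENNReal.ofReal (α * (γ + η) + α⁻¹ * (γ - η)) / 2 := by
    rw [ENNReal.ofReal_div_of_pos two_pos, ENNReal.ofReal_ofNat]
  rw [h3, ENNReal.le_div_iff_mul_le (by simp) (by simp), mul_comm]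
  exact h2

end Pool.Agent.Lib.MP424d38.TH
end
end

section
/-!
# Module SLT: the slice inequality
-/
set_option autoImplicit false

open MeasureTheory Filter Topology Set
open scoped ENNReal ContDiff ComplexConjugate FourierTransform

noncomputable section

namespace Pool.Agent.Lib.MP424d38.TH

open Pool.Agent.Lib.MP424d38.TY Pool.Agent.Lib.MP424d38.ES

theorem specSLT (hREP : SpecREP) (hSYM : SpecSYM) (hFOL : SpecFOL) (hFIX : SpecFIX)
    (hRHS : SpecRHS) (hMX1 : ES.SpecMX1) : SpecSLT := by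
  intro h k hE hM
  set F : ℝ → ℂ := ((𝓕 h : L2R) : ℝ → ℂ) with hF
  have hFm : Measurable F := (Lp.stronglyMeasurable _).measurable
  set q : ℝ → ℝ := fun ξ => ‖F ξ‖ ^ 2 with hq
  have hqm : Measurable q := (hFm.norm).pow_const 2
  have hq0 : ∀ ξ, 0 ≤ q ξ := fun ξ => by positivity
  have hqi : Integrable fun ξ => (1 + ξ ^ 2) * q ξ := by
    have h1 : Integrable fun ξ => q ξ := (hMX1.2.2.1 h).2.2
    have h2 : Integrable fun ξ => (2 * Real.pi * ξ) ^ 2 * q ξ := hE
    have h3 := h1.add (h2.const_mul ((2 * Real.pi) ^ 2)⁻¹)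
    refine h3.congr (Eventually.of_forall fun ξ => ?_)
    show q ξ + ((2 * Real.pi) ^ 2)⁻¹ * ((2 * Real.pi * ξ) ^ 2 * q ξ) = (1 + ξ ^ 2) * q ξ
    have : (2 * Real.pi) ≠ 0 := by positivity
    field_simp
  set γ : ℝ := (∫ ξ, q ξ) * (∫ ξ, ξ ^ 2 * q ξ) - (∫ ξ, ξ * q ξ) ^ 2 with hγ
  set η : ℝ := (∫ ξ, q ξ) * (∫ ξ, ξ * |ξ| * q ξ) - (∫ ξ, ξ * q ξ) * (∫ ξ, |ξ| * q ξ) with hη
  have s0 : sp (fun _ => 1) h = ∫ ξ, q ξ := by
    unfold sp
    refine integral_congr_ae (Eventually.of_forall fun ξ => ?_)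
    show 1 * q ξ = q ξ
    rw [one_mul]
  have s1 : sp (fun l => l) h = 2 * Real.pi * ∫ ξ, ξ * q ξ := by
    unfold sp
    rw [← integral_const_mul]
    refine integral_congr_ae (Eventually.of_forall fun ξ => ?_)
    show 2 * Real.pi * ξ * q ξ = 2 * Real.pi * (ξ * q ξ)
    ring
  have s2 : sp (fun l => l ^ 2) h = 4 * Real.pi ^ 2 * ∫ ξ, ξ ^ 2 * q ξ := by
    unfold sp
    rw [← integral_const_mul]
    refine integral_congr_ae (Eventually.of_forall fun ξ => ?_)
    show (2 * Real.pi * ξ) ^ 2 * q ξ = 4 * Real.pi ^ 2 * (ξ ^ 2 * q ξ)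
    ring
  have habs : ∀ ξ : ℝ, |2 * Real.pi * ξ| = 2 * Real.pi * |ξ| := fun ξ => by
    rw [abs_mul, abs_of_pos (by positivity : (0 : ℝ) < 2 * Real.pi)]
  have s3 : sp (fun l => |l|) h = 2 * Real.pi * ∫ ξ, |ξ| * q ξ := by
    unfold sp
    rw [← integral_const_mul]
    refine integral_congr_ae (Eventually.of_forall fun ξ => ?_)
    show |2 * Real.pi * ξ| * q ξ = 2 * Real.pi * (|ξ| * q ξ)
    rw [habs]
    ring
  have s4 : sp (fun l => l * |l|) h = 4 * Real.pi ^ 2 * ∫ ξ, ξ * |ξ| * q ξ := by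
    unfold sp
    rw [← integral_const_mul]
    refine integral_congr_ae (Eventually.of_forall fun ξ => ?_)
    show 2 * Real.pi * ξ * |2 * Real.pi * ξ| * q ξ = 4 * Real.pi ^ 2 * (ξ * |ξ| * q ξ)
    rw [habs]
    ring
  have hgm : gm h = 4 * Real.pi ^ 2 * γ := by
    unfold gm
    rw [s0, s1, s2, hγ]
    ring
  have het : et h = 4 * Real.pi ^ 2 * η := by
    unfold et
    rw [s0, s1, s3, s4, hη]
    ring
  have hR1 : |η| ≤ γ := (hRHS q 1 hqm hq0 hqi one_pos).1
  refine ⟨?_, fun α hα => ?_⟩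
  · rw [hgm, het, abs_mul, abs_of_pos (by positivity : (0 : ℝ) < 4 * Real.pi ^ 2)]
    exact mul_le_mul_of_nonneg_left hR1 (by positivity)
  · obtain ⟨hI, hrep⟩ := hREP h k hE hM
    rw [hrep]
    set I : ℂ := ∫ z : ℝ × ℝ × ℝ, ((|2 * Real.pi * (z.2.1 + z.1)| : ℝ) : ℂ) * Q4 F z with hIdef
    set g : ℝ → ℝ≥0∞ := fun ξ => ENNReal.ofReal ‖F ξ‖ with hg
    have hgmeas : Measurable g := ENNReal.measurable_ofReal.comp hFm.norm
    have h1 := hSYM F hFm hI
    have h2 := hFOL g hgmeas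
    have hc0 : 0 ≤ c0 := by unfold c0; norm_num
    have h3 : ∀ v ∈ Ioi (0 : ℝ), (∫⁻ x, ∫⁻ y in {y : ℝ | |x - y| ≤ v},
        ENNReal.ofReal |Sg (v, x, y)| * P4 g (v, x, y)) ≤
        ENNReal.ofReal c0 * ∫⁻ x, ENNReal.ofReal (v * wt α v x) * ENNReal.ofReal (q (x + v) * q x) := by
      intro v hv
      have h4 := hFIX v α (fun x => g (x + v) * g x) hv hα
        ((hgmeas.comp (measurable_id.add_const v)).mul hgmeas)
      have h5 : (∫⁻ x, ∫⁻ y in {y : ℝ | |x - y| ≤ v},
          ENNReal.ofReal |Sg (v, x, y)| * P4 g (v, x, y)) =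
          ∫⁻ x, ∫⁻ y in {y : ℝ | |x - y| ≤ v},
          ENNReal.ofReal |Sg (v, x, y)| * ((g (x + v) * g x) * (g (y + v) * g y)) := by
        refine lintegral_congr fun x => lintegral_congr fun y => ?_
        unfold P4
        rw [mul_comm (g (v, x, y).2.2)]
      rw [h5]
      refine h4.trans ?_
      rw [← lintegral_const_mul']
      · refine le_of_eq (lintegral_congr fun x => ?_)
        have h6 : (g (x + v) * g x) ^ 2 = ENNReal.ofReal (q (x + v) * q x) := by
          rw [hg, hq]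
          simp only
          rw [← ENNReal.ofReal_mul (norm_nonneg _), ← ENNReal.ofReal_pow (by positivity)]
          congr 1
          ring
        rw [h6, mul_assoc c0, ENNReal.ofReal_mul hc0, mul_assoc]
      · exact ENNReal.ofReal_ne_top
    have h4 : (∫⁻ v in Ioi (0 : ℝ), ∫⁻ x, ∫⁻ y in {y : ℝ | |x - y| ≤ v},
        ENNReal.ofReal |Sg (v, x, y)| * P4 g (v, x, y)) ≤
        ENNReal.ofReal c0 * ENNReal.ofReal ((α * (γ + η) + α⁻¹ * (γ - η)) / 2) := by
      refine (setLIntegral_mono' measurableSet_Ioi h3).trans ?_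
      rw [lintegral_const_mul' _ _ ENNReal.ofReal_ne_top]
      gcongr
      exact (hRHS q α hqm hq0 hqi hα).2
    have h5 : ENNReal.ofReal |I.im| ≤ ENNReal.ofReal (Real.pi / 2 * (4 * (c0 *
        ((α * (γ + η) + α⁻¹ * (γ - η)) / 2)))) := by
      refine h1.trans ?_
      rw [ENNReal.ofReal_mul (by positivity), ENNReal.ofReal_mul (by positivity),
        ENNReal.ofReal_mul hc0]
      gcongr
      refine h2.trans ?_
      have : ENNReal.ofReal 4 = 4 := by norm_num
      rw [this]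
      gcongr
    have hnn : 0 ≤ α * (γ + η) + α⁻¹ * (γ - η) := by
      have h6 := abs_le.1 hR1
      have : 0 < α⁻¹ := inv_pos.2 hα
      have h7 : 0 ≤ γ + η := by linarith [h6.1]
      have h8 : 0 ≤ γ - η := by linarith [h6.2]
      positivity
    have h6 := (ENNReal.ofReal_le_ofReal_iff (by positivity)).1 h5
    refine h6.trans (le_of_eq ?_)
    rw [hgm, het]
    have hpi : Real.pi ≠ 0 := Real.pi_ne_zero
    field_simp
    ring

end Pool.Agent.Lib.MP424d38.TH
end
end
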