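import Pool.Agent.Lib.MP_424d38_an.TH.SLT

/-!
# Module SYM of block TH: symmetrisation
-/

set_option autoImplicit false

open MeasureTheory Filter Topology Set
open scoped ENNReal ContDiff ComplexConjugate FourierTransform

noncomputable section

namespace Pool.Agent.Lib.MP424d38.TH

open Pool.Agent.Lib.MP424d38.TY Pool.Agent.Lib.MP424d38.ES

namespace SYMM

/-- `s₁` -/
def s1 : (ℝ × ℝ × ℝ) →ₗ[ℝ] (ℝ × ℝ × ℝ) where
  toFun z := (z.2.2 - z.2.1, z.2.1, z.2.1 + z.1)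
  map_add' z w := by ext <;> simp <;> ring
  map_smul' c z := by ext <;> simp <;> ring

/-- `s₂` -/
def s2 : (ℝ × ℝ × ℝ) →ₗ[ℝ] (ℝ × ℝ × ℝ) where
  toFun z := (z.1, z.2.2, z.2.1)
  map_add' z w := by ext <;> simp
  map_smul' c z := by ext <;> simp

theorem s1_apply (v x y : ℝ) : s1 (v, x, y) = (y - x, x, x + v) := rfl

theorem s2_apply (v x y : ℝ) : s2 (v, x, y) = (v, y, x) := rfl

theorem mp1 : MeasurePreserving s1 (volume : Measure (ℝ × ℝ × ℝ)) volume :=
  FOLM.mp_invol s1 fun ⟨v, x, y⟩ => by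
    rw [s1_apply, s1_apply]
    ext <;> simp

theorem mp2 : MeasurePreserving s2 (volume : Measure (ℝ × ℝ × ℝ)) volume :=
  FOLM.mp_invol s2 fun ⟨v, x, y⟩ => by
    rw [s2_apply, s2_apply]

theorem invol1 (z : ℝ × ℝ × ℝ) : s1 (s1 z) = z := by
  obtain ⟨v, x, y⟩ := z
  rw [s1_apply, s1_apply]
  ext <;> simp

theorem invol2 (z : ℝ × ℝ × ℝ) : s2 (s2 z) = z := by
  obtain ⟨v, x, y⟩ := z
  rw [s2_apply, s2_apply]

/-- a linear involution as a measurable equivalence is an embedding -/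
theorem emb (L : (ℝ × ℝ × ℝ) →ₗ[ℝ] (ℝ × ℝ × ℝ)) (h : ∀ z, L (L z) = z) :
    MeasurableEmbedding L := by
  have hc : Continuous L := L.continuous_of_finiteDimensional
  exact (⟨⟨L, L, h, h⟩, hc.measurable, hc.measurable⟩ : (ℝ × ℝ × ℝ) ≃ᵐ (ℝ × ℝ × ℝ)).measurableEmbedding

theorem Q4_s1 (F : ℝ → ℂ) (z : ℝ × ℝ × ℝ) : Q4 F (s1 z) = Q4 F z := by
  obtain ⟨v, x, y⟩ := z
  rw [s1_apply]
  unfold Q4
  have e1 : x + (y - x) = y := by ring
  have e2 : x + v + (y - x) = y + v := by ring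
  simp only [e1, e2]
  ring

theorem Q4_s2 (F : ℝ → ℂ) (z : ℝ × ℝ × ℝ) : Q4 F (s2 z) = conj (Q4 F z) := by
  obtain ⟨v, x, y⟩ := z
  rw [s2_apply]
  unfold Q4
  simp only [map_mul, Complex.conj_conj]
  ring

/-- the four weighted integrands -/
def G (w : (ℝ × ℝ × ℝ) → ℝ) (F : ℝ → ℂ) (z : ℝ × ℝ × ℝ) : ℂ := ((|2 * Real.pi * w z| : ℝ) : ℂ) * Q4 F z

/-- `ξ₁, ξ₃, ξ₂, ξ₄` -/
def w1 (z : ℝ × ℝ × ℝ) : ℝ := z.2.1 + z.1
def w3 (z : ℝ × ℝ × ℝ) : ℝ := z.2.2
def w2 (z : ℝ × ℝ × ℝ) : ℝ := z.2.2 + z.1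
def w4 (z : ℝ × ℝ × ℝ) : ℝ := z.2.1

theorem G13 (F : ℝ → ℂ) (z : ℝ × ℝ × ℝ) : G w1 F (s1 z) = G w3 F z := by
  obtain ⟨v, x, y⟩ := z
  unfold G
  rw [Q4_s1]
  have : w1 (s1 (v, x, y)) = w3 (v, x, y) := by
    rw [s1_apply]
    show x + (y - x) = y
    ring
  rw [this]

theorem G12 (F : ℝ → ℂ) (z : ℝ × ℝ × ℝ) : G w1 F (s2 z) = conj (G w2 F z) := by
  obtain ⟨v, x, y⟩ := z
  unfold G
  rw [Q4_s2, map_mul, Complex.conj_ofReal]
  rfl

theorem G34 (F : ℝ → ℂ) (z : ℝ × ℝ × ℝ) : G w3 F (s2 z) = conj (G w4 F z) := by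
  obtain ⟨v, x, y⟩ := z
  unfold G
  rw [Q4_s2, map_mul, Complex.conj_ofReal]
  rfl

/-- the norm of the quartic expression -/
theorem Q4_enorm (F : ℝ → ℂ) (z : ℝ × ℝ × ℝ) :
    ‖Q4 F z‖ₑ = P4 (fun ξ => ENNReal.ofReal ‖F ξ‖) z := by
  unfold Q4 P4
  simp only [enorm_mul, ofReal_norm]
  have hc : ∀ w : ℂ, ‖conj w‖ₑ = ‖w‖ₑ := fun w => by
    rw [← ofReal_norm, ← ofReal_norm, RCLike.norm_conj]
  rw [hc, hc]
  ring

theorem G_sum (F : ℝ → ℂ) (z : ℝ × ℝ × ℝ) :
    G w1 F z + G w3 F z - G w2 F z - G w4 F z = ((2 * Real.pi * Sg z : ℝ) : ℂ) * Q4 F z := by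
  unfold G Sg w1 w2 w3 w4
  have h : ∀ t : ℝ, |2 * Real.pi * t| = 2 * Real.pi * |t| := fun t => by
    rw [abs_mul, abs_of_pos Real.two_pi_pos]
  simp only [h]
  push_cast
  ring

end SYMM

open SYMM in
theorem specSYM : SpecSYM := by
  intro F hF hint
  have h1 : Integrable (G w1 F) := hint
  have emb1 := emb s1 invol1
  have emb2 := emb s2 invol2
  have h3 : Integrable (G w3 F) := by
    have := mp1.integrable_comp_of_integrable h1
    refine this.congr (Eventually.of_forall fun z => ?_)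
    exact G13 F z
  have h2' : Integrable (fun z => conj (G w2 F z)) := by
    have := mp2.integrable_comp_of_integrable h1
    refine this.congr (Eventually.of_forall fun z => ?_)
    exact G12 F z
  have h4' : Integrable (fun z => conj (G w4 F z)) := by
    have := mp2.integrable_comp_of_integrable h3
    refine this.congr (Eventually.of_forall fun z => ?_)
    exact G34 F z
  have h2 : Integrable (G w2 F) := by
    have := (Complex.conjCLE : ℂ →L[ℝ] ℂ).integrable_comp h2'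
    refine this.congr (Eventually.of_forall fun z => ?_)
    simp
  have h4 : Integrable (G w4 F) := by
    have := (Complex.conjCLE : ℂ →L[ℝ] ℂ).integrable_comp h4'
    refine this.congr (Eventually.of_forall fun z => ?_)
    simp
  set I : ℂ := ∫ z, G w1 F z with hI
  have i3 : ∫ z, G w3 F z = I := by
    rw [hI, ← mp1.integral_comp emb1 (G w1 F)]
    exact integral_congr_ae (Eventually.of_forall fun z => (G13 F z).symm)
  have i2 : ∫ z, G w2 F z = conj I := by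
    have e : ∫ z, conj (G w2 F z) = I := by
      rw [hI, ← mp2.integral_comp emb2 (G w1 F)]
      exact integral_congr_ae (Eventually.of_forall fun z => (G12 F z).symm)
    rw [← e, integral_conj, Complex.conj_conj]
  have i4 : ∫ z, G w4 F z = conj I := by
    have e : ∫ z, conj (G w4 F z) = I := by
      rw [← i3, ← mp2.integral_comp emb2 (G w3 F)]
      exact integral_congr_ae (Eventually.of_forall fun z => (G34 F z).symm)
    rw [← e, integral_conj, Complex.conj_conj]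
  have hsum : ∫ z, ((2 * Real.pi * Sg z : ℝ) : ℂ) * Q4 F z = 4 * I.im * Complex.I := by
    have e : ∫ z, ((2 * Real.pi * Sg z : ℝ) : ℂ) * Q4 F z
        = ∫ z, (G w1 F z + G w3 F z - G w2 F z - G w4 F z) :=
      integral_congr_ae (Eventually.of_forall fun z => (G_sum F z).symm)
    have e1 : ∫ z, (G w1 F z + G w3 F z) = I + I := by
      rw [integral_add h1 h3, i3]
    have e2 : ∫ z, (G w1 F z + G w3 F z - G w2 F z) = I + I - conj I := by
      have := integral_sub (h1.add h3) h2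
      simp only [Pi.add_apply] at this
      rw [this, e1, i2]
    have e3 : ∫ z, (G w1 F z + G w3 F z - G w2 F z - G w4 F z) = I + I - conj I - conj I := by
      have := integral_sub ((h1.add h3).sub h2) h4
      simp only [Pi.add_apply, Pi.sub_apply] at this
      rw [this, e2, i4]
    rw [e, e3]
    apply Complex.ext
    · simp
    · simp
      ring
  have hle : ‖∫ z, ((2 * Real.pi * Sg z : ℝ) : ℂ) * Q4 F z‖ₑ
      ≤ ∫⁻ z, ‖((2 * Real.pi * Sg z : ℝ) : ℂ) * Q4 F z‖ₑ := enorm_integral_le_lintegral_enorm _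
  have hR : ∫⁻ z, ‖((2 * Real.pi * Sg z : ℝ) : ℂ) * Q4 F z‖ₑ
      = ENNReal.ofReal (2 * Real.pi) *
        ∫⁻ z, ENNReal.ofReal |Sg z| * P4 (fun ξ => ENNReal.ofReal ‖F ξ‖) z := by
    rw [← lintegral_const_mul' _ _ ENNReal.ofReal_ne_top]
    refine lintegral_congr fun z => ?_
    rw [enorm_mul, Q4_enorm, ← mul_assoc, ← ENNReal.ofReal_mul Real.two_pi_pos.le,
      ← ofReal_norm, Complex.norm_real, Real.norm_eq_abs, abs_mul,
      abs_of_pos Real.two_pi_pos]
  have hL : ‖∫ z, ((2 * Real.pi * Sg z : ℝ) : ℂ) * Q4 F z‖ₑ = ENNReal.ofReal (4 * |I.im|) := by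
    rw [hsum, ← ofReal_norm]
    congr 1
    rw [norm_mul, norm_mul, Complex.norm_I, mul_one, Complex.norm_real, Real.norm_eq_abs]
    norm_num
  rw [hL, hR] at hle
  have hfin : ENNReal.ofReal |I.im| = ENNReal.ofReal (1 / 4) * ENNReal.ofReal (4 * |I.im|) := by
    rw [← ENNReal.ofReal_mul (by norm_num)]
    congr 1
    ring
  show ENNReal.ofReal |I.im| ≤ _
  rw [hfin]
  calc ENNReal.ofReal (1 / 4) * ENNReal.ofReal (4 * |I.im|)
      ≤ ENNReal.ofReal (1 / 4) * (ENNReal.ofReal (2 * Real.pi) *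
        ∫⁻ z, ENNReal.ofReal |Sg z| * P4 (fun ξ => ENNReal.ofReal ‖F ξ‖) z) := by gcongr
    _ = _ := by
        rw [← mul_assoc, ← ENNReal.ofReal_mul (by norm_num)]
        congr 2
        ring

end Pool.Agent.Lib.MP424d38.TH
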