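import Pool.Agent.Lib.MP_424d38_an.TH.SpecC
import Pool.Agent.Lib.MP_424d38_an.ES.NEA

section
/-!
# Module RNF: facts on the mollified mass coordinate
-/
set_option autoImplicit false

open MeasureTheory Filter Topology Set
open scoped ENNReal ContDiff ComplexConjugate

noncomputable section

namespace Pool.Agent.Lib.MP424d38.TH

open Pool.Agent.Lib.MP424d38.TY Pool.Agent.Lib.MP424d38.ES

namespace RNFM

open PAIM

/-- the smooth Heaviside function -/
def Hk (n : ℕ) (s : ℝ) : ℝ := (1 + kap n s) / 2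

/-- its derivative -/
def Hd (n : ℕ) (s : ℝ) : ℝ := deriv (kap n) s / 2

theorem Rn_eq (n : ℕ) (ρ : L1) : Rn n ρ = bet (Hk n) ρ := rfl

theorem qc_eq (n : ℕ) (ρ : L1) : qc n ρ = bet (Hd n) ρ := rfl

theorem bet_sub {κ : ℝ → ℝ} {C : ℝ} (hκ : Continuous κ) (hC : ∀ s, |κ s| ≤ C) (g g' : L1) (a : ℝ) :
    bet κ g a - bet κ g' a = bet κ (g - g') a := by
  unfold bet
  rw [← integral_sub (int_bet hκ hC g a) (int_bet hκ hC g' a)]
  refine integral_congr_ae ?_
  filter_upwards [Lp.coeFn_sub g g'] with b hb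
  rw [hb, Pi.sub_apply]
  ring

theorem bet_smul {κ : ℝ → ℝ} (c : ℝ) (g : L1) (a : ℝ) :
    bet κ (c • g) a = c * bet κ g a := by
  unfold bet
  rw [← integral_const_mul]
  refine integral_congr_ae ?_
  filter_upwards [Lp.coeFn_smul c g] with b hb
  rw [hb, Pi.smul_apply, smul_eq_mul]
  ring

section

variable {n : ℕ}

theorem Hk_deriv (hc : ContDiff ℝ ∞ (kap n)) : deriv (Hk n) = Hd n := by
  funext s
  have hd : Differentiable ℝ (kap n) := hc.differentiable (by simp)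
  have h1 : HasDerivAt (Hk n) (deriv (kap n) s / 2) s :=
    ((hd s).hasDerivAt.const_add 1).div_const 2
  exact h1.deriv

theorem Hk_contDiff (hc : ContDiff ℝ ∞ (kap n)) : ContDiff ℝ 1 (Hk n) := by
  have h1 : ContDiff ℝ 1 (kap n) := hc.of_le (by simp)
  exact (contDiff_const.add h1).div_const 2

end

end RNFM

open RNFM PAIM in
theorem specRNF (hKPF : SpecKPF) : SpecRNF := by
  intro n hn
  obtain ⟨hsm, hcb, hcb', hk1, hd0, hdz, ⟨hdi, hdI⟩, hodd, hone⟩ := hKPF n hn
  obtain ⟨-, C0, hC0⟩ := hcb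
  have hKc : ContDiff ℝ 1 (Hk n) := Hk_contDiff hsm
  have hKd : deriv (Hk n) = Hd n := Hk_deriv hsm
  have hdc : Continuous (Hd n) := by
    rw [← hKd]
    exact hKc.continuous_deriv (by norm_num)
  have hK01 : ∀ s, 0 ≤ Hk n s ∧ Hk n s ≤ 1 := by
    intro s
    have := abs_le.1 (hk1 s)
    unfold Hk
    constructor <;> linarith [this.1, this.2]
  have hKb : ∀ s, |Hk n s| ≤ 1 := fun s => by
    rw [abs_of_nonneg (hK01 s).1]
    exact (hK01 s).2
  have hHd0 : ∀ s, 0 ≤ Hd n s := fun s => div_nonneg (hd0 s) (by norm_num)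
  set C : ℝ := max C0 1 with hC
  have hC1 : 1 ≤ C := le_max_right _ _
  have hCd : ∀ s, |Hd n s| ≤ C := by
    intro s
    have h1 := (hC0 s).2
    unfold Hd
    rw [abs_div, abs_of_pos (by norm_num : (0 : ℝ) < 2)]
    have h2 : 0 ≤ |deriv (kap n) s| := abs_nonneg _
    have h3 : C0 ≤ C := le_max_left _ _
    linarith
  have hKb' : ∀ s, |Hk n s| ≤ C := fun s => (hKb s).trans hC1
  refine ⟨C, by linarith, ?_, ?_, ?_, ?_, ?_, ?_⟩
  · intro ρ m hρ hm a
    refine ⟨?_, ?_, ?_⟩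
    · refine integral_nonneg_of_ae ?_
      filter_upwards [hρ] with x hx
      exact mul_nonneg (hK01 _).1 hx
    · rw [← hm]
      refine integral_mono_ae (int_bet hKc.continuous hKb ρ a) (int_g ρ) ?_
      filter_upwards [hρ] with x hx
      have := mul_le_mul_of_nonneg_right (hK01 (a - x)).2 hx
      rwa [one_mul] at this
    · refine integral_nonneg_of_ae ?_
      filter_upwards [hρ] with x hx
      exact mul_nonneg (hHd0 _) hx
  · intro g a
    refine ⟨?_, ?_⟩
    · have := bet_deriv hKc hKb' (by rw [hKd]; exact hCd) g a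
      rw [hKd] at this
      exact this
    · exact bet_bdd hCd g a
  · intro g
    exact bet_cont hdc hCd g
  · intro g g' a
    refine ⟨?_, ?_⟩
    · rw [Rn_eq, Rn_eq, bet_sub hKc.continuous hKb]
      have := bet_bdd hKb (g - g') a
      rwa [one_mul] at this
    · rw [qc_eq, qc_eq, bet_sub hdc hCd]
      exact bet_bdd hCd (g - g') a
  · intro T ρ p hlaw a s t h0 hst htT
    have hβd : deriv (fun x => Hk n (a - x)) = fun x => - Hd n (a - x) := by
      funext x
      have h1 : HasDerivAt (Hk n) (Hd n (a - x)) (a - x) := by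
        have := ((hKc.differentiable (by norm_num)) (a - x)).hasDerivAt
        rwa [hKd] at this
      have h2 : HasDerivAt (fun x => a - x) (-1) x := (hasDerivAt_id x).const_sub a
      have h3 := h1.comp x h2
      rw [mul_neg, mul_one] at h3
      exact h3.deriv
    have hβ : Cb1 (fun x => Hk n (a - x)) := by
      refine ⟨hKc.comp (contDiff_const.sub contDiff_id), C, fun x => ⟨hKb' _, ?_⟩⟩
      rw [hβd]
      simp only
      rw [abs_neg]
      exact hCd _
    have h1 := hlaw.law _ hβ s t h0 hst htT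
    refine h1.trans (intervalIntegral.integral_congr fun r _ => ?_)
    show ∫ x, deriv (fun x => Hk n (a - x)) x * ((4 : ℝ) • p r : L1) x = -4 * qc n (p r) a
    rw [hβd, qc_eq]
    have h2 : (∫ x, (fun x => - Hd n (a - x)) x * ((4 : ℝ) • p r : L1) x) =
        - bet (Hd n) ((4 : ℝ) • p r) a := by
      unfold bet
      rw [← integral_neg]
      refine integral_congr_ae (ae_of_all _ fun x => ?_)
      show - Hd n (a - x) * ((4 : ℝ) • p r : L1) x = -(Hd n (a - x) * ((4 : ℝ) • p r : L1) x)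
      ring
    rw [h2, bet_smul]
    ring
  · intro ρ R₀ hρ a
    have hnpos : (0 : ℝ) < n := by exact_mod_cast hn
    have hR0 : 0 ≤ R₀ := by
      obtain ⟨x, hx⟩ := hρ.exists
      exact hx.1.trans hx.2
    have h1 : Rm ρ a = ∫ x, (Iio a).indicator (fun x => ρ x) x := by
      unfold Rm
      rw [integral_indicator measurableSet_Iio]
    have hi : Integrable ((Iio a).indicator (fun x => ρ x)) :=
      (int_g ρ).indicator measurableSet_Iio
    have h2 : Rn n ρ a - Rm ρ a =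
        ∫ x, (Hk n (a - x) * ρ x - (Iio a).indicator (fun x => ρ x) x) := by
      rw [h1, Rn_eq, integral_sub (int_bet hKc.continuous hKb ρ a) hi]
      rfl
    have h3 : Integrable ((Icc (a - 1 / n) (a + 1 / n)).indicator fun _ : ℝ => R₀) := by
      rw [integrable_indicator_iff measurableSet_Icc]
      exact integrableOn_const (by simp)
    have h4 : (∫ x, (Icc (a - 1 / n) (a + 1 / n)).indicator (fun _ : ℝ => R₀) x) =
        2 * R₀ / n := by
      rw [integral_indicator measurableSet_Icc, integral_const, measureReal_restrict_apply_univ,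
        Real.volume_real_Icc, max_eq_left]
      · rw [smul_eq_mul]
        field_simp
        ring
      · have : 0 ≤ 1 / (n : ℝ) := by positivity
        linarith
    rw [h2, ← h4, ← Real.norm_eq_abs]
    refine norm_integral_le_of_norm_le h3 ?_
    filter_upwards [hρ] with x hx
    rw [Real.norm_eq_abs]
    by_cases hin : x ∈ Icc (a - 1 / (n : ℝ)) (a + 1 / n)
    · rw [indicator_of_mem hin]
      have h5 := hK01 (a - x)
      by_cases hxa : x ∈ Iio a
      · rw [indicator_of_mem hxa]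
        have h6 : Hk n (a - x) * ρ x - ρ x = -((1 - Hk n (a - x)) * ρ x) := by ring
        rw [h6, abs_neg, abs_of_nonneg (mul_nonneg (by linarith [h5.2]) hx.1)]
        nlinarith [hx.1, hx.2, h5.1, h5.2]
      · rw [indicator_of_notMem hxa, sub_zero, abs_of_nonneg (mul_nonneg h5.1 hx.1)]
        nlinarith [hx.1, hx.2, h5.1, h5.2]
    · rw [indicator_of_notMem hin]
      have h7 : x < a - 1 / (n : ℝ) ∨ a + 1 / (n : ℝ) < x := by
        by_contra hcon
        push Not at hcon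
        exact hin ⟨hcon.1, hcon.2⟩
      have hp : 0 < 1 / (n : ℝ) := by positivity
      rcases h7 with h8 | h8
      · have hxa : x ∈ Iio a := by
          show x < a
          linarith
        rw [indicator_of_mem hxa]
        have h9 : Hk n (a - x) = 1 := by
          unfold Hk
          rw [hone (a - x) (by linarith)]
          norm_num
        rw [h9, one_mul, sub_self, abs_zero]
      · have hxa : x ∉ Iio a := by
          intro h
          have : x < a := h
          linarith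
        rw [indicator_of_notMem hxa]
        have h9 : Hk n (a - x) = 0 := by
          unfold Hk
          have h10 := hodd (x - a)
          rw [neg_sub, hone (x - a) (by linarith)] at h10
          rw [h10]
          norm_num
        rw [h9, zero_mul, sub_self, abs_zero]

end Pool.Agent.Lib.MP424d38.TH
end
end

section
/-!
# Block TH, module TDT: time dependent test functions
-/
set_option autoImplicit false

open MeasureTheory Filter Topology Set
open scoped ENNReal ContDiff ComplexConjugate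

noncomputable section

namespace Pool.Agent.Lib.MP424d38.TH

open Pool.Agent.Lib.MP424d38.TY Pool.Agent.Lib.MP424d38.ES

namespace TDTM

theorem int_mul {A : ℝ → ℝ} {C : ℝ} (hA : Continuous A) (hC : ∀ a, |A a| ≤ C) (g : L1) :
    Integrable (fun a => A a * g a) := by
  refine (L1.integrable_coeFn g).bdd_mul (c := C) hA.aestronglyMeasurable ?_
  exact ae_of_all _ fun a => hC a

theorem abs_int_le {A : ℝ → ℝ} {C : ℝ} (hC : ∀ a, |A a| ≤ C) (g : L1) :
    |∫ a, A a * g a| ≤ C * ‖g‖ := by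
  have h1 : ‖g‖ = ∫ b, ‖g b‖ := L1.norm_eq_integral_norm g
  rw [h1, ← integral_const_mul, ← Real.norm_eq_abs]
  refine norm_integral_le_of_norm_le ((L1.integrable_coeFn g).norm.const_mul C)
    (ae_of_all _ fun b => ?_)
  rw [norm_mul]
  exact mul_le_mul_of_nonneg_right (hC _) (norm_nonneg _)

/-- joint continuity of the pairing -/
theorem joint {T : ℝ} {A : ℝ → ℝ → ℝ} {G : ℝ → L1}
    (hc : ∀ t ∈ Ico 0 T, Continuous (A t) ∧ ∃ C : ℝ, ∀ a, |A t a| ≤ C)
    (hu : ∀ t ∈ Ico 0 T, ∀ ε : ℝ, 0 < ε → ∃ δ : ℝ, 0 < δ ∧ ∀ r ∈ Ico 0 T, |r - t| < δ → ∀ a,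
      |A r a - A t a| ≤ ε)
    (hG : ContinuousOn G (Ico 0 T)) :
    ContinuousOn (fun z : ℝ × ℝ => ∫ a, A z.1 a * G z.2 a) (Ico 0 T ×ˢ Ico 0 T) := by
  rw [Metric.continuousOn_iff]
  rintro ⟨t, v⟩ ⟨ht, hv⟩ ε hε
  obtain ⟨hAt, C, hC⟩ := hc t ht
  have hC0 : 0 ≤ C := (abs_nonneg _).trans (hC 0)
  set K : ℝ := ‖G v‖ + 1 with hK
  have hK0 : 0 < K := by positivity
  obtain ⟨δ1, hδ1, h1⟩ := hu t ht (ε / (4 * K)) (by positivity)
  obtain ⟨δ2, hδ2, h2⟩ := Metric.continuousOn_iff.1 hG v hv (min 1 (ε / (4 * (C + 1))))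
    (by positivity)
  refine ⟨min δ1 δ2, lt_min hδ1 hδ2, ?_⟩
  rintro ⟨r, u⟩ ⟨hr, hu'⟩ hd
  rw [Prod.dist_eq, max_lt_iff] at hd
  have hd1 : |r - t| < δ1 := by
    have := hd.1
    rw [Real.dist_eq] at this
    exact this.trans_le (min_le_left _ _)
  have hd2 : dist u v < δ2 := hd.2.trans_le (min_le_right _ _)
  have h3 := h1 r hr hd1
  have h4 := h2 u hu' hd2
  rw [dist_eq_norm, lt_min_iff] at h4
  obtain ⟨hAr, Cr, hCr⟩ := hc r hr
  have i1 : Integrable (fun a => A r a * G u a) := int_mul hAr hCr (G u)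
  have i2 : Integrable (fun a => A t a * G u a) := int_mul hAt hC (G u)
  have i3 : Integrable (fun a => A t a * G v a) := int_mul hAt hC (G v)
  have e1 : (∫ a, A r a * G u a) - ∫ a, A t a * G v a =
      (∫ a, (A r a - A t a) * G u a) + ∫ a, A t a * (G u - G v : L1) a := by
    have e2 : (∫ a, (A r a - A t a) * G u a) = (∫ a, A r a * G u a) - ∫ a, A t a * G u a := by
      rw [← integral_sub i1 i2]
      exact integral_congr_ae (ae_of_all _ fun a => by simp only []; ring)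
    have e3 : (∫ a, A t a * (G u - G v : L1) a) = (∫ a, A t a * G u a) - ∫ a, A t a * G v a := by
      rw [← integral_sub i2 i3]
      refine integral_congr_ae ?_
      filter_upwards [Lp.coeFn_sub (G u) (G v)] with a ha
      rw [ha, Pi.sub_apply]
      ring
    rw [e2, e3]
    ring
  have b1 : |∫ a, (A r a - A t a) * G u a| ≤ ε / (4 * K) * ‖G u‖ := abs_int_le h3 (G u)
  have b2 : |∫ a, A t a * (G u - G v : L1) a| ≤ C * ‖G u - G v‖ := abs_int_le hC _
  have hGu : ‖G u‖ ≤ K := by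
    have := norm_add_le (G u - G v) (G v)
    rw [sub_add_cancel] at this
    linarith [h4.1]
  have b3 : ε / (4 * K) * ‖G u‖ ≤ ε / 4 := by
    calc ε / (4 * K) * ‖G u‖ ≤ ε / (4 * K) * K := mul_le_mul_of_nonneg_left hGu (by positivity)
      _ = ε / 4 := by field_simp
  have b4 : C * ‖G u - G v‖ ≤ ε / 4 := by
    calc C * ‖G u - G v‖ ≤ (C + 1) * (ε / (4 * (C + 1))) := by
          apply mul_le_mul (by linarith) h4.2.le (norm_nonneg _) (by positivity)
      _ = ε / 4 := by field_simp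
  rw [Real.dist_eq]
  show |(∫ a, A r a * G u a) - ∫ a, A t a * G v a| < ε
  rw [e1]
  have := abs_add_le (∫ a, (A r a - A t a) * G u a) (∫ a, A t a * (G u - G v : L1) a)
  linarith

/-- the mean value theorem in time -/
theorem mv {T : ℝ} {B B₂ : ℝ → ℝ → ℝ}
    (hB : ∀ a, ContinuousOn (fun t => B t a) (Ico 0 T))
    (hd : ∀ a, ∀ t ∈ Ioo 0 T, HasDerivAt (fun r => B r a) (B₂ t a) t)
    (x y : ℝ) (hx : x ∈ Ico 0 T) (hy : y ∈ Ico 0 T) (a : ℝ) :
    ∃ c ∈ Ico 0 T, |c - x| ≤ |y - x| ∧ B y a - B x a = B₂ c a * (y - x) := by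
  rcases lt_trichotomy x y with h | h | h
  · obtain ⟨c, hc, he⟩ := exists_hasDerivAt_eq_slope (fun t => B t a) (fun t => B₂ t a) h
      ((hB a).mono fun z hz => ⟨hx.1.trans hz.1, hz.2.trans_lt hy.2⟩)
      (fun z hz => hd a z ⟨hx.1.trans_lt hz.1, hz.2.trans hy.2⟩)
    refine ⟨c, ⟨hx.1.trans hc.1.le, hc.2.trans hy.2⟩, ?_, ?_⟩
    · rw [abs_of_pos (by linarith [hc.1]), abs_of_pos (by linarith)]
      linarith [hc.2]
    · have : y - x ≠ 0 := by linarith [h] |> fun h => (sub_pos.2 ‹x < y›).ne'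
      field_simp at he
      linarith
  · subst h
    exact ⟨x, hx, le_refl _, by simp⟩
  · obtain ⟨c, hc, he⟩ := exists_hasDerivAt_eq_slope (fun t => B t a) (fun t => B₂ t a) h
      ((hB a).mono fun z hz => ⟨hy.1.trans hz.1, hz.2.trans_lt hx.2⟩)
      (fun z hz => hd a z ⟨hy.1.trans_lt hz.1, hz.2.trans hx.2⟩)
    refine ⟨c, ⟨hy.1.trans hc.1.le, hc.2.trans hx.2⟩, ?_, ?_⟩
    · rw [abs_of_neg (by linarith [hc.2]), abs_of_neg (by linarith)]
      linarith [hc.1]
    · have : x - y ≠ 0 := (sub_pos.2 h).ne'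
      field_simp at he
      linarith

end TDTM

open TDTM in
theorem specTDT : SpecTDT := by
  intro T F F₁ s₁ hL B B₁ B₂ hB hu hcont hder s t h0 hst htT
  -- uniform continuity of `B` in time
  have huB : ∀ t ∈ Ico 0 T, ∀ ε : ℝ, 0 < ε → ∃ δ : ℝ, 0 < δ ∧ ∀ r ∈ Ico 0 T, |r - t| < δ → ∀ a,
      |B r a - B t a| ≤ ε := by
    intro t ht ε hε
    obtain ⟨-, -, -, C, hC⟩ := hB t ht
    obtain ⟨δ, hδ, h1⟩ := hu t ht 1 one_pos
    have hC0 : 0 ≤ C := (abs_nonneg _).trans (hC 0)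
    refine ⟨min δ (ε / (C + 1)), by positivity, fun r hr hrt a => ?_⟩
    obtain ⟨c, hc, hcx, he⟩ := mv hcont hder t r ht hr a
    have h2 := (h1 c hc ((hcx.trans_lt hrt).trans_le (min_le_left _ _)) a).2
    have h3 : |B₂ c a| ≤ C + 1 := by
      have h4 := abs_sub_abs_le_abs_sub (B₂ c a) (B₂ t a)
      linarith [hC a]
    rw [he, abs_mul]
    have h5 : |r - t| ≤ ε / (C + 1) := (hrt.trans_le (min_le_right _ _)).le
    calc |B₂ c a| * |r - t| ≤ (C + 1) * (ε / (C + 1)) := by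
          apply mul_le_mul h3 h5 (abs_nonneg _) (by positivity)
      _ = ε := by field_simp
  have hcB : ∀ t ∈ Ico 0 T, Continuous (B t) ∧ ∃ C : ℝ, ∀ a, |B t a| ≤ C := by
    intro t ht
    obtain ⟨⟨h1, C, hC⟩, -, -, -⟩ := hB t ht
    exact ⟨h1.continuous, C, fun a => (hC a).1⟩
  have hcB1 : ∀ t ∈ Ico 0 T, Continuous (B₁ t) ∧ ∃ C : ℝ, ∀ a, |B₁ t a| ≤ C := by
    intro t ht
    obtain ⟨⟨h1, C, hC⟩, h2, -, -⟩ := hB t ht
    rw [← h2]
    exact ⟨h1.continuous_deriv (by norm_num), C, fun a => (hC a).2⟩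
  have hcB2 : ∀ t ∈ Ico 0 T, Continuous (B₂ t) ∧ ∃ C : ℝ, ∀ a, |B₂ t a| ≤ C := fun t ht =>
    ⟨(hB t ht).2.2.1, (hB t ht).2.2.2⟩
  have huB1 : ∀ t ∈ Ico 0 T, ∀ ε : ℝ, 0 < ε → ∃ δ : ℝ, 0 < δ ∧ ∀ r ∈ Ico 0 T, |r - t| < δ → ∀ a,
      |B₁ r a - B₁ t a| ≤ ε := by
    intro t ht ε hε
    obtain ⟨δ, hδ, h1⟩ := hu t ht ε hε
    exact ⟨δ, hδ, fun r hr h a => (h1 r hr h a).1⟩
  have huB2 : ∀ t ∈ Ico 0 T, ∀ ε : ℝ, 0 < ε → ∃ δ : ℝ, 0 < δ ∧ ∀ r ∈ Ico 0 T, |r - t| < δ → ∀ a,
      |B₂ r a - B₂ t a| ≤ ε := by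
    intro t ht ε hε
    obtain ⟨δ, hδ, h1⟩ := hu t ht ε hε
    exact ⟨δ, hδ, fun r hr h a => (h1 r hr h a).2⟩
  have jB := joint hcB huB hL.cf
  have jBs := joint hcB huB hL.cs
  have jB1 := joint hcB1 huB1 hL.cF
  have jB2 := joint hcB2 huB2 hL.cf
  have hdiag : ContinuousOn (fun x : ℝ => ∫ a, B x a * F x a) (Ico 0 T) :=
    jB.comp (f := fun r : ℝ => (r, r)) (by fun_prop) fun r hr => ⟨hr, hr⟩
  -- derivative in the first time
  have hD : ∀ u ∈ Ico 0 T, ∀ x ∈ Ioo 0 T,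
      HasDerivAt (fun y => ∫ a, B y a * F u a) (∫ a, B₂ x a * F u a) x := by
    intro u hu' x hx
    have hxI : x ∈ Ico 0 T := ⟨hx.1.le, hx.2⟩
    rw [hasDerivAt_iff_isLittleO, Asymptotics.isLittleO_iff]
    intro c hc
    set K : ℝ := ‖F u‖ + 1 with hK
    have hK0 : 0 < K := by positivity
    obtain ⟨δ, hδ, h1⟩ := huB2 x hxI (c / K) (by positivity)
    have hev : ∀ᶠ y in 𝓝 x, y ∈ Ioo 0 T ∧ |y - x| < δ := by
      filter_upwards [isOpen_Ioo.mem_nhds hx, Metric.ball_mem_nhds x hδ] with y hy1 hy2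
      rw [Metric.mem_ball, Real.dist_eq] at hy2
      exact ⟨hy1, hy2⟩
    filter_upwards [hev] with y hy
    have hyI : y ∈ Ico 0 T := ⟨hy.1.1.le, hy.1.2⟩
    obtain ⟨cx, Cx, hCx⟩ := hcB x hxI
    obtain ⟨cy, Cy, hCy⟩ := hcB y hyI
    obtain ⟨c2, C2, hC2⟩ := hcB2 x hxI
    have i1 := int_mul cy hCy (F u)
    have i2 := int_mul cx hCx (F u)
    have i3 := int_mul c2 hC2 (F u)
    have e1 : (∫ a, B y a * F u a) - (∫ a, B x a * F u a) - (y - x) • (∫ a, B₂ x a * F u a) =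
        ∫ a, (B y a - B x a - (y - x) * B₂ x a) * F u a := by
      have e2 : (∫ a, (B y a - B x a - (y - x) * B₂ x a) * F u a) =
          ∫ a, ((B y a * F u a - B x a * F u a) - (y - x) * (B₂ x a * F u a)) :=
        integral_congr_ae (ae_of_all _ fun a => by simp only []; ring)
      have e3 : (∫ a, ((B y a * F u a - B x a * F u a) - (y - x) * (B₂ x a * F u a))) =
          (∫ a, (B y a * F u a - B x a * F u a)) - ∫ a, (y - x) * (B₂ x a * F u a) :=
        integral_sub (i1.sub i2) (i3.const_mul _)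
      rw [e2, e3, integral_sub i1 i2, integral_const_mul, smul_eq_mul]
    rw [e1]
    have h2 : ∀ a, |B y a - B x a - (y - x) * B₂ x a| ≤ |y - x| * (c / K) := by
      intro a
      obtain ⟨d, hd, hdx, he⟩ := mv hcont hder x y hxI hyI a
      have h3 := h1 d hd (hdx.trans_lt hy.2) a
      have e2 : B y a - B x a - (y - x) * B₂ x a = (y - x) * (B₂ d a - B₂ x a) := by
        rw [he]; ring
      rw [e2, abs_mul]
      exact mul_le_mul_of_nonneg_left h3 (abs_nonneg _)
    have h3 := abs_int_le h2 (F u)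
    rw [Real.norm_eq_abs, Real.norm_eq_abs]
    refine h3.trans ?_
    have h4 : c / K * ‖F u‖ ≤ c := by
      calc c / K * ‖F u‖ ≤ c / K * K := mul_le_mul_of_nonneg_left (by rw [hK]; linarith)
            (by positivity)
        _ = c := by field_simp
    calc |y - x| * (c / K) * ‖F u‖ = |y - x| * (c / K * ‖F u‖) := by ring
      _ ≤ |y - x| * c := mul_le_mul_of_nonneg_left h4 (abs_nonneg _)
      _ = c * |y - x| := by ring
  have key := PAIM.fund (T := T) (Ψ := fun x y => ∫ a, B x a * F y a)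
    (P := fun x y => ∫ a, B₂ x a * F y a)
    (Q := fun x y => (∫ a, B₁ x a * F₁ y a) + ∫ a, B x a * s₁ y a)
    hdiag jB2 (jB1.add jBs) ?_ ?_ s t h0 hst htT
  · refine key.trans (intervalIntegral.integral_congr fun r _ => ?_)
    show (∫ a, B₂ r a * F r a) + ((∫ a, B₁ r a * F₁ r a) + ∫ a, B r a * s₁ r a) = _
    ring
  · intro s t u h0 hst htT hu'
    have hsub : Icc s t ⊆ Ico 0 T := fun x hx => ⟨h0.trans hx.1, hx.2.trans_lt htT⟩
    symm
    refine intervalIntegral.integral_eq_sub_of_hasDerivAt_of_le hst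
      (f := fun y => ∫ a, B y a * F u a) (f' := fun y => ∫ a, B₂ y a * F u a) ?_ ?_ ?_
    · exact jB.comp (f := fun r : ℝ => (r, u)) (by fun_prop) fun r hr => ⟨hsub hr, hu'⟩
    · intro x hx
      exact hD u hu' x ⟨h0.trans_lt hx.1, hx.2.trans htT⟩
    · apply ContinuousOn.intervalIntegrable
      rw [uIcc_of_le hst]
      exact jB2.comp (f := fun r : ℝ => (r, u)) (by fun_prop) fun r hr => ⟨hsub hr, hu'⟩
  · intro s t u h0 hst htT hu'
    have h1 := hL.law (B u) (hB u hu').1 s t h0 hst htT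
    rw [(hB u hu').2.1] at h1
    exact h1

end Pool.Agent.Lib.MP424d38.TH
end
end

section
/-!
# Block TH, module THR: the threshold
-/
set_option autoImplicit false

open MeasureTheory Filter Topology Set
open scoped ENNReal ContDiff ComplexConjugate

noncomputable section

namespace Pool.Agent.Lib.MP424d38.TH

open Pool.Agent.Lib.MP424d38.TY Pool.Agent.Lib.MP424d38.ES

namespace THRM

/-- angle -/
def th (c₁ m r : ℝ) : ℝ := c₁ / 2 * (r - m / 2)

/-- secant -/
def ph (c₁ m r : ℝ) : ℝ := (Real.cos (th c₁ m r))⁻¹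

/-- its derivative -/
def ph' (c₁ m r : ℝ) : ℝ := c₁ / 2 * Real.sin (th c₁ m r) / Real.cos (th c₁ m r) ^ 2

/-- tangent -/
def ft (c₁ m r : ℝ) : ℝ := Real.sin (th c₁ m r) / Real.cos (th c₁ m r)

/-- its derivative -/
def ft' (c₁ m r : ℝ) : ℝ := c₁ / 2 / Real.cos (th c₁ m r) ^ 2

theorem th_abs {c₁ m : ℝ} (hc : 0 < c₁) {r : ℝ} (hr : r ∈ Icc 0 m) :
    |th c₁ m r| ≤ c₁ * m / 4 := by
  unfold th
  rw [abs_mul, abs_of_pos (by positivity : (0 : ℝ) < c₁ / 2)]
  have h1 : |r - m / 2| ≤ m / 2 := by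
    rw [abs_le]
    constructor <;> linarith [hr.1, hr.2]
  calc c₁ / 2 * |r - m / 2| ≤ c₁ / 2 * (m / 2) := mul_le_mul_of_nonneg_left h1 (by positivity)
    _ = c₁ * m / 4 := by ring

theorem cos_ge {c₁ m : ℝ} (hc : 0 < c₁) (hcm : c₁ * m < 2 * Real.pi) {r : ℝ} (hr : r ∈ Icc 0 m) :
    Real.cos (c₁ * m / 4) ≤ Real.cos (th c₁ m r) := by
  rw [← Real.cos_abs (th c₁ m r)]
  apply Real.cos_le_cos_of_nonneg_of_le_pi (abs_nonneg _) _ (th_abs hc hr)
  linarith [Real.pi_pos]

theorem cos_pos0 {c₁ m : ℝ} (hm : 0 < m) (hc : 0 < c₁) (hcm : c₁ * m < 2 * Real.pi) :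
    0 < Real.cos (c₁ * m / 4) := by
  apply Real.cos_pos_of_mem_Ioo
  have : 0 < c₁ * m := mul_pos hc hm
  constructor <;> linarith [Real.pi_pos]

theorem sin_le {c₁ m : ℝ} (hm : 0 < m) (hc : 0 < c₁) (hcm : c₁ * m < 2 * Real.pi) {r : ℝ}
    (hr : r ∈ Icc 0 m) : |Real.sin (th c₁ m r)| ≤ Real.sin (c₁ * m / 4) := by
  have h1 := th_abs hc hr
  have hcm0 : 0 < c₁ * m := mul_pos hc hm
  rw [abs_le] at h1 ⊢
  constructor
  · rw [← Real.sin_neg]
    apply Real.sin_le_sin_of_le_of_le_pi_div_two _ _ h1.1 <;> linarith [Real.pi_pos, h1.2]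
  · apply Real.sin_le_sin_of_le_of_le_pi_div_two _ _ h1.2 <;> linarith [Real.pi_pos, h1.1]

theorem sin_lt {c₁ m : ℝ} (hm : 0 < m) (hc : 0 < c₁) (hcm : c₁ * m < 2 * Real.pi) :
    Real.sin (c₁ * m / 4) < 1 := by
  have h1 := cos_pos0 hm hc hcm
  have h2 := Real.sin_sq_add_cos_sq (c₁ * m / 4)
  nlinarith [Real.sin_le_one (c₁ * m / 4)]

theorem th_deriv (c₁ m r : ℝ) : HasDerivAt (th c₁ m) (c₁ / 2) r := by
  have h := ((hasDerivAt_id r).sub_const (m / 2)).const_mul (c₁ / 2)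
  rw [mul_one] at h
  exact h

theorem ph_deriv (c₁ m r : ℝ) (h : Real.cos (th c₁ m r) ≠ 0) :
    HasDerivAt (ph c₁ m) (ph' c₁ m r) r := by
  have h1 := ((Real.hasDerivAt_cos (th c₁ m r)).comp r (th_deriv c₁ m r)).inv h
  refine h1.congr_deriv ?_
  unfold ph'
  simp only [Function.comp]
  ring

theorem ft_deriv (c₁ m r : ℝ) (h : Real.cos (th c₁ m r) ≠ 0) :
    HasDerivAt (ft c₁ m) (ft' c₁ m r) r := by
  have h1 := ((Real.hasDerivAt_sin (th c₁ m r)).comp r (th_deriv c₁ m r)).div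
    ((Real.hasDerivAt_cos (th c₁ m r)).comp r (th_deriv c₁ m r)) h
  refine h1.congr_deriv ?_
  unfold ft'
  simp only [Function.comp]
  have h2 := Real.sin_sq_add_cos_sq (th c₁ m r)
  congr 1
  linear_combination (c₁ / 2) * h2

/-- the algebraic condition -/
theorem cond {c₁ s co γ η κ : ℝ} (hc : 0 < c₁) (hco : 0 < co) (hs : s ^ 2 + co ^ 2 = 1)
    (hκ : ∀ α : ℝ, 0 < α → |κ| ≤ c₁ * (α * (γ + η) + α⁻¹ * (γ - η))) :
    4 * (c₁ / 2 * s / co ^ 2) * η - 4 * (c₁ / 2 / co ^ 2) * γ + co⁻¹ * κ ≤ 0 := by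
  have hs1 : s < 1 := by
    have h1 : 0 < co ^ 2 := by positivity
    nlinarith
  have hα : 0 < (1 - s) / co := div_pos (by linarith) hco
  have hinv : ((1 - s) / co)⁻¹ = (1 + s) / co := by
    rw [inv_div, div_eq_div_iff (by linarith) hco.ne']
    nlinarith
  have h1 := hκ _ hα
  rw [hinv] at h1
  have h2 : co⁻¹ * κ ≤ co⁻¹ * (c₁ * ((1 - s) / co * (γ + η) + (1 + s) / co * (γ - η))) :=
    mul_le_mul_of_nonneg_left ((le_abs_self κ).trans h1) (inv_nonneg.2 hco.le)
  have h3 : co⁻¹ * (c₁ * ((1 - s) / co * (γ + η) + (1 + s) / co * (γ - η))) =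
      4 * (c₁ / 2 / co ^ 2) * γ - 4 * (c₁ / 2 * s / co ^ 2) * η := by
    field_simp
    ring
  linarith

end THRM

open THRM in
theorem specTHR (hWDE : SpecWDE) (hRMF : SpecRMF) : SpecTHR := by
  intro m c₁ hm hc hcm
  set C0 : ℝ := Real.cos (c₁ * m / 4) with hC0
  set S0 : ℝ := Real.sin (c₁ * m / 4) with hS0
  have hC0p : 0 < C0 := cos_pos0 hm hc hcm
  have hS0l : S0 < 1 := sin_lt hm hc hcm
  have hdl : 0 < 1 - S0 := by linarith
  refine ⟨2 / C0 / (1 - S0), by positivity, ?_⟩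
  intro T R ρ p e X Y c hF t ht
  have hT0 : (0 : ℝ) ∈ Ico 0 T := ⟨le_refl _, ht.1.trans_lt ht.2⟩
  have hcosp : ∀ r ∈ Icc 0 m, 0 < Real.cos (th c₁ m r) := fun r hr =>
    hC0p.trans_le (cos_ge hc hcm hr)
  have hthc : Continuous (th c₁ m) := by
    unfold th
    fun_prop
  have hφc : ContinuousOn (ph c₁ m) (Icc 0 m) := by
    unfold ph
    exact (Real.continuous_cos.comp hthc).continuousOn.inv₀ fun r hr => (hcosp r hr).ne'
  have hfc : ContinuousOn (ft c₁ m) (Icc 0 m) := by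
    unfold ft
    exact (Real.continuous_sin.comp hthc).continuousOn.div
      (Real.continuous_cos.comp hthc).continuousOn fun r hr => (hcosp r hr).ne'
  have hφ'c : ContinuousOn (ph' c₁ m) (Icc 0 m) := by
    unfold ph'
    exact ((continuous_const.mul (Real.continuous_sin.comp hthc)).continuousOn).div
      ((Real.continuous_cos.comp hthc).pow 2).continuousOn
      fun r hr => (pow_pos (hcosp r hr) 2).ne'
  have hf'c : ContinuousOn (ft' c₁ m) (Icc 0 m) := by
    unfold ft'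
    exact (continuous_const.continuousOn).div
      ((Real.continuous_cos.comp hthc).pow 2).continuousOn
      fun r hr => (pow_pos (hcosp r hr) 2).ne'
  have key := hWDE T m c₁ R ρ p e X Y c hF (ph c₁ m) (ph' c₁ m) (ft c₁ m) (ft' c₁ m)
    (fun r hr => ⟨ph_deriv c₁ m r (hcosp r hr).ne', ft_deriv c₁ m r (hcosp r hr).ne'⟩)
    hφ'c hf'c (fun r hr γ η κ _ hκ =>
      cond hc (hcosp r hr) (Real.sin_sq_add_cos_sq _) hκ) 0 t (le_refl _) ht.1 ht.2
  -- pointwise bounds of the weights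
  have hw : ∀ r ∈ Icc 0 m, (1 - S0 ≤ ph c₁ m r - |ft c₁ m r|) ∧
      ph c₁ m r + |ft c₁ m r| ≤ 2 / C0 := by
    intro r hr
    have h1 := hcosp r hr
    have h2 : C0 ≤ Real.cos (th c₁ m r) := cos_ge hc hcm hr
    have h3 : |Real.sin (th c₁ m r)| ≤ S0 := sin_le hm hc hcm hr
    have h4 : |ft c₁ m r| = |Real.sin (th c₁ m r)| / Real.cos (th c₁ m r) := by
      unfold ft
      rw [abs_div, abs_of_pos h1]
    have h5 : ph c₁ m r = 1 / Real.cos (th c₁ m r) := by
      unfold ph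
      rw [one_div]
    have h6 : Real.cos (th c₁ m r) ≤ 1 := Real.cos_le_one _
    constructor
    · rw [h4, h5, ← sub_div, le_div_iff₀ h1]
      nlinarith
    · rw [h4, h5, ← add_div, div_le_div_iff₀ h1 hC0p]
      nlinarith [abs_nonneg (Real.sin (th c₁ m r)), Real.abs_sin_le_one (th c₁ m r)]
  have hmain : ∀ u ∈ Ico 0 T, (1 - S0) * (∫ a, X u a) ≤
        (∫ a, (ph c₁ m (Rm (ρ u) a) * X u a - ft c₁ m (Rm (ρ u) a) * p u a)) ∧
      (∫ a, (ph c₁ m (Rm (ρ u) a) * X u a - ft c₁ m (Rm (ρ u) a) * p u a)) ≤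
        2 / C0 * ∫ a, X u a := by
    intro u hu
    have hpos := hF.pos u hu
    obtain ⟨hRc, -, hRb⟩ := hRMF (ρ u) m (R u) (hpos.mono fun a ha => ⟨ha.1, ha.2.2.2⟩)
      (hF.mass u hu)
    have hXi := L1.integrable_coeFn (X u)
    have hpi := L1.integrable_coeFn (p u)
    have c1 : Continuous fun a => ph c₁ m (Rm (ρ u) a) := hφc.comp_continuous hRc hRb
    have c2 : Continuous fun a => ft c₁ m (Rm (ρ u) a) := hfc.comp_continuous hRc hRb
    have b1 : ∀ a, |ph c₁ m (Rm (ρ u) a)| ≤ 2 / C0 := by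
      intro a
      have h1 := hw _ (hRb a)
      have h2 : 0 ≤ ph c₁ m (Rm (ρ u) a) := by
        have := abs_nonneg (ft c₁ m (Rm (ρ u) a))
        linarith [h1.1]
      rw [abs_of_nonneg h2]
      linarith [h1.2, abs_nonneg (ft c₁ m (Rm (ρ u) a))]
    have b2 : ∀ a, |ft c₁ m (Rm (ρ u) a)| ≤ 2 / C0 := by
      intro a
      have h1 := hw _ (hRb a)
      linarith [h1.1, h1.2, abs_nonneg (ft c₁ m (Rm (ρ u) a))]
    have i1 : Integrable fun a => ph c₁ m (Rm (ρ u) a) * X u a :=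
      hXi.bdd_mul (c := 2 / C0) c1.aestronglyMeasurable (ae_of_all _ b1)
    have i2 : Integrable fun a => ft c₁ m (Rm (ρ u) a) * p u a :=
      hpi.bdd_mul (c := 2 / C0) c2.aestronglyMeasurable (ae_of_all _ b2)
    have hb := hF.bdX u hu
    constructor
    · rw [← integral_const_mul]
      refine integral_mono_ae (hXi.const_mul _) (i1.sub i2) ?_
      filter_upwards [hb] with a ha
      have h1 := hw _ (hRb a)
      have h2 : 0 ≤ X u a := (abs_nonneg _).trans ha.1
      have h3 : ft c₁ m (Rm (ρ u) a) * p u a ≤ |ft c₁ m (Rm (ρ u) a)| * X u a := by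
        refine (le_abs_self _).trans ?_
        rw [abs_mul]
        exact mul_le_mul_of_nonneg_left ha.1 (abs_nonneg _)
      show (1 - S0) * X u a ≤ ph c₁ m (Rm (ρ u) a) * X u a - ft c₁ m (Rm (ρ u) a) * p u a
      have h4 := mul_le_mul_of_nonneg_right h1.1 h2
      linarith
    · rw [← integral_const_mul]
      refine integral_mono_ae (i1.sub i2) (hXi.const_mul _) ?_
      filter_upwards [hb] with a ha
      have h1 := hw _ (hRb a)
      have h2 : 0 ≤ X u a := (abs_nonneg _).trans ha.1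
      have h3 : -(|ft c₁ m (Rm (ρ u) a)| * X u a) ≤ ft c₁ m (Rm (ρ u) a) * p u a := by
        have h5 : |ft c₁ m (Rm (ρ u) a) * p u a| ≤ |ft c₁ m (Rm (ρ u) a)| * X u a := by
          rw [abs_mul]
          exact mul_le_mul_of_nonneg_left ha.1 (abs_nonneg _)
        exact (abs_le.1 h5).1
      show ph c₁ m (Rm (ρ u) a) * X u a - ft c₁ m (Rm (ρ u) a) * p u a ≤ 2 / C0 * X u a
      have h4 := mul_le_mul_of_nonneg_right h1.2 h2
      linarith
  have h1 := (hmain t ht).1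
  have h2 := (hmain 0 hT0).2
  rw [div_mul_eq_mul_div, le_div_iff₀ hdl]
  linarith

end Pool.Agent.Lib.MP424d38.TH
end
end
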