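import Pool.Agent.Lib.MP_424d38_an.TH.SpecB
import Pool.Agent.Lib.MP_424d38_an.ES.AllES
import Pool.Agent.Lib.MP_424d38_an.TH.REP
import Pool.Agent.Lib.MP_424d38_an.TH.SYM
import Pool.Agent.Lib.MP_424d38_an.TH.SLT
import Pool.Agent.Lib.MP_424d38_an.TH.XLW
import Pool.Agent.Lib.MP_424d38_an.TH.THR
import Pool.Agent.Lib.MP_424d38_an.TH.RMF
import Pool.Agent.Lib.MP_424d38_an.TH.WDE
import Pool.Agent.Lib.MP_424d38_an.TH.FTH

section
/-! # MP_424d38_an, block TH, module ADF (helper67): the transform of `|D|f` -/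
set_option autoImplicit false

open MeasureTheory Filter Topology Set
open scoped ENNReal ContDiff ComplexConjugate FourierTransform

noncomputable section

namespace Pool.Agent.Lib.MP424d38.TH

open Pool.Agent.Lib.MP424d38.TY Pool.Agent.Lib.MP424d38.ES

namespace ADFM

theorem sign_mul (r : ℝ) : Real.sign r * r = |r| := by
  rcases lt_trichotomy r 0 with h | h | h
  · rw [Real.sign_of_neg h, abs_of_neg h]; ring
  · rw [h]; simp
  · rw [Real.sign_of_pos h, abs_of_pos h]; ring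

end ADFM

theorem specADF (hPD2 : SpecPD2) : SpecADF := by
  intro P hP S hS f F₁ F₂ hf
  obtain ⟨-, pd⟩ := hPD2 P hP
  have h0 : P (aD S F₂) = (-Complex.I) • P (S F₂) := by
    unfold aD
    rw [map_smul]
  rw [h0]
  filter_upwards [hS F₂, pd f F₁ F₂ hf, Lp.coeFn_smul (-Complex.I) (P (S F₂))] with x h1 h2 h3
  rw [h3, Pi.smul_apply, smul_eq_mul, h1, h2, ← ADFM.sign_mul]
  push_cast
  have hI : Complex.I * Complex.I = -1 := Complex.I_mul_I
  linear_combination (-(((Real.sign (2 * Real.pi * x.2) : ℝ) : ℂ) * (2 * Real.pi * x.2) * P f x)) * hI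

end Pool.Agent.Lib.MP424d38.TH
end
end

section
/-! # MP_424d38_an, block TH, module SLX (helper67): slice data for `|D|` -/
set_option autoImplicit false

open MeasureTheory Filter Topology Set
open scoped ENNReal ContDiff ComplexConjugate FourierTransform

noncomputable section

namespace Pool.Agent.Lib.MP424d38.TH

open Pool.Agent.Lib.MP424d38.TY Pool.Agent.Lib.MP424d38.ES

theorem specSLX (hADF : SpecADF) (hPSL : SpecPSL) (hPD2 : SpecPD2) (hMX1 : SpecMX1) : SpecSLX := by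
  intro P hP S hS f F₁ F₂ hf N hN
  obtain ⟨sl, -, -⟩ := hPSL P hP
  obtain ⟨-, pd⟩ := hPD2 P hP
  obtain ⟨-, -, nrm, -⟩ := hMX1
  have a1 : ∀ᵐ a : ℝ, ∀ᵐ b : ℝ, N (a, b) = ((‖f (a, b)‖ ^ 2 : ℝ) : ℂ) * f (a, b) :=
    Measure.ae_ae_of_ae_prod hN
  have a2 : ∀ᵐ a : ℝ, ∀ᵐ b : ℝ, P (aD S F₂) (a, b)
      = ((|2 * Real.pi * b| : ℝ) : ℂ) * P f (a, b) :=
    Measure.ae_ae_of_ae_prod (hADF P hP S hS f F₁ F₂ hf)
  have a3 : ∀ᵐ a : ℝ, ∀ᵐ b : ℝ, P F₂ (a, b) = 2 * Real.pi * Complex.I * (b : ℂ) * P f (a, b) :=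
    Measure.ae_ae_of_ae_prod (pd f F₁ F₂ hf)
  filter_upwards [a1, a2, a3, sl f, sl (aD S F₂), sl F₂] with a h1 h2 h3 h4 h5 h6
  obtain ⟨h, hb, hh⟩ := h4
  obtain ⟨g, gb, gh⟩ := h5
  obtain ⟨k, -, kh⟩ := h6
  refine ⟨h, g, hb, gb, hh, ?_, ?_, ?_⟩
  · filter_upwards [hh, gh, h2] with ξ e1 e2 e3
    rw [e2, e3, e1]
  · have i1 := (nrm k).2.2
    refine i1.congr ?_
    filter_upwards [hh, kh, h3] with ξ e1 e2 e3
    rw [e2, e3, e1, norm_mul, mul_pow]
    congr 1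
    rw [show (2 * Real.pi * Complex.I * (ξ : ℂ) : ℂ) = ((2 * Real.pi * ξ : ℝ) : ℂ) * Complex.I by
      push_cast; ring, norm_mul, Complex.norm_I, mul_one, Complex.norm_real, Real.norm_eq_abs, sq_abs]
  · filter_upwards [hb, h1] with b e1 e2
    rw [e2, e1]

end Pool.Agent.Lib.MP424d38.TH
end
end

section
/-!
# MP_424d38_an, block TH: all modules together
-/
set_option autoImplicit false

namespace Pool.Agent.Lib.MP424d38.TH

theorem dREP : SpecREP := specREP ES.bMX1 ES.bCJ1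
theorem dSYM : SpecSYM := specSYM 
theorem dFOL : SpecFOL := specFOL 
theorem dFIX : SpecFIX := specFIX 
theorem dRHS : SpecRHS := specRHS 
theorem dSLT : SpecSLT := specSLT dREP dSYM dFOL dFIX dRHS ES.bMX1
theorem dADF : SpecADF := specADF ES.bPD2
theorem dXLW : SpecXLW := specXLW dADF ES.bMLW ES.bMTX ES.bMDE ES.bPSL ES.bPD2 TY.aDNS
theorem dSLX : SpecSLX := specSLX dADF ES.bPSL ES.bPD2 ES.bMX1
theorem dCBD : SpecCBD := specCBD dSLX dSLT ES.bMDE ES.bSB1
theorem dTDT : SpecTDT := specTDT 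
theorem dRNF : SpecRNF := specRNF TY.aKPF
theorem dRMF : SpecRMF := specRMF 
theorem dNID : SpecNID := specNID dTDT dRNF
theorem dLMT : SpecLMT := specLMT dRNF dRMF TY.aKPF
theorem dLID : SpecLID := specLID dNID dLMT dRNF
theorem dWDE : SpecWDE := specWDE dLID dRMF
theorem dTHR : SpecTHR := specTHR dWDE dRMF
theorem dXBD : SpecXBD := specXBD dTHR dXLW dCBD ES.bMTX ES.bMDE TY.aFLO TY.aDNS
theorem dTHN : SpecTHN := specTHN dXBD ES.bPFX ES.bBDD ES.bCHN ES.bEMB ES.bMDE TY.aSWP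
theorem dFTH : SpecFTH := specFTH dTHN TY.aTRF TY.aCHV

end Pool.Agent.Lib.MP424d38.TH
end
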